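import Mathlib

/-!
# Five-cycles in subcubic graphs: local counts
-/

namespace Pool.Agent.OddFlow

open Finset
open scoped Classical

set_option linter.unusedSectionVars false

variable {V : Type} [Fintype V] [DecidableEq V] {G : SimpleGraph V}

/-- The edge `e` lies on a cycle of length `5`. -/
def OnFive (G : SimpleGraph V) (e : Sym2 V) : Prop :=
  ∃ (v : V) (c : G.Walk v v), c.IsCycle ∧ c.length = 5 ∧ e ∈ c.edges

/-- A parametrised 5-cycle. -/
def IsPent (G : SimpleGraph V) (x : Fin 5 → V) : Prop :=
  Function.Injective x ∧ ∀ i, G.Adj (x i) (x (i + 1))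

/-- The edges of a parametrised 5-cycle. -/
def pedge (x : Fin 5 → V) (i : Fin 5) : Sym2 V := s(x i, x (i + 1))

theorem exists_cons {u w : V} (c : G.Walk u w) {n : ℕ} (h : c.length = n + 1) :
    ∃ (a : V) (h' : G.Adj u a) (c' : G.Walk a w), c = .cons h' c' ∧ c'.length = n := by
  cases c with
  | nil => simp at h
  | cons h' c' => exact ⟨_, h', c', rfl, by simpa using h⟩

theorem ex5 {p : Fin 5 → Prop} : (∃ i, p i) ↔ p 0 ∨ p 1 ∨ p 2 ∨ p 3 ∨ p 4 := by
  constructor
  · rintro ⟨i, h⟩
    fin_cases i
    · exact Or.inl h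
    · exact Or.inr (Or.inl h)
    · exact Or.inr (Or.inr (Or.inl h))
    · exact Or.inr (Or.inr (Or.inr (Or.inl h)))
    · exact Or.inr (Or.inr (Or.inr (Or.inr h)))
  · rintro (h | h | h | h | h) <;> exact ⟨_, h⟩

theorem exists_pent {v : V} (c : G.Walk v v) (hc : c.IsCycle) (h5 : c.length = 5) :
    ∃ x : Fin 5 → V, IsPent G x ∧ (∀ e, e ∈ c.edges ↔ ∃ i, e = pedge x i) ∧
      ∀ y, y ∈ c.support ↔ ∃ i, y = x i := by
  obtain ⟨a1, h1, c1, rfl, l1⟩ := exists_cons c h5
  obtain ⟨a2, h2, c2, rfl, l2⟩ := exists_cons c1 l1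
  obtain ⟨a3, h3, c3, rfl, l3⟩ := exists_cons c2 l2
  obtain ⟨a4, h4, c4, rfl, l4⟩ := exists_cons c3 l3
  obtain ⟨a5, h5', c5, rfl, l5⟩ := exists_cons c4 l4
  have e5 := SimpleGraph.Walk.eq_of_length_eq_zero l5
  subst e5
  have e6 : c5 = .nil := SimpleGraph.Walk.length_eq_zero_iff.1 l5 |> fun h => by simpa using h
  subst e6
  have hnd := hc.support_nodup
  simp only [SimpleGraph.Walk.support_cons, SimpleGraph.Walk.support_nil, List.tail_cons,
    List.nodup_cons, List.mem_cons, List.not_mem_nil, or_false, not_or, not_false_eq_true,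
    List.nodup_nil, and_true] at hnd
  obtain ⟨⟨n1, n2, n3, n4⟩, ⟨n5, n6, n7⟩, ⟨n8, n9⟩, n10⟩ := hnd
  refine ⟨![a5, a1, a2, a3, a4], ⟨?_, ?_⟩, ?_, ?_⟩
  · intro i j hij
    fin_cases i <;> fin_cases j <;> simp at hij ⊢ <;> simp_all
  · intro i
    fin_cases i
    · exact h1
    · exact h2
    · exact h3
    · exact h4
    · exact h5'
  · intro e
    simp only [SimpleGraph.Walk.edges_cons, SimpleGraph.Walk.edges_nil, List.mem_cons,
      List.not_mem_nil, or_false, ex5]
    rfl
  · intro y
    simp only [SimpleGraph.Walk.support_cons, SimpleGraph.Walk.support_nil, List.mem_cons,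
      List.not_mem_nil, or_false, ex5]
    show (y = a5 ∨ y = a1 ∨ y = a2 ∨ y = a3 ∨ y = a4 ∨ y = a5) ↔
      (y = a5 ∨ y = a1 ∨ y = a2 ∨ y = a3 ∨ y = a4)
    tauto

theorem pedge_injective {x : Fin 5 → V} (hx : Function.Injective x) :
    Function.Injective (pedge x) := by
  intro i j h
  unfold pedge at h
  rw [Sym2.eq_iff] at h
  rcases h with ⟨h1, _⟩ | ⟨h1, h2⟩
  · exact hx h1
  · exfalso
    have key : ∀ i j : Fin 5, i = j + 1 → i + 1 = j → False := by decide
    exact key i j (hx h1) (hx h2)

theorem mem_pedge {x : Fin 5 → V} (hx : Function.Injective x) {i j : Fin 5} :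
    x i ∈ pedge x j ↔ j = i ∨ j = i - 1 := by
  unfold pedge
  rw [Sym2.mem_iff]
  constructor
  · rintro (h | h)
    · exact Or.inl (hx h).symm
    · right
      rw [hx h]
      exact (add_sub_cancel_right j 1).symm
  · rintro (rfl | rfl)
    · exact Or.inl rfl
    · right
      rw [sub_add_cancel]

/-- The edge sets of the 5-cycles. -/
noncomputable def pent (G : SimpleGraph V) : Finset (Finset (Sym2 V)) :=
  univ.filter fun P => ∃ (v : V) (c : G.Walk v v), c.IsCycle ∧ c.length = 5 ∧ P = c.edges.toFinset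

/-- The vertices of a set of edges. -/
def verts (P : Finset (Sym2 V)) : Finset V := univ.filter fun x => ∃ e ∈ P, x ∈ e

/-- Distinct 5-cycles have no common vertex. -/
def DisjFive (G : SimpleGraph V) : Prop :=
  ∀ (u v : V) (c : G.Walk u u) (c' : G.Walk v v), c.IsCycle → c'.IsCycle → c.length = 5 →
    c'.length = 5 → (∃ x, x ∈ c.support ∧ x ∈ c'.support) → ∀ e, e ∈ c.edges ↔ e ∈ c'.edges

theorem onFive_iff {e : Sym2 V} : OnFive G e ↔ ∃ P ∈ pent G, e ∈ P := by
  constructor
  · rintro ⟨v, c, h1, h2, h3⟩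
    refine ⟨c.edges.toFinset, ?_, List.mem_toFinset.2 h3⟩
    rw [pent, mem_filter]
    exact ⟨mem_univ _, v, c, h1, h2, rfl⟩
  · rintro ⟨P, hP, he⟩
    rw [pent, mem_filter] at hP
    obtain ⟨_, v, c, h1, h2, rfl⟩ := hP
    exact ⟨v, c, h1, h2, List.mem_toFinset.1 he⟩

theorem pent_param {P : Finset (Sym2 V)} (hP : P ∈ pent G) :
    ∃ x : Fin 5 → V, IsPent G x ∧ P = univ.image (pedge x) := by
  rw [pent, mem_filter] at hP
  obtain ⟨_, v, c, h1, h2, rfl⟩ := hP
  obtain ⟨x, hx, he, _⟩ := exists_pent c h1 h2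
  refine ⟨x, hx, ?_⟩
  ext e
  rw [List.mem_toFinset, he, mem_image]
  simp only [mem_univ, true_and, eq_comm]

theorem pent_disj (hd : DisjFive G) {P Q : Finset (Sym2 V)} (hP : P ∈ pent G) (hQ : Q ∈ pent G)
    {y : V} (h1 : y ∈ verts P) (h2 : y ∈ verts Q) : P = Q := by
  rw [pent, mem_filter] at hP hQ
  obtain ⟨_, u, c, hc, hl, rfl⟩ := hP
  obtain ⟨_, v, c', hc', hl', rfl⟩ := hQ
  rw [verts, mem_filter] at h1 h2
  obtain ⟨_, e, he, hye⟩ := h1
  obtain ⟨_, f, hf, hyf⟩ := h2
  rw [List.mem_toFinset] at he hf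
  ext g
  rw [List.mem_toFinset, List.mem_toFinset]
  refine hd u v c c' hc hc' hl hl' ⟨y, ?_, ?_⟩ g
  · exact SimpleGraph.Walk.mem_support_of_mem_edges he hye
  · exact SimpleGraph.Walk.mem_support_of_mem_edges hf hyf

theorem verts_param {x : Fin 5 → V} (hx : Function.Injective x) :
    verts (univ.image (pedge x)) = univ.image x := by
  ext y
  rw [verts, mem_filter, mem_image]
  constructor
  · rintro ⟨_, e, he, hy⟩
    rw [mem_image] at he
    obtain ⟨i, _, rfl⟩ := he
    unfold pedge at hy
    rw [Sym2.mem_iff] at hy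
    rcases hy with rfl | rfl
    · exact ⟨i, mem_univ _, rfl⟩
    · exact ⟨i + 1, mem_univ _, rfl⟩
  · rintro ⟨i, _, rfl⟩
    exact ⟨mem_univ _, pedge x i, mem_image_of_mem _ (mem_univ _), (mem_pedge hx).2 (Or.inl rfl)⟩

/-- The number of edges of `D` at `x` which lie on a 5-cycle. -/
noncomputable def mu (G : SimpleGraph V) (D : Finset (Sym2 V)) (x : V) : ℕ :=
  (D.filter fun e => x ∈ e ∧ OnFive G e).card

/-- The number of vertices at which exactly `i` edges of `D` lie on a 5-cycle. -/
noncomputable def cnt (G : SimpleGraph V) (D : Finset (Sym2 V)) (i : ℕ) : ℕ :=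
  (univ.filter fun x => mu G D x = i).card

/-- The 5-cycles with exactly four edges in `D`. -/
noncomputable def heavy (G : SimpleGraph V) (D : Finset (Sym2 V)) :
    Finset (Finset (Sym2 V)) :=
  (pent G).filter fun P => (P ∩ D).card = 4

theorem mu_param (hd : DisjFive G) (D : Finset (Sym2 V)) {x : Fin 5 → V} (hx : IsPent G x)
    (hP : univ.image (pedge x) ∈ pent G) (i : Fin 5) :
    mu G D (x i) = (if pedge x (i - 1) ∈ D then 1 else 0) + (if pedge x i ∈ D then 1 else 0) := by
  have h1 : (D.filter fun e => x i ∈ e ∧ OnFive G e) =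
      ({pedge x (i - 1), pedge x i} : Finset (Sym2 V)).filter fun e => e ∈ D := by
    ext e
    rw [mem_filter, mem_filter, mem_insert, mem_singleton]
    constructor
    · rintro ⟨h1, h2, h3⟩
      refine ⟨?_, h1⟩
      obtain ⟨Q, hQ, heQ⟩ := onFive_iff.1 h3
      have h4 : univ.image (pedge x) = Q := by
        refine pent_disj hd hP hQ (y := x i) ?_ ?_
        · rw [verts_param hx.1]
          exact mem_image_of_mem _ (mem_univ _)
        · rw [verts, mem_filter]
          exact ⟨mem_univ _, e, heQ, h2⟩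
      rw [← h4, mem_image] at heQ
      obtain ⟨j, _, rfl⟩ := heQ
      rcases (mem_pedge hx.1).1 h2 with rfl | rfl
      · exact Or.inr rfl
      · exact Or.inl rfl
    · rintro ⟨h1, h2⟩
      rcases h1 with rfl | rfl
      · exact ⟨h2, (mem_pedge hx.1).2 (Or.inr rfl), onFive_iff.2 ⟨_, hP,
          mem_image_of_mem _ (mem_univ _)⟩⟩
      · exact ⟨h2, (mem_pedge hx.1).2 (Or.inl rfl), onFive_iff.2 ⟨_, hP,
          mem_image_of_mem _ (mem_univ _)⟩⟩
  rw [mu, h1, card_filter, sum_insert, sum_singleton]
  rw [mem_singleton]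
  intro h
  have key : ∀ i : Fin 5, i - 1 = i → False := by decide
  exact key i (pedge_injective hx.1 h)

theorem five_decide : ∀ d : Fin 5 → Bool, (∃ i, d i = false) →
    (univ.filter fun i => d (i - 1) = true ∧ d i = true).card ≤
      (univ.filter fun i => ¬ (d (i - 1) = d i)).card +
        (if (univ.filter fun i => d i = true).card = 4 then 1 else 0) := by
  decide

theorem card_verts_filter {x : Fin 5 → V} (hx : Function.Injective x) (p : V → Prop)
    [DecidablePred p] :
    ((verts (univ.image (pedge x))).filter p).card = (univ.filter fun i => p (x i)).card := by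
  rw [verts_param hx, filter_image, card_image_of_injective _ hx]

theorem local_le (hd : DisjFive G) (D P : Finset (Sym2 V)) (hP : P ∈ pent G) (hPD : ¬ P ⊆ D) :
    ((verts P).filter fun y => mu G D y = 2).card ≤
      ((verts P).filter fun y => mu G D y = 1).card + (if (P ∩ D).card = 4 then 1 else 0) := by
  obtain ⟨x, hx, rfl⟩ := pent_param hP
  rw [card_verts_filter hx.1, card_verts_filter hx.1]
  have h1 := five_decide (fun i => decide (pedge x i ∈ D)) (by
    by_contra hcon
    push Not at hcon
    apply hPD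
    intro e he
    rw [mem_image] at he
    obtain ⟨i, _, rfl⟩ := he
    have := hcon i
    simpa using this)
  have e1 : (univ.filter fun i => mu G D (x i) = 2) =
      univ.filter fun i => decide (pedge x (i - 1) ∈ D) = true ∧ decide (pedge x i ∈ D) = true := by
    refine filter_congr fun i _ => ?_
    rw [mu_param hd D hx hP]
    by_cases h2 : pedge x (i - 1) ∈ D <;> by_cases h3 : pedge x i ∈ D <;> simp [h2, h3]
  have e2 : (univ.filter fun i => mu G D (x i) = 1) =
      univ.filter fun i => ¬ (decide (pedge x (i - 1) ∈ D) = decide (pedge x i ∈ D)) := by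
    refine filter_congr fun i _ => ?_
    rw [mu_param hd D hx hP]
    by_cases h2 : pedge x (i - 1) ∈ D <;> by_cases h3 : pedge x i ∈ D <;> simp [h2, h3]
  have e3 : (univ.image (pedge x) ∩ D).card =
      (univ.filter fun i => decide (pedge x i ∈ D) = true).card := by
    have : univ.image (pedge x) ∩ D = (univ.filter fun i => decide (pedge x i ∈ D) = true).image
        (pedge x) := by
      ext e
      rw [mem_inter, mem_image, mem_image]
      constructor
      · rintro ⟨⟨i, _, rfl⟩, h⟩
        exact ⟨i, mem_filter.2 ⟨mem_univ _, by simpa using h⟩, rfl⟩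
      · rintro ⟨i, h, rfl⟩
        exact ⟨⟨i, mem_univ _, rfl⟩, by simpa using (mem_filter.1 h).2⟩
    rw [this, card_image_of_injective _ (pedge_injective hx.1)]
  rw [e1, e2, e3]
  exact h1

theorem cnt_eq_sum (hd : DisjFive G) (D : Finset (Sym2 V)) {i : ℕ} (hi : 0 < i) :
    cnt G D i = ∑ P ∈ pent G, ((verts P).filter fun y => mu G D y = i).card := by
  rw [← card_biUnion]
  · rw [cnt]
    congr 1
    ext y
    rw [mem_filter, mem_biUnion]
    constructor
    · rintro ⟨_, h⟩
      have h1 : (D.filter fun e => y ∈ e ∧ OnFive G e).Nonempty := by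
        rw [← card_pos]
        unfold mu at h
        omega
      obtain ⟨e, he⟩ := h1
      rw [mem_filter] at he
      obtain ⟨P, hP, heP⟩ := onFive_iff.1 he.2.2
      refine ⟨P, hP, mem_filter.2 ⟨?_, h⟩⟩
      rw [verts, mem_filter]
      exact ⟨mem_univ _, e, heP, he.2.1⟩
    · rintro ⟨P, _, h⟩
      exact ⟨mem_univ _, (mem_filter.1 h).2⟩
  · intro P hP Q hQ hPQ
    rw [Function.onFun, Finset.disjoint_left]
    intro y h1 h2
    exact hPQ (pent_disj hd hP hQ (mem_filter.1 h1).1 (mem_filter.1 h2).1)

/-- `x` lies on a 5-cycle. -/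
def OnV (G : SimpleGraph V) (x : V) : Prop := ∃ e, x ∈ e ∧ OnFive G e

/-- The weights. -/
noncomputable def wt (G : SimpleGraph V) (β : ℝ) (e : Sym2 V) : ℝ :=
  if OnFive G e then 2 / 5
  else β - (3 / 5 - 3 / 2 * β) * ((univ.filter fun x => x ∈ e ∧ OnV G x).card : ℕ)

/-- The part of the weight at an end. -/
noncomputable def wv (G : SimpleGraph V) (β : ℝ) (e : Sym2 V) (x : V) : ℝ :=
  if OnFive G e then 1 / 5
  else β / 2 - (3 / 5 - 3 / 2 * β) * (if OnV G x then 1 else 0)

theorem card_ends {e : Sym2 V} (he : e ∈ G.edgeSet) : (univ.filter fun x => x ∈ e).card = 2 := by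
  induction e using Sym2.ind with
  | _ a b =>
    rw [SimpleGraph.mem_edgeSet] at he
    have : (univ.filter fun x => x ∈ s(a, b)) = {a, b} := by
      ext x
      simp
    rw [this, card_pair he.ne]

theorem wt_eq (β : ℝ) {e : Sym2 V} (he : e ∈ G.edgeSet) :
    wt G β e = ∑ x with x ∈ e, wv G β e x := by
  have h2 := card_ends he
  unfold wt wv
  by_cases h : OnFive G e
  · simp only [if_pos h, sum_const, h2, nsmul_eq_mul]
    norm_num
  · simp only [if_neg h]
    rw [sum_sub_distrib, ← mul_sum, sum_const, h2, sum_boole, filter_filter, nsmul_eq_mul]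
    push_cast
    ring

/-- **The weight of a set of edges.** -/
theorem sum_wt (hd : DisjFive G) (β : ℝ) (D : Finset (Sym2 V)) (hDG : ∀ e ∈ D, e ∈ G.edgeSet)
    (hdeg : ∀ (x : V) (A : Finset (Sym2 V)), (∀ e ∈ A, e ∈ G.edgeSet ∧ x ∈ e) → A.card ≤ 3)
    (hD : ∀ x, (D.filter fun e => x ∈ e).card = 0 ∨ (D.filter fun e => x ∈ e).card = 2) :
    ∑ e ∈ D, wt G β e = β * D.card + (2 / 5 - β) * ((cnt G D 2 : ℝ) - cnt G D 1) := by
  -- exchange the sums
  have e1 : ∑ e ∈ D, wt G β e = ∑ x, ∑ e ∈ D with x ∈ e, wv G β e x := by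
    rw [sum_congr rfl fun e he => wt_eq β (hDG e he)]
    simp only [sum_filter]
    rw [sum_comm]
  have e2 : ∑ x, ((D.filter fun e => x ∈ e).card : ℝ) = 2 * D.card := by
    have h1 : ∑ x, (D.filter fun e => x ∈ e).card = ∑ e ∈ D, (univ.filter fun x => x ∈ e).card := by
      simp only [card_filter]
      rw [sum_comm]
    rw [sum_congr rfl fun e he => card_ends (hDG e he), sum_const, smul_eq_mul] at h1
    rw [← Nat.cast_sum, h1]
    push_cast
    ring
  have e3 : ∀ x, ∑ e ∈ D with x ∈ e, wv G β e x =
      β / 2 * ((D.filter fun e => x ∈ e).card : ℝ) +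
        (2 / 5 - β) * ((if mu G D x = 2 then 1 else 0) - (if mu G D x = 1 then 1 else 0)) := by
    intro x
    have h1 : ∑ e ∈ D with x ∈ e, wv G β e x = 1 / 5 * (mu G D x : ℝ) +
        (((D.filter fun e => x ∈ e).card : ℝ) - mu G D x) *
          (β / 2 - (3 / 5 - 3 / 2 * β) * (if OnV G x then 1 else 0)) := by
      have h2 : ∀ e, wv G β e x = (if OnFive G e then 1 / 5 else 0) +
          (if ¬ OnFive G e then (β / 2 - (3 / 5 - 3 / 2 * β) * (if OnV G x then 1 else 0)) else 0) := by
        intro e
        unfold wv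
        by_cases h : OnFive G e <;> simp [h]
      rw [sum_congr rfl fun e _ => h2 e, sum_add_distrib, ← sum_filter, ← sum_filter, sum_const,
        sum_const, filter_filter, filter_filter, nsmul_eq_mul, nsmul_eq_mul]
      have h3 : ((D.filter fun e => x ∈ e ∧ ¬ OnFive G e).card : ℝ) =
          ((D.filter fun e => x ∈ e).card : ℝ) - mu G D x := by
        have h4 := card_filter_add_card_filter_not (s := D.filter fun e => x ∈ e) (OnFive G)
        rw [filter_filter, filter_filter] at h4
        rw [mu, ← h4]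
        push_cast
        ring
      rw [h3]
      unfold mu
      ring
    rw [h1]
    have hle : mu G D x ≤ (D.filter fun e => x ∈ e).card := by
      rw [mu, ← filter_filter]
      exact card_filter_le _ _
    rcases hD x with h0 | h0
    · have h2 : mu G D x = 0 := by omega
      rw [h0, h2]
      simp
    · rw [h0]
      by_cases hv : OnV G x
      · -- at least one edge of `D` at `x` lies on the 5-cycle
        have h3 : 1 ≤ mu G D x := by
          by_contra hcon
          have hcon' : mu G D x = 0 := by omega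
          obtain ⟨e, hxe, he⟩ := hv
          obtain ⟨P, hP, heP⟩ := onFive_iff.1 he
          obtain ⟨y, hy, rfl⟩ := pent_param hP
          obtain ⟨j, _, rfl⟩ := mem_image.1 heP
          obtain ⟨i, rfl⟩ : ∃ i, x = y i := by
            unfold pedge at hxe
            rw [Sym2.mem_iff] at hxe
            rcases hxe with h | h
            · exact ⟨_, h⟩
            · exact ⟨_, h⟩
          rw [mu_param hd D hy hP] at hcon'
          have h4 : pedge y (i - 1) ∉ D := by
            intro h
            rw [if_pos h] at hcon'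
            omega
          have h5 : pedge y i ∉ D := by
            intro h
            rw [if_pos h] at hcon'
            omega
          have h6 := hdeg (y i) (insert (pedge y (i - 1)) (insert (pedge y i)
            (D.filter fun e => y i ∈ e))) (by
              intro f hf
              rw [mem_insert, mem_insert, mem_filter] at hf
              rcases hf with rfl | rfl | ⟨h7, h8⟩
              · refine ⟨?_, (mem_pedge hy.1).2 (Or.inr rfl)⟩
                exact hy.2 (i - 1)
              · refine ⟨?_, (mem_pedge hy.1).2 (Or.inl rfl)⟩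
                exact hy.2 i
              · exact ⟨hDG f h7, h8⟩)
          rw [card_insert_of_notMem, card_insert_of_notMem, h0] at h6
          · omega
          · rw [mem_filter]
            exact fun h => h5 h.1
          · rw [mem_insert, mem_filter, not_or]
            refine ⟨fun h => ?_, fun h => h4 h.1⟩
            have key : ∀ i : Fin 5, i - 1 = i → False := by decide
            exact key i (pedge_injective hy.1 h)
        have h4 : mu G D x = 1 ∨ mu G D x = 2 := by omega
        rcases h4 with h4 | h4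
        · rw [h4]
          simp only [hv, if_true]
          norm_num
          ring
        · rw [h4]
          norm_num
      · have h3 : mu G D x = 0 := by
          rw [mu, card_eq_zero, filter_eq_empty_iff]
          intro e _ h
          exact hv ⟨e, h⟩
        rw [h3]
        simp [hv]
        ring
  rw [e1, sum_congr rfl fun x _ => e3 x, sum_add_distrib, ← mul_sum, ← mul_sum, e2,
    sum_sub_distrib, sum_boole, sum_boole]
  unfold cnt
  ring

/-- **The count.** -/
theorem cnt_le (hd : DisjFive G) (D : Finset (Sym2 V)) (hD : ∀ P ∈ pent G, ¬ P ⊆ D) :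
    cnt G D 2 ≤ cnt G D 1 + (heavy G D).card := by
  rw [cnt_eq_sum hd D (by norm_num), cnt_eq_sum hd D (by norm_num), heavy, card_filter,
    ← sum_add_distrib]
  exact sum_le_sum fun P hP => local_le hd D P hP (hD P hP)

/-- The weights are not negative. -/
theorem wt_nonneg {β : ℝ} (hβ : 3 / 10 ≤ β) {e : Sym2 V} (he : e ∈ G.edgeSet) :
    0 ≤ wt G β e := by
  unfold wt
  split_ifs with h
  · norm_num
  · have h1 : (univ.filter fun x => x ∈ e ∧ OnV G x).card ≤ 2 := by
      rw [← card_ends he, ← filter_filter]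
      exact card_filter_le _ _
    have h2 : ((univ.filter fun x => x ∈ e ∧ OnV G x).card : ℝ) ≤ 2 := by exact_mod_cast h1
    have h3 : (0 : ℝ) ≤ ((univ.filter fun x => x ∈ e ∧ OnV G x).card : ℝ) := Nat.cast_nonneg _
    nlinarith

/-- The number of counted vertices is at most the number of edges. -/
theorem cnt_add_le (D : Finset (Sym2 V)) (hDG : ∀ e ∈ D, e ∈ G.edgeSet)
    (hD : ∀ x, (D.filter fun e => x ∈ e).card = 0 ∨ (D.filter fun e => x ∈ e).card = 2) :
    cnt G D 1 + cnt G D 2 ≤ D.card := by
  have h1 : ∑ x, (D.filter fun e => x ∈ e).card = D.card * 2 := by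
    have h1 : ∑ x, (D.filter fun e => x ∈ e).card = ∑ e ∈ D, (univ.filter fun x => x ∈ e).card := by
      simp only [card_filter]
      rw [sum_comm]
    rw [h1, sum_congr rfl fun e he => card_ends (hDG e he), sum_const, smul_eq_mul]
  have h2 : cnt G D 1 * 2 + cnt G D 2 * 2 ≤ ∑ x, (D.filter fun e => x ∈ e).card := by
    rw [cnt, cnt, card_filter, card_filter, sum_mul, sum_mul, ← sum_add_distrib]
    refine sum_le_sum fun x _ => ?_
    have hle : mu G D x ≤ (D.filter fun e => x ∈ e).card := by
      rw [mu, ← filter_filter]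
      exact card_filter_le _ _
    have := hD x
    split_ifs <;> omega
  omega

/-- The weight of a 5-cycle. -/
theorem sum_wt_five (β : ℝ) {v : V} (c : G.Walk v v) (hc : c.IsCycle) (h5 : c.length = 5) :
    (c.edges.map (wt G β)).sum = 2 := by
  have h1 : c.edges.map (wt G β) = c.edges.map fun _ => (2 / 5 : ℝ) :=
    List.map_congr_left fun e he => if_pos ⟨v, c, hc, h5, he⟩
  rw [h1, List.map_const', List.sum_replicate, SimpleGraph.Walk.length_edges, h5]
  norm_num

end Pool.Agent.OddFlow
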