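import Mathlib
import Pool.Agent.Work.MP_392c8e_co_odd.Local

/-!
# Weights given by local patterns at the 5-cycles
-/

namespace Pool.Agent.OddFlow

open Finset
open scoped Classical

set_option linter.unusedSectionVars false

variable {V : Type} [Fintype V] [DecidableEq V] {G : SimpleGraph V}

/-- A parametrised 5-cycle can be started at any vertex. -/
theorem pent_param_at {P : Finset (Sym2 V)} (hP : P ∈ pent G) {y : V} (hy : y ∈ verts P) :
    ∃ x : Fin 5 → V, IsPent G x ∧ P = univ.image (pedge x) ∧ x 0 = y := by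
  obtain ⟨x, hx, rfl⟩ := pent_param hP
  rw [verts_param hx.1, mem_image] at hy
  obtain ⟨j, _, rfl⟩ := hy
  refine ⟨fun i => x (i + j), ⟨?_, ?_⟩, ?_, ?_⟩
  · intro a b h
    exact add_right_cancel (hx.1 h)
  · intro i
    have := hx.2 (i + j)
    show G.Adj (x (i + j)) (x (i + 1 + j))
    rwa [add_right_comm i 1 j]
  · ext e
    rw [mem_image, mem_image]
    constructor
    · rintro ⟨i, _, rfl⟩
      refine ⟨i - j, mem_univ _, ?_⟩
      show s(x (i - j + j), x (i - j + 1 + j)) = s(x i, x (i + 1))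
      rw [add_right_comm (i - j) 1 j, sub_add_cancel]
    · rintro ⟨i, _, rfl⟩
      refine ⟨i + j, mem_univ _, ?_⟩
      show s(x (i + j), x (i + j + 1)) = s(x (i + j), x (i + 1 + j))
      rw [add_right_comm i 1 j]
  · show x (0 + j) = x j
    rw [zero_add]

/-- The excess of a pattern. -/
def exc (a b : Fin 5 → ℤ) (d : Fin 5 → Bool) : ℤ :=
  ∑ i, (if d i = true then a i else 0) - ∑ i, (if d (i - 1) = d i then 0 else b i)

/-- The contribution of a 5-cycle to the weight of an edge. -/
noncomputable def ctr (a b : Fin 5 → ℤ) (x : Fin 5 → V) (e : Sym2 V) : ℤ :=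
  ∑ i, (if e = pedge x i then a i else 0) -
    ∑ i, (if x i ∈ e ∧ e ∉ univ.image (pedge x) then b i else 0)

/-- The pattern of a set of edges. -/
noncomputable def pat (x : Fin 5 → V) (D : Finset (Sym2 V)) (i : Fin 5) : Bool :=
  decide (pedge x i ∈ D)

theorem card_stub {x : Fin 5 → V} (hx : IsPent G x) (D : Finset (Sym2 V))
    (hDG : ∀ e ∈ D, e ∈ G.edgeSet)
    (hdeg : ∀ (x : V) (A : Finset (Sym2 V)), (∀ e ∈ A, e ∈ G.edgeSet ∧ x ∈ e) → A.card ≤ 3)
    (hD : ∀ x, (D.filter fun e => x ∈ e).card = 0 ∨ (D.filter fun e => x ∈ e).card = 2)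
    (i : Fin 5) :
    (D.filter fun e => x i ∈ e ∧ e ∉ univ.image (pedge x)).card =
      if pat x D (i - 1) = pat x D i then 0 else 1 := by
  have hne : pedge x (i - 1) ≠ pedge x i := by
    intro h
    have key : ∀ i : Fin 5, i - 1 = i → False := by decide
    exact key i (pedge_injective hx.1 h)
  -- the edges of the 5-cycle at the vertex
  have h1 : (D.filter fun e => x i ∈ e ∧ e ∈ univ.image (pedge x)) =
      ({pedge x (i - 1), pedge x i} : Finset (Sym2 V)).filter fun e => e ∈ D := by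
    ext e
    rw [mem_filter, mem_filter, mem_insert, mem_singleton]
    constructor
    · rintro ⟨h1, h2, h3⟩
      obtain ⟨j, _, rfl⟩ := mem_image.1 h3
      refine ⟨?_, h1⟩
      rcases (mem_pedge hx.1).1 h2 with rfl | rfl
      · exact Or.inr rfl
      · exact Or.inl rfl
    · rintro ⟨h1, h2⟩
      rcases h1 with rfl | rfl
      · exact ⟨h2, (mem_pedge hx.1).2 (Or.inr rfl), mem_image_of_mem _ (mem_univ _)⟩
      · exact ⟨h2, (mem_pedge hx.1).2 (Or.inl rfl), mem_image_of_mem _ (mem_univ _)⟩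
  have h2 : (D.filter fun e => x i ∈ e ∧ e ∈ univ.image (pedge x)).card =
      (if pat x D (i - 1) = true then 1 else 0) + (if pat x D i = true then 1 else 0) := by
    rw [h1, card_filter, sum_insert (by rw [mem_singleton]; exact hne), sum_singleton]
    simp [pat]
  have h3 : (D.filter fun e => x i ∈ e).card =
      (D.filter fun e => x i ∈ e ∧ e ∈ univ.image (pedge x)).card +
        (D.filter fun e => x i ∈ e ∧ e ∉ univ.image (pedge x)).card := by
    rw [← filter_filter, ← filter_filter, card_filter_add_card_filter_not]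
  have h4 : (D.filter fun e => x i ∈ e ∧ e ∉ univ.image (pedge x)).card ≤ 1 := by
    have h5 := hdeg (x i) (insert (pedge x (i - 1)) (insert (pedge x i)
      (D.filter fun e => x i ∈ e ∧ e ∉ univ.image (pedge x)))) (by
        intro f hf
        rw [mem_insert, mem_insert, mem_filter] at hf
        rcases hf with rfl | rfl | ⟨h7, h8, _⟩
        · exact ⟨hx.2 (i - 1), (mem_pedge hx.1).2 (Or.inr rfl)⟩
        · exact ⟨hx.2 i, (mem_pedge hx.1).2 (Or.inl rfl)⟩
        · exact ⟨hDG f h7, h8⟩)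
    rw [card_insert_of_notMem, card_insert_of_notMem] at h5
    · omega
    · rw [mem_filter]
      exact fun h => h.2.2 (mem_image_of_mem _ (mem_univ _))
    · rw [mem_insert, mem_filter, not_or]
      exact ⟨hne, fun h => h.2.2 (mem_image_of_mem _ (mem_univ _))⟩
  have h5 := hD (x i)
  rw [h3, h2] at h5
  have key : ∀ (b c : Bool) (k : ℕ),
      ((if b = true then 1 else 0) + (if c = true then 1 else 0) + k = 0 ∨
        (if b = true then 1 else 0) + (if c = true then 1 else 0) + k = 2) → k ≤ 1 →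
        k = if b = c then 0 else 1 := by
    intro b c k h h'
    cases b <;> cases c <;> simp at h ⊢ <;> omega
  exact key _ _ _ h5 h4

/-- The contributions of a 5-cycle add up to the excess of the pattern. -/
theorem sum_ctr (a b : Fin 5 → ℤ) {x : Fin 5 → V} (hx : IsPent G x) (D : Finset (Sym2 V))
    (hDG : ∀ e ∈ D, e ∈ G.edgeSet)
    (hdeg : ∀ (x : V) (A : Finset (Sym2 V)), (∀ e ∈ A, e ∈ G.edgeSet ∧ x ∈ e) → A.card ≤ 3)
    (hD : ∀ x, (D.filter fun e => x ∈ e).card = 0 ∨ (D.filter fun e => x ∈ e).card = 2) :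
    ∑ e ∈ D, ctr a b x e = exc a b (pat x D) := by
  unfold ctr exc
  rw [sum_sub_distrib]
  congr 1
  · rw [sum_comm]
    refine sum_congr rfl fun i _ => ?_
    rw [sum_ite_eq' D (pedge x i) fun _ => a i]
    simp [pat]
  · rw [sum_comm]
    refine sum_congr rfl fun i _ => ?_
    rw [← sum_filter, sum_const, card_stub hx D hDG hdeg hD i, nsmul_eq_mul]
    split_ifs <;> simp

/-- The weight given by patterns. -/
noncomputable def wg (G : SimpleGraph V) (θ κ : ℝ) (a b : Fin 5 → ℤ)
    (x : Finset (Sym2 V) → Fin 5 → V) (e : Sym2 V) : ℝ :=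
  θ + κ * ((∑ P ∈ pent G, ctr a b (x P) e : ℤ) : ℝ)

theorem sum_wg (θ κ : ℝ) (a b : Fin 5 → ℤ) (x : Finset (Sym2 V) → Fin 5 → V)
    (hx : ∀ P ∈ pent G, IsPent G (x P)) (D : Finset (Sym2 V))
    (hDG : ∀ e ∈ D, e ∈ G.edgeSet)
    (hdeg : ∀ (x : V) (A : Finset (Sym2 V)), (∀ e ∈ A, e ∈ G.edgeSet ∧ x ∈ e) → A.card ≤ 3)
    (hD : ∀ x, (D.filter fun e => x ∈ e).card = 0 ∨ (D.filter fun e => x ∈ e).card = 2) :
    ∑ e ∈ D, wg G θ κ a b x e =
      θ * D.card + κ * ((∑ P ∈ pent G, exc a b (pat (x P) D) : ℤ) : ℝ) := by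
  unfold wg
  rw [sum_add_distrib, sum_const, nsmul_eq_mul, ← mul_sum, ← Int.cast_sum, sum_comm,
    sum_congr rfl fun P hP => sum_ctr a b (hx P hP) D hDG hdeg hD]
  ring

/-- The number of edges of a 5-cycle in `D`. -/
theorem card_pat {x : Fin 5 → V} (hx : Function.Injective x) (D : Finset (Sym2 V)) :
    (univ.image (pedge x) ∩ D).card = (univ.filter fun i => pat x D i = true).card := by
  have : univ.image (pedge x) ∩ D = (univ.filter fun i => pat x D i = true).image (pedge x) := by
    ext e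
    rw [mem_inter, mem_image, mem_image]
    constructor
    · rintro ⟨⟨i, _, rfl⟩, h⟩
      exact ⟨i, mem_filter.2 ⟨mem_univ _, by simpa [pat] using h⟩, rfl⟩
    · rintro ⟨i, h, rfl⟩
      exact ⟨⟨i, mem_univ _, rfl⟩, by simpa [pat] using (mem_filter.1 h).2⟩
  rw [this, card_image_of_injective _ (pedge_injective hx)]

end Pool.Agent.OddFlow
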