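import Mathlib
import Pool.Agent.Work.MP_392c8e_co_arb.Girth

/-!
# Every boundary edge of a set of faces lies on a cycle of boundary edges
-/

namespace Pool.Agent.OddFlow

open Finset Pool.Agent.Sub392 Pool.Agent.Arb392

set_option linter.unusedSectionVars false

variable {V : Type} [Fintype V] [DecidableEq V] {G : SimpleGraph V} [DecidableRel G.Adj]

theorem bd_ne_zero_iff (R : Rot G) (S : Finset R.Face) (d : G.Dart) :
    bd R S d ≠ 0 ↔ ¬ (R.face d ∈ S ↔ R.face d.symm ∈ S) := by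
  unfold bd
  by_cases h1 : R.face d ∈ S <;> by_cases h2 : R.face d.symm ∈ S <;> simp [h1, h2]

/-- **Every boundary edge of a set of faces lies on a cycle of boundary edges.** -/
theorem exists_cycle_through (R : Rot G) (S : Finset R.Face) (d0 : G.Dart)
    (h0 : ¬ (R.face d0 ∈ S ↔ R.face d0.symm ∈ S)) :
    ∃ (v : V) (c : G.Walk v v), c.IsCycle ∧ d0.edge ∈ c.edges ∧
      ∀ d : G.Dart, d.edge ∈ c.edges → ¬ (R.face d ∈ S ↔ R.face d.symm ∈ S) := by
  classical
  -- the boundary graph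
  let H : SimpleGraph V :=
    { Adj := fun a b => ∃ h : G.Adj a b, bd R S ⟨(a, b), h⟩ ≠ 0
      symm := ⟨fun a b ⟨h, h'⟩ => ⟨h.symm, by
        have := bd_symm R S ⟨(a, b), h⟩
        rw [show (⟨(b, a), h.symm⟩ : G.Dart) = (⟨(a, b), h⟩ : G.Dart).symm from rfl, this]
        exact neg_ne_zero.2 h'⟩⟩
      loopless := ⟨fun a ⟨h, _⟩ => G.loopless.irrefl a h⟩ }
  have hHG : H ≤ G := fun a b ⟨h, _⟩ => h
  have hbd0 : bd R S d0 ≠ 0 := (bd_ne_zero_iff R S d0).2 h0
  have hadj : H.Adj d0.fst d0.snd := ⟨d0.adj, hbd0⟩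
  -- not a bridge
  have hreach : (H.deleteEdges {s(d0.fst, d0.snd)}).Reachable d0.fst d0.snd := by
    by_contra hno
    set X : Finset V := univ.filter fun x => (H.deleteEdges {s(d0.fst, d0.snd)}).Reachable d0.fst x
      with hX
    have h4 := sum_bd_set R S X
    have h5 : ∑ d : G.Dart with d.fst ∈ X ∧ d.snd ∉ X, bd R S d = bd R S d0 := by
      refine Finset.sum_eq_single_of_mem d0 ?_ ?_
      · simp only [mem_filter, mem_univ, true_and, hX]
        exact ⟨SimpleGraph.Reachable.refl _, hno⟩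
      · intro d hd hne
        simp only [mem_filter, mem_univ, true_and, hX] at hd
        by_contra h6
        have h7 : H.Adj d.fst d.snd := ⟨d.adj, h6⟩
        by_cases h8 : s(d.fst, d.snd) = s(d0.fst, d0.snd)
        · rcases Sym2.eq_iff.1 h8 with ⟨h9, h10⟩ | ⟨h9, h10⟩
          · exact hne (SimpleGraph.Dart.ext _ _ (Prod.ext h9 h10))
          · exact hd.2 (by rw [h10])
        · refine hd.2 (hd.1.trans (SimpleGraph.Adj.reachable ?_))
          rw [SimpleGraph.deleteEdges_adj]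
          exact ⟨h7, by simpa using h8⟩
    rw [h5] at h4
    exact hbd0 h4
  obtain ⟨u, c, hcyc, hmem⟩ :=
    SimpleGraph.adj_and_reachable_delete_edges_iff_exists_cycle.1 ⟨hadj, hreach⟩
  refine ⟨u, c.mapLe hHG, hcyc.mapLe hHG, ?_, ?_⟩
  · rw [SimpleGraph.Walk.edges_mapLe_eq_edges]
    exact hmem
  · intro d hd
    rw [SimpleGraph.Walk.edges_mapLe_eq_edges] at hd
    have h6 := c.edges_subset_edgeSet hd
    have h7 : H.Adj d.fst d.snd := h6
    obtain ⟨h8, h9⟩ := h7
    exact (bd_ne_zero_iff R S d).1 h9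

end Pool.Agent.OddFlow
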