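import Mathlib
import Pool.Agent.Work.MP_392c8e_co.Exact
import Pool.Agent.Work.MP_392c8e_co.Facts

/-!
# The two sides of a cycle on the sphere

On the sphere antisymmetric functions on the darts with zero sums around all vertices come from
functions on the faces.  Over the field with two elements this gives the two sides of a cycle.
-/

namespace Pool.Agent.OddFlow

open Finset Pool.Agent.Sub392

set_option linter.unusedSectionVars false

variable {V : Type} [Fintype V] [DecidableEq V] {G : SimpleGraph V} [DecidableRel G.Adj]

namespace CycD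

theorem sum_vertex_faces {k : Type} [Field k] (R : Rot G) (a : R.Face → k) (v : V) :
    ∑ d : G.Dart with d.fst = v, (a (R.face d) - a (R.face d.symm)) = 0 := by
  rw [sum_sub_distrib, sub_eq_zero]
  symm
  refine Finset.sum_bij (fun d _ => R.rot d) ?_ ?_ ?_ ?_
  · intro d hd
    simp only [mem_filter, mem_univ, true_and] at hd ⊢
    rw [R.fst_rot, hd]
  · intro a _ b _ h
    exact R.rot.injective h
  · intro d hd
    refine ⟨R.rot.symm d, ?_, by simp⟩
    simp only [mem_filter, mem_univ, true_and] at hd ⊢
    have := R.fst_rot (R.rot.symm d)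
    rw [Equiv.apply_symm_apply] at this
    rw [← this, hd]
  · intro d _
    rw [R.face_rot]

theorem matA_mul {k : Type} [Field k] (y : G.Dart → k) (hy : ∀ d, y d.symm = -y d) (v : V) :
    ((matA G k).mulVec fun e => y e.1) v = -∑ d : G.Dart with d.fst = v, y d := by
  rw [sum_filter, sum_dart, ← sum_neg_distrib]
  simp only [Matrix.mulVec, dotProduct, matA]
  refine sum_congr rfl fun e _ => ?_
  rw [hy]
  have h1 : e.1.symm.fst = e.1.snd := rfl
  rw [h1]
  split_ifs <;> simp

end CycD

/-- **Dual exactness.**  Antisymmetric functions on the darts with zero sums around all vertices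
come from functions on the faces. -/
theorem exact_dual (R : Rot G) (hP : R.Plane) {k : Type} [Field k] (y : G.Dart → k)
    (hy : ∀ d, y d.symm = -y d) (h0 : ∀ v, ∑ d : G.Dart with d.fst = v, y d = 0) :
    ∃ a : R.Face → k, ∀ d, y d = a (R.face d) - a (R.face d.symm) := by
  classical
  obtain ⟨hG, hE⟩ := hP
  by_cases hne : Nonempty G.Dart
  swap
  · exact ⟨0, fun d => absurd ⟨d⟩ hne⟩
  have : Nonempty V := hG.nonempty
  have : Nonempty R.Face := hne.map R.face
  have hAk : Module.finrank k (LinearMap.ker ((matA G k).transpose.mulVecLin)) = 1 := by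
    rw [ker_A hG]; exact finrank_span_one V
  have hBk : Module.finrank k (LinearMap.ker ((R.matB k).transpose.mulVecLin)) = 1 := by
    rw [R.ker_B hG hne]; exact finrank_span_one R.Face
  have hA := LinearMap.finrank_range_add_finrank_ker ((matA G k).transpose.mulVecLin)
  have hB := LinearMap.finrank_range_add_finrank_ker ((R.matB k).transpose.mulVecLin)
  have hA2 := LinearMap.finrank_range_add_finrank_ker ((matA G k).mulVecLin)
  rw [hAk, Module.finrank_fintype_fun_eq_card] at hA
  rw [hBk, Module.finrank_fintype_fun_eq_card] at hB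
  rw [Module.finrank_fintype_fun_eq_card, card_up] at hA2
  have hrk : Module.finrank k (LinearMap.range ((matA G k).mulVecLin)) =
      Module.finrank k (LinearMap.range ((matA G k).transpose.mulVecLin)) :=
    (Matrix.rank_transpose (matA G k)).symm
  have hle : LinearMap.range ((R.matB k).transpose.mulVecLin) ≤
      LinearMap.ker ((matA G k).mulVecLin) := by
    rintro _ ⟨p, rfl⟩
    rw [LinearMap.mem_ker]
    funext v
    have e1 : (R.matB k).transpose.mulVecLin p = fun e : Up G => (fun d : G.Dart =>
        p (R.face d) - p (R.face d.symm)) e.1 := by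
      funext e
      rw [Matrix.mulVecLin_apply, R.matB_mulVec_transpose]
    rw [e1, Matrix.mulVecLin_apply, CycD.matA_mul (fun d : G.Dart => p (R.face d) -
      p (R.face d.symm)) (fun d => by simp), CycD.sum_vertex_faces, neg_zero]
    rfl
  have heq : LinearMap.range ((R.matB k).transpose.mulVecLin) =
      LinearMap.ker ((matA G k).mulVecLin) :=
    Submodule.eq_of_le_of_finrank_eq hle (by omega)
  have hmem : (fun e : Up G => y e.1) ∈ LinearMap.ker ((matA G k).mulVecLin) := by
    rw [LinearMap.mem_ker]
    funext v
    rw [Matrix.mulVecLin_apply, CycD.matA_mul y hy, h0, neg_zero]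
    rfl
  rw [← heq] at hmem
  obtain ⟨p, hp⟩ := hmem
  have key : ∀ e : Up G, p (R.face e.1) - p (R.face e.1.symm) = y e.1 := fun e => by
    have h3 := congrFun hp e
    rwa [Matrix.mulVecLin_apply, R.matB_mulVec_transpose] at h3
  refine ⟨p, fun d => ?_⟩
  rcases up_or d with h2 | h2
  · exact (key ⟨d, h2⟩).symm
  · have h3 : p (R.face d.symm) - p (R.face d.symm.symm) = y d.symm := key ⟨d.symm, h2⟩
    have h4 : y d = -(p (R.face d.symm) - p (R.face d.symm.symm)) := by rw [h3, hy, neg_neg]
    rw [h4]
    simp

/-- **The two sides of a cycle.** -/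
theorem cycle_sides (R : Rot G) (hP : R.Plane) {v : V} (c : G.Walk v v) (hc : c.IsCycle) :
    ∃ a : R.Face → ZMod 2, ∀ d : G.Dart, a (R.face d) = a (R.face d.symm) ↔ d.edge ∉ c.edges := by
  classical
  obtain ⟨a, ha⟩ := exact_dual R hP (k := ZMod 2)
    (fun d : G.Dart => if d.edge ∈ c.edges then 1 else 0)
    (fun d => by
      rw [SimpleGraph.Dart.edge_symm]
      split_ifs <;> decide)
    (fun x => by
      rw [Finset.sum_boole, filter_filter, ZMod.natCast_eq_zero_iff_even]
      have h1 : (univ.filter fun d : G.Dart => d.fst = x ∧ d.edge ∈ c.edges).card =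
          c.edges.countP fun e => decide (x ∈ e) := by
        rw [List.countP_eq_length_filter, ← List.toFinset_card_of_nodup
          (hc.isTrail.edges_nodup.filter _)]
        refine Finset.card_bij (fun d _ => d.edge) ?_ ?_ ?_
        · intro d hd
          simp only [mem_filter, mem_univ, true_and] at hd
          rw [List.mem_toFinset, List.mem_filter]
          refine ⟨hd.2, ?_⟩
          rw [decide_eq_true_eq, ← hd.1]
          exact Sym2.mem_mk_left _ _
        · intro d hd d' hd' h
          simp only [mem_filter, mem_univ, true_and] at hd hd'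
          rcases (SimpleGraph.dart_edge_eq_iff d d').1 h with h2 | h2
          · exact h2
          · exfalso
            have h3 : d.fst = d'.snd := by rw [h2]; rfl
            exact d'.adj.ne (by rw [hd'.1, ← hd.1, h3])
        · intro e he
          rw [List.mem_toFinset, List.mem_filter, decide_eq_true_eq] at he
          obtain ⟨he1, he2⟩ := he
          obtain ⟨z, rfl⟩ := Sym2.mem_iff_exists.1 he2
          have hadj : G.Adj x z := c.adj_of_mem_edges he1
          exact ⟨⟨(x, z), hadj⟩, by simpa using he1, rfl⟩
      rw [h1]
      have h2 := (hc.isTrail.even_countP_edges_iff x).2 (fun h => absurd rfl h)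
      exact h2)
  refine ⟨a, fun d => ?_⟩
  have h1 := ha d
  constructor
  · intro h2 h3
    rw [if_pos h3, h2, sub_self] at h1
    exact one_ne_zero h1
  · intro h2
    rw [if_neg h2] at h1
    exact (sub_eq_zero.1 h1.symm)

end Pool.Agent.OddFlow
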