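import Mathlib
import Pool.Agent.Work.MP_974d84_co_circ.Defs

/-!
# Circle valued flows near the antipode: definitions

A finite multigraph is given by its end maps `s t : E → V`; loops and parallel edges are allowed.
-/

namespace Pool.Agent.OddFlow

open Finset Pool.Agent.Circ

variable {V E : Type*} [Fintype V] [DecidableEq V] [Fintype E] [DecidableEq E]

/-- Net outflow of a circle valued chain `f` at `v`. -/
noncomputable def dvT (s t : E → V) (f : E → AddCircle (2 : ℝ)) (v : V) : AddCircle (2 : ℝ) :=
  ∑ e, ((if s e = v then f e else 0) - (if t e = v then f e else 0))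

/-- There is a circle valued flow with all values within `θ` of the antipode `1`. -/
def Good (s t : E → V) (θ : ℝ) : Prop :=
  ∃ f : E → AddCircle (2 : ℝ), (∀ v, dvT s t f v = 0) ∧
    ∀ e, ‖f e - ((1 : ℝ) : AddCircle (2 : ℝ))‖ ≤ θ

/-- The vertices of odd degree (loops do not matter). -/
def oddV (s t : E → V) : Finset V := univ.filter fun v => Odd (cut s t {v}).card

/-- Every odd cut has at least `k` edges. -/
def OddCut (s t : E → V) (k : ℕ) : Prop :=
  ∀ X : Finset V, Odd (cut s t X).card → k ≤ (cut s t X).card

end Pool.Agent.OddFlow
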