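import Mathlib
import Pool.Agent.Work.MP_392c8e_co_odd.Defs

/-!
# Integral charges of circle valued flows near the antipode: definition
-/

namespace Pool.Agent.OddFlow

open Finset Pool.Agent.Circ

variable {V E : Type*} [Fintype V] [DecidableEq V] [Fintype E] [DecidableEq E]

/-- `w` has the parity of the degrees, and every set of vertices has charge at most `θ` times the
number of its leaving edges. -/
def Chg (s t : E → V) (θ : ℝ) (w : V → ℤ) : Prop :=
  (∀ v, (2 : ℤ) ∣ w v - ((cut s t {v}).card : ℤ)) ∧
    ∀ Z : Finset V, |((∑ v ∈ Z, w v : ℤ) : ℝ)| ≤ θ * (cut s t Z).card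

end Pool.Agent.OddFlow
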