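import Mathlib
import Pool.Agent.Work.MP_392c8e_co_odd.Defs

/-!
# Splitting off two edges at a vertex of even degree

Module B of the odd-girth theorem: `exists_split`.
-/

namespace Pool.Agent.OddFlow

open Finset Pool.Agent.Circ

variable {V E : Type*} [Fintype V] [DecidableEq V] [Fintype E] [DecidableEq E]

namespace Split

/-- The indicator of `e ∈ cut X`. -/
def ci (s t : E → V) (X : Finset V) (e : E) : ℕ := if (s e ∈ X ↔ t e ∈ X) then 0 else 1

theorem card_cut (s t : E → V) (X : Finset V) : (cut s t X).card = ∑ e, ci s t X e := by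
  rw [cut, card_filter]
  refine sum_congr rfl fun e _ => ?_
  unfold ci
  split_ifs <;> simp_all

theorem sub_modular (s t : E → V) (A B : Finset V) :
    (cut s t (A ∩ B)).card + (cut s t (A ∪ B)).card ≤ (cut s t A).card + (cut s t B).card := by
  simp only [card_cut, ← sum_add_distrib]
  refine sum_le_sum fun e _ => ?_
  unfold ci
  by_cases h1 : s e ∈ A <;> by_cases h2 : s e ∈ B <;> by_cases h3 : t e ∈ A <;>
    by_cases h4 : t e ∈ B <;> simp [h1, h2, h3, h4]

theorem posi_modular (s t : E → V) (A B : Finset V) (e₀ : E)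
    (h : (s e₀ ∈ A ∩ B ∧ t e₀ ∉ A ∪ B) ∨ (t e₀ ∈ A ∩ B ∧ s e₀ ∉ A ∪ B)) :
    (cut s t (A \ B)).card + (cut s t (B \ A)).card + 2 ≤
      (cut s t A).card + (cut s t B).card := by
  have h2 : (2 : ℕ) = ∑ e, if e = e₀ then 2 else 0 := by simp
  rw [h2]
  simp only [card_cut, ← sum_add_distrib]
  refine sum_le_sum fun e _ => ?_
  unfold ci
  by_cases he : e = e₀
  · subst he
    by_cases h1 : s e ∈ A <;> by_cases h2 : s e ∈ B <;> by_cases h3 : t e ∈ A <;>
      by_cases h4 : t e ∈ B <;> simp_all
  · by_cases h1 : s e ∈ A <;> by_cases h2 : s e ∈ B <;> by_cases h3 : t e ∈ A <;>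
      by_cases h4 : t e ∈ B <;> simp [h1, h2, h3, h4, he]

theorem parity_union (s t : E → V) (A B : Finset V) :
    Even ((cut s t (A ∩ B)).card + (cut s t (A ∪ B)).card +
      ((cut s t A).card + (cut s t B).card)) := by
  simp only [card_cut, ← sum_add_distrib]
  refine Finset.even_sum _ fun e _ => ?_
  unfold ci
  by_cases h1 : s e ∈ A <;> by_cases h2 : s e ∈ B <;> by_cases h3 : t e ∈ A <;>
    by_cases h4 : t e ∈ B <;> simp [h1, h2, h3, h4] <;> decide

theorem parity_sdiff (s t : E → V) (A B : Finset V) :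
    Even ((cut s t (A ∩ B)).card + (cut s t (A \ B)).card + (cut s t A).card) := by
  simp only [card_cut, ← sum_add_distrib]
  refine Finset.even_sum _ fun e _ => ?_
  unfold ci
  by_cases h1 : s e ∈ A <;> by_cases h2 : s e ∈ B <;> by_cases h3 : t e ∈ A <;>
    by_cases h4 : t e ∈ B <;> simp [h1, h2, h3, h4]

theorem cut_compl_card (s t : E → V) (X : Finset V) : (cut s t Xᶜ).card = (cut s t X).card := by
  simp only [card_cut]
  refine sum_congr rfl fun e _ => ?_
  unfold ci
  by_cases h1 : s e ∈ X <;> by_cases h3 : t e ∈ X <;> simp [h1, h3]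

/-- If all edges at `v` go to `S`, then adding `v` to `S` lowers the cut. -/
theorem card_insert (s t : E → V) (S : Finset V) (v : V) (hv : v ∉ S)
    (h1 : ∀ e, s e = v → t e ≠ v → t e ∈ S) (h2 : ∀ e, t e = v → s e ≠ v → s e ∈ S) :
    (cut s t (insert v S)).card + (cut s t {v}).card = (cut s t S).card := by
  simp only [card_cut, ← sum_add_distrib]
  refine sum_congr rfl fun e _ => ?_
  unfold ci
  by_cases hs : s e = v
  · by_cases ht : t e = v
    · simp [hs, ht, hv]
    · have := h1 e hs ht
      simp [hs, ht, hv, this]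
  · by_cases ht : t e = v
    · have := h2 e ht hs
      simp [hs, ht, hv, this]
    · by_cases h1 : s e ∈ S <;> by_cases h3 : t e ∈ S <;> simp [h1, h3, hs, ht]

/-- The other end of an edge at `v`. -/
def oth (s t : E → V) (v : V) (e : E) : V := if s e = v then t e else s e

/-- Some edge at `v` can be split off together with `e₀`: no cut of size `k` separates `v` from
the two other ends. -/
theorem exists_good (s t : E → V) {k : ℕ} (hk : Odd k) (h : OddCut s t k) (v : V)
    (hv : Even (cut s t {v}).card) {e₀ : E} (he₀ : e₀ ∈ cut s t {v}) :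
    ∃ f₀ ∈ cut s t {v}, f₀ ≠ e₀ ∧
      ∀ S : Finset V, v ∉ S → oth s t v e₀ ∈ S → oth s t v f₀ ∈ S → (cut s t S).card ≠ k := by
  classical
  by_contra hcon
  push Not at hcon
  have hpos : 0 < (cut s t {v}).card := card_pos.2 ⟨e₀, he₀⟩
  obtain ⟨f₁, hf₁, hf₁'⟩ : ∃ f₁ ∈ cut s t {v}, f₁ ≠ e₀ := by
    by_contra hc
    push Not at hc
    have : cut s t {v} = {e₀} := by
      apply subset_antisymm
      · intro f hf
        simp [hc f hf]
      · simpa using he₀
    rw [this] at hv
    simp at hv
  let 𝒯 : Finset (Finset V) := univ.filter fun S => v ∉ S ∧ oth s t v e₀ ∈ S ∧ (cut s t S).card = k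
  have h𝒯 : 𝒯.Nonempty := by
    obtain ⟨S, h1, h2, -, h4⟩ := hcon f₁ hf₁ hf₁'
    exact ⟨S, by simp [𝒯, h1, h2, h4]⟩
  obtain ⟨S, hS, hmax⟩ := exists_max_image 𝒯 card h𝒯
  simp only [𝒯, mem_filter, mem_univ, true_and] at hS hmax
  obtain ⟨hvS, haS, hkS⟩ := hS
  have hends : ∀ T : Finset V, v ∉ T → oth s t v e₀ ∈ T →
      ((s e₀ ∈ S ∩ T ∧ t e₀ ∉ S ∪ T) ∨ (t e₀ ∈ S ∩ T ∧ s e₀ ∉ S ∪ T)) := by
    intro T h1 h2
    unfold oth at h2 haS
    rw [cut, mem_filter] at he₀
    by_cases hs : s e₀ = v
    · right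
      simp_all
    · left
      have ht : t e₀ = v := by
        by_contra ht
        exact he₀.2 (by simp [hs, ht])
      simp_all
  have key : ∀ T : Finset V, v ∉ T → oth s t v e₀ ∈ T → (cut s t T).card = k → T ⊆ S := by
    intro T hvT haT hkT
    have hpu := parity_union s t S T
    have hsm := sub_modular s t S T
    rw [hkS, hkT] at hpu hsm
    rcases Nat.even_or_odd (cut s t (S ∪ T)).card with hev | hod
    · exfalso
      have hi : Even (cut s t (S ∩ T)).card := by
        rcases Nat.even_or_odd (cut s t (S ∩ T)).card with h1 | h1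
        · exact h1
        · exfalso
          rcases h1 with ⟨a, ha⟩
          rcases hev with ⟨b, hb⟩
          rcases hpu with ⟨c, hc⟩
          omega
      have hp1 := parity_sdiff s t S T
      have hp2 := parity_sdiff s t T S
      rw [inter_comm T S] at hp2
      have ho1 : Odd (cut s t (S \ T)).card := by
        rw [← Nat.not_even_iff_odd]
        intro h1
        rw [hkS] at hp1
        rcases hp1 with ⟨a, ha⟩
        rcases h1 with ⟨b, hb⟩
        rcases hi with ⟨c, hc⟩
        rcases hk with ⟨d, hd⟩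
        omega
      have ho2 : Odd (cut s t (T \ S)).card := by
        rw [← Nat.not_even_iff_odd]
        intro h1
        rw [hkT] at hp2
        rcases hp2 with ⟨a, ha⟩
        rcases h1 with ⟨b, hb⟩
        rcases hi with ⟨c, hc⟩
        rcases hk with ⟨d, hd⟩
        omega
      have := posi_modular s t S T e₀ (hends T hvT haT)
      have h1 := h _ ho1
      have h2 := h _ ho2
      omega
    · have ho : Odd (cut s t (S ∩ T)).card := by
        rw [← Nat.not_even_iff_odd]
        intro h1
        rcases h1 with ⟨a, ha⟩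
        rcases hod with ⟨b, hb⟩
        rcases hpu with ⟨c, hc⟩
        omega
      have h1 := h _ ho
      have h2 := h _ hod
      have h3 : (cut s t (S ∪ T)).card = k := by omega
      have h4 := hmax (S ∪ T) ⟨by simp [hvS, hvT], by simp [haS], h3⟩
      have h5 : S = S ∪ T := eq_of_subset_of_card_le subset_union_left h4
      rw [h5]
      exact subset_union_right
  have hall : ∀ f ∈ cut s t {v}, oth s t v f ∈ S := by
    intro f hf
    by_cases hfe : f = e₀
    · rw [hfe]
      exact haS
    · obtain ⟨T, h1, h2, h3, h4⟩ := hcon f hf hfe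
      exact key T h1 h2 h4 h3
  have hc := card_insert s t S v hvS
    (fun e h1 h2 => by
      have := hall e (by simp [cut, h1, h2])
      simpa [oth, h1] using this)
    (fun e h1 h2 => by
      have := hall e (by simp [cut, h1, h2])
      simpa [oth, h2] using this)
  have hodd : Odd (cut s t (insert v S)).card := by
    rw [← Nat.not_even_iff_odd]
    intro h1
    rcases h1 with ⟨a, ha⟩
    rcases hv with ⟨b, hb⟩
    rcases hk with ⟨d, hd⟩
    omega
  have := h _ hodd
  omega

theorem sum_two {M : Type*} [AddCommMonoid M] (g : E → M) {e₀ f₀ : E} (hne : f₀ ≠ e₀) :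
    ∑ e, g e = g e₀ + (g f₀ + ∑ e ∈ (univ.erase e₀).erase f₀, g e) := by
  rw [add_sum_erase _ _ (mem_erase.2 ⟨hne, mem_univ _⟩), add_sum_erase _ _ (mem_univ _)]

/-- The new ends: `e₀` goes to the other end of `f₀`, and `f₀` becomes a loop. -/
def newt (t : E → V) (v : V) (e₀ f₀ : E) (e : E) : V :=
  if e = f₀ then v else if e = e₀ then t f₀ else t e

theorem card_newt (s t : E → V) {v : V} {e₀ f₀ : E} (hne : f₀ ≠ e₀) (he : t e₀ = v)
    (hf : s f₀ = v) (X : Finset V) :
    (cut s (newt t v e₀ f₀) X).card +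
      2 * (if (s e₀ ∈ X ↔ t f₀ ∈ X) ∧ ¬ (v ∈ X ↔ s e₀ ∈ X) then 1 else 0) =
        (cut s t X).card := by
  simp only [card_cut]
  rw [sum_two _ hne, sum_two (fun e => ci s t X e) hne]
  have h1 : ∑ e ∈ (univ.erase e₀).erase f₀, ci s (newt t v e₀ f₀) X e =
      ∑ e ∈ (univ.erase e₀).erase f₀, ci s t X e := by
    refine sum_congr rfl fun e he => ?_
    rw [mem_erase, mem_erase] at he
    simp [ci, newt, he.1, he.2.1]
  rw [h1]
  have h2 : ci s (newt t v e₀ f₀) X e₀ = if (s e₀ ∈ X ↔ t f₀ ∈ X) then 0 else 1 := by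
    simp [ci, newt, hne.symm]
  have h3 : ci s (newt t v e₀ f₀) X f₀ = 0 := by
    simp [ci, newt, hf]
  have h4 : ci s t X e₀ = if (s e₀ ∈ X ↔ v ∈ X) then 0 else 1 := by
    simp [ci, he]
  have h5 : ci s t X f₀ = if (v ∈ X ↔ t f₀ ∈ X) then 0 else 1 := by
    simp [ci, hf]
  rw [h2, h3, h4, h5]
  by_cases a1 : s e₀ ∈ X <;> by_cases a2 : t f₀ ∈ X <;> by_cases a3 : v ∈ X <;>
    simp [a1, a2, a3] <;> omega

theorem good_newt (s t : E → V) {v : V} {e₀ f₀ : E} (hne : f₀ ≠ e₀) (he : t e₀ = v)
    (hf : s f₀ = v) {θ : ℝ} (h : Good s (newt t v e₀ f₀) θ) : Good s t θ := by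
  obtain ⟨f, hd, hn⟩ := h
  refine ⟨Function.update f f₀ (f e₀), fun x => ?_, fun e => ?_⟩
  · rw [← hd x, dvT, dvT, sum_two _ hne, sum_two (fun e => (if s e = x then f e else 0) -
      (if newt t v e₀ f₀ e = x then f e else 0)) hne]
    have h1 : ∑ e ∈ (univ.erase e₀).erase f₀,
        ((if s e = x then Function.update f f₀ (f e₀) e else 0) -
          (if t e = x then Function.update f f₀ (f e₀) e else 0)) =
        ∑ e ∈ (univ.erase e₀).erase f₀, ((if s e = x then f e else 0) -
          (if newt t v e₀ f₀ e = x then f e else 0)) := by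
      refine sum_congr rfl fun e he => ?_
      rw [mem_erase, mem_erase] at he
      simp [newt, he.1, he.2.1]
    rw [h1]
    simp only [newt, Function.update_self, Function.update_of_ne hne.symm, he, hf, hne.symm,
      if_true, if_false]
    abel
  · by_cases hef : e = f₀
    · rw [hef, Function.update_self]
      exact hn e₀
    · rw [Function.update_of_ne hef]
      exact hn e

theorem loops_newt (s t : E → V) {v : V} {e₀ f₀ : E} (hne : f₀ ≠ e₀) (he : t e₀ = v)
    (hf : s f₀ = v) (he' : s e₀ ≠ v) (hf' : t f₀ ≠ v) :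
    (univ.filter fun e => s e ≠ newt t v e₀ f₀ e).card <
      (univ.filter fun e => s e ≠ t e).card := by
  refine card_lt_card ⟨fun e => ?_, fun hsub => ?_⟩
  · simp only [mem_filter, mem_univ, true_and]
    intro h
    by_cases h1 : e = f₀
    · rw [h1] at h
      simp [newt, hf] at h
    · by_cases h2 : e = e₀
      · rw [h2, he]
        exact he'
      · simpa [newt, h1, h2] using h
  · have h1 : f₀ ∈ univ.filter fun e => s e ≠ t e := by
      simp [hf, hf'.symm]
    have h2 := hsub h1
    simp [newt, hf] at h2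

/-- Exchange of the ends on a set of edges. -/
def fl (A : Finset E) (s t : E → V) (e : E) : V := if e ∈ A then t e else s e

theorem cut_fl (A : Finset E) (s t : E → V) (X : Finset V) :
    cut (fl A s t) (fl A t s) X = cut s t X := by
  unfold cut
  refine filter_congr fun e _ => ?_
  unfold fl
  split_ifs
  · tauto
  · rfl

theorem loops_fl (A : Finset E) (s t : E → V) :
    (univ.filter fun e => fl A s t e ≠ fl A t s e) = univ.filter fun e => s e ≠ t e := by
  refine filter_congr fun e _ => ?_
  unfold fl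
  split_ifs
  · exact ne_comm
  · rfl

theorem norm_neg_sub_one (x : AddCircle (2 : ℝ)) :
    ‖-x - ((1 : ℝ) : AddCircle (2 : ℝ))‖ = ‖x - ((1 : ℝ) : AddCircle (2 : ℝ))‖ := by
  have h : ((1 : ℝ) : AddCircle (2 : ℝ)) + ((1 : ℝ) : AddCircle (2 : ℝ)) = 0 := by
    rw [← AddCircle.coe_add, show (1 : ℝ) + 1 = 2 by norm_num]
    exact AddCircle.coe_period 2
  have h1 : -x - ((1 : ℝ) : AddCircle (2 : ℝ)) = -(x - ((1 : ℝ) : AddCircle (2 : ℝ))) := by
    have h2 : -((1 : ℝ) : AddCircle (2 : ℝ)) = ((1 : ℝ) : AddCircle (2 : ℝ)) :=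
      (eq_neg_of_add_eq_zero_left h).symm
    rw [neg_sub', sub_eq_add_neg, h2, sub_eq_add_neg, h2]
  rw [h1, norm_neg]

theorem good_fl (A : Finset E) (s t : E → V) {θ : ℝ} (h : Good (fl A s t) (fl A t s) θ) :
    Good s t θ := by
  obtain ⟨f, hd, hn⟩ := h
  refine ⟨fun e => if e ∈ A then -f e else f e, fun x => ?_, fun e => ?_⟩
  · rw [← hd x, dvT, dvT]
    refine sum_congr rfl fun e _ => ?_
    unfold fl
    by_cases he : e ∈ A
    · simp only [he, if_true]
      split_ifs <;> simp
    · simp only [he, if_false]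
  · simp only
    split_ifs
    · rw [norm_neg_sub_one]
      exact hn e
    · exact hn e

end Split

/-- B (Split.lean).  Splitting off two edges at a vertex of even degree. -/
theorem exists_split (s t : E → V) {k : ℕ} (hk : Odd k) (h : OddCut s t k) (v : V)
    (hv : Even (cut s t {v}).card) (hv0 : (cut s t {v}).card ≠ 0) :
    ∃ s' t' : E → V, (∀ X, Odd (cut s' t' X).card ↔ Odd (cut s t X).card) ∧ OddCut s' t' k ∧
      (univ.filter fun e => s' e ≠ t' e).card < (univ.filter fun e => s e ≠ t e).card ∧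
      ∀ θ, 0 ≤ θ → Good s' t' θ → Good s t θ := by
  classical
  obtain ⟨e₀, he₀⟩ := card_ne_zero.1 hv0
  obtain ⟨f₀, hf₀, hne, hgood⟩ := Split.exists_good s t hk h v hv he₀
  have he₁ : ¬ (s e₀ = v ↔ t e₀ = v) := by simpa [cut] using he₀
  have hf₁ : ¬ (s f₀ = v ↔ t f₀ = v) := by simpa [cut] using hf₀
  let A : Finset E := univ.filter fun e => (e = e₀ ∧ s e₀ = v) ∨ (e = f₀ ∧ t f₀ = v)
  have hA1 : e₀ ∈ A ↔ s e₀ = v := by simp [A, hne.symm]
  have hA2 : f₀ ∈ A ↔ t f₀ = v := by simp [A, hne]
  have e1 : Split.fl A t s e₀ = v := by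
    unfold Split.fl
    by_cases h1 : s e₀ = v
    · simp [hA1.2 h1, h1]
    · rw [if_neg (fun h2 => h1 (hA1.1 h2))]
      tauto
  have e2 : Split.fl A s t e₀ = Split.oth s t v e₀ := by
    unfold Split.fl Split.oth
    by_cases h1 : s e₀ = v
    · simp [hA1.2 h1, h1]
    · rw [if_neg (fun h2 => h1 (hA1.1 h2)), if_neg h1]
  have f1 : Split.fl A s t f₀ = v := by
    unfold Split.fl
    by_cases h1 : t f₀ = v
    · simp [hA2.2 h1, h1]
    · rw [if_neg (fun h2 => h1 (hA2.1 h2))]
      tauto
  have f2 : Split.fl A t s f₀ = Split.oth s t v f₀ := by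
    unfold Split.fl Split.oth
    by_cases h1 : t f₀ = v
    · have h3 : s f₀ ≠ v := by tauto
      simp [hA2.2 h1, h3]
    · have h3 : s f₀ = v := by tauto
      rw [if_neg (fun h2 => h1 (hA2.1 h2)), if_pos h3]
  have e3 : Split.oth s t v e₀ ≠ v := by
    unfold Split.oth
    by_cases h1 : s e₀ = v
    · rw [if_pos h1]
      tauto
    · rw [if_neg h1]
      exact h1
  have f3 : Split.oth s t v f₀ ≠ v := by
    unfold Split.oth
    by_cases h1 : s f₀ = v
    · rw [if_pos h1]
      tauto
    · rw [if_neg h1]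
      exact h1
  have hcard := Split.card_newt (Split.fl A s t) (Split.fl A t s) hne e1 f1
  simp only [Split.cut_fl] at hcard
  refine ⟨Split.fl A s t, Split.newt (Split.fl A t s) v e₀ f₀, fun X => ?_, fun X hX => ?_, ?_,
    fun θ _ hg => Split.good_fl A s t (Split.good_newt _ _ hne e1 f1 hg)⟩
  · rw [← hcard X, Nat.odd_add, iff_true_right (even_two_mul _)]
  · have hc := hcard X
    have hXo : Odd (cut s t X).card := by
      rw [← hc, Nat.odd_add, iff_true_right (even_two_mul _)]
      exact hX
    have hkX := h X hXo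
    split_ifs at hc with hcond
    · -- the cut loses two edges
      rw [e2, f2] at hcond
      have hne' : (cut s t X).card ≠ k := by
        by_cases hvX : v ∈ X
        · have ha : Split.oth s t v e₀ ∈ Xᶜ := by
            rw [mem_compl]
            tauto
          have hb : Split.oth s t v f₀ ∈ Xᶜ := by
            rw [mem_compl]
            tauto
          have := hgood Xᶜ (by simp [hvX]) ha hb
          rwa [Split.cut_compl_card] at this
        · exact hgood X hvX (by tauto) (by tauto)
      rcases hk with ⟨d, hd⟩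
      rcases hXo with ⟨b, hb⟩
      omega
    · omega
  · rw [← Split.loops_fl A s t]
    exact Split.loops_newt _ _ hne e1 f1 (by rw [e2]; exact e3) (by rw [f2]; exact f3)

end Pool.Agent.OddFlow
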