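import Mathlib
import Pool.Agent.Work.MP_392c8e_co_odd.Split
import Pool.Agent.Work.MP_392c8e_co_odd.Chg

/-!
# Splitting off all edges at the vertices of even degree

The cuts do not grow, their parities do not change, and the odd cuts keep at least `k` edges.
-/

namespace Pool.Agent.OddFlow

open Finset Pool.Agent.Circ

set_option linter.unusedSectionVars false

variable {V E : Type*} [Fintype V] [DecidableEq V] [Fintype E] [DecidableEq E]

/-- Splitting off two edges at a vertex of even degree; the cuts do not grow. -/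
theorem exists_splitC (s t : E → V) {k : ℕ} (hk : Odd k) (h : OddCut s t k) (v : V)
    (hv : Even (cut s t {v}).card) (hv0 : (cut s t {v}).card ≠ 0) :
    ∃ s' t' : E → V, (∀ X, Odd (cut s' t' X).card ↔ Odd (cut s t X).card) ∧ OddCut s' t' k ∧
      (univ.filter fun e => s' e ≠ t' e).card < (univ.filter fun e => s e ≠ t e).card ∧
      ∀ X, (cut s' t' X).card ≤ (cut s t X).card := by
  classical
  obtain ⟨e₀, he₀⟩ := card_ne_zero.1 hv0
  obtain ⟨f₀, hf₀, hne, hgood⟩ := Split.exists_good s t hk h v hv he₀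
  have he₁ : ¬ (s e₀ = v ↔ t e₀ = v) := by simpa [cut] using he₀
  have hf₁ : ¬ (s f₀ = v ↔ t f₀ = v) := by simpa [cut] using hf₀
  let A : Finset E := univ.filter fun e => (e = e₀ ∧ s e₀ = v) ∨ (e = f₀ ∧ t f₀ = v)
  have hA1 : e₀ ∈ A ↔ s e₀ = v := by simp [A, hne.symm]
  have hA2 : f₀ ∈ A ↔ t f₀ = v := by simp [A, hne]
  have e1 : Split.fl A t s e₀ = v := by
    unfold Split.fl
    by_cases h1 : s e₀ = v
    · simp [hA1.2 h1, h1]
    · rw [if_neg (fun h2 => h1 (hA1.1 h2))]
      tauto
  have e2 : Split.fl A s t e₀ = Split.oth s t v e₀ := by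
    unfold Split.fl Split.oth
    by_cases h1 : s e₀ = v
    · simp [hA1.2 h1, h1]
    · rw [if_neg (fun h2 => h1 (hA1.1 h2)), if_neg h1]
  have f1 : Split.fl A s t f₀ = v := by
    unfold Split.fl
    by_cases h1 : t f₀ = v
    · simp [hA2.2 h1, h1]
    · rw [if_neg (fun h2 => h1 (hA2.1 h2))]
      tauto
  have f2 : Split.fl A t s f₀ = Split.oth s t v f₀ := by
    unfold Split.fl Split.oth
    by_cases h1 : t f₀ = v
    · have h3 : s f₀ ≠ v := by tauto
      simp [hA2.2 h1, h3]
    · have h3 : s f₀ = v := by tauto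
      rw [if_neg (fun h2 => h1 (hA2.1 h2)), if_pos h3]
  have e3 : Split.oth s t v e₀ ≠ v := by
    unfold Split.oth
    by_cases h1 : s e₀ = v
    · rw [if_pos h1]
      tauto
    · rw [if_neg h1]
      exact h1
  have f3 : Split.oth s t v f₀ ≠ v := by
    unfold Split.oth
    by_cases h1 : s f₀ = v
    · rw [if_pos h1]
      tauto
    · rw [if_neg h1]
      exact h1
  have hcard := Split.card_newt (Split.fl A s t) (Split.fl A t s) hne e1 f1
  simp only [Split.cut_fl] at hcard
  refine ⟨Split.fl A s t, Split.newt (Split.fl A t s) v e₀ f₀, fun X => ?_, fun X hX => ?_, ?_,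
    fun X => ?_⟩
  · rw [← hcard X, Nat.odd_add, iff_true_right (even_two_mul _)]
  · have hc := hcard X
    have hXo : Odd (cut s t X).card := by
      rw [← hc, Nat.odd_add, iff_true_right (even_two_mul _)]
      exact hX
    have hkX := h X hXo
    split_ifs at hc with hcond
    · -- the cut loses two edges
      rw [e2, f2] at hcond
      have hne' : (cut s t X).card ≠ k := by
        by_cases hvX : v ∈ X
        · have ha : Split.oth s t v e₀ ∈ Xᶜ := by
            rw [mem_compl]
            tauto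
          have hb : Split.oth s t v f₀ ∈ Xᶜ := by
            rw [mem_compl]
            tauto
          have := hgood Xᶜ (by simp [hvX]) ha hb
          rwa [Split.cut_compl_card] at this
        · exact hgood X hvX (by tauto) (by tauto)
      rcases hk with ⟨d, hd⟩
      rcases hXo with ⟨b, hb⟩
      omega
    · omega
  · rw [← Split.loops_fl A s t]
    exact Split.loops_newt _ _ hne e1 f1 (by rw [e2]; exact e3) (by rw [f2]; exact f3)
  · have := hcard X
    omega

/-- **Complete splitting** at the vertices of even degree. -/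
theorem exists_full (s t : E → V) {k : ℕ} (hk : Odd k) (h : OddCut s t k) :
    ∃ s' t' : E → V, (∀ X, Odd (cut s' t' X).card ↔ Odd (cut s t X).card) ∧ OddCut s' t' k ∧
      (∀ v, Even (cut s t {v}).card → (cut s' t' {v}).card = 0) ∧
      ∀ X, (cut s' t' X).card ≤ (cut s t X).card := by
  induction hm : (univ.filter fun e => s e ≠ t e).card using Nat.strong_induction_on
    generalizing s t with
  | _ m ih =>
  subst hm
  by_cases hev : ∃ v, Even (cut s t {v}).card ∧ (cut s t {v}).card ≠ 0
  · obtain ⟨v, hv, hv0⟩ := hev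
    obtain ⟨s₁, t₁, h1, h2, h3, h4⟩ := exists_splitC s t hk h v hv hv0
    obtain ⟨s', t', g1, g2, g3, g4⟩ := ih _ h3 s₁ t₁ h2 rfl
    refine ⟨s', t', fun X => (g1 X).trans (h1 X), g2, fun u hu => g3 u ?_,
      fun X => (g4 X).trans (h4 X)⟩
    rw [← Nat.not_odd_iff_even] at hu ⊢
    exact fun h5 => hu ((h1 {u}).1 h5)
  · push Not at hev
    exact ⟨s, t, fun X => Iff.rfl, h, hev, fun X => le_rfl⟩

/-- A charge of the split graph is a charge. -/
theorem Chg.mono {s t s' t' : E → V} {θ : ℝ} (hθ : 0 ≤ θ) {w : V → ℤ}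
    (h1 : ∀ X, Odd (cut s' t' X).card ↔ Odd (cut s t X).card)
    (h2 : ∀ X, (cut s' t' X).card ≤ (cut s t X).card) (h : Chg s' t' θ w) : Chg s t θ w := by
  refine ⟨fun v => ?_, fun Z => (h.2 Z).trans ?_⟩
  · have h3 := h.1 v
    have h4 := h1 {v}
    rw [Nat.odd_iff, Nat.odd_iff] at h4
    omega
  · exact mul_le_mul_of_nonneg_left (by exact_mod_cast h2 Z) hθ

theorem Chg.parity {s t : E → V} {θ : ℝ} {w : V → ℤ} (h : Chg s t θ w) (Z : Finset V) :
    (2 : ℤ) ∣ (∑ v ∈ Z, w v) - ((cut s t Z).card : ℤ) := by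
  classical
  have h1 : Even ((cut s t Z).card + ∑ v ∈ Z, (cut s t {v}).card) := by
    simp only [Split.card_cut]
    rw [sum_comm, ← sum_add_distrib]
    refine Finset.even_sum _ fun e _ => ?_
    unfold Split.ci
    by_cases h : s e = t e
    · simp [h]
    · have h3 : ∀ v : V, (if (s e ∈ ({v} : Finset V) ↔ t e ∈ ({v} : Finset V)) then 0 else 1)
          = (if s e = v then 1 else 0) + (if t e = v then 1 else 0) := by
        intro v
        by_cases h4 : s e = v <;> by_cases h5 : t e = v
        · exact absurd (h4.trans h5.symm) h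
        · simp [h4, h5]
        · simp [h4, h5]
        · simp [h4, h5]
      simp only [h3]
      rw [sum_add_distrib, sum_ite_eq, sum_ite_eq]
      by_cases h1 : s e ∈ Z <;> by_cases h2 : t e ∈ Z <;> simp [h1, h2]
  have h2 : (2 : ℤ) ∣ ∑ v ∈ Z, (w v - ((cut s t {v}).card : ℤ)) :=
    Finset.dvd_sum fun v _ => h.1 v
  rw [sum_sub_distrib] at h2
  obtain ⟨a, ha⟩ := h1
  obtain ⟨b, hb⟩ := h2
  have h3 : ((∑ v ∈ Z, (cut s t {v}).card : ℕ) : ℤ) = ∑ v ∈ Z, ((cut s t {v}).card : ℤ) := by
    push_cast
    rfl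
  omega

end Pool.Agent.OddFlow
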