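import Mathlib
import Pool.Agent.Work.MP_392c8e_co_odd.SplitC

/-!
# Cut conditions need to be checked only for bonds
-/

namespace Pool.Agent.OddFlow

open Finset Pool.Agent.Circ

set_option linter.unusedSectionVars false

variable {V E : Type*} [Fintype V] [DecidableEq V] [Fintype E] [DecidableEq E]

/-- Every partition of `Z` into two nonempty parts is crossed by an edge inside `Z`. -/
def ConnS (s t : E → V) (Z : Finset V) : Prop :=
  ∀ Y : Finset V, Y ⊆ Z → Y.Nonempty → Y ≠ Z →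
    ∃ e, (s e ∈ Y ∧ t e ∈ Z \ Y) ∨ (t e ∈ Y ∧ s e ∈ Z \ Y)

theorem card_cut_disj (s t : E → V) {Y Z : Finset V} (hYZ : Y ⊆ Z)
    (h : ∀ e, ¬ ((s e ∈ Y ∧ t e ∈ Z \ Y) ∨ (t e ∈ Y ∧ s e ∈ Z \ Y))) :
    (cut s t Z).card = (cut s t Y).card + (cut s t (Z \ Y)).card := by
  simp only [Split.card_cut]
  rw [← sum_add_distrib]
  refine sum_congr rfl fun e _ => ?_
  have h1 := h e
  unfold Split.ci
  simp only [mem_sdiff] at h1 ⊢
  by_cases a1 : s e ∈ Y <;> by_cases a2 : t e ∈ Y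
  · have b1 := hYZ a1
    have b2 := hYZ a2
    simp [a1, a2, b1, b2]
  · have b1 := hYZ a1
    by_cases b2 : t e ∈ Z
    · exact absurd (Or.inl ⟨a1, b2, a2⟩) h1
    · simp [a1, a2, b1, b2]
  · have b2 := hYZ a2
    by_cases b1 : s e ∈ Z
    · exact absurd (Or.inr ⟨a2, b1, a1⟩) h1
    · simp [a1, a2, b1, b2]
  · by_cases b1 : s e ∈ Z <;> by_cases b2 : t e ∈ Z <;> simp [a1, a2, b1, b2]

theorem cut_pos (s t : E → V) (hconn : ConnS s t univ) {Y : Finset V} (hY : Y.Nonempty)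
    (hY' : Y ≠ univ) : 0 < (cut s t Y).card := by
  obtain ⟨e, he⟩ := hconn Y (subset_univ _) hY hY'
  refine card_pos.2 ⟨e, ?_⟩
  simp only [cut, mem_filter, mem_univ, true_and]
  rcases he with ⟨h1, h2⟩ | ⟨h1, h2⟩
  · rw [mem_sdiff] at h2
    tauto
  · rw [mem_sdiff] at h2
    tauto

/-- **A cut condition has to be checked only for the sets `Z` for which `Z` and its complement
are connected.** -/
theorem bound_of_conn (s t : E → V) (hconn : ConnS s t univ) (w : V → ℤ) (hw0 : ∑ v, w v = 0)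
    (a b : ℕ) (h : ∀ Z, ConnS s t Z → ConnS s t Zᶜ → Z.Nonempty → Zᶜ.Nonempty →
      (b : ℤ) * |∑ v ∈ Z, w v| ≤ a * (cut s t Z).card) :
    ∀ Z, (b : ℤ) * |∑ v ∈ Z, w v| ≤ a * (cut s t Z).card := by
  intro Z
  induction hm : (cut s t Z).card using Nat.strong_induction_on generalizing Z with
  | _ m ih =>
  subst hm
  -- the step for a partition
  have step : ∀ (Z Y : Finset V), (cut s t Z).card ≤ (cut s t Z).card → Z ≠ univ → Y ⊆ Z →
      Y.Nonempty → Y ≠ Z →
      (∀ e, ¬ ((s e ∈ Y ∧ t e ∈ Z \ Y) ∨ (t e ∈ Y ∧ s e ∈ Z \ Y))) →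
      (∀ m < (cut s t Z).card, ∀ Z' : Finset V, (cut s t Z').card = m →
        (b : ℤ) * |∑ v ∈ Z', w v| ≤ a * (m : ℕ)) →
      (b : ℤ) * |∑ v ∈ Z, w v| ≤ a * (cut s t Z).card := by
    intro Z Y _ hZ hYZ hYn hYne hno ih
    have h1 := card_cut_disj s t hYZ hno
    have h2 : 0 < (cut s t Y).card := cut_pos s t hconn hYn (by
      rintro rfl
      exact hZ (univ_subset_iff.1 hYZ))
    have h3 : (Z \ Y).Nonempty := by
      rw [sdiff_nonempty]
      exact fun h4 => hYne (subset_antisymm hYZ h4)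
    have h4 : 0 < (cut s t (Z \ Y)).card := cut_pos s t hconn h3 (by
      intro h5
      obtain ⟨y, hy⟩ := hYn
      have h6 : y ∈ Z \ Y := by rw [h5]; exact mem_univ _
      exact (mem_sdiff.1 h6).2 hy)
    have h5 := ih _ (by omega) Y rfl
    have h6 := ih _ (by omega) (Z \ Y) rfl
    have h7 : ∑ v ∈ Z, w v = ∑ v ∈ Z \ Y, w v + ∑ v ∈ Y, w v := (sum_sdiff hYZ).symm
    have h8 := abs_add_le (∑ v ∈ Z \ Y, w v) (∑ v ∈ Y, w v)
    rw [h7, h1]
    push_cast
    have hb : (0 : ℤ) ≤ b := Int.natCast_nonneg b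
    nlinarith
  rcases Finset.eq_empty_or_nonempty Z with h0 | h0
  · rw [h0, sum_empty, abs_zero, mul_zero]
    positivity
  by_cases h1 : Z = univ
  · rw [h1, hw0, abs_zero, mul_zero]
    positivity
  have h1' : Zᶜ.Nonempty := by
    rw [← compl_ne_univ_iff_nonempty, compl_compl]
    exact h1
  by_cases h2 : ConnS s t Z
  · by_cases h3 : ConnS s t Zᶜ
    · exact h Z h2 h3 h0 h1'
    · unfold ConnS at h3
      push Not at h3
      obtain ⟨Y, hY1, hY2, hY3, hY4⟩ := h3
      have h4 := step Zᶜ Y le_rfl (by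
        rw [Ne, compl_eq_univ_iff]
        exact h0.ne_empty) hY1 hY2 hY3 (fun e => by
          have := hY4 e
          tauto) (by
        rw [Split.cut_compl_card]
        intro m hm Z' hZ'
        exact ih m hm Z' hZ')
      rw [Split.cut_compl_card] at h4
      have h5 : ∑ v ∈ Zᶜ, w v = -∑ v ∈ Z, w v := by
        have := Finset.sum_add_sum_compl Z w
        omega
      rwa [h5, abs_neg] at h4
  · unfold ConnS at h2
    push Not at h2
    obtain ⟨Y, hY1, hY2, hY3, hY4⟩ := h2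
    exact step Z Y le_rfl h1 hY1 hY2 hY3 (fun e => by
      have := hY4 e
      tauto) (by
      intro m hm Z' hZ'
      exact ih m hm Z' hZ')

end Pool.Agent.OddFlow
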