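import Mathlib
import Pool.Agent.Work.MP_392c8e_co_odd.Split
import Pool.Agent.Work.MP_974d84_co_circ.Final
import Pool.Agent.Work.MP_974d84_co.MHoffman

/-!
# Integral charges on few vertices

If a multigraph has at most eight vertices, all of them of odd degree at most `8`, and every
partition into `τ ≥ 2` classes has at least `3 (τ - 1) + 1` crossing edges, then there is a circle
valued flow within `3 / 10` of the antipode. The energy theorem gives a flow within `7 / 22`; the
charges of its signs are integers of the right parity, which improves the bound.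
-/

namespace Pool.Agent.OddFlow

open Finset Pool.Agent.Circ

set_option linter.unusedSectionVars false

variable {V E : Type*} [Fintype V] [DecidableEq V] [Fintype E] [DecidableEq E]

namespace Small

/-- The charge of a set of vertices for the orientation `σ`. -/
def ch (s t : E → V) (σ : E → ℤ) (Z : Finset V) : ℤ := ∑ e, MP974d84.ov s t σ Z e

theorem ch_eq (s t : E → V) (σ : E → ℤ) (Z : Finset V) :
    ch s t σ Z = ∑ v ∈ Z, MP974d84.D s t σ v := (MP974d84.D_cut s t σ Z).symm

theorem ch_univ (s t : E → V) (σ : E → ℤ) : ch s t σ univ = 0 := by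
  rw [ch_eq, MP974d84.D_total]

theorem ch_single (s t : E → V) (σ : E → ℤ) (v : V) : ch s t σ {v} = MP974d84.D s t σ v := by
  rw [ch_eq, sum_singleton]

theorem ch_parity (s t : E → V) (σ : E → ℤ) (hσ : ∀ e, σ e = 1 ∨ σ e = -1) (Z : Finset V) :
    (2 : ℤ) ∣ ch s t σ Z - (cut s t Z).card := by
  rw [ch, Split.card_cut, Nat.cast_sum, ← sum_sub_distrib]
  refine dvd_sum fun e _ => ?_
  unfold Split.ci MP974d84.ov
  by_cases h1 : s e ∈ Z <;> by_cases h2 : t e ∈ Z <;> rcases hσ e with h | h <;>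
    simp [h1, h2, h]

theorem ch_bound (s t : E → V) (σ : E → ℤ) (f : E → ℝ) (hf : ∀ v, dv s t f v = 0) (θ : ℝ)
    (hb : ∀ e, |(σ e : ℝ) - f e| ≤ θ) (Z : Finset V) :
    |(ch s t σ Z : ℝ)| ≤ θ * (cut s t Z).card := by
  have h1 : ∑ e, ((if s e ∈ Z then f e else 0) - (if t e ∈ Z then f e else 0)) = 0 := by
    have h2 := MP974d84.D_cut s t f Z
    rw [← show (∑ e, MP974d84.ov s t f Z e) =
      ∑ e, ((if s e ∈ Z then f e else 0) - (if t e ∈ Z then f e else 0)) from rfl, ← h2]
    exact Finset.sum_eq_zero fun v _ => hf v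
  have h2 : (ch s t σ Z : ℝ) = ∑ e, (((if s e ∈ Z then (σ e : ℝ) else 0) -
      (if t e ∈ Z then (σ e : ℝ) else 0)) -
      ((if s e ∈ Z then f e else 0) - (if t e ∈ Z then f e else 0))) := by
    rw [sum_sub_distrib, h1, sub_zero, ch, Int.cast_sum]
    refine sum_congr rfl fun e _ => ?_
    unfold MP974d84.ov
    push_cast
    rfl
  rw [h2]
  refine (Finset.abs_sum_le_sum_abs _ _).trans ?_
  rw [Split.card_cut, Nat.cast_sum, mul_sum]
  refine sum_le_sum fun e _ => ?_
  have h3 := hb e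
  have h4 := abs_sub_comm (σ e : ℝ) (f e)
  unfold Split.ci
  by_cases h1 : s e ∈ Z <;> by_cases h2 : t e ∈ Z
  · simp [h1, h2]
  · simp only [h1, h2, if_true, if_false, sub_zero, iff_false, not_true_eq_false, Nat.cast_one,
      mul_one]
    exact h3
  · simp only [h1, h2, if_true, if_false, zero_sub, iff_true, Nat.cast_one, mul_one]
    rw [show -(σ e : ℝ) - -f e = -((σ e : ℝ) - f e) by ring, abs_neg]
    exact h3
  · simp [h1, h2]

/-- A circle valued flow from integral charges. -/
theorem good_of_ch (s t : E → V) (σ : E → ℤ) (hσ : ∀ e, σ e = 1 ∨ σ e = -1)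
    (h : ∀ Z : Finset V, 10 * |ch s t σ Z| ≤ 3 * (cut s t Z).card) : Good s t (3 / 10) := by
  obtain ⟨g, hg, hgD⟩ := MP974d84.hoffmanE s t (fun _ => -3) (fun _ => 3) (fun _ => by norm_num)
    (fun v => -(10 * MP974d84.D s t σ v)) (by
      rw [sum_neg_distrib, ← mul_sum, MP974d84.D_total, mul_zero, neg_zero]) (by
      intro Z
      have h1 : ∑ e, MP974d84.cap s t (fun _ => -3) (fun _ => 3) Z e =
          3 * ((cut s t Z).card : ℤ) := by
        rw [Split.card_cut, Nat.cast_sum, mul_sum]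
        refine sum_congr rfl fun e _ => ?_
        unfold MP974d84.cap Split.ci
        by_cases h1 : s e ∈ Z <;> by_cases h2 : t e ∈ Z <;> simp [h1, h2]
      have h2 := h Z
      have h3 := neg_abs_le (ch s t σ Z)
      rw [h1, sum_neg_distrib, ← mul_sum, ← ch_eq]
      linarith)
  refine ⟨fun e => (((σ e : ℝ) + (g e : ℝ) / 10 : ℝ) : AddCircle (2 : ℝ)), fun v => ?_,
    fun e => ?_⟩
  · have h1 : dv s t (fun e => (σ e : ℝ) + (g e : ℝ) / 10) v = 0 := by
      have h2 := hgD v
      have h3 : (dv s t (fun e => (σ e : ℝ) + (g e : ℝ) / 10) v : ℝ) =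
          ((MP974d84.D s t σ v : ℤ) : ℝ) + ((MP974d84.D s t g v : ℤ) : ℝ) / 10 := by
        unfold dv MP974d84.D
        push_cast
        rw [Finset.sum_div, ← sum_add_distrib]
        refine sum_congr rfl fun e _ => ?_
        split_ifs <;> ring
      rw [h3, h2]
      push_cast
      ring
    have h4 : dvT s t (fun e => (((σ e : ℝ) + (g e : ℝ) / 10 : ℝ) : AddCircle (2 : ℝ))) v =
        ((dv s t (fun e => (σ e : ℝ) + (g e : ℝ) / 10) v : ℝ) : AddCircle (2 : ℝ)) := by
      unfold dvT dv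
      have h5 : ∀ F : E → ℝ, ((∑ e, F e : ℝ) : AddCircle (2 : ℝ)) =
          ∑ e, ((F e : ℝ) : AddCircle (2 : ℝ)) := fun F =>
        map_sum (QuotientAddGroup.mk' (AddSubgroup.zmultiples (2 : ℝ))) F univ
      rw [h5]
      refine sum_congr rfl fun e _ => ?_
      split_ifs <;> simp
    rw [h4, h1]
    rfl
  · have hb : |(g e : ℝ) / 10| ≤ 3 / 10 := by
      have h1 : ((-3 : ℤ) : ℝ) ≤ g e := by exact_mod_cast (hg e).1
      have h2 : (g e : ℝ) ≤ ((3 : ℤ) : ℝ) := by exact_mod_cast (hg e).2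
      push_cast at h1 h2
      rw [abs_le]
      constructor <;> linarith
    have hn : ∀ y : ℝ, |y| ≤ 3 / 10 → ‖(y : AddCircle (2 : ℝ))‖ ≤ 3 / 10 := by
      intro y hy
      refine le_trans ?_ hy
      have h := QuotientAddGroup.norm_mk_le_norm (S := AddSubgroup.zmultiples (2 : ℝ)) (m := y)
      simpa [Real.norm_eq_abs] using h
    show ‖(((σ e : ℝ) + (g e : ℝ) / 10 : ℝ) : AddCircle (2 : ℝ)) -
      ((1 : ℝ) : AddCircle (2 : ℝ))‖ ≤ 3 / 10
    rcases hσ e with h1 | h1
    · rw [h1, ← AddCircle.coe_sub]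
      have h2 : (((1 : ℤ) : ℝ) + (g e : ℝ) / 10 - 1) = (g e : ℝ) / 10 := by push_cast; ring
      rw [h2]
      exact hn _ hb
    · rw [h1, ← AddCircle.coe_sub]
      have h2 : ((((-1 : ℤ) : ℝ) + (g e : ℝ) / 10 - 1 : ℝ) : AddCircle (2 : ℝ)) =
          ((g e : ℝ) / 10 : ℝ) := by
        have h3 : (((-1 : ℤ) : ℝ) + (g e : ℝ) / 10 - 1) = (g e : ℝ) / 10 - 2 := by
          push_cast; ring
        rw [h3, AddCircle.coe_sub, AddCircle.coe_period, sub_zero]
      rw [h2]
      exact hn _ hb

end Small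

theorem good_small (s t : E → V) (hV : Fintype.card V ≤ 8)
    (hdeg : ∀ v, Odd (cut s t {v}).card ∧ (cut s t {v}).card ≤ 8)
    (hp : ∀ p : V → ℕ, 2 ≤ (univ.image p).card →
      3 * (univ.image p).card ≤ (univ.filter fun e => p (s e) ≠ p (t e)).card + 2) :
    Good s t (3 / 10) := by
  classical
  obtain ⟨f, hf, hb⟩ := main_theta s t (7 / 22 : ℝ) (by norm_num) (by norm_num) (by
    intro p
    rcases Nat.lt_or_ge (univ.image p).card 2 with h1 | h1
    · have h2 : ((univ.image p).card : ℝ) ≤ 1 := by exact_mod_cast (by omega)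
      have h3 : (0 : ℝ) ≤ 7 / 22 * ((univ.filter fun e => p (s e) ≠ p (t e)).card : ℝ) := by
        positivity
      linarith
    · have h2 := hp p h1
      have h3 : (univ.image p).card ≤ 8 := card_image_le.trans hV
      have h4 : 22 * (univ.image p).card ≤
          7 * (univ.filter fun e => p (s e) ≠ p (t e)).card + 22 := by omega
      have h5 : (22 : ℝ) * (univ.image p).card ≤
          7 * ((univ.filter fun e => p (s e) ≠ p (t e)).card : ℝ) + 22 := by exact_mod_cast h4
      linarith)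
  set σ : E → ℤ := fun e => if 0 ≤ f e then 1 else -1 with hσdef
  have hσ : ∀ e, σ e = 1 ∨ σ e = -1 := by
    intro e
    simp only [hσdef]
    split_ifs
    · exact Or.inl rfl
    · exact Or.inr rfl
  have hσb : ∀ e, |(σ e : ℝ) - f e| ≤ 7 / 22 := by
    intro e
    obtain ⟨h1, h2⟩ := hb e
    simp only [hσdef]
    split_ifs with h3
    · rw [abs_of_nonneg h3] at h1 h2
      push_cast
      rw [abs_le]
      constructor <;> linarith
    · push Not at h3
      rw [abs_of_neg h3] at h1 h2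
      push_cast
      rw [abs_le]
      constructor <;> linarith
  have h22 : ∀ Z : Finset V, 22 * |Small.ch s t σ Z| ≤ 7 * ((cut s t Z).card : ℤ) := by
    intro Z
    have h1 := Small.ch_bound s t σ f hf _ hσb Z
    have h2 : (22 : ℝ) * |(Small.ch s t σ Z : ℝ)| ≤ 7 * (cut s t Z).card := by linarith
    have h3 : ((22 * |Small.ch s t σ Z| : ℤ) : ℝ) ≤ ((7 * ((cut s t Z).card : ℤ) : ℤ) : ℝ) := by
      push_cast
      exact h2
    exact_mod_cast h3
  have hv1 : ∀ v, |Small.ch s t σ {v}| ≤ 1 := by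
    intro v
    have h1 := h22 {v}
    obtain ⟨⟨a, ha⟩, h3⟩ := hdeg v
    obtain ⟨b, hb'⟩ := Small.ch_parity s t σ hσ {v}
    have h4 : |Small.ch s t σ {v}| ≤ 2 := by omega
    rw [abs_le] at h4 ⊢
    omega
  have hle : ∀ Z : Finset V, |Small.ch s t σ Z| ≤ Z.card := by
    intro Z
    rw [Small.ch_eq]
    refine (Finset.abs_sum_le_sum_abs _ _).trans ?_
    have h1 : ∀ v ∈ Z, |MP974d84.D s t σ v| ≤ 1 := by
      intro v _
      rw [← Small.ch_single]
      exact hv1 v
    refine (Finset.sum_le_card_nsmul _ _ _ h1).trans ?_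
    simp
  have hle4 : ∀ Z : Finset V, |Small.ch s t σ Z| ≤ 4 := by
    intro Z
    have h1 := hle Z
    have h2 := hle Zᶜ
    have h3 : Small.ch s t σ Z + Small.ch s t σ Zᶜ = 0 := by
      rw [← Small.ch_univ s t σ, Small.ch_eq, Small.ch_eq, Small.ch_eq, sum_add_sum_compl]
    have h4 : |Small.ch s t σ Zᶜ| = |Small.ch s t σ Z| := by
      rw [show Small.ch s t σ Zᶜ = -Small.ch s t σ Z by linarith, abs_neg]
    rw [h4, card_compl] at h2
    have h5 := card_le_univ Z
    omega
  refine Small.good_of_ch s t σ hσ fun Z => ?_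
  have h1 := h22 Z
  have h2 := hle4 Z
  obtain ⟨b, hb'⟩ := Small.ch_parity s t σ hσ Z
  rcases abs_cases (Small.ch s t σ Z) with ⟨h3, h4⟩ | ⟨h3, h4⟩
  · rw [h3] at h1 h2 ⊢
    generalize Small.ch s t σ Z = x at *
    generalize (cut s t Z).card = d at *
    have hx : x = 0 ∨ x = 1 ∨ x = 2 ∨ x = 3 ∨ x = 4 := by omega
    rcases hx with rfl | rfl | rfl | rfl | rfl <;> omega
  · rw [h3] at h1 h2 ⊢
    generalize Small.ch s t σ Z = x at *
    generalize (cut s t Z).card = d at *
    have hx : x = -1 ∨ x = -2 ∨ x = -3 ∨ x = -4 := by omega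
    rcases hx with rfl | rfl | rfl | rfl <;> omega

end Pool.Agent.OddFlow
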