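import Mathlib
import Pool.Agent.Work.MP_392c8e_co_odd.Chg
import Pool.Agent.Work.MP_392c8e_co_odd.Small

/-!
# Integral charges of circle valued flows

A circle valued flow near the antipode gives integers on the vertices which have the parity of the
degrees and satisfy a cut condition.
-/

namespace Pool.Agent.OddFlow

open Finset Pool.Agent.Circ

set_option linter.unusedSectionVars false

variable {V E : Type*} [Fintype V] [DecidableEq V] [Fintype E] [DecidableEq E]

namespace Charge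

/-- A point near the antipode has a lift near `1`. -/
theorem exists_lift (x : AddCircle (2 : ℝ)) (θ : ℝ)
    (h : ‖x - ((1 : ℝ) : AddCircle (2 : ℝ))‖ ≤ θ) :
    ∃ y : ℝ, |y| ≤ θ ∧ x = ((1 + y : ℝ) : AddCircle (2 : ℝ)) := by
  obtain ⟨z, hz⟩ := QuotientAddGroup.mk_surjective (x - ((1 : ℝ) : AddCircle (2 : ℝ)))
  have hz' : (z : AddCircle (2 : ℝ)) = x - ((1 : ℝ) : AddCircle (2 : ℝ)) := hz
  refine ⟨z - round ((2 : ℝ)⁻¹ * z) * 2, ?_, ?_⟩
  · rw [← AddCircle.norm_eq (2 : ℝ), hz']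
    exact h
  · have h1 : ((round ((2 : ℝ)⁻¹ * z) * 2 : ℝ) : AddCircle (2 : ℝ)) = 0 :=
      (AddCircle.coe_eq_zero_iff (2 : ℝ)).2 ⟨round ((2 : ℝ)⁻¹ * z), by simp⟩
    rw [AddCircle.coe_add, AddCircle.coe_sub, h1, sub_zero, hz']
    abel

/-- The outflow of a bounded function. -/
theorem dv_bound (s t : E → V) (y : E → ℝ) (θ : ℝ) (hy : ∀ e, |y e| ≤ θ) (Z : Finset V) :
    |∑ v ∈ Z, dv s t y v| ≤ θ * (cut s t Z).card := by
  have h1 : ∑ v ∈ Z, dv s t y v = ∑ e, MP974d84.ov s t y Z e := MP974d84.D_cut s t y Z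
  rw [h1]
  refine (Finset.abs_sum_le_sum_abs _ _).trans ?_
  rw [Split.card_cut, Nat.cast_sum, mul_sum]
  refine sum_le_sum fun e _ => ?_
  have h3 := hy e
  unfold Split.ci MP974d84.ov
  by_cases h1 : s e ∈ Z <;> by_cases h2 : t e ∈ Z <;> simp [h1, h2, h3]

/-- The value in the circle of the outflow. -/
theorem dvT_coe (s t : E → V) (y : E → ℝ) (v : V) :
    dvT s t (fun e => ((y e : ℝ) : AddCircle (2 : ℝ))) v =
      ((dv s t y v : ℝ) : AddCircle (2 : ℝ)) := by
  unfold dvT dv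
  have h5 : ∀ F : E → ℝ, ((∑ e, F e : ℝ) : AddCircle (2 : ℝ)) =
      ∑ e, ((F e : ℝ) : AddCircle (2 : ℝ)) := fun F =>
    map_sum (QuotientAddGroup.mk' (AddSubgroup.zmultiples (2 : ℝ))) F univ
  rw [h5]
  refine sum_congr rfl fun e _ => ?_
  split_ifs <;> simp

theorem one_parity (s t : E → V) (Z : Finset V) :
    (2 : ℤ) ∣ ∑ v ∈ Z, MP974d84.D s t (fun _ => (1 : ℤ)) v - (cut s t Z).card := by
  have h := Small.ch_parity s t (fun _ => (1 : ℤ)) (fun _ => Or.inl rfl) Z
  rwa [Small.ch_eq] at h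

theorem dv_one_add (s t : E → V) (y : E → ℝ) (v : V) :
    dv s t (fun e => 1 + y e) v =
      ((MP974d84.D s t (fun _ => (1 : ℤ)) v : ℤ) : ℝ) + dv s t y v := by
  unfold dv MP974d84.D
  push_cast
  rw [← sum_add_distrib]
  refine sum_congr rfl fun e _ => ?_
  split_ifs <;> ring

end Charge

/-- The integral charges of a circle valued flow near the antipode. -/
theorem chg_of_good (s t : E → V) {θ : ℝ} (h : Good s t θ) : ∃ w : V → ℤ, Chg s t θ w := by
  obtain ⟨f, hf, hb⟩ := h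
  choose y hy hfy using fun e => Charge.exists_lift (f e) θ (hb e)
  have h1 : ∀ v, ∃ m : ℤ, dv s t (fun e => 1 + y e) v = 2 * m := by
    intro v
    have h2 : ((dv s t (fun e => 1 + y e) v : ℝ) : AddCircle (2 : ℝ)) = 0 := by
      rw [← Charge.dvT_coe, ← hf v]
      congr 1
      funext e
      exact (hfy e).symm
    obtain ⟨m, hm⟩ := (AddCircle.coe_eq_zero_iff (2 : ℝ)).1 h2
    refine ⟨m, ?_⟩
    rw [← hm, zsmul_eq_mul]
    ring
  choose m hm using h1
  have hw : ∀ v, ((MP974d84.D s t (fun _ => (1 : ℤ)) v - 2 * m v : ℤ) : ℝ) = -dv s t y v := by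
    intro v
    have h2 := hm v
    rw [Charge.dv_one_add] at h2
    push_cast
    linarith
  refine ⟨fun v => MP974d84.D s t (fun _ => (1 : ℤ)) v - 2 * m v, fun v => ?_, fun Z => ?_⟩
  · have h2 := Charge.one_parity s t {v}
    rw [sum_singleton] at h2
    show (2 : ℤ) ∣ MP974d84.D s t (fun _ => (1 : ℤ)) v - 2 * m v - ((cut s t {v}).card : ℤ)
    omega
  · rw [Int.cast_sum, sum_congr rfl fun v _ => hw v, sum_neg_distrib, abs_neg]
    exact Charge.dv_bound s t y θ hy Z

end Pool.Agent.OddFlow
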