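import Mathlib
import Pool.Agent.Work.MP_392c8e_co_odd.ChgOf

/-!
# Circle valued flows from integral charges

By Hoffman's theorem integral charges with the cut condition give a circle valued flow near the
antipode.  If the charges live on odd vertices of small degree, only cuts with few edges compared
to the numbers of odd vertices on both sides have to be checked.
-/

namespace Pool.Agent.OddFlow

open Finset Pool.Agent.Circ

set_option linter.unusedSectionVars false

variable {V E : Type*} [Fintype V] [DecidableEq V] [Fintype E] [DecidableEq E]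

/-- The parity of the charge of a set. -/
theorem chg_parity (s t : E → V) {w : V → ℤ}
    (hp : ∀ v, (2 : ℤ) ∣ w v - ((cut s t {v}).card : ℤ)) (Z : Finset V) :
    (2 : ℤ) ∣ ∑ v ∈ Z, w v - ((cut s t Z).card : ℤ) := by
  have h1 := Charge.one_parity s t Z
  have h2 : (2 : ℤ) ∣ ∑ v ∈ Z, (w v - MP974d84.D s t (fun _ => (1 : ℤ)) v) := by
    refine dvd_sum fun v _ => ?_
    have h3 := hp v
    have h4 := Charge.one_parity s t {v}
    rw [sum_singleton] at h4
    omega
  rw [sum_sub_distrib] at h2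
  omega

/-- The total charge is zero. -/
theorem chg_total (s t : E → V) {θ : ℝ} {w : V → ℤ} (h : Chg s t θ w) : ∑ v, w v = 0 := by
  have h1 := h.2 univ
  have h2 : (cut s t univ).card = 0 := by
    rw [card_eq_zero, cut, filter_eq_empty_iff]
    intro e _
    simp
  rw [h2, Nat.cast_zero, mul_zero, abs_le] at h1
  have h3 : ((∑ v, w v : ℤ) : ℝ) = 0 := by linarith [h1.1, h1.2]
  exact_mod_cast h3

/-- Hoffman's theorem: integral charges with the cut condition give a circle valued flow near the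
antipode. -/
theorem good_of_chg (s t : E → V) {a b : ℕ} (hb : 0 < b) {w : V → ℤ}
    (h : Chg s t ((a : ℝ) / b) w) : Good s t ((a : ℝ) / b) := by
  have h0 := chg_total s t h
  obtain ⟨hp, hc⟩ := h
  have hb0 : (0 : ℝ) < b := by exact_mod_cast hb
  have hc' : ∀ Z : Finset V, (b : ℤ) * |∑ v ∈ Z, w v| ≤ a * (cut s t Z).card := by
    intro Z
    have h1 := hc Z
    rw [div_mul_eq_mul_div, le_div_iff₀ hb0] at h1
    have h2 : (((b : ℤ) * |∑ v ∈ Z, w v| : ℤ) : ℝ) ≤ ((a * (cut s t Z).card : ℤ) : ℝ) := by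
      rw [Int.cast_mul, Int.cast_abs]
      push_cast at h1 ⊢
      linarith
    exact_mod_cast h2
  obtain ⟨g, hg, hgD⟩ := MP974d84.hoffmanE s t (fun _ => -(a : ℤ)) (fun _ => (a : ℤ))
    (fun _ => by omega) (fun v => -((b : ℤ) * w v)) (by
      rw [sum_neg_distrib, ← mul_sum, h0, mul_zero, neg_zero]) (by
      intro Z
      have h1 : ∑ e, MP974d84.cap s t (fun _ => -(a : ℤ)) (fun _ => (a : ℤ)) Z e =
          a * ((cut s t Z).card : ℤ) := by
        rw [Split.card_cut, Nat.cast_sum, mul_sum]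
        refine sum_congr rfl fun e _ => ?_
        unfold MP974d84.cap Split.ci
        by_cases h1 : s e ∈ Z <;> by_cases h2 : t e ∈ Z <;> simp [h1, h2]
      have h2 := hc' Z
      have h3 : (b : ℤ) * -(∑ v ∈ Z, w v) ≤ (b : ℤ) * |∑ v ∈ Z, w v| :=
        mul_le_mul_of_nonneg_left (neg_le_abs _) (by positivity)
      rw [h1, sum_neg_distrib, ← mul_sum]
      linarith)
  refine ⟨fun e => ((1 + (g e : ℝ) / b : ℝ) : AddCircle (2 : ℝ)), fun v => ?_, fun e => ?_⟩
  · rw [Charge.dvT_coe s t (fun e => 1 + (g e : ℝ) / b) v, Charge.dv_one_add]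
    have h2 : dv s t (fun e => (g e : ℝ) / b) v = -(w v : ℝ) := by
      have h3 : dv s t (fun e => (g e : ℝ) / b) v = ((MP974d84.D s t g v : ℤ) : ℝ) / b := by
        unfold dv MP974d84.D
        push_cast
        rw [Finset.sum_div]
        refine sum_congr rfl fun e _ => ?_
        split_ifs <;> ring
      rw [h3, hgD v]
      push_cast
      field_simp
    rw [h2]
    have h4 := Charge.one_parity s t {v}
    rw [sum_singleton] at h4
    obtain ⟨m, hm⟩ : (2 : ℤ) ∣ MP974d84.D s t (fun _ => (1 : ℤ)) v - w v := by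
      have := hp v
      omega
    refine (AddCircle.coe_eq_zero_iff (2 : ℝ)).2 ⟨m, ?_⟩
    have h5 : ((MP974d84.D s t (fun _ => (1 : ℤ)) v - w v : ℤ) : ℝ) = ((2 * m : ℤ) : ℝ) := by
      rw [hm]
    push_cast at h5
    rw [zsmul_eq_mul]
    linarith
  · have hb' : |(g e : ℝ) / b| ≤ a / b := by
      have h1 : (-(a : ℝ)) ≤ g e := by exact_mod_cast (hg e).1
      have h2 : (g e : ℝ) ≤ a := by exact_mod_cast (hg e).2
      rw [abs_div, abs_of_pos hb0]
      exact div_le_div_of_nonneg_right (abs_le.2 ⟨h1, h2⟩) hb0.le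
    show ‖((1 + (g e : ℝ) / b : ℝ) : AddCircle (2 : ℝ)) -
      ((1 : ℝ) : AddCircle (2 : ℝ))‖ ≤ a / b
    rw [← AddCircle.coe_sub, add_sub_cancel_left]
    refine le_trans ?_ hb'
    have h := QuotientAddGroup.norm_mk_le_norm (S := AddSubgroup.zmultiples (2 : ℝ))
      (m := (g e : ℝ) / b)
    rw [Real.norm_eq_abs] at h
    exact h

/-- Charges at odd vertices of small degree: only cuts with few edges compared to the numbers of
odd vertices on both sides have to be checked. -/
theorem good_of_critical (s t : E → V) {θ : ℝ} {w : V → ℤ} (h : Chg s t θ w)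
    (hz : ∀ v, v ∉ oddV s t → w v = 0)
    (hdeg : ∀ v ∈ oddV s t, θ * (cut s t {v}).card < 3) {a b : ℕ} (hb : 0 < b)
    (H : ∀ (Z : Finset V) (q : ℕ), (Even q ↔ Even (cut s t Z).card) →
      q ≤ (Z ∩ oddV s t).card → q ≤ (Zᶜ ∩ oddV s t).card →
      (q : ℝ) ≤ θ * (cut s t Z).card → b * q ≤ a * (cut s t Z).card) :
    Good s t ((a : ℝ) / b) := by
  have h0 := chg_total s t h
  obtain ⟨hp, hθ⟩ := h
  have hb0 : (0 : ℝ) < b := by exact_mod_cast hb
  have hw1 : ∀ v, |w v| ≤ 1 := by
    intro v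
    by_cases hv : v ∈ oddV s t
    · have h1 := hθ {v}
      rw [sum_singleton] at h1
      have h2 := lt_of_le_of_lt h1 (hdeg v hv)
      have h3 : |w v| < 3 := by exact_mod_cast h2
      have h4 := hp v
      rw [oddV, mem_filter] at hv
      obtain ⟨c, hc⟩ := hv.2
      rw [abs_lt] at h3
      rw [abs_le]
      omega
    · rw [hz v hv]
      norm_num
  have hle : ∀ Z : Finset V, |∑ v ∈ Z, w v| ≤ (Z ∩ oddV s t).card := by
    intro Z
    have h1 : ∑ v ∈ Z, w v = ∑ v ∈ Z ∩ oddV s t, w v := by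
      symm
      refine sum_subset inter_subset_left fun v hv hv' => hz v fun h => hv' ?_
      exact mem_inter.2 ⟨hv, h⟩
    rw [h1]
    refine (Finset.abs_sum_le_sum_abs _ _).trans ?_
    refine (Finset.sum_le_card_nsmul _ _ _ fun v _ => hw1 v).trans ?_
    simp
  refine good_of_chg s t hb ⟨hp, fun Z => ?_⟩
  have h1 : |∑ v ∈ Zᶜ, w v| = |∑ v ∈ Z, w v| := by
    have h2 : ∑ v ∈ Z, w v + ∑ v ∈ Zᶜ, w v = 0 := by rw [sum_add_sum_compl, h0]
    rw [show ∑ v ∈ Zᶜ, w v = -∑ v ∈ Z, w v by linarith, abs_neg]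
  have h3 : ((∑ v ∈ Z, w v).natAbs : ℤ) = |∑ v ∈ Z, w v| := Int.natCast_natAbs _
  have h2 := H Z (∑ v ∈ Z, w v).natAbs (by
    have h4 := chg_parity s t hp Z
    rw [Nat.even_iff, Nat.even_iff]
    omega) (by
    have := hle Z
    omega) (by
    have := hle Zᶜ
    rw [h1] at this
    omega) (by
    have := hθ Z
    rw [Nat.cast_natAbs, Int.cast_abs]
    exact this)
  have h5 : ((b * (∑ v ∈ Z, w v).natAbs : ℕ) : ℝ) ≤ ((a * (cut s t Z).card : ℕ) : ℝ) := by
    exact_mod_cast h2
  rw [div_mul_eq_mul_div, le_div_iff₀ hb0]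
  push_cast at h5
  rw [Nat.cast_natAbs, Int.cast_abs] at h5
  linarith

end Pool.Agent.OddFlow
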