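import Mathlib
import Pool.Agent.Work.MP_392c8e_co_odd.Defs
import Pool.Agent.Work.MP_974d84_co_circ.Final

/-!
# Circle valued flows with prescribed divergence
-/

namespace Pool.Agent.OddFlow

open Finset Pool.Agent.Circ

set_option linter.unusedSectionVars false

universe u w

variable {V : Type u} {E : Type w} [Fintype V] [DecidableEq V] [Fintype E] [DecidableEq E]

/-- In a connected graph every function with sum zero is a divergence. -/
theorem offset_chain (s t : E → V)
    (hcut : ∀ X : Finset V, X.Nonempty → X ≠ univ → (cut s t X).Nonempty)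
    (γ : V → ℝ) (hγ : ∑ v, γ v = 0) : ∃ z : E → ℝ, ∀ v, dv s t z v = γ v := by
  classical
  let L : (E → ℝ) →ₗ[ℝ] (V → ℝ) :=
    { toFun := fun z v => dv s t z v
      map_add' := fun a b => by
        funext v
        exact dv_add s t a b v
      map_smul' := fun a b => by
        funext v
        exact dv_smul s t b a v }
  by_cases hmem : γ ∈ LinearMap.range L
  · obtain ⟨z, hz⟩ := hmem
    exact ⟨z, fun v => congrFun hz v⟩
  · exfalso
    obtain ⟨φ, hφ, hker⟩ := Submodule.exists_le_ker_of_notMem hmem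
    set y : V → ℝ := fun v => φ (fun u => if u = v then 1 else 0) with hy
    have hφy : ∀ w : V → ℝ, φ w = ∑ v, y v * w v := by
      intro w
      have h1 : w = ∑ v, w v • (fun u => if u = v then (1 : ℝ) else 0) := by
        funext u
        simp [Finset.sum_apply]
      conv_lhs => rw [h1]
      rw [map_sum]
      refine Finset.sum_congr rfl fun v _ => ?_
      rw [map_smul, smul_eq_mul, mul_comm]
    have hedge : ∀ e, y (s e) = y (t e) := by
      intro e0
      have h1 : L (fun e => if e = e0 then 1 else 0) ∈ LinearMap.ker φ :=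
        hker (LinearMap.mem_range_self _ _)
      rw [LinearMap.mem_ker, hφy] at h1
      have h2 : ∀ v, L (fun e => if e = e0 then 1 else 0) v =
          (if s e0 = v then 1 else 0) - (if t e0 = v then 1 else 0) := dv_single s t e0
      simp_rw [h2, mul_sub, mul_ite, mul_one, mul_zero] at h1
      rw [Finset.sum_sub_distrib] at h1
      simp only [Finset.sum_ite_eq, Finset.mem_univ, if_true] at h1
      linarith
    apply hφ
    rw [hφy]
    rcases isEmpty_or_nonempty V with hV | hV
    · simp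
    obtain ⟨v0⟩ := hV
    have hconst : ∀ v, y v = y v0 := by
      by_contra! hcon
      obtain ⟨v1, hv1⟩ := hcon
      obtain ⟨e, he⟩ := hcut (univ.filter fun v => y v = y v0) ⟨v0, by simp⟩ (fun h => hv1 (by
        have : v1 ∈ univ.filter fun v => y v = y v0 := by
          rw [h]
          exact mem_univ v1
        simpa using this))
      simp only [cut, mem_filter, mem_univ, true_and] at he
      exact he (by rw [hedge e])
    calc ∑ v, y v * γ v = ∑ v, y v0 * γ v := Finset.sum_congr rfl fun v _ => by rw [hconst v]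
      _ = 0 := by rw [← Finset.mul_sum, hγ, mul_zero]

/-- The coset of chains with divergence `γ` modulo `2`. -/
def offset_Cos (s t : E → V) (γ : V → ℝ) : Set (E → ℝ) :=
  {z | ∀ v, ∃ q : ℤ, dv s t z v = γ v + 2 * q}

theorem offset_isClosed (s t : E → V) (γ : V → ℝ) : IsClosed (offset_Cos s t γ) := by
  have h : offset_Cos s t γ = ⋂ v, (fun z : E → ℝ => dv s t z v) ⁻¹'
      (Set.range fun q : ℤ => γ v + 2 * (q : ℝ)) := by
    ext z
    simp only [offset_Cos, Set.mem_ofPred_eq, Set.mem_iInter, Set.mem_preimage, Set.mem_range,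
      eq_comm]
  rw [h]
  refine isClosed_iInter fun v => IsClosed.preimage (continuous_dv s t v) ?_
  have h1 : (Set.range fun q : ℤ => γ v + 2 * (q : ℝ)) =
      (fun r : ℝ => (r - γ v) / 2) ⁻¹' (Set.range ((↑) : ℤ → ℝ)) := by
    ext r
    simp only [Set.mem_range, Set.mem_preimage]
    constructor
    · rintro ⟨q, rfl⟩
      exact ⟨q, by ring⟩
    · rintro ⟨q, hq⟩
      refine ⟨q, ?_⟩
      rw [hq]
      ring
  rw [h1]
  refine IsClosed.preimage (by fun_prop) ?_
  exact Int.isClosedEmbedding_coe_real.isClosed_range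

theorem offset_exists_min (s t : E → V) (c : E → ℝ) (hc : ∀ e, 0 < c e) (γ : V → ℝ)
    (z₀ : E → ℝ) (hz₀ : z₀ ∈ offset_Cos s t γ) :
    ∃ z ∈ offset_Cos s t γ, ∀ z' ∈ offset_Cos s t γ, En c z ≤ En c z' := by
  set R : ℝ := En c z₀ with hR
  set K : Set (E → ℝ) := offset_Cos s t γ ∩ {z | En c z ≤ R} with hK
  have hKc : IsClosed K :=
    (offset_isClosed s t γ).inter (isClosed_le (continuous_En c) continuous_const)
  have hsub : K ⊆ Set.pi Set.univ fun e : E => Set.Icc (-(1 + c e * R)) (1 + c e * R) := by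
    intro z hz e _
    have h2 : z e ^ 2 / c e ≤ R := by
      refine le_trans ?_ hz.2
      exact Finset.single_le_sum (f := fun e => z e ^ 2 / c e)
        (fun i _ => div_nonneg (sq_nonneg _) (hc i).le) (mem_univ e)
    rw [div_le_iff₀ (hc e)] at h2
    constructor <;> nlinarith [sq_nonneg (z e - 1), sq_nonneg (z e + 1)]
  have hcomp : IsCompact K :=
    (isCompact_univ_pi fun e => isCompact_Icc).of_isClosed_subset hKc hsub
  have hone : z₀ ∈ K := ⟨hz₀, le_refl R⟩
  obtain ⟨z, hz, hmin⟩ := hcomp.exists_isMinOn ⟨_, hone⟩ (continuous_En c).continuousOn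
  refine ⟨z, hz.1, fun z' hz' => ?_⟩
  by_cases h : En c z' ≤ R
  · exact hmin ⟨hz', h⟩
  · exact hz.2.trans (le_of_not_ge h)

/-- The energy minimal chain in the coset carries at most the leverage on every edge. -/
theorem offset_lattice (s t : E → V) (c : E → ℝ) (hc : ∀ e, 0 < c e) (x : ℝ) (hx0 : 0 ≤ x)
    (hx : ∀ (y : V → ℝ) (e : E), c e * (y (s e) - y (t e)) ^ 2 ≤ x * Q s t c y) (γ : V → ℝ)
    (z₀ : E → ℝ) (hz₀ : z₀ ∈ offset_Cos s t γ) :
    ∃ z ∈ offset_Cos s t γ, ∀ e, |z e| ≤ x := by
  obtain ⟨z, hz, hmin⟩ := offset_exists_min s t c hc γ z₀ hz₀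
  refine ⟨z, hz, fun e0 => ?_⟩
  choose q hq using hz
  -- the minimiser is orthogonal to flows
  have horth : ∀ f : E → ℝ, (∀ v, dv s t f v = 0) → ∑ e, z e * f e / c e = 0 := by
    intro f hf
    have h1 : ∀ a : ℝ, 0 ≤ 2 * a * (∑ e, z e * f e / c e) + a ^ 2 * En c f := by
      intro a
      have h2 := hmin (fun e => z e + a * f e) (fun v => ⟨q v, by
        rw [dv_add, dv_smul, hf, hq]; ring⟩)
      rw [En_add] at h2
      linarith
    set S := ∑ e, z e * f e / c e with hS
    have hE : 0 ≤ En c f := Finset.sum_nonneg fun e _ => div_nonneg (sq_nonneg _) (hc e).le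
    by_contra hne
    have h3 := h1 (-S / (1 + En c f))
    have hpos : 0 < 1 + En c f := by linarith
    have hS2 : 0 < S ^ 2 := by positivity
    have h4 : 2 * (-S / (1 + En c f)) * S + (-S / (1 + En c f)) ^ 2 * En c f =
        -(S ^ 2) * (2 + En c f) / (1 + En c f) ^ 2 := by
      field_simp
      ring
    rw [h4] at h3
    have h5 : -(S ^ 2) * (2 + En c f) / (1 + En c f) ^ 2 < 0 := by
      apply div_neg_of_neg_of_pos
      · nlinarith
      · positivity
    linarith
  obtain ⟨y, hy⟩ := exists_elec s t c hc e0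
  set g : E → ℝ := fun e => c e * (y (s e) - y (t e)) with hg
  -- ⟨z, g⟩ = z e0 / c e0
  have hzg : ∑ e, z e * g e / c e = z e0 / c e0 := by
    have h1 := horth (fun e => (if e = e0 then 1 else 0) + (-1) * g e) (fun v => by
      rw [dv_add, dv_smul, dv_single, hy]; ring)
    have h2 : ∑ e, z e * ((if e = e0 then 1 else 0) + (-1) * g e) / c e =
        z e0 / c e0 - ∑ e, z e * g e / c e := by
      have h3 : z e0 / c e0 = ∑ e, if e = e0 then z e / c e else 0 := by simp
      rw [h3, ← Finset.sum_sub_distrib]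
      refine Finset.sum_congr rfl fun e _ => ?_
      split_ifs <;> ring
    linarith
  have hgg : En c g = Q s t c y := by
    unfold En Q
    refine Finset.sum_congr rfl fun e _ => ?_
    have := (hc e).ne'
    simp only [hg]
    field_simp
  have hgg2 : Q s t c y = y (s e0) - y (t e0) := by
    have h1 := sum_mul_dv s t g y
    have h2 : ∑ v, y v * dv s t g v = y (s e0) - y (t e0) := by
      simp_rw [hy, mul_sub, mul_ite, mul_one, mul_zero]
      rw [Finset.sum_sub_distrib]
      simp
    rw [h2] at h1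
    rw [h1]
    unfold Q
    refine Finset.sum_congr rfl fun e _ => ?_
    simp only [hg]
    ring
  have hcos : ∀ a : ℝ, (a = 2 ∨ a = -2) → (fun e => z e + a * g e) ∈ offset_Cos s t γ := by
    intro a ha v
    have h1 : dv s t (fun e => z e + a * g e) v = γ v + 2 * (q v : ℝ) +
        a * ((if s e0 = v then 1 else 0) - (if t e0 = v then 1 else 0)) := by
      rw [dv_add, dv_smul, hy, hq]
    rcases ha with rfl | rfl
    · refine ⟨q v + ((if s e0 = v then 1 else 0) - (if t e0 = v then 1 else 0)), ?_⟩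
      rw [h1]
      push_cast
      ring
    · refine ⟨q v - ((if s e0 = v then 1 else 0) - (if t e0 = v then 1 else 0)), ?_⟩
      rw [h1]
      push_cast
      ring
  have hQ : 0 ≤ Q s t c y := Finset.sum_nonneg fun e _ => mul_nonneg (hc e).le (sq_nonneg _)
  have hp := hmin _ (hcos 2 (Or.inl rfl))
  have hm := hmin _ (hcos (-2) (Or.inr rfl))
  rw [En_add, hzg, hgg] at hp hm
  have hxe := hx y e0
  rw [hgg2] at hxe hQ hp hm
  have hce := hc e0
  set r := y (s e0) - y (t e0) with hr
  -- r ≥ 0, c r ^ 2 ≤ x r, z/c ≤ r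
  have h1 : |z e0 / c e0| ≤ r := by
    rw [abs_le]
    constructor <;> linarith
  have h2 : |z e0| ≤ c e0 * r := by
    rw [abs_div, abs_of_pos hce, div_le_iff₀ hce] at h1
    linarith
  rcases hQ.eq_or_lt with h0 | h0
  · rw [← h0] at h2
    have h3 : z e0 = 0 := by
      rw [mul_zero] at h2
      exact abs_eq_zero.1 (le_antisymm h2 (abs_nonneg _))
    rw [h3, abs_zero]
    exact hx0
  · refine h2.trans ?_
    have h4 : c e0 * r * r ≤ x * r := by nlinarith
    exact le_of_mul_le_mul_right h4 h0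

theorem offset_dvT_coe (s t : E → V) (f : E → ℝ) (v : V) :
    dvT s t (fun e => ((f e : ℝ) : AddCircle (2 : ℝ))) v = ((dv s t f v : ℝ) : AddCircle (2 : ℝ)) := by
  unfold dvT dv
  have h := map_sum (QuotientAddGroup.mk' (AddSubgroup.zmultiples (2 : ℝ)))
    (fun e => (if s e = v then f e else 0) - (if t e = v then f e else 0)) univ
  refine Eq.trans ?_ h.symm
  refine Finset.sum_congr rfl fun e _ => ?_
  rw [map_sub]
  split_ifs <;> rfl

theorem offset_continuous_dvT (s t : E → V) (v : V) :
    Continuous fun f : E → AddCircle (2 : ℝ) => dvT s t f v := by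
  unfold dvT
  refine continuous_finsetSum _ fun e _ => Continuous.sub ?_ ?_
  · by_cases h : s e = v
    · simpa [h] using continuous_apply e
    · simpa [h] using continuous_const
  · by_cases h : t e = v
    · simpa [h] using continuous_apply e
    · simpa [h] using continuous_const

/-- a lift with sum zero -/
theorem offset_lift (g : V → AddCircle (2 : ℝ)) (hg : ∑ v, g v = 0) :
    ∃ γ : V → ℝ, (∀ v, ((γ v : ℝ) : AddCircle (2 : ℝ)) = g v) ∧ ∑ v, γ v = 0 := by
  classical
  choose γ hγ using fun v => QuotientAddGroup.mk_surjective (s := AddSubgroup.zmultiples (2 : ℝ)) (g v)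
  have hγ' : ∀ v, ((γ v : ℝ) : AddCircle (2 : ℝ)) = g v := hγ
  rcases isEmpty_or_nonempty V with hV | hV
  · exact ⟨γ, hγ', by simp⟩
  obtain ⟨v0⟩ := hV
  have h1 : ((∑ v, γ v : ℝ) : AddCircle (2 : ℝ)) = 0 := by
    rw [← hg]
    have h := map_sum (QuotientAddGroup.mk' (AddSubgroup.zmultiples (2 : ℝ))) γ univ
    refine Eq.trans h ?_
    exact Finset.sum_congr rfl fun v _ => hγ' v
  rw [AddCircle.coe_eq_zero_iff] at h1
  obtain ⟨q, hq⟩ := h1
  refine ⟨fun v => if v = v0 then γ v - q • (2 : ℝ) else γ v, fun v => ?_, ?_⟩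
  · by_cases hv : v = v0
    · simp only [hv, if_true]
      rw [← hγ' v0, AddCircle.coe_sub, AddCircle.coe_zsmul]
      have : ((2 : ℝ) : AddCircle (2 : ℝ)) = 0 := AddCircle.coe_period 2
      rw [this]
      simp
    · simp only [hv, if_false]
      exact hγ' v
  · have h2 : ∀ v, (if v = v0 then γ v - q • (2 : ℝ) else γ v) =
        γ v - (if v = v0 then q • (2 : ℝ) else 0) := by
      intro v
      split_ifs <;> ring
    simp_rw [h2]
    rw [Finset.sum_sub_distrib, ← hq]
    simp

/-- Flows with prescribed divergence. -/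
theorem offset (s t : E → V) (θ : ℝ) (hθ0 : 0 ≤ θ)
    (hθ : ∀ p : V → ℕ, ((univ.image p).card : ℝ) - 1 ≤
      θ * ((univ.filter (fun e => p (s e) ≠ p (t e))).card : ℝ))
    (g : V → AddCircle (2 : ℝ)) (hg : ∑ v, g v = 0) :
    ∃ f : E → AddCircle (2 : ℝ), (∀ v, dvT s t f v = g v) ∧
      ∀ e, ‖f e - ((1 : ℝ) : AddCircle (2 : ℝ))‖ ≤ θ := by
  classical
  have : Fact ((0 : ℝ) < 2) := ⟨two_pos⟩
  obtain ⟨γ, hγ, hγ0⟩ := offset_lift g hg
  have hcut : ∀ X : Finset V, X.Nonempty → X ≠ univ → (cut s t X).Nonempty := by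
    intro X hX hXu
    have h := hθ (fun v => if v ∈ X then 1 else 0)
    have himg : (univ.image (fun v : V => if v ∈ X then 1 else 0)) = ({0, 1} : Finset ℕ) := by
      obtain ⟨a, ha⟩ := hX
      obtain ⟨b, hb⟩ : ∃ b, b ∉ X := by
        by_contra hcon
        push Not at hcon
        exact hXu (Finset.eq_univ_of_forall hcon)
      ext j
      simp only [mem_image, mem_univ, true_and, mem_insert, mem_singleton]
      constructor
      · rintro ⟨v, rfl⟩
        by_cases hv : v ∈ X <;> simp [hv]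
      · rintro (rfl | rfl)
        · exact ⟨b, by simp [hb]⟩
        · exact ⟨a, by simp [ha]⟩
    have hfil : (univ.filter (fun e => (if s e ∈ X then 1 else 0) ≠ (if t e ∈ X then 1 else 0))) =
        cut s t X := by
      unfold cut
      refine Finset.filter_congr fun e _ => ?_
      by_cases h1 : s e ∈ X <;> by_cases h2 : t e ∈ X <;> simp [h1, h2]
    rw [himg] at h
    rw [hfil] at h
    by_contra hemp
    rw [Finset.not_nonempty_iff_eq_empty] at hemp
    rw [hemp] at h
    norm_num at h
  -- a chain in the coset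
  have hsum1 : ∑ v, dv s t (fun _ => (1 : ℝ)) v = 0 := by
    have := sum_mul_dv s t (fun _ => (1 : ℝ)) (fun _ => (1 : ℝ))
    simpa using this
  obtain ⟨z₀, hz₀⟩ := offset_chain s t hcut (fun v => dv s t (fun _ => 1) v - γ v) (by
    rw [Finset.sum_sub_distrib, hsum1, hγ0, sub_zero])
  have hz₀' : z₀ ∈ offset_Cos s t (fun v => dv s t (fun _ => 1) v - γ v) := fun v =>
    ⟨0, by rw [hz₀]; simp⟩
  have hex : ∀ x : ℝ, θ < x → ∃ f : E → AddCircle (2 : ℝ), (∀ v, dvT s t f v = g v) ∧
      ‖f - fun _ => ((1 : ℝ) : AddCircle (2 : ℝ))‖ ≤ x := by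
    intro x hx
    have hx0 : 0 ≤ x := hθ0.trans hx.le
    obtain ⟨c, hc, hcx⟩ := exists_weights_theta s t θ hθ x hx
    obtain ⟨z, hz, hzx⟩ := offset_lattice s t c hc x hx0 hcx _ z₀ hz₀'
    refine ⟨fun e => ((1 - z e : ℝ) : AddCircle (2 : ℝ)), fun v => ?_, ?_⟩
    · obtain ⟨q, hq⟩ := hz v
      rw [offset_dvT_coe s t (fun e => 1 - z e) v]
      have h1 : dv s t (fun e => 1 - z e) v = γ v - q • (2 : ℝ) := by
        have h2 : (fun e => 1 - z e) = fun e => (1 : ℝ) + (-1) * z e := by
          funext e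
          ring
        rw [h2, dv_add s t (fun _ => 1), dv_smul, hq, zsmul_eq_mul]
        ring
      rw [h1, AddCircle.coe_sub, AddCircle.coe_zsmul, AddCircle.coe_period, zsmul_zero, sub_zero,
        hγ]
    · rw [pi_norm_le_iff_of_nonneg hx0]
      intro e
      have h1 : ((1 - z e : ℝ) : AddCircle (2 : ℝ)) - ((1 : ℝ) : AddCircle (2 : ℝ)) =
          ((-z e : ℝ) : AddCircle (2 : ℝ)) := by
        rw [← AddCircle.coe_sub]
        congr 1
        ring
      show ‖((1 - z e : ℝ) : AddCircle (2 : ℝ)) - ((1 : ℝ) : AddCircle (2 : ℝ))‖ ≤ x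
      rw [h1]
      refine le_trans (QuotientAddGroup.norm_mk_le_norm) ?_
      rw [Real.norm_eq_abs, abs_neg]
      exact hzx e
  -- compactness
  set K : Set (E → AddCircle (2 : ℝ)) := {f | ∀ v, dvT s t f v = g v} with hK
  have hKc : IsClosed K := by
    have : K = ⋂ v, {f | dvT s t f v = g v} := by
      ext f
      simp [hK]
    rw [this]
    exact isClosed_iInter fun v => isClosed_eq (offset_continuous_dvT s t v) continuous_const
  obtain ⟨f₁, hf₁, -⟩ := hex (θ + 1) (by linarith)
  obtain ⟨f, hf, hmin⟩ := hKc.isCompact.exists_isMinOn ⟨f₁, hf₁⟩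
    (f := fun f : E → AddCircle (2 : ℝ) => ‖f - fun _ => ((1 : ℝ) : AddCircle (2 : ℝ))‖)
    (by fun_prop)
  refine ⟨f, hf, ?_⟩
  have hle : ‖f - fun _ => ((1 : ℝ) : AddCircle (2 : ℝ))‖ ≤ θ := by
    refine le_of_forall_gt_imp_ge_of_dense fun x hx => ?_
    obtain ⟨f', hf', hx'⟩ := hex x hx
    exact (hmin hf').trans hx'
  rw [pi_norm_le_iff_of_nonneg hθ0] at hle
  exact hle

end Pool.Agent.OddFlow
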