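import Mathlib
import Pool.Agent.Work.MP_392c8e_co_odd.Offset

/-!
# From a contraction to the graph

If the set `U` of vertices induces a dense subgraph, then a circle valued flow of the graph
obtained by contracting `U` can be completed on the edges inside `U`.
-/

namespace Pool.Agent.OddFlow

open Finset Pool.Agent.Circ

set_option linter.unusedSectionVars false

variable {V E : Type*} [Fintype V] [DecidableEq V] [Fintype E] [DecidableEq E]

theorem good_of_contract (s t : E → V) (U : Finset V) (u : V) (hu : u ∈ U) (θ : ℝ) (hθ0 : 0 ≤ θ)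
    (hU : ∀ p : {x // x ∈ U} → ℕ, ((univ.image p).card : ℝ) - 1 ≤
        θ * ((univ.filter (fun e : {e : E // s e ∈ U ∧ t e ∈ U} =>
          p ⟨s e.1, e.2.1⟩ ≠ p ⟨t e.1, e.2.2⟩)).card : ℝ))
    (h : Good (fun e => if s e ∈ U then u else s e) (fun e => if t e ∈ U then u else t e) θ) :
    Good s t θ := by
  classical
  obtain ⟨f0, hf0, hb0⟩ := h
  set s1 : {e : E // s e ∈ U ∧ t e ∈ U} → {x // x ∈ U} := fun e => ⟨s e.1, e.2.1⟩ with hs1
  set t1 : {e : E // s e ∈ U ∧ t e ∈ U} → {x // x ∈ U} := fun e => ⟨t e.1, e.2.2⟩ with ht1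
  set out : V → AddCircle (2 : ℝ) := fun v => ∑ e : {e : E // ¬ (s e ∈ U ∧ t e ∈ U)},
    ((if s e.1 = v then f0 e.1 else 0) - (if t e.1 = v then f0 e.1 else 0)) with hout
  have hsplit : ∀ F : E → AddCircle (2 : ℝ), ∑ e, F e =
      (∑ e : {e : E // s e ∈ U ∧ t e ∈ U}, F e.1) +
        ∑ e : {e : E // ¬ (s e ∈ U ∧ t e ∈ U)}, F e.1 := fun F =>
    (Fintype.sum_subtype_add_sum_subtype (fun e => s e ∈ U ∧ t e ∈ U) F).symm
  have hs' : ∀ e, ((if s e ∈ U then u else s e) = u) ↔ s e ∈ U := by
    intro e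
    by_cases h1 : s e ∈ U
    · simp [h1]
    · simp only [h1, if_false, iff_false]
      rintro rfl
      exact h1 hu
  have ht' : ∀ e, ((if t e ∈ U then u else t e) = u) ↔ t e ∈ U := by
    intro e
    by_cases h1 : t e ∈ U
    · simp [h1]
    · simp only [h1, if_false, iff_false]
      rintro rfl
      exact h1 hu
  have hsum : ∑ v : {x // x ∈ U}, -out v.1 = 0 := by
    rw [Finset.sum_neg_distrib, neg_eq_zero]
    have h1 := hf0 u
    rw [dvT, hsplit] at h1
    have h2 : ∑ e : {e : E // s e ∈ U ∧ t e ∈ U},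
        ((if (if s e.1 ∈ U then u else s e.1) = u then f0 e.1 else 0) -
          (if (if t e.1 ∈ U then u else t e.1) = u then f0 e.1 else 0)) = 0 := by
      refine Finset.sum_eq_zero fun e _ => ?_
      rw [if_pos ((hs' e.1).2 e.2.1), if_pos ((ht' e.1).2 e.2.2), sub_self]
    rw [h2, zero_add] at h1
    rw [← h1, hout]
    simp only
    rw [Finset.sum_comm]
    refine Finset.sum_congr rfl fun e _ => ?_
    rw [Finset.sum_sub_distrib]
    congr 1
    · by_cases h3 : s e.1 ∈ U
      · rw [if_pos ((hs' e.1).2 h3), Finset.sum_eq_single (⟨s e.1, h3⟩ : {x // x ∈ U})]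
        · simp
        · intro b _ hb
          rw [if_neg]
          intro h4
          exact hb (Subtype.ext h4.symm)
        · simp
      · rw [if_neg (fun h4 => h3 ((hs' e.1).1 h4))]
        refine Finset.sum_eq_zero fun b _ => ?_
        rw [if_neg]
        intro h4
        exact h3 (h4 ▸ b.2)
    · by_cases h3 : t e.1 ∈ U
      · rw [if_pos ((ht' e.1).2 h3), Finset.sum_eq_single (⟨t e.1, h3⟩ : {x // x ∈ U})]
        · simp
        · intro b _ hb
          rw [if_neg]
          intro h4
          exact hb (Subtype.ext h4.symm)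
        · simp
      · rw [if_neg (fun h4 => h3 ((ht' e.1).1 h4))]
        refine Finset.sum_eq_zero fun b _ => ?_
        rw [if_neg]
        intro h4
        exact h3 (h4 ▸ b.2)
  obtain ⟨f1, hf1, hb1⟩ := offset s1 t1 θ hθ0 hU (fun v => -out v.1) hsum
  refine ⟨fun e => if h : s e ∈ U ∧ t e ∈ U then f1 ⟨e, h⟩ else f0 e, fun v => ?_, fun e => ?_⟩
  · rw [dvT, hsplit]
    have h1 : ∑ e : {e : E // ¬ (s e ∈ U ∧ t e ∈ U)},
        ((if s e.1 = v then (if h : s e.1 ∈ U ∧ t e.1 ∈ U then f1 ⟨e.1, h⟩ else f0 e.1) else 0) -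
          (if t e.1 = v then (if h : s e.1 ∈ U ∧ t e.1 ∈ U then f1 ⟨e.1, h⟩ else f0 e.1) else 0)) =
        out v := by
      refine Finset.sum_congr rfl fun e _ => ?_
      rw [dif_neg e.2]
    have h2 : ∑ e : {e : E // s e ∈ U ∧ t e ∈ U},
        ((if s e.1 = v then (if h : s e.1 ∈ U ∧ t e.1 ∈ U then f1 ⟨e.1, h⟩ else f0 e.1) else 0) -
          (if t e.1 = v then (if h : s e.1 ∈ U ∧ t e.1 ∈ U then f1 ⟨e.1, h⟩ else f0 e.1) else 0)) =
        ∑ e : {e : E // s e ∈ U ∧ t e ∈ U},
        ((if s e.1 = v then f1 e else 0) - (if t e.1 = v then f1 e else 0)) := by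
      refine Finset.sum_congr rfl fun e _ => ?_
      rw [dif_pos e.2]
    rw [h1, h2]
    by_cases hv : v ∈ U
    · have h3 := hf1 ⟨v, hv⟩
      rw [dvT] at h3
      have h4 : ∑ e : {e : E // s e ∈ U ∧ t e ∈ U},
          ((if s e.1 = v then f1 e else 0) - (if t e.1 = v then f1 e else 0)) = -out v := by
        rw [← h3]
        refine Finset.sum_congr rfl fun e _ => ?_
        simp only [hs1, ht1, Subtype.mk.injEq]
      rw [h4, neg_add_cancel]
    · have h3 : ∑ e : {e : E // s e ∈ U ∧ t e ∈ U},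
          ((if s e.1 = v then f1 e else 0) - (if t e.1 = v then f1 e else 0)) = 0 := by
        refine Finset.sum_eq_zero fun e _ => ?_
        rw [if_neg (fun h4 : s e.1 = v => hv (h4 ▸ e.2.1)),
          if_neg (fun h4 : t e.1 = v => hv (h4 ▸ e.2.2)), sub_zero]
      have hvu : u ≠ v := fun h4 => hv (h4 ▸ hu)
      have h5 := hf0 v
      rw [dvT, hsplit] at h5
      have h6 : ∑ e : {e : E // s e ∈ U ∧ t e ∈ U},
          ((if (if s e.1 ∈ U then u else s e.1) = v then f0 e.1 else 0) -
            (if (if t e.1 ∈ U then u else t e.1) = v then f0 e.1 else 0)) = 0 := by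
        refine Finset.sum_eq_zero fun e _ => ?_
        rw [if_pos e.2.1, if_pos e.2.2, if_neg hvu, sub_zero]
      have h7 : ∑ e : {e : E // ¬ (s e ∈ U ∧ t e ∈ U)},
          ((if (if s e.1 ∈ U then u else s e.1) = v then f0 e.1 else 0) -
            (if (if t e.1 ∈ U then u else t e.1) = v then f0 e.1 else 0)) = out v := by
        refine Finset.sum_congr rfl fun e _ => ?_
        have h8 : ∀ x : V, ((if x ∈ U then u else x) = v) ↔ x = v := by
          intro x
          by_cases hx : x ∈ U
          · rw [if_pos hx]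
            exact ⟨fun h => absurd h hvu, fun h => absurd (h ▸ hx) hv⟩
          · rw [if_neg hx]
        simp only [h8]
      rw [h6, h7, zero_add] at h5
      rw [h3, h5, zero_add]
  · by_cases h : s e ∈ U ∧ t e ∈ U
    · simp only [h, and_self, dite_true]
      exact hb1 _
    · simp only [h, dite_false]
      exact hb0 e

end Pool.Agent.OddFlow
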