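import Mathlib
import Pool.Agent.Work.MP_392c8e_co_odd.Defs

/-!
# Cuts with exceptional vertices: definitions
-/

namespace Pool.Agent.OddFlow

open Finset Pool.Agent.Circ

variable {V E : Type*} [Fintype V] [DecidableEq V] [Fintype E] [DecidableEq E]

/-- `X` separates `F`: it contains some but not all elements of `F`. -/
def Sep (F X : Finset V) : Prop := (∃ x ∈ F, x ∈ X) ∧ ∃ y ∈ F, y ∉ X

instance (F X : Finset V) : Decidable (Sep F X) := by unfold Sep; infer_instance

/-- Every odd cut has at least `k` edges, or at least `k - 2` if it separates `F`. -/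
def OddCutF (s t : E → V) (k : ℕ) (F : Finset V) : Prop :=
  ∀ X : Finset V, Odd (cut s t X).card → k ≤ (cut s t X).card + (if Sep F X then 2 else 0)

end Pool.Agent.OddFlow
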