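import Mathlib
import Pool.Agent.Work.MP_392c8e_co_odd.DefsF

/-!
# A dense set of vertices

If all degrees are odd and at least `k`, then a minimal set `U` with `θ e(U) ≥ |U| - 1` satisfies
the partition condition.
-/

namespace Pool.Agent.OddFlow

open Finset Pool.Agent.Circ

set_option linter.unusedSectionVars false

variable {V E : Type*} [Fintype V] [DecidableEq V] [Fintype E] [DecidableEq E]

/-- the number of edges inside `U`, without loops -/
def ein (s t : E → V) (U : Finset V) : ℕ :=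
  (univ.filter fun e => s e ≠ t e ∧ s e ∈ U ∧ t e ∈ U).card

theorem ein_split (s t : E → V) (P : V → ℕ) (U : Finset V) :
    ein s t U = (univ.filter fun e => (s e ∈ U ∧ t e ∈ U) ∧ P (s e) ≠ P (t e)).card +
      ∑ i ∈ U.image P, ein s t (U.filter fun x => P x = i) := by
  have h1 := Finset.card_filter_add_card_filter_not
    (s := univ.filter fun e => s e ≠ t e ∧ s e ∈ U ∧ t e ∈ U) (fun e => P (s e) ≠ P (t e))
  rw [ein, ← h1]
  congr 1
  · congr 1
    ext e
    simp only [mem_filter, mem_univ, true_and]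
    constructor
    · rintro ⟨⟨_, h2⟩, h3⟩
      exact ⟨h2, h3⟩
    · rintro ⟨h2, h3⟩
      exact ⟨⟨fun h => h3 (by rw [h]), h2⟩, h3⟩
  · rw [Finset.card_eq_sum_card_fiberwise (f := fun e => P (s e)) (t := U.image P)]
    · refine Finset.sum_congr rfl fun i _ => ?_
      rw [ein]
      congr 1
      ext e
      simp only [mem_filter, mem_univ, true_and, not_not]
      constructor
      · rintro ⟨⟨⟨h2, h3, h4⟩, h5⟩, h6⟩
        exact ⟨h2, ⟨h3, h6⟩, h4, h5 ▸ h6⟩
      · rintro ⟨h2, ⟨h3, h4⟩, h5, h6⟩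
        exact ⟨⟨⟨h2, h3, h5⟩, h4.trans h6.symm⟩, h4⟩
    · intro e he
      simp only [coe_filter, mem_filter, mem_univ, true_and, Set.mem_ofPred_eq] at he
      exact mem_coe.2 (mem_image_of_mem _ he.1.2.1)

/-- the handshake lemma -/
theorem handshake (s t : E → V) :
    ∑ v, (cut s t {v}).card = 2 * (univ.filter fun e => s e ≠ t e).card := by
  simp only [cut, card_filter, mul_sum]
  rw [sum_comm]
  refine sum_congr rfl fun e _ => ?_
  simp only [mem_singleton]
  by_cases h : s e = t e
  · simp [h]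
  · have h3 : ∀ v : V, (if ¬ (s e = v ↔ t e = v) then 1 else 0)
        = (if s e = v then 1 else 0) + (if t e = v then 1 else 0) := by
      intro v
      by_cases h4 : s e = v <;> by_cases h5 : t e = v
      · exact absurd (h4.trans h5.symm) h
      · simp [h4, h5]
      · simp [h4, h5]
      · simp [h4, h5]
    simp only [h3]
    rw [sum_add_distrib]
    simp [h]

/-- A minimal set `U` with `θ e(U) ≥ |U| - 1` satisfies the partition condition. -/
theorem dense_core (s t : E → V) (θ : ℝ) (hθ0 : 0 ≤ θ) (W : Finset V) (hW2 : 2 ≤ W.card)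
    (hWθ : (W.card : ℝ) - 1 ≤ θ * ein s t W) :
    ∃ U : Finset V, 2 ≤ U.card ∧ U ⊆ W ∧
      ∀ p : {x // x ∈ U} → ℕ, ((univ.image p).card : ℝ) - 1 ≤
        θ * ((univ.filter (fun e : {e : E // s e ∈ U ∧ t e ∈ U} =>
          p ⟨s e.1, e.2.1⟩ ≠ p ⟨t e.1, e.2.2⟩)).card : ℝ) := by
  classical
  -- a minimal dense set
  obtain ⟨U, hU, hmin⟩ := Finset.exists_min_image
    (W.powerset.filter fun U => 2 ≤ U.card ∧ (U.card : ℝ) - 1 ≤ θ * ein s t U) Finset.card
    ⟨W, by simp only [mem_filter, mem_powerset]; exact ⟨Subset.refl _, hW2, hWθ⟩⟩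
  rw [mem_filter, mem_powerset] at hU
  obtain ⟨hUW, hU2, hUθ⟩ := hU
  refine ⟨U, hU2, hUW, fun p => ?_⟩
  set P : V → ℕ := fun x => if hx : x ∈ U then p ⟨x, hx⟩ else 0 with hP
  have hPp : ∀ x (hx : x ∈ U), P x = p ⟨x, hx⟩ := fun x hx => dif_pos hx
  have himg : (univ.image p).card = (U.image P).card := by
    congr 1
    ext i
    simp only [mem_image, mem_univ, true_and]
    constructor
    · rintro ⟨x, rfl⟩
      exact ⟨x.1, x.2, hPp _ _⟩
    · rintro ⟨x, hx, rfl⟩
      exact ⟨⟨x, hx⟩, (hPp _ _).symm⟩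
  have hcross : (univ.filter (fun e : {e : E // s e ∈ U ∧ t e ∈ U} =>
      p ⟨s e.1, e.2.1⟩ ≠ p ⟨t e.1, e.2.2⟩)).card =
      (univ.filter fun e => (s e ∈ U ∧ t e ∈ U) ∧ P (s e) ≠ P (t e)).card := by
    refine Finset.card_bij (fun e _ => e.1) ?_ ?_ ?_
    · intro e he
      simp only [mem_filter, mem_univ, true_and] at he ⊢
      refine ⟨e.2, ?_⟩
      rw [hPp _ e.2.1, hPp _ e.2.2]
      exact he
    · intro a _ b _ hab
      exact Subtype.ext hab
    · intro e he
      simp only [mem_filter, mem_univ, true_and] at he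
      refine ⟨⟨e, he.1⟩, ?_, rfl⟩
      simp only [mem_filter, mem_univ, true_and]
      rw [← hPp _ he.1.1, ← hPp _ he.1.2]
      exact he.2
  rw [himg, hcross]
  set r := (U.image P).card with hr
  set c := (univ.filter fun e => (s e ∈ U ∧ t e ∈ U) ∧ P (s e) ≠ P (t e)).card with hc
  rcases Nat.lt_or_ge r 2 with hr2 | hr2
  · have h1 : (r : ℝ) ≤ 1 := by exact_mod_cast (by omega : r ≤ 1)
    have h2 : 0 ≤ θ * c := mul_nonneg hθ0 (Nat.cast_nonneg _)
    linarith
  have hpart : ∀ i ∈ U.image P, θ * ein s t (U.filter fun x => P x = i) ≤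
      ((U.filter fun x => P x = i).card : ℝ) - 1 := by
    intro i hi
    set Ui := U.filter fun x => P x = i with hUi
    have h1 : 1 ≤ Ui.card := by
      obtain ⟨x, hx, hxi⟩ := mem_image.1 hi
      exact card_pos.2 ⟨x, mem_filter.2 ⟨hx, hxi⟩⟩
    have h2 : Ui.card < U.card := by
      refine card_lt_card ?_
      rw [Finset.ssubset_iff_subset_ne]
      refine ⟨filter_subset _ _, fun h3 => ?_⟩
      have h4 : U.image P ⊆ {i} := by
        intro j hj
        obtain ⟨x, hx, hxj⟩ := mem_image.1 hj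
        rw [← h3, hUi, mem_filter] at hx
        rw [mem_singleton, ← hxj]
        exact hx.2
      have := card_le_card h4
      rw [card_singleton] at this
      omega
    rcases Nat.lt_or_ge Ui.card 2 with h3 | h3
    · have h4 : Ui.card = 1 := by omega
      have h5 : ein s t Ui = 0 := by
        rw [ein, card_eq_zero, filter_eq_empty_iff]
        rintro e _ ⟨h6, h7, h8⟩
        exact h6 (card_le_one.1 h4.le _ h7 _ h8)
      rw [h5, h4]
      norm_num
    · by_contra h4
      push Not at h4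
      have h5 := hmin Ui (by
        rw [mem_filter, mem_powerset]
        exact ⟨(filter_subset _ _).trans hUW, h3, h4.le⟩)
      omega
  have hsumc : ∑ i ∈ U.image P, (((U.filter fun x => P x = i).card : ℝ) - 1) =
      (U.card : ℝ) - r := by
    rw [Finset.sum_sub_distrib, Finset.sum_const, nsmul_eq_mul, mul_one, ← hr,
      ← Nat.cast_sum, ← Finset.card_eq_sum_card_fiberwise (f := P) (t := U.image P)]
    intro x hx
    exact mem_coe.2 (mem_image_of_mem _ hx)
  have hs := ein_split s t P U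
  have hs' : (ein s t U : ℝ) = c + ∑ i ∈ U.image P, (ein s t (U.filter fun x => P x = i) : ℝ) := by
    rw [hs]
    push_cast
    rfl
  have h6 : θ * ∑ i ∈ U.image P, (ein s t (U.filter fun x => P x = i) : ℝ) ≤
      (U.card : ℝ) - r := by
    rw [← hsumc, Finset.mul_sum]
    exact Finset.sum_le_sum hpart
  rw [hs', mul_add] at hUθ
  linarith

theorem exists_denseF (s t : E → V) {k : ℕ} (F : Finset V) (h : OddCutF s t k F)
    (hodd : ∀ v, Odd (cut s t {v}).card ∨ (cut s t {v}).card = 0)
    (hm : (univ.filter fun e => s e ≠ t e).card ≠ 0) (θ : ℝ) (hθ0 : 0 ≤ θ)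
    (hF : F ⊆ oddV s t)
    (hθ : ∀ n j : ℕ, 2 ≤ n → n ≤ (oddV s t).card → j ≤ n → j ≤ F.card →
      2 * ((n : ℝ) - 1) ≤ θ * (k * n - 2 * j)) :
    ∃ U : Finset V, 2 ≤ U.card ∧ U ⊆ oddV s t ∧
      ∀ p : {x // x ∈ U} → ℕ, ((univ.image p).card : ℝ) - 1 ≤
        θ * ((univ.filter (fun e : {e : E // s e ∈ U ∧ t e ∈ U} =>
          p ⟨s e.1, e.2.1⟩ ≠ p ⟨t e.1, e.2.2⟩)).card : ℝ) := by
  classical
  set W := oddV s t with hW
  set m := (univ.filter fun e => s e ≠ t e).card with hmdef
  -- ends of edges are odd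
  have hend : ∀ e, s e ≠ t e → s e ∈ W ∧ t e ∈ W := by
    intro e he
    constructor
    · have h1 : e ∈ cut s t {s e} := by
        simp only [cut, mem_filter, mem_univ, true_and, mem_singleton]
        intro h2
        exact he (h2.1 trivial).symm
      rw [hW, oddV, mem_filter]
      refine ⟨mem_univ _, (hodd _).resolve_right ?_⟩
      exact card_ne_zero.2 ⟨e, h1⟩
    · have h1 : e ∈ cut s t {t e} := by
        simp only [cut, mem_filter, mem_univ, true_and, mem_singleton]
        intro h2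
        exact he (h2.2 trivial)
      rw [hW, oddV, mem_filter]
      refine ⟨mem_univ _, (hodd _).resolve_right ?_⟩
      exact card_ne_zero.2 ⟨e, h1⟩
  have hWm : ein s t W = m := by
    rw [ein, hmdef]
    congr 1
    ext e
    simp only [mem_filter, mem_univ, true_and]
    exact ⟨fun h1 => h1.1, fun h1 => ⟨h1, hend e h1⟩⟩
  have hkW : k * W.card ≤ 2 * m + 2 * F.card := by
    have h1 : k * W.card ≤ ∑ v ∈ W, ((cut s t {v}).card + if v ∈ F then 2 else 0) := by
      rw [mul_comm, ← smul_eq_mul]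
      refine card_nsmul_le_sum _ _ _ fun v hv => ?_
      rw [hW, oddV, mem_filter] at hv
      refine (h _ hv.2).trans (Nat.add_le_add_left ?_ _)
      by_cases h2 : v ∈ F
      · rw [if_pos h2]
        split_ifs <;> omega
      · rw [if_neg h2, if_neg]
        rintro ⟨⟨x, hx, hxv⟩, -⟩
        rw [mem_singleton] at hxv
        exact h2 (hxv ▸ hx)
    have h2 : ∑ v ∈ W, (cut s t {v}).card ≤ 2 * m := by
      rw [hmdef, ← handshake]
      exact Finset.sum_le_univ_sum_of_nonneg (s := W) fun _ => Nat.zero_le _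
    have h3 : ∑ v ∈ W, (if v ∈ F then 2 else 0) ≤ 2 * F.card := by
      rw [← Finset.sum_filter, Finset.sum_const, smul_eq_mul, mul_comm]
      refine Nat.mul_le_mul_left _ (card_le_card ?_)
      intro x hx
      exact (mem_filter.1 hx).2
    rw [Finset.sum_add_distrib] at h1
    omega
  have hW2 : 2 ≤ W.card := by
    obtain ⟨e, he⟩ := card_ne_zero.1 hm
    rw [mem_filter] at he
    have h1 := hend e he.2
    have h2 : ({s e, t e} : Finset V) ⊆ W := by
      intro x hx
      rw [mem_insert, mem_singleton] at hx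
      rcases hx with rfl | rfl
      · exact h1.1
      · exact h1.2
    have h3 := card_le_card h2
    rwa [card_pair he.2] at h3
  have hWθ : (W.card : ℝ) - 1 ≤ θ * ein s t W := by
    rw [hWm]
    have h1 : (k : ℝ) * W.card ≤ 2 * m + 2 * F.card := by exact_mod_cast hkW
    have h2 : θ * (k * W.card) ≤ θ * (2 * m + 2 * F.card) := mul_le_mul_of_nonneg_left h1 hθ0
    have h3 := hθ W.card F.card hW2 le_rfl (card_le_card hF) le_rfl
    nlinarith
  exact dense_core s t θ hθ0 W hW2 hWθ

end Pool.Agent.OddFlow
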