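import Mathlib
import Pool.Agent.Work.MP_392c8e_co_odd.DefsF
import Pool.Agent.Work.MP_392c8e_co_odd.Split

/-!
# Splitting off two edges at a vertex of even degree, with exceptional vertices

Module BF of the odd-girth theorem: `exists_splitF`.
-/

namespace Pool.Agent.OddFlow

open Finset Pool.Agent.Circ

variable {V E : Type*} [Fintype V] [DecidableEq V] [Fintype E] [DecidableEq E]

namespace SplitF

/-- Twice the indicator of `Sep F X`. -/
def sp (F X : Finset V) : ℕ := if Sep F X then 2 else 0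

omit [Fintype V] in
theorem sp_sub (F A B : Finset V) : sp F (A ∩ B) + sp F (A ∪ B) ≤ sp F A + sp F B := by
  have h1 : Sep F (A ∩ B) → Sep F A ∨ Sep F B := by
    rintro ⟨⟨x, hx, hxA⟩, ⟨y, hy, hyA⟩⟩
    rw [mem_inter] at hxA hyA
    by_cases hy1 : y ∈ A
    · exact Or.inr ⟨⟨x, hx, hxA.2⟩, ⟨y, hy, fun h => hyA ⟨hy1, h⟩⟩⟩
    · exact Or.inl ⟨⟨x, hx, hxA.1⟩, ⟨y, hy, hy1⟩⟩
  have h2 : Sep F (A ∪ B) → Sep F A ∨ Sep F B := by
    rintro ⟨⟨x, hx, hxA⟩, ⟨y, hy, hyA⟩⟩
    rw [mem_union] at hxA hyA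
    rcases hxA with hxA | hxA
    · exact Or.inl ⟨⟨x, hx, hxA⟩, ⟨y, hy, fun h => hyA (Or.inl h)⟩⟩
    · exact Or.inr ⟨⟨x, hx, hxA⟩, ⟨y, hy, fun h => hyA (Or.inr h)⟩⟩
  have h3 : Sep F (A ∩ B) → Sep F (A ∪ B) → Sep F A ∧ Sep F B := by
    rintro ⟨⟨x, hx, hxA⟩, -⟩ ⟨-, ⟨y, hy, hyA⟩⟩
    rw [mem_inter] at hxA
    rw [mem_union] at hyA
    exact ⟨⟨⟨x, hx, hxA.1⟩, ⟨y, hy, fun h => hyA (Or.inl h)⟩⟩,
      ⟨⟨x, hx, hxA.2⟩, ⟨y, hy, fun h => hyA (Or.inr h)⟩⟩⟩
  unfold sp
  by_cases a1 : Sep F (A ∩ B) <;> by_cases a2 : Sep F (A ∪ B) <;> by_cases a3 : Sep F A <;>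
    by_cases a4 : Sep F B <;> simp_all

omit [Fintype V] in
theorem sp_posi (F A B : Finset V) : sp F (A \ B) + sp F (B \ A) ≤ sp F A + sp F B := by
  have h1 : Sep F (A \ B) → Sep F A ∨ Sep F B := by
    rintro ⟨⟨x, hx, hxA⟩, ⟨y, hy, hyA⟩⟩
    rw [mem_sdiff] at hxA hyA
    by_cases hy1 : y ∈ A
    · have hyB : y ∈ B := by
        by_contra h
        exact hyA ⟨hy1, h⟩
      exact Or.inr ⟨⟨y, hy, hyB⟩, ⟨x, hx, hxA.2⟩⟩
    · exact Or.inl ⟨⟨x, hx, hxA.1⟩, ⟨y, hy, hy1⟩⟩
  have h2 : Sep F (B \ A) → Sep F A ∨ Sep F B := by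
    rintro ⟨⟨x, hx, hxA⟩, ⟨y, hy, hyA⟩⟩
    rw [mem_sdiff] at hxA hyA
    by_cases hy1 : y ∈ B
    · have hyB : y ∈ A := by
        by_contra h
        exact hyA ⟨hy1, h⟩
      exact Or.inl ⟨⟨y, hy, hyB⟩, ⟨x, hx, hxA.2⟩⟩
    · exact Or.inr ⟨⟨x, hx, hxA.1⟩, ⟨y, hy, hy1⟩⟩
  have h3 : Sep F (A \ B) → Sep F (B \ A) → Sep F A ∧ Sep F B := by
    rintro ⟨⟨x, hx, hxA⟩, -⟩ ⟨⟨y, hy, hyA⟩, -⟩
    rw [mem_sdiff] at hxA hyA
    exact ⟨⟨⟨x, hx, hxA.1⟩, ⟨y, hy, hyA.2⟩⟩, ⟨⟨y, hy, hyA.1⟩, ⟨x, hx, hxA.2⟩⟩⟩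
  unfold sp
  by_cases a1 : Sep F (A \ B) <;> by_cases a2 : Sep F (B \ A) <;> by_cases a3 : Sep F A <;>
    by_cases a4 : Sep F B <;> simp_all

theorem sp_compl (F A : Finset V) : sp F Aᶜ = sp F A := by
  have h : Sep F Aᶜ ↔ Sep F A := by
    unfold Sep
    simp only [mem_compl, not_not]
    exact and_comm
  simp [sp, h]

omit [Fintype V] in
theorem sp_insert (F A : Finset V) {v : V} (hv : v ∉ F) : sp F (insert v A) = sp F A := by
  have h : Sep F (insert v A) ↔ Sep F A := by
    unfold Sep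
    constructor
    · rintro ⟨⟨x, hx, hxA⟩, ⟨y, hy, hyA⟩⟩
      rw [mem_insert] at hxA hyA
      refine ⟨⟨x, hx, hxA.resolve_left ?_⟩, ⟨y, hy, fun h => hyA (Or.inr h)⟩⟩
      rintro rfl
      exact hv hx
    · rintro ⟨⟨x, hx, hxA⟩, ⟨y, hy, hyA⟩⟩
      refine ⟨⟨x, hx, mem_insert_of_mem hxA⟩, ⟨y, hy, ?_⟩⟩
      rw [mem_insert]
      rintro (rfl | h)
      · exact hv hy
      · exact hyA h
  simp [sp, h]

omit [Fintype V] in
theorem sp_le (F A : Finset V) : sp F A ≤ 2 := by
  unfold sp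
  split_ifs <;> omega

omit [Fintype V] in
theorem sp_even (F A : Finset V) : Even (sp F A) := by
  unfold sp
  split_ifs
  · exact even_two
  · exact Even.zero

/-- Some edge at `v` can be split off together with `e₀`: no cut with `D`-value `k` separates
`v` from the two other ends. -/
theorem exists_good (s t : E → V) {k : ℕ} (hk : Odd k) (F : Finset V) (h : OddCutF s t k F) (v : V)
    (hv : Even (cut s t {v}).card) (hvF : v ∉ F ∨ (cut s t {v}).card ≠ 2)
    {e₀ : E} (he₀ : e₀ ∈ cut s t {v}) :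
    ∃ f₀ ∈ cut s t {v}, f₀ ≠ e₀ ∧
      ∀ S : Finset V, v ∉ S → Split.oth s t v e₀ ∈ S → Split.oth s t v f₀ ∈ S →
        (cut s t S).card + sp F S ≠ k := by
  classical
  have h' : ∀ X : Finset V, Odd (cut s t X).card → k ≤ (cut s t X).card + sp F X := h
  by_contra hcon
  push Not at hcon
  have hpos : 0 < (cut s t {v}).card := card_pos.2 ⟨e₀, he₀⟩
  obtain ⟨f₁, hf₁, hf₁'⟩ : ∃ f₁ ∈ cut s t {v}, f₁ ≠ e₀ := by
    by_contra hc
    push Not at hc
    have : cut s t {v} = {e₀} := by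
      apply subset_antisymm
      · intro f hf
        simp [hc f hf]
      · simpa using he₀
    rw [this] at hv
    simp at hv
  let 𝒯 : Finset (Finset V) := univ.filter fun S => v ∉ S ∧ Split.oth s t v e₀ ∈ S ∧
    (cut s t S).card + sp F S = k
  have h𝒯 : 𝒯.Nonempty := by
    obtain ⟨S, h1, h2, -, h4⟩ := hcon f₁ hf₁ hf₁'
    exact ⟨S, by simp [𝒯, h1, h2, h4]⟩
  obtain ⟨S, hS, hmax⟩ := exists_max_image 𝒯 card h𝒯
  simp only [𝒯, mem_filter, mem_univ, true_and] at hS hmax
  obtain ⟨hvS, haS, hkS⟩ := hS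
  have hends : ∀ T : Finset V, v ∉ T → Split.oth s t v e₀ ∈ T →
      ((s e₀ ∈ S ∩ T ∧ t e₀ ∉ S ∪ T) ∨ (t e₀ ∈ S ∩ T ∧ s e₀ ∉ S ∪ T)) := by
    intro T h1 h2
    unfold Split.oth at h2 haS
    rw [cut, mem_filter] at he₀
    by_cases hs : s e₀ = v
    · right
      simp_all
    · left
      have ht : t e₀ = v := by
        by_contra ht
        exact he₀.2 (by simp [hs, ht])
      simp_all
  have key : ∀ T : Finset V, v ∉ T → Split.oth s t v e₀ ∈ T →
      (cut s t T).card + sp F T = k → T ⊆ S := by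
    intro T hvT haT hkT
    have hpu := Split.parity_union s t S T
    have hsm := Split.sub_modular s t S T
    have hsm' := sp_sub F S T
    obtain ⟨q₁, hq₁⟩ := sp_even F S
    obtain ⟨q₂, hq₂⟩ := sp_even F T
    have hSo : Odd (cut s t S).card := by
      rw [← Nat.not_even_iff_odd]
      rintro ⟨a, ha⟩
      rcases hk with ⟨d, hd⟩
      omega
    have hTo : Odd (cut s t T).card := by
      rw [← Nat.not_even_iff_odd]
      rintro ⟨a, ha⟩
      rcases hk with ⟨d, hd⟩
      omega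
    rcases Nat.even_or_odd (cut s t (S ∪ T)).card with hev | hod
    · exfalso
      have hi : Even (cut s t (S ∩ T)).card := by
        rcases Nat.even_or_odd (cut s t (S ∩ T)).card with h1 | h1
        · exact h1
        · exfalso
          rcases h1 with ⟨a, ha⟩
          rcases hev with ⟨b, hb⟩
          rcases hpu with ⟨c, hc⟩
          rcases hSo with ⟨a', ha'⟩
          rcases hTo with ⟨b', hb'⟩
          omega
      have hp1 := Split.parity_sdiff s t S T
      have hp2 := Split.parity_sdiff s t T S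
      rw [inter_comm T S] at hp2
      have ho1 : Odd (cut s t (S \ T)).card := by
        rw [← Nat.not_even_iff_odd]
        intro h1
        rcases hp1 with ⟨a, ha⟩
        rcases h1 with ⟨b, hb⟩
        rcases hi with ⟨c, hc⟩
        rcases hSo with ⟨d, hd⟩
        omega
      have ho2 : Odd (cut s t (T \ S)).card := by
        rw [← Nat.not_even_iff_odd]
        intro h1
        rcases hp2 with ⟨a, ha⟩
        rcases h1 with ⟨b, hb⟩
        rcases hi with ⟨c, hc⟩
        rcases hTo with ⟨d, hd⟩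
        omega
      have h0 := Split.posi_modular s t S T e₀ (hends T hvT haT)
      have h0' := sp_posi F S T
      have h1 := h' _ ho1
      have h2 := h' _ ho2
      omega
    · have ho : Odd (cut s t (S ∩ T)).card := by
        rw [← Nat.not_even_iff_odd]
        intro h1
        rcases h1 with ⟨a, ha⟩
        rcases hod with ⟨b, hb⟩
        rcases hpu with ⟨c, hc⟩
        rcases hSo with ⟨a', ha'⟩
        rcases hTo with ⟨b', hb'⟩
        omega
      have h1 := h' _ ho
      have h2 := h' _ hod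
      have h3 : (cut s t (S ∪ T)).card + sp F (S ∪ T) = k := by omega
      have h4 := hmax (S ∪ T) ⟨by simp [hvS, hvT], by simp [haS], h3⟩
      have h5 : S = S ∪ T := eq_of_subset_of_card_le subset_union_left h4
      rw [h5]
      exact subset_union_right
  have hall : ∀ f ∈ cut s t {v}, Split.oth s t v f ∈ S := by
    intro f hf
    by_cases hfe : f = e₀
    · rw [hfe]
      exact haS
    · obtain ⟨T, h1, h2, h3, h4⟩ := hcon f hf hfe
      exact key T h1 h2 h4 h3
  have hc := Split.card_insert s t S v hvS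
    (fun e h1 h2 => by
      have := hall e (by simp [cut, h1, h2])
      simpa [Split.oth, h1] using this)
    (fun e h1 h2 => by
      have := hall e (by simp [cut, h1, h2])
      simpa [Split.oth, h2] using this)
  have hodd : Odd (cut s t (insert v S)).card := by
    rw [← Nat.not_even_iff_odd]
    intro h1
    rcases h1 with ⟨a, ha⟩
    rcases hv with ⟨b, hb⟩
    rcases hk with ⟨d, hd⟩
    obtain ⟨q₁, hq₁⟩ := sp_even F S
    omega
  have h1 := h' _ hodd
  rcases hvF with hvF | hvF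
  · rw [sp_insert F S hvF] at h1
    omega
  · have h2 := sp_le F (insert v S)
    rcases hv with ⟨b, hb⟩
    omega

end SplitF

/-- BF.  Splitting off two edges at a vertex of even degree. -/
theorem exists_splitF (s t : E → V) {k : ℕ} (hk : Odd k) (F : Finset V) (h : OddCutF s t k F)
    (v : V) (hv : Even (cut s t {v}).card) (hv0 : (cut s t {v}).card ≠ 0)
    (hvF : v ∉ F ∨ (cut s t {v}).card ≠ 2) :
    ∃ s' t' : E → V, (∀ X, Odd (cut s' t' X).card ↔ Odd (cut s t X).card) ∧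
      OddCutF s' t' k F ∧
      (univ.filter fun e => s' e ≠ t' e).card < (univ.filter fun e => s e ≠ t e).card ∧
      ∀ θ, 0 ≤ θ → Good s' t' θ → Good s t θ := by
  classical
  obtain ⟨e₀, he₀⟩ := card_ne_zero.1 hv0
  obtain ⟨f₀, hf₀, hne, hgood⟩ := SplitF.exists_good s t hk F h v hv hvF he₀
  have he₁ : ¬ (s e₀ = v ↔ t e₀ = v) := by simpa [cut] using he₀
  have hf₁ : ¬ (s f₀ = v ↔ t f₀ = v) := by simpa [cut] using hf₀
  let A : Finset E := univ.filter fun e => (e = e₀ ∧ s e₀ = v) ∨ (e = f₀ ∧ t f₀ = v)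
  have hA1 : e₀ ∈ A ↔ s e₀ = v := by simp [A, hne.symm]
  have hA2 : f₀ ∈ A ↔ t f₀ = v := by simp [A, hne]
  have e1 : Split.fl A t s e₀ = v := by
    unfold Split.fl
    by_cases h1 : s e₀ = v
    · simp [hA1.2 h1, h1]
    · rw [if_neg (fun h2 => h1 (hA1.1 h2))]
      tauto
  have e2 : Split.fl A s t e₀ = Split.oth s t v e₀ := by
    unfold Split.fl Split.oth
    by_cases h1 : s e₀ = v
    · simp [hA1.2 h1, h1]
    · rw [if_neg (fun h2 => h1 (hA1.1 h2)), if_neg h1]
  have f1 : Split.fl A s t f₀ = v := by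
    unfold Split.fl
    by_cases h1 : t f₀ = v
    · simp [hA2.2 h1, h1]
    · rw [if_neg (fun h2 => h1 (hA2.1 h2))]
      tauto
  have f2 : Split.fl A t s f₀ = Split.oth s t v f₀ := by
    unfold Split.fl Split.oth
    by_cases h1 : t f₀ = v
    · have h3 : s f₀ ≠ v := by tauto
      simp [hA2.2 h1, h3]
    · have h3 : s f₀ = v := by tauto
      rw [if_neg (fun h2 => h1 (hA2.1 h2)), if_pos h3]
  have e3 : Split.oth s t v e₀ ≠ v := by
    unfold Split.oth
    by_cases h1 : s e₀ = v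
    · rw [if_pos h1]
      tauto
    · rw [if_neg h1]
      exact h1
  have f3 : Split.oth s t v f₀ ≠ v := by
    unfold Split.oth
    by_cases h1 : s f₀ = v
    · rw [if_pos h1]
      tauto
    · rw [if_neg h1]
      exact h1
  have hcard := Split.card_newt (Split.fl A s t) (Split.fl A t s) hne e1 f1
  simp only [Split.cut_fl] at hcard
  refine ⟨Split.fl A s t, Split.newt (Split.fl A t s) v e₀ f₀, fun X => ?_, fun X hX => ?_, ?_,
    fun θ _ hg => Split.good_fl A s t (Split.good_newt _ _ hne e1 f1 hg)⟩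
  · rw [← hcard X, Nat.odd_add, iff_true_right (even_two_mul _)]
  · change k ≤ (cut _ _ X).card + SplitF.sp F X
    have hc := hcard X
    have hXo : Odd (cut s t X).card := by
      rw [← hc, Nat.odd_add, iff_true_right (even_two_mul _)]
      exact hX
    have hkX : k ≤ (cut s t X).card + SplitF.sp F X := h X hXo
    split_ifs at hc with hcond
    · -- the cut loses two edges
      rw [e2, f2] at hcond
      have hne' : (cut s t X).card + SplitF.sp F X ≠ k := by
        by_cases hvX : v ∈ X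
        · have ha : Split.oth s t v e₀ ∈ Xᶜ := by
            rw [mem_compl]
            tauto
          have hb : Split.oth s t v f₀ ∈ Xᶜ := by
            rw [mem_compl]
            tauto
          have := hgood Xᶜ (by simp [hvX]) ha hb
          rwa [Split.cut_compl_card, SplitF.sp_compl] at this
        · exact hgood X hvX (by tauto) (by tauto)
      rcases hk with ⟨d, hd⟩
      rcases hXo with ⟨b, hb⟩
      obtain ⟨q, hq⟩ := SplitF.sp_even F X
      omega
    · omega
  · rw [← Split.loops_fl A s t]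
    exact Split.loops_newt _ _ hne e1 f1 (by rw [e2]; exact e3) (by rw [f2]; exact f3)

end Pool.Agent.OddFlow
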