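import Mathlib
import Pool.Agent.Work.MP_392c8e_co_odd.DefsF
import Pool.Agent.Work.MP_392c8e_co_odd.Split

/-!
# Exceptional vertices of degree two and zero
-/

namespace Pool.Agent.OddFlow

open Finset Pool.Agent.Circ

variable {V E : Type*} [Fintype V] [DecidableEq V] [Fintype E] [DecidableEq E]

/-- An isolated vertex does not matter for a cut. -/
theorem cut_congr_iso (s t : E → V) (v : V) (h : ∀ e, s e = v ↔ t e = v) (X Y : Finset V)
    (hXY : ∀ x, x ≠ v → (x ∈ X ↔ x ∈ Y)) : cut s t X = cut s t Y := by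
  unfold cut
  refine filter_congr fun e _ => ?_
  by_cases h1 : s e = v
  · have h2 := (h e).1 h1
    simp [h1, h2]
  · have h2 : t e ≠ v := fun h3 => h1 ((h e).2 h3)
    rw [hXY _ h1, hXY _ h2]

theorem iso_of_card (s t : E → V) (v : V) (hv : (cut s t {v}).card = 0) (e : E) :
    s e = v ↔ t e = v := by
  rw [card_eq_zero] at hv
  by_contra h
  have : e ∈ cut s t {v} := by simpa [cut] using h
  rw [hv] at this
  simp at this

/-- BI.  An isolated vertex can be removed from `F`. -/
theorem oddCutF_erase (s t : E → V) {k : ℕ} (F : Finset V) (h : OddCutF s t k F)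
    (v : V) (hv : (cut s t {v}).card = 0) : OddCutF s t k (F.erase v) := by
  classical
  have hiso := iso_of_card s t v hv
  intro X hX
  by_cases hS : Sep (F.erase v) X
  · rw [if_pos hS]
    have h1 := h X hX
    split_ifs at h1 <;> omega
  · rw [if_neg hS]
    -- put `v` on the side of the rest of `F`
    by_cases hne : ∃ x ∈ F.erase v, x ∈ X
    · have hall : ∀ y ∈ F.erase v, y ∈ X := by
        intro y hy
        by_contra hyX
        exact hS ⟨hne, y, hy, hyX⟩
      have hc := cut_congr_iso s t v hiso X (insert v X) (fun x hx => by simp [hx])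
      have h1 := h (insert v X) (by rw [← hc]; exact hX)
      rw [if_neg, ← hc] at h1
      · omega
      · rintro ⟨-, y, hy, hyX⟩
        by_cases hyv : y = v
        · exact hyX (by simp [hyv])
        · exact hyX (mem_insert_of_mem (hall y (mem_erase.2 ⟨hyv, hy⟩)))
    · have hc := cut_congr_iso s t v hiso X (X.erase v) (fun x hx => by simp [hx])
      have h1 := h (X.erase v) (by rw [← hc]; exact hX)
      rw [if_neg, ← hc] at h1
      · omega
      · rintro ⟨⟨x, hx, hxX⟩, -⟩
        rw [mem_erase] at hxX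
        exact hne ⟨x, mem_erase.2 ⟨hxX.1, hx⟩, hxX.2⟩

/-- BS.  Suppressing a vertex of degree two in `F`: its place in `F` is taken by a neighbour. -/
theorem exists_suppress (s t : E → V) {k : ℕ} (F : Finset V) (h : OddCutF s t k F)
    (v : V) (hv : (cut s t {v}).card = 2) (hvF : v ∈ F) :
    ∃ (s' t' : E → V) (F' : Finset V),
      (∀ X, Odd (cut s' t' X).card ↔ Odd (cut s t X).card) ∧
      OddCutF s' t' k F' ∧ F'.card ≤ F.card ∧
      (univ.filter fun e => s' e ≠ t' e).card < (univ.filter fun e => s e ≠ t e).card ∧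
      ∀ θ, 0 ≤ θ → Good s' t' θ → Good s t θ := by
  classical
  obtain ⟨e₀, f₀, hne0, hcut⟩ := card_eq_two.1 hv
  have hne : f₀ ≠ e₀ := hne0.symm
  have he₀ : e₀ ∈ cut s t {v} := by rw [hcut]; simp
  have hf₀ : f₀ ∈ cut s t {v} := by rw [hcut]; simp
  have he₁ : ¬ (s e₀ = v ↔ t e₀ = v) := by simpa [cut] using he₀
  have hf₁ : ¬ (s f₀ = v ↔ t f₀ = v) := by simpa [cut] using hf₀
  let A : Finset E := univ.filter fun e => (e = e₀ ∧ s e₀ = v) ∨ (e = f₀ ∧ t f₀ = v)
  have hA1 : e₀ ∈ A ↔ s e₀ = v := by simp [A, hne.symm]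
  have hA2 : f₀ ∈ A ↔ t f₀ = v := by simp [A, hne]
  have hA3 : ∀ e, e ≠ e₀ → e ≠ f₀ → e ∉ A := by
    intro e h1 h2
    simp [A, h1, h2]
  have e1 : Split.fl A t s e₀ = v := by
    unfold Split.fl
    by_cases h1 : s e₀ = v
    · simp [hA1.2 h1, h1]
    · rw [if_neg (fun h2 => h1 (hA1.1 h2))]
      tauto
  have e3 : Split.fl A s t e₀ ≠ v := by
    unfold Split.fl
    by_cases h1 : s e₀ = v
    · simp only [hA1.2 h1, if_true]
      tauto
    · rw [if_neg (fun h2 => h1 (hA1.1 h2))]
      exact h1
  have f1 : Split.fl A s t f₀ = v := by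
    unfold Split.fl
    by_cases h1 : t f₀ = v
    · simp [hA2.2 h1, h1]
    · rw [if_neg (fun h2 => h1 (hA2.1 h2))]
      tauto
  have f3 : Split.fl A t s f₀ ≠ v := by
    unfold Split.fl
    by_cases h1 : t f₀ = v
    · simp only [hA2.2 h1, if_true]
      tauto
    · rw [if_neg (fun h2 => h1 (hA2.1 h2))]
      exact h1
  set s' := Split.fl A s t with hs'
  set t₁ := Split.fl A t s with ht₁
  set t' := Split.newt t₁ v e₀ f₀ with ht'
  have hcard := Split.card_newt s' t₁ hne e1 f1
  have hfl : ∀ X, cut s' t₁ X = cut s t X := Split.cut_fl A s t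
  simp only [hfl] at hcard
  -- `v` is isolated after the operation
  have hiso : ∀ e, s' e = v ↔ t' e = v := by
    intro e
    by_cases h2 : e = f₀
    · rw [h2, f1]
      simp [ht', Split.newt]
    · by_cases h1 : e = e₀
      · rw [h1]
        have : t' e₀ = t₁ f₀ := by simp [ht', Split.newt, hne0]
        rw [this]
        exact iff_of_false e3 f3
      · have h3 : e ∉ cut s t {v} := by
          rw [hcut]
          simp [h1, h2]
        have h4 : s e = v ↔ t e = v := by
          by_contra h5
          exact h3 (by simpa [cut] using h5)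
        have h5 : s' e = s e := by simp [hs', Split.fl, hA3 e h1 h2]
        have h6 : t' e = t e := by simp [ht', ht₁, Split.newt, Split.fl, h1, h2, hA3 e h1 h2]
        rw [h5, h6]
        exact h4
  let hat : Finset V → Finset V := fun X => if s' e₀ ∈ X then insert v X else X.erase v
  have hhat : ∀ X x, x ≠ v → (x ∈ X ↔ x ∈ hat X) := by
    intro X x hx
    simp only [hat]
    split_ifs <;> simp [hx]
  have hhatv : ∀ X, v ∈ hat X ↔ s' e₀ ∈ X := by
    intro X
    simp only [hat]
    split_ifs with h1 <;> simp [h1]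
  have hch : ∀ X, (cut s' t' X).card = (cut s t (hat X)).card := by
    intro X
    rw [cut_congr_iso s' t' v hiso X (hat X) (hhat X)]
    have h1 := hcard (hat X)
    rw [if_neg] at h1
    · simpa using h1
    · rintro ⟨-, h2⟩
      exact h2 ((hhatv X).trans (hhat X _ e3))
  have hsep : ∀ X, Sep F (hat X) ↔ Sep (insert (s' e₀) (F.erase v)) X := by
    intro X
    constructor
    · rintro ⟨⟨x, hx, hxX⟩, y, hy, hyX⟩
      constructor
      · by_cases h1 : x = v
        · rw [h1, hhatv] at hxX
          exact ⟨_, mem_insert_self _ _, hxX⟩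
        · exact ⟨x, mem_insert_of_mem (mem_erase.2 ⟨h1, hx⟩), (hhat X x h1).2 hxX⟩
      · by_cases h1 : y = v
        · rw [h1, hhatv] at hyX
          exact ⟨_, mem_insert_self _ _, hyX⟩
        · exact ⟨y, mem_insert_of_mem (mem_erase.2 ⟨h1, hy⟩), fun h2 => hyX ((hhat X y h1).1 h2)⟩
    · rintro ⟨⟨x, hx, hxX⟩, y, hy, hyX⟩
      constructor
      · rw [mem_insert] at hx
        rcases hx with rfl | hx
        · exact ⟨v, hvF, (hhatv X).2 hxX⟩
        · rw [mem_erase] at hx
          exact ⟨x, hx.2, (hhat X x hx.1).1 hxX⟩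
      · rw [mem_insert] at hy
        rcases hy with rfl | hy
        · exact ⟨v, hvF, fun h2 => hyX ((hhatv X).1 h2)⟩
        · rw [mem_erase] at hy
          exact ⟨y, hy.2, fun h2 => hyX ((hhat X y hy.1).2 h2)⟩
  refine ⟨s', t', insert (s' e₀) (F.erase v), fun X => ?_, fun X hX => ?_, ?_, ?_,
    fun θ _ hg => Split.good_fl A s t (Split.good_newt _ _ hne e1 f1 hg)⟩
  · rw [← hcard X, Nat.odd_add, iff_true_right (even_two_mul _)]
  · have h1 := h (hat X) (by rw [← hch]; exact hX)
    rw [← hch] at h1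
    simp only [hsep] at h1
    exact h1
  · refine (card_insert_le _ _).trans ?_
    rw [card_erase_of_mem hvF]
    have : 0 < F.card := card_pos.2 ⟨v, hvF⟩
    omega
  · rw [← Split.loops_fl A s t]
    exact Split.loops_newt _ _ hne e1 f1 e3 f3

end Pool.Agent.OddFlow
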