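import Mathlib
import Pool.Agent.Work.MP_392c8e_co_odd.SplitF
import Pool.Agent.Work.MP_392c8e_co_odd.Suppress
import Pool.Agent.Work.MP_392c8e_co_odd.DenseF
import Pool.Agent.Work.MP_392c8e_co_odd.Contract

/-!
# Graphs with few small odd cuts have flows near the antipode
-/

namespace Pool.Agent.OddFlow

open Finset Pool.Agent.Circ

set_option linter.unusedSectionVars false

variable {V E : Type*} [Fintype V] [DecidableEq V] [Fintype E] [DecidableEq E]

/-- the cuts of a contraction -/
theorem cut_contract (s t : E → V) (U : Finset V) (u : V) (X : Finset V) :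
    cut (fun e => if s e ∈ U then u else s e) (fun e => if t e ∈ U then u else t e) X =
      cut s t (univ.filter fun x => (if x ∈ U then u else x) ∈ X) := by
  ext e
  simp only [cut, mem_filter, mem_univ, true_and]

theorem cut_empty (s t : E → V) : cut s t ∅ = ∅ := by
  ext e
  simp [cut]

/-- contraction does not increase the number of odd vertices -/
theorem card_oddV_contract (s t : E → V) (U : Finset V) (u : V) (hU2 : 2 ≤ U.card)
    (hUo : U ⊆ oddV s t) :
    (oddV (fun e => if s e ∈ U then u else s e) (fun e => if t e ∈ U then u else t e)).card ≤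
      (oddV s t).card := by
  classical
  have h1 : oddV (fun e => if s e ∈ U then u else s e) (fun e => if t e ∈ U then u else t e) ⊆
      insert u (oddV s t \ U) := by
    intro v hv
    rw [oddV, mem_filter] at hv
    have h2 := hv.2
    rw [cut_contract] at h2
    by_cases h3 : v = u
    · rw [h3]; exact mem_insert_self _ _
    refine mem_insert_of_mem (mem_sdiff.2 ?_)
    by_cases h4 : v ∈ U
    · exfalso
      have h5 : (univ.filter fun x => (if x ∈ U then u else x) ∈ ({v} : Finset V)) = ∅ := by
        rw [filter_eq_empty_iff]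
        intro x _
        rw [mem_singleton]
        by_cases h6 : x ∈ U
        · rw [if_pos h6]
          exact fun h7 => h3 h7.symm
        · rw [if_neg h6]
          rintro rfl
          exact h6 h4
      rw [h5, cut_empty, card_empty] at h2
      exact absurd h2 (by decide)
    · refine ⟨?_, h4⟩
      rw [oddV, mem_filter]
      refine ⟨mem_univ _, ?_⟩
      have h5 : (univ.filter fun x => (if x ∈ U then u else x) ∈ ({v} : Finset V)) = {v} := by
        ext x
        rw [mem_filter, mem_singleton, mem_singleton]
        by_cases h6 : x ∈ U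
        · rw [if_pos h6]
          constructor
          · exact fun h7 => absurd h7.2.symm h3
          · rintro rfl
            exact absurd h6 h4
        · rw [if_neg h6]
          simp
      rwa [h5] at h2
  have h3 := card_le_card h1
  have h4 := card_insert_le u (oddV s t \ U)
  have h5 := card_sdiff_add_card_eq_card hUo
  omega

/-- **The flow theorem.**  Let `k` be odd and suppose that every odd cut has at least `k` edges, or
at least `k - 2` edges if it separates the set `F`.  If `θ (k n - 2 j) ≥ 2 (n - 1)` for all
`2 ≤ n ≤ N` and `j ≤ min n |F|`, where `N` is the number of vertices of odd degree, then there is a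
circle valued flow with all values within `θ` of the antipode. -/
theorem mainF (s t : E → V) {k : ℕ} (hk : Odd k) (F : Finset V) (h : OddCutF s t k F) (θ : ℝ)
    (hθ0 : 0 ≤ θ)
    (hθ : ∀ n j : ℕ, 2 ≤ n → n ≤ (oddV s t).card → j ≤ n → j ≤ F.card →
      2 * ((n : ℝ) - 1) ≤ θ * (k * n - 2 * j)) : Good s t θ := by
  induction hm : (univ.filter fun e => s e ≠ t e).card + F.card using Nat.strong_induction_on
    generalizing s t F with
  | _ m ih =>
  subst hm
  by_cases hm0 : (univ.filter fun e => s e ≠ t e).card = 0
  · -- only loops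
    rw [card_eq_zero, filter_eq_empty_iff] at hm0
    refine ⟨fun _ => ((1 : ℝ) : AddCircle (2 : ℝ)), fun v => ?_, fun e => by simpa using hθ0⟩
    rw [dvT]
    refine Finset.sum_eq_zero fun e _ => ?_
    have := hm0 (mem_univ e)
    push Not at this
    rw [this, sub_self]
  by_cases hiso : ∃ v ∈ F, (cut s t {v}).card = 0
  · -- an isolated vertex in `F`
    obtain ⟨v, hvF, hv⟩ := hiso
    have h1 := card_erase_lt_of_mem hvF
    exact ih _ (by omega) s t (F.erase v) (oddCutF_erase s t F h v hv)
      (fun n j h2 h3 h4 h5 => hθ n j h2 h3 h4 (h5.trans h1.le)) rfl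
  by_cases hsup : ∃ v ∈ F, (cut s t {v}).card = 2
  · -- a vertex of degree two in `F`
    obtain ⟨v, hvF, hv⟩ := hsup
    obtain ⟨s', t', F', h1, h2, h3, h4, h5⟩ := exists_suppress s t F h v hv hvF
    have h6 : oddV s' t' = oddV s t := by
      rw [oddV, oddV]
      exact Finset.filter_congr fun v _ => h1 {v}
    refine h5 θ hθ0 (ih _ (by omega) s' t' F' h2 (fun n j h7 h8 h9 h10 => ?_) rfl)
    rw [h6] at h8
    exact hθ n j h7 h8 h9 (h10.trans h3)
  by_cases hev : ∃ v, Even (cut s t {v}).card ∧ (cut s t {v}).card ≠ 0
  · -- split at a vertex of even degree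
    obtain ⟨v, hv, hv0⟩ := hev
    have hvF : v ∉ F ∨ (cut s t {v}).card ≠ 2 := by
      by_cases hvF : v ∈ F
      · exact Or.inr fun h2 => hsup ⟨v, hvF, h2⟩
      · exact Or.inl hvF
    obtain ⟨s', t', h1, h2, h3, h4⟩ := exists_splitF s t hk F h v hv hv0 hvF
    have h5 : oddV s' t' = oddV s t := by
      rw [oddV, oddV]
      exact Finset.filter_congr fun v _ => h1 {v}
    refine h4 θ hθ0 (ih _ (by omega) s' t' F h2 (fun n j h7 h8 h9 h10 => ?_) rfl)
    rw [h5] at h8
    exact hθ n j h7 h8 h9 h10
  -- all degrees are odd
  have hodd : ∀ v, Odd (cut s t {v}).card ∨ (cut s t {v}).card = 0 := by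
    intro v
    by_contra h1
    push Not at h1
    exact hev ⟨v, Nat.not_odd_iff_even.1 h1.1, h1.2⟩
  have hFo : F ⊆ oddV s t := by
    intro v hv
    rw [oddV, mem_filter]
    exact ⟨mem_univ _, (hodd v).resolve_right fun h1 => hiso ⟨v, hv, h1⟩⟩
  obtain ⟨U, hU2, hUo, hU⟩ := exists_denseF s t F h hodd hm0 θ hθ0 hFo hθ
  obtain ⟨u, hu⟩ : U.Nonempty := card_pos.1 (by omega)
  have hlt : (univ.filter fun e => (if s e ∈ U then u else s e) ≠
      (if t e ∈ U then u else t e)).card < (univ.filter fun e => s e ≠ t e).card := by
    -- fewer edges: some edge inside `U` is no loop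
    refine Finset.card_lt_card ?_
    rw [Finset.ssubset_iff_of_subset]
    · -- an edge inside `U`
      obtain ⟨e, he1, he2, he3⟩ : ∃ e, s e ∈ U ∧ t e ∈ U ∧ s e ≠ t e := by
        by_contra hno
        push Not at hno
        have h1 := hU (fun x => (Fintype.equivFin V x.1 : ℕ))
        have h2 : (univ.filter (fun e : {e : E // s e ∈ U ∧ t e ∈ U} =>
            (Fintype.equivFin V (s e.1) : ℕ) ≠ Fintype.equivFin V (t e.1))).card = 0 := by
          rw [card_eq_zero, filter_eq_empty_iff]
          intro e _
          push Not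
          rw [hno e.1 e.2.1 e.2.2]
        have h3 : (univ.image fun x : {x // x ∈ U} => (Fintype.equivFin V x.1 : ℕ)).card
            = U.card := by
          rw [card_image_of_injective, card_univ, Fintype.card_coe]
          intro x y hxy
          exact Subtype.ext ((Fintype.equivFin V).injective (Fin.ext hxy))
        simp only at h1
        rw [h2, h3] at h1
        have h4 : (2 : ℝ) ≤ U.card := by exact_mod_cast hU2
        norm_num at h1
        linarith
      refine ⟨e, ?_, ?_⟩
      · simpa using he3
      · simp [he1, he2]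
    · intro e he
      simp only [mem_filter, mem_univ, true_and] at he ⊢
      intro h1
      exact he (by rw [h1])
  have hF' : (F.image fun x => if x ∈ U then u else x).card ≤ F.card := card_image_le
  refine good_of_contract s t U u hu θ hθ0 hU
    (ih _ (by omega) _ _ (F.image fun x => if x ∈ U then u else x) ?_ ?_ rfl)
  · -- odd cuts
    intro X hX
    rw [cut_contract] at hX ⊢
    have h1 := h _ hX
    have h2 : Sep (F.image fun x => if x ∈ U then u else x) X ↔
        Sep F (univ.filter fun x => (if x ∈ U then u else x) ∈ X) := by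
      simp only [Sep, mem_image, mem_filter, mem_univ, true_and]
      constructor
      · rintro ⟨⟨_, ⟨x, hx, rfl⟩, hx2⟩, _, ⟨y, hy, rfl⟩, hy2⟩
        exact ⟨⟨x, hx, hx2⟩, y, hy, hy2⟩
      · rintro ⟨⟨x, hx, hx2⟩, y, hy, hy2⟩
        exact ⟨⟨_, ⟨x, hx, rfl⟩, hx2⟩, _, ⟨y, hy, rfl⟩, hy2⟩
    simp only [h2]
    exact h1
  · intro n j h7 h8 h9 h10
    exact hθ n j h7 (h8.trans (card_oddV_contract s t U u hU2 hUo)) h9 (h10.trans hF')

end Pool.Agent.OddFlow
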