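import Mathlib
import Pool.Agent.Work.MP_392c8e_co_odd.SplitF
import Pool.Agent.Work.MP_392c8e_co_odd.Suppress
import Pool.Agent.Work.MP_392c8e_co_odd.SplitC

/-!
# Splitting off all edges at the vertices of even degree, with exceptional vertices
-/

namespace Pool.Agent.OddFlow

open Finset Pool.Agent.Circ

set_option linter.unusedSectionVars false

variable {V E : Type*} [Fintype V] [DecidableEq V] [Fintype E] [DecidableEq E]

/-- Splitting off two edges at a vertex of even degree; the cuts do not grow. -/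
theorem exists_splitFC (s t : E → V) {k : ℕ} (hk : Odd k) (F : Finset V) (h : OddCutF s t k F)
    (v : V) (hv : Even (cut s t {v}).card) (hv0 : (cut s t {v}).card ≠ 0)
    (hvF : v ∉ F ∨ (cut s t {v}).card ≠ 2) :
    ∃ s' t' : E → V, (∀ X, Odd (cut s' t' X).card ↔ Odd (cut s t X).card) ∧
      OddCutF s' t' k F ∧
      (univ.filter fun e => s' e ≠ t' e).card < (univ.filter fun e => s e ≠ t e).card ∧
      ∀ X, (cut s' t' X).card ≤ (cut s t X).card := by
  classical
  obtain ⟨e₀, he₀⟩ := card_ne_zero.1 hv0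
  obtain ⟨f₀, hf₀, hne, hgood⟩ := SplitF.exists_good s t hk F h v hv hvF he₀
  have he₁ : ¬ (s e₀ = v ↔ t e₀ = v) := by simpa [cut] using he₀
  have hf₁ : ¬ (s f₀ = v ↔ t f₀ = v) := by simpa [cut] using hf₀
  let A : Finset E := univ.filter fun e => (e = e₀ ∧ s e₀ = v) ∨ (e = f₀ ∧ t f₀ = v)
  have hA1 : e₀ ∈ A ↔ s e₀ = v := by simp [A, hne.symm]
  have hA2 : f₀ ∈ A ↔ t f₀ = v := by simp [A, hne]
  have e1 : Split.fl A t s e₀ = v := by
    unfold Split.fl
    by_cases h1 : s e₀ = v
    · simp [hA1.2 h1, h1]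
    · rw [if_neg (fun h2 => h1 (hA1.1 h2))]
      tauto
  have e2 : Split.fl A s t e₀ = Split.oth s t v e₀ := by
    unfold Split.fl Split.oth
    by_cases h1 : s e₀ = v
    · simp [hA1.2 h1, h1]
    · rw [if_neg (fun h2 => h1 (hA1.1 h2)), if_neg h1]
  have f1 : Split.fl A s t f₀ = v := by
    unfold Split.fl
    by_cases h1 : t f₀ = v
    · simp [hA2.2 h1, h1]
    · rw [if_neg (fun h2 => h1 (hA2.1 h2))]
      tauto
  have f2 : Split.fl A t s f₀ = Split.oth s t v f₀ := by
    unfold Split.fl Split.oth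
    by_cases h1 : t f₀ = v
    · have h3 : s f₀ ≠ v := by tauto
      simp [hA2.2 h1, h3]
    · have h3 : s f₀ = v := by tauto
      rw [if_neg (fun h2 => h1 (hA2.1 h2)), if_pos h3]
  have e3 : Split.oth s t v e₀ ≠ v := by
    unfold Split.oth
    by_cases h1 : s e₀ = v
    · rw [if_pos h1]
      tauto
    · rw [if_neg h1]
      exact h1
  have f3 : Split.oth s t v f₀ ≠ v := by
    unfold Split.oth
    by_cases h1 : s f₀ = v
    · rw [if_pos h1]
      tauto
    · rw [if_neg h1]
      exact h1
  have hcard := Split.card_newt (Split.fl A s t) (Split.fl A t s) hne e1 f1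
  simp only [Split.cut_fl] at hcard
  refine ⟨Split.fl A s t, Split.newt (Split.fl A t s) v e₀ f₀, fun X => ?_, fun X hX => ?_, ?_,
    fun X => ?_⟩
  · rw [← hcard X, Nat.odd_add, iff_true_right (even_two_mul _)]
  · change k ≤ (cut _ _ X).card + SplitF.sp F X
    have hc := hcard X
    have hXo : Odd (cut s t X).card := by
      rw [← hc, Nat.odd_add, iff_true_right (even_two_mul _)]
      exact hX
    have hkX : k ≤ (cut s t X).card + SplitF.sp F X := h X hXo
    split_ifs at hc with hcond
    · -- the cut loses two edges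
      rw [e2, f2] at hcond
      have hne' : (cut s t X).card + SplitF.sp F X ≠ k := by
        by_cases hvX : v ∈ X
        · have ha : Split.oth s t v e₀ ∈ Xᶜ := by
            rw [mem_compl]
            tauto
          have hb : Split.oth s t v f₀ ∈ Xᶜ := by
            rw [mem_compl]
            tauto
          have := hgood Xᶜ (by simp [hvX]) ha hb
          rwa [Split.cut_compl_card, SplitF.sp_compl] at this
        · exact hgood X hvX (by tauto) (by tauto)
      rcases hk with ⟨d, hd⟩
      rcases hXo with ⟨b, hb⟩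
      obtain ⟨q, hq⟩ := SplitF.sp_even F X
      omega
    · omega
  · rw [← Split.loops_fl A s t]
    exact Split.loops_newt _ _ hne e1 f1 (by rw [e2]; exact e3) (by rw [f2]; exact f3)
  · have := hcard X
    omega

/-- Suppressing a vertex of degree two in `F`: its place in `F` is taken by a neighbour. -/
theorem exists_suppressC (s t : E → V) {k : ℕ} (F : Finset V) (h : OddCutF s t k F)
    (v : V) (hv : (cut s t {v}).card = 2) (hvF : v ∈ F) :
    ∃ (s' t' : E → V) (F' : Finset V),
      (∀ X, Odd (cut s' t' X).card ↔ Odd (cut s t X).card) ∧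
      OddCutF s' t' k F' ∧ F'.card ≤ F.card ∧
      (univ.filter fun e => s' e ≠ t' e).card < (univ.filter fun e => s e ≠ t e).card ∧
      ∀ X, (cut s' t' X).card ≤ (cut s t X).card := by
  classical
  obtain ⟨e₀, f₀, hne0, hcut⟩ := card_eq_two.1 hv
  have hne : f₀ ≠ e₀ := hne0.symm
  have he₀ : e₀ ∈ cut s t {v} := by rw [hcut]; simp
  have hf₀ : f₀ ∈ cut s t {v} := by rw [hcut]; simp
  have he₁ : ¬ (s e₀ = v ↔ t e₀ = v) := by simpa [cut] using he₀
  have hf₁ : ¬ (s f₀ = v ↔ t f₀ = v) := by simpa [cut] using hf₀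
  let A : Finset E := univ.filter fun e => (e = e₀ ∧ s e₀ = v) ∨ (e = f₀ ∧ t f₀ = v)
  have hA1 : e₀ ∈ A ↔ s e₀ = v := by simp [A, hne.symm]
  have hA2 : f₀ ∈ A ↔ t f₀ = v := by simp [A, hne]
  have hA3 : ∀ e, e ≠ e₀ → e ≠ f₀ → e ∉ A := by
    intro e h1 h2
    simp [A, h1, h2]
  have e1 : Split.fl A t s e₀ = v := by
    unfold Split.fl
    by_cases h1 : s e₀ = v
    · simp [hA1.2 h1, h1]
    · rw [if_neg (fun h2 => h1 (hA1.1 h2))]
      tauto
  have e3 : Split.fl A s t e₀ ≠ v := by
    unfold Split.fl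
    by_cases h1 : s e₀ = v
    · simp only [hA1.2 h1, if_true]
      tauto
    · rw [if_neg (fun h2 => h1 (hA1.1 h2))]
      exact h1
  have f1 : Split.fl A s t f₀ = v := by
    unfold Split.fl
    by_cases h1 : t f₀ = v
    · simp [hA2.2 h1, h1]
    · rw [if_neg (fun h2 => h1 (hA2.1 h2))]
      tauto
  have f3 : Split.fl A t s f₀ ≠ v := by
    unfold Split.fl
    by_cases h1 : t f₀ = v
    · simp only [hA2.2 h1, if_true]
      tauto
    · rw [if_neg (fun h2 => h1 (hA2.1 h2))]
      exact h1
  set s' := Split.fl A s t with hs'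
  set t₁ := Split.fl A t s with ht₁
  set t' := Split.newt t₁ v e₀ f₀ with ht'
  have hcard := Split.card_newt s' t₁ hne e1 f1
  have hfl : ∀ X, cut s' t₁ X = cut s t X := Split.cut_fl A s t
  simp only [hfl] at hcard
  -- `v` is isolated after the operation
  have hiso : ∀ e, s' e = v ↔ t' e = v := by
    intro e
    by_cases h2 : e = f₀
    · rw [h2, f1]
      simp [ht', Split.newt]
    · by_cases h1 : e = e₀
      · rw [h1]
        have : t' e₀ = t₁ f₀ := by simp [ht', Split.newt, hne0]
        rw [this]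
        exact iff_of_false e3 f3
      · have h3 : e ∉ cut s t {v} := by
          rw [hcut]
          simp [h1, h2]
        have h4 : s e = v ↔ t e = v := by
          by_contra h5
          exact h3 (by simpa [cut] using h5)
        have h5 : s' e = s e := by simp [hs', Split.fl, hA3 e h1 h2]
        have h6 : t' e = t e := by simp [ht', ht₁, Split.newt, Split.fl, h1, h2, hA3 e h1 h2]
        rw [h5, h6]
        exact h4
  let hat : Finset V → Finset V := fun X => if s' e₀ ∈ X then insert v X else X.erase v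
  have hhat : ∀ X x, x ≠ v → (x ∈ X ↔ x ∈ hat X) := by
    intro X x hx
    simp only [hat]
    split_ifs <;> simp [hx]
  have hhatv : ∀ X, v ∈ hat X ↔ s' e₀ ∈ X := by
    intro X
    simp only [hat]
    split_ifs with h1 <;> simp [h1]
  have hch : ∀ X, (cut s' t' X).card = (cut s t (hat X)).card := by
    intro X
    rw [cut_congr_iso s' t' v hiso X (hat X) (hhat X)]
    have h1 := hcard (hat X)
    rw [if_neg] at h1
    · simpa using h1
    · rintro ⟨-, h2⟩
      exact h2 ((hhatv X).trans (hhat X _ e3))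
  have hsep : ∀ X, Sep F (hat X) ↔ Sep (insert (s' e₀) (F.erase v)) X := by
    intro X
    constructor
    · rintro ⟨⟨x, hx, hxX⟩, y, hy, hyX⟩
      constructor
      · by_cases h1 : x = v
        · rw [h1, hhatv] at hxX
          exact ⟨_, mem_insert_self _ _, hxX⟩
        · exact ⟨x, mem_insert_of_mem (mem_erase.2 ⟨h1, hx⟩), (hhat X x h1).2 hxX⟩
      · by_cases h1 : y = v
        · rw [h1, hhatv] at hyX
          exact ⟨_, mem_insert_self _ _, hyX⟩
        · exact ⟨y, mem_insert_of_mem (mem_erase.2 ⟨h1, hy⟩), fun h2 => hyX ((hhat X y h1).1 h2)⟩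
    · rintro ⟨⟨x, hx, hxX⟩, y, hy, hyX⟩
      constructor
      · rw [mem_insert] at hx
        rcases hx with rfl | hx
        · exact ⟨v, hvF, (hhatv X).2 hxX⟩
        · rw [mem_erase] at hx
          exact ⟨x, hx.2, (hhat X x hx.1).1 hxX⟩
      · rw [mem_insert] at hy
        rcases hy with rfl | hy
        · exact ⟨v, hvF, fun h2 => hyX ((hhatv X).1 h2)⟩
        · rw [mem_erase] at hy
          exact ⟨y, hy.2, fun h2 => hyX ((hhat X y hy.1).2 h2)⟩
  refine ⟨s', t', insert (s' e₀) (F.erase v), fun X => ?_, fun X hX => ?_, ?_, ?_,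
    fun X => ?_⟩
  · rw [← hcard X, Nat.odd_add, iff_true_right (even_two_mul _)]
  · have h1 := h (hat X) (by rw [← hch]; exact hX)
    rw [← hch] at h1
    simp only [hsep] at h1
    exact h1
  · refine (card_insert_le _ _).trans ?_
    rw [card_erase_of_mem hvF]
    have : 0 < F.card := card_pos.2 ⟨v, hvF⟩
    omega
  · rw [← Split.loops_fl A s t]
    exact Split.loops_newt _ _ hne e1 f1 e3 f3
  · have h9 := hcard X
    change (cut s' t' X).card + _ = _ at h9
    omega

/-- **Complete splitting** at the vertices of even degree, with exceptional vertices. -/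
theorem exists_fullF (s t : E → V) {k : ℕ} (hk : Odd k) (F : Finset V) (h : OddCutF s t k F) :
    ∃ (s' t' : E → V) (F' : Finset V), (∀ X, Odd (cut s' t' X).card ↔ Odd (cut s t X).card) ∧
      OddCutF s' t' k F' ∧ F'.card ≤ F.card ∧
      (∀ v, Even (cut s t {v}).card → (cut s' t' {v}).card = 0) ∧
      ∀ X, (cut s' t' X).card ≤ (cut s t X).card := by
  classical
  induction hm : (univ.filter fun e => s e ≠ t e).card + F.card using Nat.strong_induction_on
    generalizing s t F with
  | _ m ih =>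
  subst hm
  by_cases hiso : ∃ v ∈ F, (cut s t {v}).card = 0
  · -- an isolated vertex in `F`
    obtain ⟨v, hvF, hv⟩ := hiso
    have h1 := card_erase_lt_of_mem hvF
    obtain ⟨s', t', F', g1, g2, g3, g4, g5⟩ := ih _ (by omega) s t (F.erase v)
      (oddCutF_erase s t F h v hv) rfl
    exact ⟨s', t', F', g1, g2, g3.trans h1.le, g4, g5⟩
  by_cases hsup : ∃ v ∈ F, (cut s t {v}).card = 2
  · -- a vertex of degree two in `F`
    obtain ⟨v, hvF, hv⟩ := hsup
    obtain ⟨s₁, t₁, F₁, h1, h2, h3, h4, h5⟩ := exists_suppressC s t F h v hv hvF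
    obtain ⟨s', t', F', g1, g2, g3, g4, g5⟩ := ih _ (by omega) s₁ t₁ F₁ h2 rfl
    refine ⟨s', t', F', fun X => (g1 X).trans (h1 X), g2, g3.trans h3, fun u hu => g4 u ?_,
      fun X => (g5 X).trans (h5 X)⟩
    rw [← Nat.not_odd_iff_even] at hu ⊢
    exact fun h6 => hu ((h1 {u}).1 h6)
  by_cases hev : ∃ v, Even (cut s t {v}).card ∧ (cut s t {v}).card ≠ 0
  · -- split at a vertex of even degree
    obtain ⟨v, hv, hv0⟩ := hev
    have hvF : v ∉ F ∨ (cut s t {v}).card ≠ 2 := by
      by_cases hvF : v ∈ F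
      · exact Or.inr fun h2 => hsup ⟨v, hvF, h2⟩
      · exact Or.inl hvF
    obtain ⟨s₁, t₁, h1, h2, h3, h4⟩ := exists_splitFC s t hk F h v hv hv0 hvF
    obtain ⟨s', t', F', g1, g2, g3, g4, g5⟩ := ih _ (by omega) s₁ t₁ F h2 rfl
    refine ⟨s', t', F', fun X => (g1 X).trans (h1 X), g2, g3, fun u hu => g4 u ?_,
      fun X => (g5 X).trans (h4 X)⟩
    rw [← Nat.not_odd_iff_even] at hu ⊢
    exact fun h6 => hu ((h1 {u}).1 h6)
  push Not at hev
  exact ⟨s, t, F, fun X => Iff.rfl, h, le_rfl, hev, fun X => le_rfl⟩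

end Pool.Agent.OddFlow
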