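import Mathlib
import Pool.Agent.Work.MP_392c8e_co_odd.SplitD
import Pool.Agent.Work.MP_392c8e_co_odd.ConnS
import Pool.Agent.Work.MP_392c8e_co_odd.MainF
import Pool.Agent.Work.MP_392c8e_co_odd.GoodOf

/-!
# Only the nearly critical cuts matter
-/

namespace Pool.Agent.OddFlow

open Finset Pool.Agent.Circ

set_option linter.unusedSectionVars false

variable {V E : Type*} [Fintype V] [DecidableEq V] [Fintype E] [DecidableEq E]

/-- **The flow theorem, with a condition on the nearly critical cuts.**  The energy bound `θ` gives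
integral charges; only the cuts for which these can be larger than `a / b` times the number of
edges must be excluded, and only cuts with connected sides are needed. -/
theorem good_near (s t : E → V) (hconn : ConnS s t univ) {k : ℕ} (hk : Odd k) (F : Finset V)
    (h : OddCutF s t k F) (θ : ℝ) (hθ0 : 0 ≤ θ)
    (hθ : ∀ n j : ℕ, 2 ≤ n → n ≤ (oddV s t).card → j ≤ n → j ≤ F.card →
      2 * ((n : ℝ) - 1) ≤ θ * (k * n - 2 * j))
    (m : V → ℕ) (hm : ∀ v ∈ oddV s t, ∀ j : ℕ, Odd j → (j : ℝ) ≤ θ * (cut s t {v}).card → j ≤ m v)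
    {a b : ℕ} (hb : 0 < b)
    (hcrit : ∀ (Z : Finset V) (j : ℕ), ConnS s t Z → ConnS s t Zᶜ → Z.Nonempty → Zᶜ.Nonempty →
      Even (j + (cut s t Z).card) → (j : ℝ) ≤ θ * (cut s t Z).card →
      j ≤ ∑ v ∈ Z ∩ oddV s t, m v → j ≤ ∑ v ∈ oddV s t \ Z, m v → b * j ≤ a * (cut s t Z).card) :
    Good s t ((a : ℝ) / b) := by
  classical
  obtain ⟨s', t', F', g1, g2, g3, g4, g5⟩ := exists_fullF s t hk F h
  have hodd : oddV s' t' = oddV s t := by
    rw [oddV, oddV]
    exact Finset.filter_congr fun v _ => g1 {v}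
  have hgood : Good s' t' θ := by
    refine mainF s' t' hk F' g2 θ hθ0 fun n j h1 h2 h3 h4 => ?_
    rw [hodd] at h2
    exact hθ n j h1 h2 h3 (h4.trans g3)
  obtain ⟨w, hw'⟩ := chg_of_good s' t' hgood
  have hw : Chg s t θ w := hw'.mono hθ0 g1 g5
  -- the charges of single vertices
  have hw0 : ∀ v, v ∉ oddV s t → w v = 0 := by
    intro v hv
    have h1 : Even (cut s t {v}).card := by
      rw [oddV, mem_filter, not_and] at hv
      exact Nat.not_odd_iff_even.1 (hv (mem_univ _))
    have h2 := hw'.2 {v}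
    rw [g4 v h1, sum_singleton, Nat.cast_zero, mul_zero] at h2
    have h3 := abs_nonpos_iff.1 h2
    exact_mod_cast h3
  have hwm : ∀ v ∈ oddV s t, |w v| ≤ m v := by
    intro v hv
    have h1 : Odd (w v).natAbs := by
      have h2 := hw.1 v
      rw [oddV, mem_filter] at hv
      have h3 := hv.2
      rw [Nat.odd_iff] at h3 ⊢
      omega
    have h2 := hw.2 {v}
    rw [sum_singleton] at h2
    have h3 := hm v hv _ h1 (by
      rw [Nat.cast_natAbs]
      push_cast
      exact h2)
    rw [Int.abs_eq_natAbs]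
    exact_mod_cast h3
  have hsum : ∀ Z : Finset V, |∑ v ∈ Z, w v| ≤ ((∑ v ∈ Z ∩ oddV s t, m v : ℕ) : ℤ) := by
    intro Z
    have h1 : ∑ v ∈ Z, w v = ∑ v ∈ Z ∩ oddV s t, w v := by
      refine (Finset.sum_subset inter_subset_left fun v hv h2 => hw0 v fun h3 => h2 ?_).symm
      exact mem_inter.2 ⟨hv, h3⟩
    rw [h1]
    refine (Finset.abs_sum_le_sum_abs _ _).trans ?_
    push_cast
    exact Finset.sum_le_sum fun v hv => hwm v (mem_inter.1 hv).2
  have htot : ∑ v, w v = 0 := by
    have h1 := hw.2 univ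
    have h2 : (cut s t univ).card = 0 := by
      rw [card_eq_zero]
      ext e
      simp [cut]
    rw [h2, Nat.cast_zero, mul_zero] at h1
    exact_mod_cast abs_nonpos_iff.1 h1
  have key := bound_of_conn s t hconn w htot a b (by
    intro Z hZ hZ' hn hn'
    have hcomp : ∑ v ∈ Zᶜ, w v = -∑ v ∈ Z, w v := by
      have h1 := Finset.sum_add_sum_compl Z w
      omega
    have h1 := hcrit Z (∑ v ∈ Z, w v).natAbs hZ hZ' hn hn' (by
        have h2 := hw.parity Z
        rw [Nat.even_iff]
        omega) (by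
        rw [Nat.cast_natAbs]
        push_cast
        have := hw.2 Z
        push_cast at this
        exact this) (by
        have h2 := hsum Z
        rw [Int.abs_eq_natAbs] at h2
        exact_mod_cast h2) (by
        have h2 := hsum Zᶜ
        rw [hcomp, abs_neg, Int.abs_eq_natAbs] at h2
        have h3 : oddV s t \ Z = Zᶜ ∩ oddV s t := by
          ext v
          simp only [mem_sdiff, mem_inter, mem_compl]
          exact and_comm
        rw [h3]
        exact_mod_cast h2)
    rw [Int.abs_eq_natAbs]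
    exact_mod_cast h1)
  refine good_of_chg s t hb ⟨hw.1, fun Z => ?_⟩
  have hb' : (0 : ℝ) < b := by exact_mod_cast hb
  rw [div_mul_eq_mul_div, le_div_iff₀ hb']
  have h2 : (((b : ℤ) * |∑ v ∈ Z, w v| : ℤ) : ℝ) ≤ ((a * (cut s t Z).card : ℤ) : ℝ) := by
    exact_mod_cast key Z
  push_cast at h2 ⊢
  linarith

end Pool.Agent.OddFlow
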