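import Pool.Agent.Work.MP_392c8e_co_odd.OddGirth
import Pool.Agent.Work.MP_392c8e_co_odd.DefsF

/-!
# Short odd boundaries and short odd cycles
-/

namespace Pool.Agent.OddFlow

open Finset Pool.Agent.Sub392

variable {V : Type} [Fintype V] [DecidableEq V] {G : SimpleGraph V} [DecidableRel G.Adj]

/-- The edge sets of the cycles of length `m`. -/
def cyc (G : SimpleGraph V) (m : ℕ) : Set (Finset (Sym2 V)) :=
  {A | ∃ (v : V) (c : G.Walk v v), c.IsCycle ∧ c.length = m ∧ c.edges.toFinset = A}

/-- The boundary edges of a set of faces. -/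
noncomputable def bdE (R : Rot G) (S : Finset R.Face) : Finset (Sym2 V) :=
  (univ.filter fun d : G.Dart => R.face d ∈ S ∧ R.face d.symm ∉ S).image SimpleGraph.Dart.edge

theorem card_bdE_le (R : Rot G) (S : Finset R.Face) : (bdE R S).card ≤ R.cut S := by
  unfold bdE Rot.cut
  exact card_image_le

theorem mem_bdE (R : Rot G) (S : Finset R.Face) (d : G.Dart) :
    d.edge ∈ bdE R S ↔ (R.face d ∈ S ↔ R.face d.symm ∉ S) := by
  unfold bdE
  rw [mem_image]
  constructor
  · rintro ⟨d', hd', h⟩
    rw [mem_filter] at hd'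
    rcases (SimpleGraph.dart_edge_eq_iff d' d).1 h with h | h
    · subst h
      exact iff_of_true hd'.2.1 hd'.2.2
    · subst h
      rw [SimpleGraph.Dart.symm_symm] at hd'
      exact iff_of_false hd'.2.2 (not_not.2 hd'.2.1)
  · intro h
    by_cases h1 : R.face d ∈ S
    · exact ⟨d, by rw [mem_filter]; exact ⟨mem_univ _, h1, h.1 h1⟩, rfl⟩
    · refine ⟨d.symm, ?_, SimpleGraph.Dart.edge_symm d⟩
      rw [mem_filter, SimpleGraph.Dart.symm_symm]
      exact ⟨mem_univ _, not_not.1 fun h2 => h1 (h.2 h2), h1⟩

theorem bdE_eq (R : Rot G) (hP : R.Plane) {S T : Finset R.Face} (h : bdE R S = bdE R T) :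
    S = T ∨ symmDiff S T = univ := by
  classical
  have h0 : R.cut (symmDiff S T) = 0 := by
    rw [Rot.cut, card_eq_zero, filter_eq_empty_iff]
    rintro d - ⟨h1, h2⟩
    have h3 := mem_bdE R S d
    have h4 := mem_bdE R T d
    rw [h, h4] at h3
    rw [mem_symmDiff] at h1 h2
    tauto
  rcases R.cut_zero hP.1 h0 with h1 | h1
  · exact Or.inl (symmDiff_eq_bot.1 h1)
  · exact Or.inr h1

theorem bdE_inj (R : Rot G) (hP : R.Plane) (x : R.Face) {S T : Finset R.Face} (hS : x ∉ S)
    (hT : x ∉ T) (h : bdE R S = bdE R T) : S = T := by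
  rcases bdE_eq R hP h with h1 | h1
  · exact h1
  · have h2 : x ∈ symmDiff S T := by rw [h1]; exact mem_univ _
    rw [mem_symmDiff] at h2
    tauto

theorem nonempty_of_cut (R : Rot G) {g : ℕ} (hgo : Odd g) {S : Finset R.Face}
    (hS : R.cut S = g) : S.Nonempty := by
  rw [nonempty_iff_ne_empty]
  rintro rfl
  have : R.cut (∅ : Finset R.Face) = 0 := by
    rw [Rot.cut, card_eq_zero, filter_eq_empty_iff]
    rintro d - ⟨h1, -⟩
    exact absurd h1 (notMem_empty _)
  rw [this] at hS
  rw [← hS] at hgo
  exact absurd hgo (by decide)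

theorem bdE_mem_cyc (R : Rot G) {g : ℕ} (hgo : Odd g)
    (hg : ∀ (v : V) (c : G.Walk v v), c.IsCycle → Odd c.length → g ≤ c.length)
    {S : Finset R.Face} (hS : R.cut S = g) : bdE R S ∈ cyc G g := by
  classical
  obtain ⟨v, c, hcyc, hodd, hE⟩ := exists_odd_cycle R S (by rw [hS]; exact hgo)
  have h1 := hg v c hcyc hodd
  have h2 : c.edges.toFinset ⊆ bdE R S := by
    intro e he
    rw [List.mem_toFinset] at he
    obtain ⟨d, hd, h3, h4⟩ := hE e he
    unfold bdE
    rw [mem_image]
    exact ⟨d, by rw [mem_filter]; exact ⟨mem_univ _, h3, h4⟩, hd⟩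
  have h3 : c.edges.toFinset.card = c.length := by
    rw [List.toFinset_card_of_nodup hcyc.edges_nodup, SimpleGraph.Walk.length_edges]
  have h4 := card_bdE_le R S
  have h5 := card_le_card h2
  exact ⟨v, c, hcyc, by omega, eq_of_subset_of_card_le h2 (by omega)⟩

/-- Pairwise disjoint sets of faces with `g` boundary edges: apart from the case of two
complementary sets there are not more of them than cycles of length `g`. -/
theorem pack_le (R : Rot G) (hP : R.Plane) {g : ℕ} (hgo : Odd g)
    (hg : ∀ (v : V) (c : G.Walk v v), c.IsCycle → Odd c.length → g ≤ c.length)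
    (m : ℕ) (hm : (cyc G g).ncard ≤ m) (P : Finset (Finset R.Face))
    (hP1 : ∀ S ∈ P, R.cut S = g)
    (hP2 : (P : Set (Finset R.Face)).PairwiseDisjoint id) : P.card ≤ max 2 m := by
  classical
  by_cases h2 : P.card ≤ 2
  · exact h2.trans (le_max_left _ _)
  refine le_trans ?_ (le_max_right _ _)
  refine le_trans ?_ hm
  have hinj : Set.InjOn (bdE R) (P : Set (Finset R.Face)) := by
    intro S hS T hT h
    rcases bdE_eq R hP h with h1 | h1
    · exact h1
    · exfalso
      have h3 : ∃ U ∈ P, U ≠ S ∧ U ≠ T := by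
        by_contra hcon
        push Not at hcon
        have h4 : P ⊆ {S, T} := by
          intro U hU
          rw [mem_insert, mem_singleton]
          by_cases h5 : U = S
          · exact Or.inl h5
          · exact Or.inr (hcon U hU h5)
        have h5 := card_le_card h4
        have h6 : ({S, T} : Finset (Finset R.Face)).card ≤ 2 := card_le_two
        omega
      obtain ⟨U, hU, hUS, hUT⟩ := h3
      obtain ⟨f, hf⟩ := nonempty_of_cut R hgo (hP1 U hU)
      have h4 : Disjoint U S := hP2 hU hS hUS
      have h5 : Disjoint U T := hP2 hU hT hUT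
      have h6 : f ∈ symmDiff S T := by rw [h1]; exact mem_univ _
      rw [mem_symmDiff] at h6
      rcases h6 with h6 | h6
      · exact disjoint_left.1 h4 hf h6.1
      · exact disjoint_left.1 h5 hf h6.1
  have h1 : P.card = (P.image (bdE R)).card := (card_image_of_injOn hinj).symm
  have h3 : ((P.image (bdE R) : Finset (Finset (Sym2 V))) : Set (Finset (Sym2 V))) ⊆
      cyc G g := by
    intro A hA
    rw [mem_coe, mem_image] at hA
    obtain ⟨S, hS, rfl⟩ := hA
    exact bdE_mem_cyc R hgo hg (hP1 S hS)
  have h4 := Set.ncard_le_ncard h3 (Set.toFinite _)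
  rw [Set.ncard_coe_finset, ← h1] at h4
  exact h4

/-- If the shortest odd cycles have length `g` and there are at most `m` of them, then some set of
at most `m + 1` faces is separated by every set of faces with `g` boundary edges. -/
theorem exists_sep (R : Rot G) (hP : R.Plane) {g : ℕ} (hgo : Odd g)
    (hg : ∀ (v : V) (c : G.Walk v v), c.IsCycle → Odd c.length → g ≤ c.length)
    (m : ℕ) (hm : (cyc G g).ncard ≤ m) :
    ∃ F : Finset R.Face, F.card ≤ m + 1 ∧ ∀ S : Finset R.Face, R.cut S = g → Sep F S := by
  classical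
  have hne : ∀ S : Finset R.Face, R.cut S = g → S.Nonempty := fun S hS =>
    nonempty_of_cut R hgo hS
  cases isEmpty_or_nonempty R.Face with
  | inl hemp =>
    refine ⟨∅, by simp, fun S hS => ?_⟩
    obtain ⟨f, -⟩ := hne S hS
    exact hemp.elim f
  | inr hnon =>
    obtain ⟨x⟩ := hnon
    set SS : Finset (Finset R.Face) := univ.filter fun S => R.cut S = g ∧ x ∉ S with hSS
    have hcard : SS.card ≤ m := by
      have h1 : SS.card = (SS.image (bdE R)).card := by
        refine (card_image_of_injOn ?_).symm
        intro S hS T hT h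
        rw [mem_coe, hSS, mem_filter] at hS hT
        exact bdE_inj R hP x hS.2.2 hT.2.2 h
      have h2 : ((SS.image (bdE R) : Finset (Finset (Sym2 V))) : Set (Finset (Sym2 V))) ⊆
          cyc G g := by
        intro A hA
        rw [mem_coe, mem_image] at hA
        obtain ⟨S, hS, rfl⟩ := hA
        rw [hSS, mem_filter] at hS
        exact bdE_mem_cyc R hgo hg hS.2.1
      have h3 := Set.ncard_le_ncard h2 (Set.toFinite _)
      rw [Set.ncard_coe_finset, ← h1] at h3
      exact h3.trans hm
    set y : Finset R.Face → R.Face := fun S => if h : S.Nonempty then h.choose else x with hy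
    have hyS : ∀ S : Finset R.Face, S.Nonempty → y S ∈ S := by
      intro S hS
      rw [hy]
      simp only [dif_pos hS]
      exact hS.choose_spec
    refine ⟨insert x (SS.image y), ?_, ?_⟩
    · refine (card_insert_le _ _).trans ?_
      have := card_image_le (s := SS) (f := y)
      omega
    · intro S hS
      by_cases hx : x ∈ S
      · have h1 : R.cut Sᶜ = g := by rw [R.cut_compl]; exact hS
        have h2 := hyS Sᶜ (hne _ h1)
        refine ⟨⟨x, mem_insert_self _ _, hx⟩, y Sᶜ, mem_insert_of_mem ?_, mem_compl.1 h2⟩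
        refine mem_image_of_mem _ ?_
        rw [hSS, mem_filter]
        exact ⟨mem_univ _, h1, by rw [mem_compl]; exact not_not.2 hx⟩
      · have h2 := hyS S (hne _ hS)
        refine ⟨⟨y S, mem_insert_of_mem ?_, h2⟩, x, mem_insert_self _ _, hx⟩
        refine mem_image_of_mem _ ?_
        rw [hSS, mem_filter]
        exact ⟨mem_univ _, hS, hx⟩

end Pool.Agent.OddFlow
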