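import Mathlib
import Pool.Agent.Work.MP_392c8e_co_odd.DefsF
import Pool.Agent.Work.MP_392c8e_co_odd.Split

/-!
# Disjoint sets with small odd cuts

If all odd cuts have at least `k - 2` edges, then the minimal sets with an odd cut of size less
than `k` are pairwise disjoint. Hence a small set of vertices meets all of them.
-/

namespace Pool.Agent.OddFlow

open Finset Pool.Agent.Circ

set_option linter.unusedSectionVars false

variable {V E : Type*} [Fintype V] [DecidableEq V] [Fintype E] [DecidableEq E]

namespace Pack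

/-- `S` has an odd cut with less than `k` edges. -/
def Small (s t : E → V) (k : ℕ) (S : Finset V) : Prop :=
  Odd (cut s t S).card ∧ (cut s t S).card < k

theorem posi_modular (s t : E → V) (A B : Finset V) :
    (cut s t (A \ B)).card + (cut s t (B \ A)).card ≤ (cut s t A).card + (cut s t B).card := by
  simp only [Split.card_cut, ← sum_add_distrib]
  refine sum_le_sum fun e _ => ?_
  unfold Split.ci
  by_cases h1 : s e ∈ A <;> by_cases h2 : s e ∈ B <;> by_cases h3 : t e ∈ A <;>
    by_cases h4 : t e ∈ B <;> simp [h1, h2, h3, h4]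

/-- Uncrossing. -/
theorem uncross (s t : E → V) {k : ℕ} (hk : Odd k)
    (h : ∀ X : Finset V, Odd (cut s t X).card → k ≤ (cut s t X).card + 2) {A B : Finset V}
    (hA : Small s t k A) (hB : Small s t k B) :
    Small s t k (A ∩ B) ∨ Small s t k (A \ B) := by
  obtain ⟨a1, a2⟩ := hA
  obtain ⟨b1, b2⟩ := hB
  have ha := h A a1
  have hb := h B b1
  have hpu := Split.parity_union s t A B
  have hps := Split.parity_sdiff s t A B
  have hps' := Split.parity_sdiff s t B A
  rw [inter_comm B A] at hps'
  have hsub := Split.sub_modular s t A B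
  have hpos := posi_modular s t A B
  rw [Nat.odd_iff] at hk a1 b1
  rw [Nat.even_iff] at hpu hps hps'
  rcases Nat.mod_two_eq_zero_or_one (cut s t (A ∪ B)).card with h1 | h1
  · right
    have h2 : (cut s t (A \ B)).card % 2 = 1 := by omega
    have h3 : (cut s t (B \ A)).card % 2 = 1 := by omega
    have h4 := h _ (Nat.odd_iff.2 h3)
    exact ⟨Nat.odd_iff.2 h2, by omega⟩
  · left
    have h2 : (cut s t (A ∩ B)).card % 2 = 1 := by omega
    have h4 := h _ (Nat.odd_iff.2 h1)
    exact ⟨Nat.odd_iff.2 h2, by omega⟩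

theorem small_compl {s t : E → V} {k : ℕ} {S : Finset V} (h : Small s t k S) :
    Small s t k Sᶜ := by
  unfold Small
  rw [Split.cut_compl_card]
  exact h

theorem Small.nonempty {s t : E → V} {k : ℕ} {S : Finset V} (h : Small s t k S) :
    S.Nonempty := by
  rw [nonempty_iff_ne_empty]
  rintro rfl
  obtain ⟨h1, -⟩ := h
  have h2 : cut s t (∅ : Finset V) = ∅ := by
    simp [cut]
  rw [h2] at h1
  simp at h1

/-- `S` is minimal with an odd cut with less than `k` edges. -/
def Mini (s t : E → V) (k : ℕ) (S : Finset V) : Prop :=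
  Small s t k S ∧ ∀ T, T ⊆ S → Small s t k T → T = S

theorem exists_mini {s t : E → V} {k : ℕ} (S : Finset V) (hS : Small s t k S) :
    ∃ T, T ⊆ S ∧ Mini s t k T := by
  classical
  obtain ⟨T, hT, hmin⟩ := exists_min_image (univ.filter fun T => T ⊆ S ∧ Small s t k T) card
    ⟨S, by simp [hS]⟩
  rw [mem_filter] at hT
  refine ⟨T, hT.2.1, hT.2.2, fun T' h1 h2 => ?_⟩
  exact eq_of_subset_of_card_le h1 (hmin T' (by simp [h1.trans hT.2.1, h2]))

theorem mini_disjoint (s t : E → V) {k : ℕ} (hk : Odd k)
    (h : ∀ X : Finset V, Odd (cut s t X).card → k ≤ (cut s t X).card + 2) {A B : Finset V}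
    (hA : Mini s t k A) (hB : Mini s t k B) (hne : A ≠ B) : Disjoint A B := by
  rcases uncross s t hk h hA.1 hB.1 with h1 | h1
  · exfalso
    have h2 := hA.2 _ inter_subset_left h1
    have h3 := hB.2 _ inter_subset_right h1
    exact hne (h2.symm.trans h3)
  · have h2 := hA.2 _ sdiff_subset h1
    exact sdiff_eq_self_iff_disjoint.1 h2

end Pack

/-- If at most `r` sets with small odd cuts are pairwise disjoint, then all these cuts separate
a set of at most `r` vertices. -/
theorem exists_F (s t : E → V) {k : ℕ} (hk : Odd k)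
    (h : ∀ X : Finset V, Odd (cut s t X).card → k ≤ (cut s t X).card + 2) (r : ℕ)
    (hr : ∀ P : Finset (Finset V), (∀ S ∈ P, Odd (cut s t S).card ∧ (cut s t S).card < k) →
      (∀ S ∈ P, ∀ T ∈ P, S ≠ T → Disjoint S T) → P.card ≤ r) :
    ∃ F : Finset V, F.card ≤ r ∧ OddCutF s t k F := by
  classical
  let M : Finset (Finset V) := univ.filter fun S => Pack.Mini s t k S
  have hM : M.card ≤ r := by
    refine hr M (fun S hS => ?_) (fun S hS T hT hne => ?_)
    · rw [mem_filter] at hS
      exact hS.2.1
    · rw [mem_filter] at hS hT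
      exact Pack.mini_disjoint s t hk h hS.2 hT.2 hne
  have hne : ∀ S : Finset V, ∃ x : Option V, S.Nonempty → ∃ y ∈ S, x = some y := by
    intro S
    by_cases h1 : S.Nonempty
    · obtain ⟨y, hy⟩ := h1
      exact ⟨some y, fun _ => ⟨y, hy, rfl⟩⟩
    · exact ⟨none, fun h2 => absurd h2 h1⟩
  choose φ hφ using hne
  refine ⟨univ.filter fun y : V => some y ∈ M.image φ, ?_, fun X hX => ?_⟩
  · refine le_trans ?_ (le_trans (card_image_le (s := M) (f := φ)) hM)
    refine card_le_card_of_injOn some (fun y hy => ?_) (fun a _ b _ hab => Option.some.inj hab)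
    simpa using hy
  · rcases Nat.lt_or_ge (cut s t X).card k with h1 | h1
    · have hkey : ∀ Y : Finset V, Pack.Small s t k Y →
          ∃ y ∈ (univ.filter fun y : V => some y ∈ M.image φ), y ∈ Y := by
        intro Y hY
        obtain ⟨T, hTY, hT⟩ := Pack.exists_mini (s := s) (t := t) (k := k) Y hY
        obtain ⟨y, hy, hyφ⟩ := hφ T hT.1.nonempty
        refine ⟨y, ?_, hTY hy⟩
        rw [mem_filter]
        exact ⟨mem_univ _, mem_image.2 ⟨T, by simp [M, hT], hyφ⟩⟩
      have hsX : Pack.Small s t k X := ⟨hX, h1⟩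
      obtain ⟨x, hx, hx'⟩ := hkey X hsX
      obtain ⟨y, hy, hy'⟩ := hkey Xᶜ (Pack.small_compl hsX)
      rw [if_pos ⟨⟨x, hx, hx'⟩, ⟨y, hy, by simpa using hy'⟩⟩]
      exact h X hX
    · omega

end Pool.Agent.OddFlow
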