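import Mathlib
import Pool.Agent.Work.MP_392c8e_co_odd.Defs
import Pool.Agent.Work.MP_392c8e_co.Exact

/-!
# Circle valued flows on the faces of a plane graph are differences on the vertices
-/

namespace Pool.Agent.OddFlow

open Finset Pool.Agent.Circ Pool.Agent.Sub392

set_option linter.unusedSectionVars false

variable {V : Type} [Fintype V] [DecidableEq V] {G : SimpleGraph V} [DecidableRel G.Adj]

/-- The divergences of integer chains on the faces. -/
noncomputable def divZ (R : Rot G) : (Up G → ℤ) →+ (R.Face → ℤ) where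
  toFun n F := ∑ e : Up G, ((if R.face e.1 = F then n e else 0) -
    (if R.face e.1.symm = F then n e else 0))
  map_zero' := by
    funext F
    simp
  map_add' a b := by
    funext F
    simp only [Pi.add_apply]
    rw [← Finset.sum_add_distrib]
    refine Finset.sum_congr rfl fun e _ => ?_
    split_ifs <;> ring

theorem divZ_single (R : Rot G) (e : Up G) :
    divZ R (Pi.single e 1) = Pi.single (R.face e.1) 1 - Pi.single (R.face e.1.symm) 1 := by
  classical
  funext F
  show ∑ e' : Up G, ((if R.face e'.1 = F then (Pi.single e 1 : Up G → ℤ) e' else 0) -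
    (if R.face e'.1.symm = F then (Pi.single e 1 : Up G → ℤ) e' else 0)) = _
  rw [Finset.sum_eq_single e]
  · simp only [Pi.single_eq_same, Pi.sub_apply, Pi.single_apply, eq_comm]
  · intro b _ hb
    simp [Pi.single_eq_of_ne hb]
  · simp

theorem single_sub_mem (R : Rot G) (hG : G.Connected) (F F' : R.Face) :
    (Pi.single F 1 - Pi.single F' 1 : R.Face → ℤ) ∈ (divZ R).range := by
  classical
  obtain ⟨d, rfl⟩ := R.face_surj F
  obtain ⟨d', rfl⟩ := R.face_surj F'
  have hedge : ∀ d : G.Dart,
      (Pi.single (R.face d) 1 - Pi.single (R.face d.symm) 1 : R.Face → ℤ) ∈ (divZ R).range := by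
    intro d
    rcases up_or d with h | h
    · exact ⟨Pi.single ⟨d, h⟩ 1, divZ_single R ⟨d, h⟩⟩
    · have h1 : (Pi.single (R.face d.symm) 1 - Pi.single (R.face d.symm.symm) 1 : R.Face → ℤ) ∈
          (divZ R).range := ⟨Pi.single ⟨d.symm, h⟩ 1, divZ_single R ⟨d.symm, h⟩⟩
      rw [SimpleGraph.Dart.symm_symm] at h1
      have h2 := (divZ R).range.neg_mem h1
      rwa [neg_sub] at h2
  have key := R.const hG (fun x : G.Dart =>
    ((Pi.single (R.face x) 1 - Pi.single (R.face d') 1 : R.Face → ℤ) ∈ (divZ R).range)) (by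
      intro x
      simp only [R.face_next]) (by
      intro x
      apply propext
      constructor
      · intro h
        have := (divZ R).range.add_mem (hedge x) h
        rwa [sub_add_sub_cancel] at this
      · intro h
        have := (divZ R).range.sub_mem h (hedge x)
        rwa [sub_sub_sub_cancel_left] at this ) d d'
  rw [key, sub_self]
  exact zero_mem _

theorem exists_divZ (R : Rot G) (hG : G.Connected) (m : R.Face → ℤ) (hm : ∑ F, m F = 0) :
    ∃ n : Up G → ℤ, divZ R n = m := by
  classical
  rcases isEmpty_or_nonempty R.Face with h0 | ⟨⟨F0⟩⟩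
  · exact ⟨0, by funext F; exact h0.elim F⟩
  · have h1 : m = ∑ F, m F • (Pi.single F 1 - Pi.single F0 1 : R.Face → ℤ) := by
      funext F'
      rw [Finset.sum_apply]
      simp only [Pi.smul_apply, Pi.sub_apply, smul_eq_mul, mul_sub, Finset.sum_sub_distrib,
        Pi.single_apply]
      rw [← Finset.sum_mul, hm, zero_mul, sub_zero]
      simp
    have h2 : m ∈ (divZ R).range := by
      rw [h1]
      exact AddSubgroup.sum_mem _ fun F _ =>
        AddSubgroup.zsmul_mem _ (single_sub_mem R hG F F0) _
    exact h2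

/-- **Exactness on the circle.** -/
theorem circle_exact (R : Rot G) (hP : R.Plane) (f : Up G → AddCircle (2 : ℝ))
    (hf : ∀ F, dvT (fun e : Up G => R.face e.1) (fun e : Up G => R.face e.1.symm) f F = 0) :
    ∃ φ : V → AddCircle (2 : ℝ), ∀ e : Up G, f e = φ e.1.snd - φ e.1.fst := by
  classical
  choose r hr using fun e : Up G => QuotientAddGroup.mk_surjective (f e)
  set D : R.Face → ℝ := fun F => ∑ e : Up G, ((if R.face e.1 = F then r e else 0) -
    (if R.face e.1.symm = F then r e else 0)) with hD
  have h1 : ∀ F, ∃ m : ℤ, D F = 2 * m := by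
    intro F
    have h2 : ((D F : ℝ) : AddCircle (2 : ℝ)) = 0 := by
      rw [← hf F, dvT, hD]
      show QuotientAddGroup.mk' (AddSubgroup.zmultiples (2 : ℝ)) _ = _
      rw [map_sum]
      refine Finset.sum_congr rfl fun e _ => ?_
      rw [map_sub, ← hr e]
      congr 1 <;> split_ifs <;> first | rfl | exact map_zero _
    rw [AddCircle.coe_eq_zero_iff] at h2
    obtain ⟨m, hm⟩ := h2
    exact ⟨m, by rw [← hm, zsmul_eq_mul, mul_comm]⟩
  choose m hm using h1
  have hsum : ∑ F, m F = 0 := by
    have h3 : ∑ F, D F = 0 := by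
      rw [hD, Finset.sum_comm]
      refine Finset.sum_eq_zero fun e _ => ?_
      rw [Finset.sum_sub_distrib, Finset.sum_ite_eq, Finset.sum_ite_eq]
      simp
    simp_rw [hm] at h3
    rw [← Finset.mul_sum] at h3
    have h4 : ((∑ F, m F : ℤ) : ℝ) = 0 := by
      push_cast
      linarith
    exact_mod_cast h4
  obtain ⟨n, hn⟩ := exists_divZ R hP.1 m hsum
  have hn' : ∀ F, ∑ e : Up G, ((if R.face e.1 = F then (n e : ℝ) else 0) -
      (if R.face e.1.symm = F then (n e : ℝ) else 0)) = m F := by
    intro F
    have h5 := congrFun hn F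
    have h6 : ∑ e : Up G, ((if R.face e.1 = F then n e else 0) -
      (if R.face e.1.symm = F then n e else 0)) = m F := h5
    rw [← h6]
    push_cast
    rfl
  -- the corrected real flow
  set g : Up G → ℝ := fun e => r e - 2 * n e with hg
  set x : G.Dart → ℝ := fun d =>
    if h : (Fintype.equivFin V d.fst : ℕ) < Fintype.equivFin V d.snd then g ⟨d, h⟩
    else -(g ⟨d.symm, (up_or d).resolve_left h⟩) with hxdef
  have hx1 : ∀ a : Up G, x a.1 = g a := by
    intro a
    rw [hxdef]
    simp only
    rw [dif_pos a.2]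
    rfl
  have hx2 : ∀ a : Up G, x a.1.symm = -g a := by
    intro a
    have ha := a.2
    rw [hxdef]
    simp only
    rw [dif_neg (by
      intro h
      have h' : (Fintype.equivFin V a.1.snd : ℕ) < Fintype.equivFin V a.1.fst := h
      omega)]
    congr 2
  have hx : ∀ d, x d.symm = -x d := by
    intro d
    rcases up_or d with h | h
    · rw [hx2 ⟨d, h⟩, hx1 ⟨d, h⟩]
    · have := hx2 ⟨d.symm, h⟩
      simp only [SimpleGraph.Dart.symm_symm] at this
      rw [this, hx1 ⟨d.symm, h⟩, neg_neg]
  obtain ⟨p, hp⟩ := R.exact hP x hx (by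
    intro F
    rw [sum_filter, sum_dart]
    have h1 : D F - 2 * ∑ e : Up G, ((if R.face e.1 = F then (n e : ℝ) else 0) -
      (if R.face e.1.symm = F then (n e : ℝ) else 0)) = 0 := by
      rw [hn', hm]; ring
    refine Eq.trans ?_ h1
    rw [hD, Finset.mul_sum, ← Finset.sum_sub_distrib]
    refine sum_congr rfl fun a _ => ?_
    rw [hx1, hx2, hg]
    split_ifs <;> simp <;> ring)
  refine ⟨fun v => (p v : AddCircle (2 : ℝ)), fun e => ?_⟩
  rw [← AddCircle.coe_sub, ← hp e.1, hx1, hg]
  simp only
  rw [← hr e]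
  have h7 : ((2 * (n e : ℝ) : ℝ) : AddCircle (2 : ℝ)) = 0 := by
    rw [AddCircle.coe_eq_zero_iff]
    exact ⟨n e, by rw [zsmul_eq_mul, mul_comm]⟩
  rw [AddCircle.coe_sub, h7, sub_zero]

end Pool.Agent.OddFlow
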