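import Mathlib
import Pool.Agent.Work.MP_392c8e_co_arb.Girth

/-!
# Odd boundaries of sets of faces contain odd cycles
-/

namespace Pool.Agent.OddFlow

open Finset Pool.Agent.Sub392 Pool.Agent.Arb392

set_option linter.unusedSectionVars false

section
variable {V : Type} {H : SimpleGraph V}

/-- Shortening a walk to a path without changing the parity of its length. -/
private theorem exists_path {n : ℕ} (hn : ∀ (v : V) (c : H.Walk v v), Odd c.length → n ≤ c.length)
    {a b : V} (p : H.Walk a b) (hp : p.length < n) :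
    ∃ q : H.Walk a b, q.IsPath ∧ q.length ≤ p.length ∧ (Odd q.length ↔ Odd p.length) := by
  classical
  induction p with
  | nil => exact ⟨.nil, SimpleGraph.Walk.IsPath.nil, le_rfl, Iff.rfl⟩
  | @cons u v w h p ih =>
    rw [SimpleGraph.Walk.length_cons] at hp
    obtain ⟨q, hq, hl, hpar⟩ := ih (by omega)
    by_cases hu : u ∈ q.support
    · refine ⟨q.dropUntil u hu, hq.dropUntil hu, ?_, ?_⟩
      · rw [SimpleGraph.Walk.length_cons]
        exact (q.length_dropUntil_le_length hu).trans (by omega)
      · have h1 := congrArg SimpleGraph.Walk.length (q.take_spec hu)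
        rw [SimpleGraph.Walk.length_append] at h1
        have h2 : ¬ Odd (SimpleGraph.Walk.cons h (q.takeUntil u hu)).length := by
          intro ho
          have := hn u _ ho
          rw [SimpleGraph.Walk.length_cons] at this
          omega
        rw [SimpleGraph.Walk.length_cons] at h2 ⊢
        simp only [Nat.odd_iff] at h2 hpar ⊢
        omega
    · refine ⟨.cons h q, hq.cons hu, ?_, ?_⟩
      · rw [SimpleGraph.Walk.length_cons, SimpleGraph.Walk.length_cons]
        omega
      · rw [SimpleGraph.Walk.length_cons, SimpleGraph.Walk.length_cons]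
        simp only [Nat.odd_iff] at hpar ⊢
        omega

/-- A graph with an odd closed walk has an odd cycle. -/
theorem odd_cycle_of_walk {u : V} (w : H.Walk u u) (hw : Odd w.length) :
    ∃ (v : V) (c : H.Walk v v), c.IsCycle ∧ Odd c.length := by
  classical
  have hex : ∃ n : ℕ, ∃ (v : V) (c : H.Walk v v), Odd c.length ∧ c.length = n := ⟨_, u, w, hw, rfl⟩
  obtain ⟨v, c, hc, hcl⟩ := Nat.find_spec hex
  have hmin : ∀ (v : V) (c : H.Walk v v), Odd c.length → Nat.find hex ≤ c.length :=
    fun v c h => Nat.find_min' hex ⟨v, c, h, rfl⟩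
  cases c with
  | nil => simp at hc
  | @cons _ x _ h p =>
    rw [SimpleGraph.Walk.length_cons] at hcl hc
    obtain ⟨q, hq, -, hpar⟩ := exists_path hmin p (by omega)
    refine ⟨v, .cons h q, ?_, ?_⟩
    · rw [SimpleGraph.Walk.cons_isCycle_iff]
      refine ⟨hq, fun he => ?_⟩
      rw [Sym2.eq_swap] at he
      have h1 := hq.length_eq_one_of_mem_edges he
      rw [h1] at hpar
      have h2 := hpar.1 odd_one
      rw [Nat.odd_add_one] at hc
      exact hc h2
    · rw [SimpleGraph.Walk.length_cons, Nat.odd_add_one, hpar, ← Nat.odd_add_one]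
      exact hc

end

variable {V : Type} [Fintype V] [DecidableEq V] {G : SimpleGraph V} [DecidableRel G.Adj]

/-- The graph of the edges with exactly one side in `S`. -/
private def bg (R : Rot G) (S : Finset R.Face) : SimpleGraph V where
  Adj := fun a b => ∃ h : G.Adj a b, bd R S ⟨(a, b), h⟩ ≠ 0
  symm := ⟨fun a b ⟨h, h'⟩ => ⟨h.symm, by
    have := bd_symm R S ⟨(a, b), h⟩
    rw [show (⟨(b, a), h.symm⟩ : G.Dart) = (⟨(a, b), h⟩ : G.Dart).symm from rfl, this]
    exact neg_ne_zero.2 h'⟩⟩
  loopless := ⟨fun a ⟨h, _⟩ => G.loopless.irrefl a h⟩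

private theorem bd_one_iff (R : Rot G) (S : Finset R.Face) (d : G.Dart) :
    bd R S d = 1 ↔ R.face d ∈ S ∧ R.face d.symm ∉ S := by
  unfold bd
  by_cases h1 : R.face d ∈ S <;> by_cases h2 : R.face d.symm ∈ S <;> simp [h1, h2]

private theorem bd_cases (R : Rot G) (S : Finset R.Face) (d : G.Dart) :
    bd R S d = 0 ∨ bd R S d = 1 ∨ bd R S d = -1 := by
  unfold bd
  by_cases h1 : R.face d ∈ S <;> by_cases h2 : R.face d.symm ∈ S <;> simp [h1, h2]

/-- If the boundary graph is bipartite, the number of boundary edges is even. -/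
private theorem even_of_colour (R : Rot G) (S : Finset R.Face) (c : V → Bool)
    (hc : ∀ a b, (bg R S).Adj a b → c a ≠ c b) : Even (R.cut S) := by
  classical
  have hbg : ∀ d : G.Dart, bd R S d ≠ 0 → c d.fst ≠ c d.snd := fun d hd =>
    hc d.fst d.snd ⟨d.adj, hd⟩
  -- the two classes of boundary darts
  set A := univ.filter fun d : G.Dart => bd R S d = 1 ∧ c d.fst = true with hA
  set B := univ.filter fun d : G.Dart => bd R S d = 1 ∧ ¬ c d.fst = true with hB
  set B' := univ.filter fun d : G.Dart => bd R S d = -1 ∧ c d.fst = true with hB'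
  have hBB : B.card = B'.card := by
    refine Finset.card_bij (fun d _ => d.symm) ?_ ?_ ?_
    · intro d hd
      simp only [hB, hB', mem_filter, mem_univ, true_and] at hd ⊢
      refine ⟨by rw [bd_symm, hd.1], ?_⟩
      have h1 := hbg d (by rw [hd.1]; norm_num)
      have h2 := hd.2
      show c d.snd = true
      cases h3 : c d.fst <;> cases h4 : c d.snd <;> simp_all
    · intro a _ b _ h
      have := congrArg SimpleGraph.Dart.symm h
      simpa using this
    · intro d hd
      refine ⟨d.symm, ?_, by simp⟩
      simp only [hB, hB', mem_filter, mem_univ, true_and] at hd ⊢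
      refine ⟨by rw [bd_symm, hd.1]; norm_num, ?_⟩
      have h1 := hbg d (by rw [hd.1]; norm_num)
      have h2 := hd.2
      show ¬ c d.snd = true
      cases h3 : c d.fst <;> cases h4 : c d.snd <;> simp_all
  have hcut : R.cut S = A.card + B.card := by
    have h0 : R.cut S = (univ.filter fun d : G.Dart => bd R S d = 1).card := by
      rw [Rot.cut]
      congr 1
      ext d
      simp only [mem_filter, mem_univ, true_and, bd_one_iff]
    rw [h0, ← Finset.card_filter_add_card_filter_not (fun d : G.Dart => c d.fst = true),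
      Finset.filter_filter, Finset.filter_filter]
  have hsum : ∑ d : G.Dart with c d.fst = true, bd R S d = 0 := by
    rw [← Finset.sum_fiberwise_of_maps_to (s := univ.filter fun d : G.Dart => c d.fst = true)
      (t := univ.filter fun v => c v = true) (g := fun d => d.fst)
      (fun d hd => by simpa using hd)]
    refine Finset.sum_eq_zero fun v hv => ?_
    rw [← sum_bd_vertex R S v]
    refine Finset.sum_congr ?_ fun _ _ => rfl
    ext d
    simp only [mem_filter, mem_univ, true_and] at hv ⊢
    constructor
    · exact fun h => h.2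
    · intro h; exact ⟨h ▸ hv, h⟩
  have hAB : (A.card : ℤ) = B'.card := by
    have h1 : ∀ d : G.Dart, bd R S d = (if bd R S d = 1 then 1 else 0) -
        (if bd R S d = -1 then 1 else 0) := by
      intro d
      rcases bd_cases R S d with h | h | h <;> rw [h] <;> norm_num
    rw [Finset.sum_congr rfl fun d _ => h1 d, Finset.sum_sub_distrib, sub_eq_zero,
      Finset.sum_boole, Finset.sum_boole, Finset.filter_filter, Finset.filter_filter] at hsum
    simp only [hA, hB', and_comm]
    exact_mod_cast hsum
  have hAB' : A.card = B'.card := by exact_mod_cast hAB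
  rw [hcut, hBB, hAB']
  exact ⟨_, rfl⟩

/-- **Odd boundaries of sets of faces contain odd cycles.** -/
theorem exists_odd_cycle (R : Rot G) (S : Finset R.Face) (hS : Odd (R.cut S)) :
    ∃ (v : V) (c : G.Walk v v), c.IsCycle ∧ Odd c.length ∧
      ∀ e ∈ c.edges, ∃ d : G.Dart, d.edge = e ∧ R.face d ∈ S ∧ R.face d.symm ∉ S := by
  classical
  have hHG : bg R S ≤ G := fun a b ⟨h, _⟩ => h
  -- the boundary graph is not bipartite
  have hnc : ¬ (bg R S).Colorable 2 := by
    rintro ⟨c⟩
    refine (Nat.not_even_iff_odd.2 hS) (even_of_colour R S (fun v => decide (c v = 0)) ?_)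
    intro a b hab h
    have h1 := c.valid hab
    simp only [decide_eq_decide] at h
    generalize c a = x at h h1
    generalize c b = y at h h1
    revert x y
    decide
  rw [SimpleGraph.two_colorable_iff_forall_loop_even] at hnc
  push Not at hnc
  obtain ⟨u, w, hw⟩ := hnc
  obtain ⟨v, c, hcyc, hodd⟩ := odd_cycle_of_walk w (by simpa using hw)
  refine ⟨v, c.mapLe hHG, hcyc.mapLe hHG, by rw [SimpleGraph.Walk.length_map]; exact hodd, ?_⟩
  intro e he
  rw [SimpleGraph.Walk.edges_mapLe_eq_edges] at he
  have h6 := c.edges_subset_edgeSet he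
  induction e using Sym2.ind with
  | _ a b =>
    rw [SimpleGraph.mem_edgeSet] at h6
    obtain ⟨h7, h8⟩ := h6
    rcases bd_cases R S ⟨(a, b), h7⟩ with h | h | h
    · exact absurd h h8
    · exact ⟨⟨(a, b), h7⟩, rfl, (bd_one_iff R S _).1 h⟩
    · refine ⟨(⟨(a, b), h7⟩ : G.Dart).symm, ?_, ?_⟩
      · rw [SimpleGraph.Dart.edge_symm]; rfl
      · refine (bd_one_iff R S _).1 ?_
        rw [bd_symm, h]
        norm_num

/-- The number of edges of an odd boundary is at least the odd girth. -/
theorem le_odd_cut (R : Rot G) {g : ℕ}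
    (hg : ∀ (v : V) (c : G.Walk v v), c.IsCycle → Odd c.length → g ≤ c.length)
    (S : Finset R.Face) (hS : Odd (R.cut S)) : g ≤ R.cut S := by
  classical
  obtain ⟨v, c, hcyc, hodd, hE⟩ := exists_odd_cycle R S hS
  refine (hg v c hcyc hodd).trans ?_
  rw [← SimpleGraph.Walk.length_edges, ← List.toFinset_card_of_nodup hcyc.edges_nodup, Rot.cut]
  refine (Finset.card_le_card (t := (univ.filter fun d : G.Dart =>
    R.face d ∈ S ∧ R.face d.symm ∉ S).image SimpleGraph.Dart.edge) ?_).trans Finset.card_image_le
  intro e he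
  rw [List.mem_toFinset] at he
  obtain ⟨d, hd, h1⟩ := hE e he
  rw [Finset.mem_image]
  exact ⟨d, by simpa using h1, hd⟩

end Pool.Agent.OddFlow
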