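import Mathlib
import Pool.Agent.Work.MP_392c8e_co_odd.MainF
import Pool.Agent.Work.MP_392c8e_co_odd.Exact
import Pool.Agent.Work.MP_392c8e_co_odd.OddGirth
import Pool.Agent.Work.MP_392c8e_co_arb.Main
import Pool.Agent.Work.MP_392c8e_co.Cross

/-!
# Circular colourings of plane graphs with few short odd cycles
-/

namespace Pool.Agent.OddFlow

open Finset Pool.Agent.Circ Pool.Agent.Sub392

set_option linter.unusedSectionVars false

variable {V : Type} [Fintype V] [DecidableEq V] {G : SimpleGraph V} [DecidableRel G.Adj]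

/-- the two descriptions of the boundary of a set of faces -/
theorem card_cut_eq (R : Rot G) (X : Finset R.Face) :
    (cut (fun e : Up G => R.face e.1) (fun e : Up G => R.face e.1.symm) X).card = R.cut X := by
  classical
  rw [R.cut_up, cut, card_filter]
  refine Finset.sum_congr rfl fun e _ => ?_
  by_cases h1 : R.face e.1 ∈ X <;> by_cases h2 : R.face e.1.symm ∈ X <;> simp [h1, h2]

theorem oddV_eq (R : Rot G) :
    oddV (fun e : Up G => R.face e.1) (fun e : Up G => R.face e.1.symm) = R.odd := by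
  classical
  ext F
  rw [oddV, mem_filter, card_cut_eq]
  have h1 := R.cut_parity {F}
  by_cases h2 : F ∈ R.odd
  · rw [singleton_inter_of_mem h2, card_singleton] at h1
    simp only [mem_univ, true_and, h2, iff_true]
    rw [Nat.even_iff] at h1
    rw [Nat.odd_iff]
    omega
  · rw [singleton_inter_of_notMem h2, card_empty] at h1
    simp only [mem_univ, true_and, h2, iff_false]
    rw [Nat.even_iff] at h1
    rw [Nat.odd_iff]
    omega

/-- **Plane graphs, cut form, real version.** -/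
theorem plane_theta (R : Rot G) (hP : R.Plane) {k : ℕ} (hk : Odd k) (F : Finset R.Face)
    (hcut : ∀ S : Finset R.Face, Odd (R.cut S) → k ≤ R.cut S + (if Sep F S then 2 else 0))
    (p q : ℕ) (hq : 1 ≤ q) (h2q : 2 * q ≤ p) (θ : ℝ) (hθ0 : 0 ≤ θ)
    (hθ : ∀ n j : ℕ, 2 ≤ n → n ≤ R.odd.card → j ≤ n → j ≤ F.card →
      2 * ((n : ℝ) - 1) ≤ θ * (k * n - 2 * j)) (hθ1 : 2 * (q : ℝ) / p ≤ 1 - θ) :
    ∃ c : V → ℕ, (∀ v, c v < p) ∧
      ∀ u v, G.Adj u v → (q : ℤ) ≤ |(c u : ℤ) - c v| ∧ |(c u : ℤ) - c v| ≤ p - q := by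
  classical
  set s : Up G → R.Face := fun e => R.face e.1 with hs
  set t : Up G → R.Face := fun e => R.face e.1.symm with ht
  obtain ⟨f, hf, hb⟩ := mainF s t hk F (by
    intro X hX
    rw [hs, ht, card_cut_eq] at hX ⊢
    exact hcut X hX) θ hθ0 (by
    rw [hs, ht, oddV_eq]
    exact hθ)
  obtain ⟨φ, hφ⟩ := circle_exact R hP f hf
  obtain ⟨c, hc1, hc2⟩ := Arb392.exists_colouring hq h2q φ
  refine ⟨c, hc1, fun u v huv => hc2 u v (hθ1.trans ?_)⟩
  have key : ∀ e : Up G, 1 - θ ≤ ‖φ e.1.snd - φ e.1.fst‖ := fun e => by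
    rw [← hφ]
    exact Arb392.le_norm_of_antipode (hb e)
  rcases up_or (⟨(u, v), huv⟩ : G.Dart) with h | h
  · have := key ⟨_, h⟩
    rw [norm_sub_rev] at this
    exact this
  · exact key ⟨_, h⟩

/-- **Plane graphs with exceptional faces.**  The odd cycles have length at least `k - 2`, and the
sets of faces with exactly `k - 2` boundary edges separate the set `F` of faces. -/
theorem plane_exceptional (R : Rot G) (hP : R.Plane) {k : ℕ} (hk : Odd k) (hk3 : 3 ≤ k)
    (F : Finset R.Face)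
    (hg : ∀ (v : V) (c : G.Walk v v), c.IsCycle → Odd c.length → k - 2 ≤ c.length)
    (hF : ∀ S : Finset R.Face, R.cut S = k - 2 → Sep F S)
    (p q : ℕ) (hq : 1 ≤ q) (h2q : 2 * q ≤ p)
    (hpq : ∀ n j : ℕ, 2 ≤ n → n ≤ R.odd.card → j ≤ n → j ≤ F.card →
      2 * p * (n - 1) + 2 * (p - 2 * q) * j ≤ (p - 2 * q) * k * n) :
    ∃ c : V → ℕ, (∀ v, c v < p) ∧
      ∀ u v, G.Adj u v → (q : ℤ) ≤ |(c u : ℤ) - c v| ∧ |(c u : ℤ) - c v| ≤ p - q := by
  have hp0 : (0 : ℝ) < p := by exact_mod_cast (by omega : 0 < p)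
  have h2 : ((p - 2 * q : ℕ) : ℝ) = (p : ℝ) - 2 * q := by
    rw [Nat.cast_sub h2q]
    push_cast
    ring
  have hpq0 : (0 : ℝ) ≤ (p : ℝ) - 2 * q := by
    rw [← h2]
    exact Nat.cast_nonneg _
  refine plane_theta R hP hk F ?_ p q hq h2q (((p : ℝ) - 2 * q) / p)
    (div_nonneg hpq0 hp0.le) ?_ ?_
  · intro S hS
    have h3 := le_odd_cut R hg S hS
    by_cases h4 : R.cut S = k - 2
    · rw [if_pos (hF S h4)]
      omega
    · have h5 : k ≤ R.cut S := by
        rw [Nat.odd_iff] at hS hk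
        omega
      omega
  · intro n j h3 h4 h5 h6
    have h7 := hpq n j h3 h4 h5 h6
    have h8 : 2 * (p : ℝ) * ((n : ℝ) - 1) + 2 * ((p : ℝ) - 2 * q) * j ≤
        ((p : ℝ) - 2 * q) * k * n := by
      rw [← h2]
      have h9 : ((n - 1 : ℕ) : ℝ) = (n : ℝ) - 1 := by
        rw [Nat.cast_sub (by omega)]
        norm_num
      rw [← h9]
      exact_mod_cast h7
    rw [div_mul_eq_mul_div, le_div_iff₀ hp0]
    nlinarith
  · rw [div_le_iff₀ hp0]
    have : (1 - ((p : ℝ) - 2 * q) / p) * p = 2 * q := by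
      field_simp
      ring
    rw [this]

/-- **Plane graphs without short odd cycles.**  If all odd cycles have length at least `k` and
there are `N` odd faces, then the circular chromatic number is at most
`2 k N / ((k - 2) N + 2)`. -/
theorem plane_odd (R : Rot G) (hP : R.Plane) {k : ℕ} (hk : Odd k) (hk3 : 3 ≤ k)
    (hg : ∀ (v : V) (c : G.Walk v v), c.IsCycle → Odd c.length → k ≤ c.length)
    (p q : ℕ) (hq : 1 ≤ q) (h2q : 2 * q ≤ p)
    (hpq : 2 * k * R.odd.card * q ≤ p * ((k - 2) * R.odd.card + 2)) :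
    ∃ c : V → ℕ, (∀ v, c v < p) ∧
      ∀ u v, G.Adj u v → (q : ℤ) ≤ |(c u : ℤ) - c v| ∧ |(c u : ℤ) - c v| ≤ p - q := by
  classical
  set N := R.odd.card with hN
  have hk0 : (0 : ℝ) < k := by exact_mod_cast (by omega : 0 < k)
  have hp0 : (0 : ℝ) < p := by exact_mod_cast (by omega : 0 < p)
  obtain ⟨θ, hθ0, hθ, hθ1⟩ : ∃ θ : ℝ, 0 ≤ θ ∧ (∀ n : ℕ, 2 ≤ n → n ≤ N →
      2 * ((n : ℝ) - 1) ≤ θ * (k * n)) ∧ 2 * (q : ℝ) / p ≤ 1 - θ := by
    rcases Nat.eq_zero_or_pos N with h0 | h0
    · refine ⟨0, le_refl _, ?_, ?_⟩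
      · intro n h1 h2
        omega
      · rw [sub_zero, div_le_one hp0]
        exact_mod_cast h2q
    · have hN1 : (1 : ℝ) ≤ N := by exact_mod_cast h0
      have hN0 : (0 : ℝ) < N := by linarith
      refine ⟨2 * ((N : ℝ) - 1) / (k * N), ?_, ?_, ?_⟩
      · apply div_nonneg
        · linarith
        · positivity
      · intro n h1 h2
        have h3 : (n : ℝ) ≤ N := by exact_mod_cast h2
        have h4 : 2 * ((N : ℝ) - 1) / (k * N) * (k * n) = 2 * ((N : ℝ) - 1) * n / N := by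
          field_simp
        rw [h4, le_div_iff₀ hN0]
        nlinarith
      · rw [div_le_iff₀ hp0]
        have h1 : (2 : ℝ) * k * N * q ≤ p * (((k : ℝ) - 2) * N + 2) := by
          have h2 : ((k - 2 : ℕ) : ℝ) = (k : ℝ) - 2 := by
            rw [Nat.cast_sub (by omega)]
            norm_num
          rw [← h2]
          exact_mod_cast hpq
        have h3 : (1 - 2 * ((N : ℝ) - 1) / (k * N)) * p * (k * N) =
            p * (((k : ℝ) - 2) * N + 2) := by
          field_simp
          ring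
        have h4 : (0 : ℝ) < k * N := by positivity
        have h5 : 2 * (q : ℝ) * (k * N) ≤ (1 - 2 * ((N : ℝ) - 1) / (k * N)) * p * (k * N) := by
          rw [h3]
          linarith
        exact le_of_mul_le_mul_right h5 h4
  refine plane_theta R hP hk ∅ ?_ p q hq h2q θ hθ0 ?_ hθ1
  · intro S hS
    exact (le_odd_cut R hg S hS).trans (Nat.le_add_right _ _)
  · intro n j h1 h2 _ h4
    have h5 : j = 0 := by simpa using h4
    rw [h5]
    have := hθ n h1 h2
    push_cast
    linarith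

end Pool.Agent.OddFlow
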