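import Mathlib
import Pool.Agent.Work.MP_392c8e_co_odd.PlaneF
import Pool.Agent.Work.MP_392c8e_co_odd.Pack
import Pool.Agent.Work.MP_392c8e_co_odd.Count

/-!
# Plane graphs and the packing number of the shortest odd cycles
-/

namespace Pool.Agent.OddFlow

open Finset Pool.Agent.Circ Pool.Agent.Sub392

set_option linter.unusedSectionVars false

variable {V : Type} [Fintype V] [DecidableEq V] {G : SimpleGraph V} [DecidableRel G.Adj]

/-- **Packings, real version.**  All odd boundaries of sets of faces have at least `g` edges and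
there are at most `r` pairwise disjoint sets of faces with exactly `g` boundary edges. -/
theorem plane_pack (R : Rot G) (hP : R.Plane) {g : ℕ} (hg : Odd g)
    (hcut : ∀ S : Finset R.Face, Odd (R.cut S) → g ≤ R.cut S) (r : ℕ)
    (hr : ∀ P : Finset (Finset R.Face), (∀ S ∈ P, R.cut S = g) →
      (P : Set (Finset R.Face)).PairwiseDisjoint id → P.card ≤ r)
    (p q : ℕ) (hq : 1 ≤ q) (h2q : 2 * q ≤ p) (θ : ℝ) (hθ0 : 0 ≤ θ)
    (hθ : ∀ n j : ℕ, 2 ≤ n → n ≤ R.odd.card → j ≤ n → j ≤ r →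
      2 * ((n : ℝ) - 1) ≤ θ * ((g + 2) * n - 2 * j)) (hθ1 : 2 * (q : ℝ) / p ≤ 1 - θ) :
    ∃ c : V → ℕ, (∀ v, c v < p) ∧
      ∀ u v, G.Adj u v → (q : ℤ) ≤ |(c u : ℤ) - c v| ∧ |(c u : ℤ) - c v| ≤ p - q := by
  classical
  have hk : Odd (g + 2) := by
    rw [Nat.odd_iff] at hg ⊢
    omega
  obtain ⟨F, hF, hFc⟩ := exists_F (fun e : Up G => R.face e.1) (fun e : Up G => R.face e.1.symm)
    hk (by
      intro X hX
      rw [card_cut_eq] at hX ⊢
      have := hcut X hX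
      omega) r (by
      intro P h1 h2
      refine hr P (fun S hS => ?_) (fun S hS T hT hST => h2 S hS T hT hST)
      have h3 := h1 S hS
      rw [card_cut_eq] at h3
      have h4 := hcut S h3.1
      have h5 := h3.1
      rw [Nat.odd_iff] at h5 hg
      omega)
  refine plane_theta R hP hk F ?_ p q hq h2q θ hθ0 ?_ hθ1
  · intro S hS
    have h1 := hFc S
    rw [card_cut_eq] at h1
    exact h1 hS
  · intro n j h1 h4 h2 h3
    have := hθ n j h1 h4 h2 (h3.trans hF)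
    push_cast
    exact this

/-- **Packings, version with natural numbers.** -/
theorem plane_pack_nat (R : Rot G) (hP : R.Plane) {g : ℕ} (hg : Odd g)
    (hcut : ∀ S : Finset R.Face, Odd (R.cut S) → g ≤ R.cut S) (r : ℕ)
    (hr : ∀ P : Finset (Finset R.Face), (∀ S ∈ P, R.cut S = g) →
      (P : Set (Finset R.Face)).PairwiseDisjoint id → P.card ≤ r)
    (p q : ℕ) (hq : 1 ≤ q) (h2q : 2 * q ≤ p)
    (hpq : ∀ n j : ℕ, 2 ≤ n → n ≤ R.odd.card → j ≤ n → j ≤ r →
      2 * p * (n - 1) + (p - 2 * q) * (2 * j) ≤ (p - 2 * q) * ((g + 2) * n)) :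
    ∃ c : V → ℕ, (∀ v, c v < p) ∧
      ∀ u v, G.Adj u v → (q : ℤ) ≤ |(c u : ℤ) - c v| ∧ |(c u : ℤ) - c v| ≤ p - q := by
  have hp0 : (0 : ℝ) < p := by exact_mod_cast (by omega : 0 < p)
  have h2 : ((p - 2 * q : ℕ) : ℝ) = (p : ℝ) - 2 * q := by
    rw [Nat.cast_sub h2q]
    push_cast
    ring
  have hpq0 : (0 : ℝ) ≤ (p : ℝ) - 2 * q := by
    rw [← h2]
    exact Nat.cast_nonneg _
  refine plane_pack R hP hg hcut r hr p q hq h2q (((p : ℝ) - 2 * q) / p)
    (div_nonneg hpq0 hp0.le) ?_ ?_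
  · intro n j h3 h4 h5 h6
    have h7 := hpq n j h3 h4 h5 h6
    have h8 : 2 * (p : ℝ) * ((n : ℝ) - 1) + ((p : ℝ) - 2 * q) * (2 * j) ≤
        ((p : ℝ) - 2 * q) * ((g + 2) * n) := by
      rw [← h2]
      have h9 : ((n - 1 : ℕ) : ℝ) = (n : ℝ) - 1 := by
        rw [Nat.cast_sub (by omega)]
        norm_num
      rw [← h9]
      exact_mod_cast h7
    rw [div_mul_eq_mul_div, le_div_iff₀ hp0]
    nlinarith
  · rw [div_le_iff₀ hp0]
    have : (1 - ((p : ℝ) - 2 * q) / p) * p = 2 * q := by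
      field_simp
      ring
    rw [this]

/-- Without cycles of length `g` and without shorter odd cycles no set of faces has exactly `g`
boundary edges. -/
theorem no_cycle (R : Rot G) {g : ℕ} (hgo : Odd g)
    (hg : ∀ (v : V) (c : G.Walk v v), c.IsCycle → Odd c.length → g ≤ c.length)
    (h0 : (cyc G g).ncard = 0) (S : Finset R.Face) : R.cut S ≠ g := by
  intro hS
  rw [Set.ncard_eq_zero (Set.toFinite _), Set.eq_empty_iff_forall_notMem] at h0
  have h1 : g + 1 ≤ R.cut S := by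
    refine le_odd_cut R (fun v c hc hodd => ?_) S (by rw [hS]; exact hgo)
    have h2 := hg v c hc hodd
    have h3 : c.length ≠ g := fun h4 => h0 _ ⟨v, c, hc, h4, rfl⟩
    omega
  omega

/-- **Few disjoint shortest odd cycles.** -/
theorem plane_pack_few (R : Rot G) (hP : R.Plane) {g : ℕ} (hg : Odd g)
    (hcut : ∀ S : Finset R.Face, Odd (R.cut S) → g ≤ R.cut S) (r : ℕ) (h2r : 2 * r ≤ g + 2)
    (hr : ∀ P : Finset (Finset R.Face), (∀ S ∈ P, R.cut S = g) →
      (P : Set (Finset R.Face)).PairwiseDisjoint id → P.card ≤ r)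
    (p q : ℕ) (hq : 1 ≤ q) (hpq : 2 * (g + 2) * q ≤ p * g) :
    ∃ c : V → ℕ, (∀ v, c v < p) ∧
      ∀ u v, G.Adj u v → (q : ℤ) ≤ |(c u : ℤ) - c v| ∧ |(c u : ℤ) - c v| ≤ p - q := by
  have h2q : 2 * q ≤ p := by
    by_contra h
    have h1 : p + 1 ≤ 2 * q := by omega
    have h2 : (p + 1) * (g + 2) ≤ 2 * q * (g + 2) := Nat.mul_le_mul_right _ h1
    nlinarith
  have hp0 : (0 : ℝ) < p := by exact_mod_cast (by omega : 0 < p)
  refine plane_pack R hP hg hcut r hr p q hq h2q (2 / ((g : ℝ) + 2)) (by positivity) ?_ ?_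
  · intro n j h1 _ h2 h3
    have h4 : (2 : ℝ) * j ≤ (g : ℝ) + 2 := by exact_mod_cast (by omega : 2 * j ≤ g + 2)
    have h5 : 2 / ((g : ℝ) + 2) * (((g : ℝ) + 2) * n - 2 * j) = 2 * n - 4 * j / ((g : ℝ) + 2) := by
      field_simp
      ring
    rw [h5]
    have h6 : 4 * (j : ℝ) / ((g : ℝ) + 2) ≤ 2 := by
      rw [div_le_iff₀ (by positivity)]
      linarith
    linarith
  · have h1 : (1 : ℝ) - 2 / ((g : ℝ) + 2) = g / ((g : ℝ) + 2) := by
      field_simp
      ring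
    rw [h1, div_le_div_iff₀ hp0 (by positivity)]
    have h2 : (2 : ℝ) * (g + 2) * q ≤ p * g := by exact_mod_cast hpq
    linarith

/-- **The packing number replaces the number of odd faces.** -/
theorem plane_pack_many (R : Rot G) (hP : R.Plane) {g : ℕ} (hg : Odd g) (hg3 : 3 ≤ g)
    (hcut : ∀ S : Finset R.Face, Odd (R.cut S) → g ≤ R.cut S) (r : ℕ) (h2r : g + 2 ≤ 2 * r)
    (hr : ∀ P : Finset (Finset R.Face), (∀ S ∈ P, R.cut S = g) →
      (P : Set (Finset R.Face)).PairwiseDisjoint id → P.card ≤ r)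
    (p q : ℕ) (hq : 1 ≤ q) (hpq : 2 * g * r * q ≤ p * ((g - 2) * r + 2)) :
    ∃ c : V → ℕ, (∀ v, c v < p) ∧
      ∀ u v, G.Adj u v → (q : ℤ) ≤ |(c u : ℤ) - c v| ∧ |(c u : ℤ) - c v| ≤ p - q := by
  obtain ⟨h, rfl⟩ := Nat.exists_eq_add_of_le (show 2 ≤ g by omega)
  have e0 : 2 + h - 2 = h := by omega
  rw [e0] at hpq
  have hr1 : 1 ≤ r := by omega
  have h2q : 2 * q ≤ p := by
    by_contra hlt
    have h1 : p + 1 ≤ 2 * q := by omega
    have h2 : (p + 1) * ((2 + h) * r) ≤ 2 * q * ((2 + h) * r) := Nat.mul_le_mul_right _ h1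
    have h3 : p * (h * r + 2) ≤ p * ((2 + h) * r) := Nat.mul_le_mul_left _ (by nlinarith)
    nlinarith
  have hp0 : (0 : ℝ) < p := by exact_mod_cast (by omega : 0 < p)
  have hrR : (1 : ℝ) ≤ r := by exact_mod_cast hr1
  have hgR : (0 : ℝ) < ((2 + h : ℕ) : ℝ) := by positivity
  have h2rR : ((2 + h : ℕ) : ℝ) + 2 ≤ 2 * r := by exact_mod_cast h2r
  refine plane_pack R hP hg hcut r hr p q hq h2q (2 * ((r : ℝ) - 1) / (((2 + h : ℕ) : ℝ) * r))
    ?_ ?_ ?_
  · apply div_nonneg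
    · linarith
    · positivity
  · intro n j h1 _ h2 h3
    rw [div_mul_eq_mul_div, le_div_iff₀ (by positivity)]
    have hnR : (2 : ℝ) ≤ n := by exact_mod_cast h1
    have hjn : (j : ℝ) ≤ n := by exact_mod_cast h2
    have hjr : (j : ℝ) ≤ r := by exact_mod_cast h3
    set g' : ℝ := ((2 + h : ℕ) : ℝ) with hg'
    rcases le_total (n : ℝ) r with hnr | hnr
    · -- `n ≤ r`
      have e1 : g' * n ≤ (g' + 2) * n - 2 * j := by nlinarith
      have e2 : 2 * ((r : ℝ) - 1) * (g' * n) ≤ 2 * ((r : ℝ) - 1) * ((g' + 2) * n - 2 * j) :=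
        mul_le_mul_of_nonneg_left e1 (by linarith)
      have e3 : 2 * ((n : ℝ) - 1) * (g' * r) ≤ 2 * ((r : ℝ) - 1) * (g' * n) := by
        nlinarith
      linarith
    · -- `n ≥ r`
      have e1 : (g' + 2) * n - 2 * r ≤ (g' + 2) * n - 2 * j := by linarith
      have e2 : 2 * ((r : ℝ) - 1) * ((g' + 2) * n - 2 * r) ≤
          2 * ((r : ℝ) - 1) * ((g' + 2) * n - 2 * j) :=
        mul_le_mul_of_nonneg_left e1 (by linarith)
      have e3 : 2 * ((n : ℝ) - 1) * (g' * r) ≤ 2 * ((r : ℝ) - 1) * ((g' + 2) * n - 2 * r) := by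
        -- difference `2 (n - r) ((g' + 2) (r - 1) - g' r)`
        have e4 : 2 * ((r : ℝ) - 1) * ((g' + 2) * n - 2 * r) - 2 * ((n : ℝ) - 1) * (g' * r) =
            2 * ((n : ℝ) - r) * (2 * r - (g' + 2)) := by ring
        have e5 : 0 ≤ 2 * ((n : ℝ) - r) * (2 * r - (g' + 2)) :=
          mul_nonneg (by linarith) (by linarith)
        linarith
      linarith
  · rw [div_le_iff₀ hp0]
    have h1 : (2 : ℝ) * (2 + h) * r * q ≤ p * (h * r + 2) := by exact_mod_cast hpq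
    have h3 : (1 - 2 * ((r : ℝ) - 1) / (((2 + h : ℕ) : ℝ) * r)) * p * (((2 + h : ℕ) : ℝ) * r) =
        p * (h * r + 2) := by
      push_cast
      field_simp
      ring
    have h4 : (0 : ℝ) < ((2 + h : ℕ) : ℝ) * r := by positivity
    have h5 : 2 * (q : ℝ) * (((2 + h : ℕ) : ℝ) * r) ≤
        (1 - 2 * ((r : ℝ) - 1) / (((2 + h : ℕ) : ℝ) * r)) * p * (((2 + h : ℕ) : ℝ) * r) := by
      rw [h3]
      push_cast
      linarith
    exact le_of_mul_le_mul_right h5 h4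

end Pool.Agent.OddFlow
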