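import Mathlib
import Pool.Agent.Work.MP_392c8e_co_odd.NearM
import Pool.Agent.Work.MP_392c8e_co_odd.PlaneP
import Pool.Agent.Work.MP_392c8e_co_odd.BdCyc
import Pool.Agent.Work.MP_392c8e_co_odd.CycD

/-!
# Plane graphs without nearly critical cycles
-/

namespace Pool.Agent.OddFlow

open Finset Pool.Agent.Circ Pool.Agent.Sub392

set_option linter.unusedSectionVars false

variable {V : Type} [Fintype V] [DecidableEq V] {G : SimpleGraph V} [DecidableRel G.Adj]

/-- `S` is one of the two sides of the cycle `c`: an edge lies on `c` if and only if exactly one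
of its two faces is in `S`. -/
def Side (R : Rot G) {v : V} (c : G.Walk v v) (S : Finset R.Face) : Prop :=
  ∀ d : G.Dart, d.edge ∈ c.edges ↔ ¬ (R.face d ∈ S ↔ R.face d.symm ∈ S)

/-- The length of a cycle is the number of boundary edges of its sides. -/
theorem length_of_side (R : Rot G) {v : V} {c : G.Walk v v} (hc : c.IsCycle)
    {S : Finset R.Face} (hside : Side R c S) : c.length = R.cut S := by
  classical
  rw [← SimpleGraph.Walk.length_edges, ← List.toFinset_card_of_nodup hc.edges_nodup, Rot.cut]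
  symm
  refine Finset.card_bij (fun d _ => d.edge) ?_ ?_ ?_
  · intro d hd
    simp only [mem_filter, mem_univ, true_and] at hd
    rw [List.mem_toFinset]
    exact (hside d).2 fun h => hd.2 (h.1 hd.1)
  · intro d hd d' hd' h
    simp only [mem_filter, mem_univ, true_and] at hd hd'
    rcases (SimpleGraph.dart_edge_eq_iff d d').1 h with h1 | h1
    · exact h1
    · exfalso
      rw [h1, SimpleGraph.Dart.symm_symm] at hd
      exact hd.2 hd'.1
  · intro x hx
    rw [List.mem_toFinset] at hx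
    have h1 := c.edges_subset_edgeSet hx
    induction x using Sym2.ind with
    | _ p q =>
      rw [SimpleGraph.mem_edgeSet] at h1
      have h2 := (hside ⟨(p, q), h1⟩).1 hx
      by_cases h3 : R.face ⟨(p, q), h1⟩ ∈ S
      · refine ⟨⟨(p, q), h1⟩, ?_, rfl⟩
        simp only [mem_filter, mem_univ, true_and]
        exact ⟨h3, fun h => h2 (iff_of_true h3 h)⟩
      · refine ⟨(⟨(p, q), h1⟩ : G.Dart).symm, ?_, ?_⟩
        · simp only [mem_filter, mem_univ, true_and, SimpleGraph.Dart.symm_symm]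
          refine ⟨?_, h3⟩
          by_contra h
          exact h2 (iff_of_false h3 h)
        · rw [SimpleGraph.Dart.edge_symm]
          rfl

/-- A function on the faces which only changes across the boundary of a connected set is constant
on it. -/
theorem const_on (R : Rot G) {S : Finset R.Face}
    (hS : ConnS (fun e : Up G => R.face e.1) (fun e : Up G => R.face e.1.symm) S)
    (a : R.Face → ZMod 2)
    (ha : ∀ d : G.Dart, R.face d ∈ S → R.face d.symm ∈ S → a (R.face d) = a (R.face d.symm))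
    {f f' : R.Face} (hf : f ∈ S) (hf' : f' ∈ S) : a f = a f' := by
  classical
  by_contra hne
  obtain ⟨e, he⟩ := hS (S.filter fun x => a x = a f) (filter_subset _ _)
    ⟨f, mem_filter.2 ⟨hf, rfl⟩⟩ (by
      intro h
      have : f' ∈ S.filter fun x => a x = a f := by rw [h]; exact hf'
      exact hne (mem_filter.1 this).2.symm)
  rcases he with ⟨h1, h2⟩ | ⟨h1, h2⟩
  · rw [mem_filter] at h1
    rw [mem_sdiff, mem_filter, not_and] at h2
    refine h2.2 h2.1 ?_
    rw [← ha e.1 h1.1 h2.1]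
    exact h1.2
  · rw [mem_filter] at h1
    rw [mem_sdiff, mem_filter, not_and] at h2
    refine h2.2 h2.1 ?_
    rw [ha e.1 h2.1 h1.1]
    exact h1.2

theorem connS_univ (R : Rot G) (hP : R.Plane) :
    ConnS (fun e : Up G => R.face e.1) (fun e : Up G => R.face e.1.symm) univ := by
  classical
  intro Y _ hY hY'
  have h1 : R.cut Y ≠ 0 := by
    intro h
    rcases R.cut_zero hP.1 h with h2 | h2
    · rw [h2] at hY
      exact absurd hY not_nonempty_empty
    · exact hY' h2
  rw [← card_cut_eq] at h1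
  obtain ⟨e, he⟩ := card_ne_zero.1 h1
  refine ⟨e, ?_⟩
  simp only [cut, mem_filter, mem_univ, true_and] at he
  simp only [mem_sdiff, mem_univ, true_and]
  tauto

/-- **If both sides are connected, the boundary is a cycle.** -/
theorem cycle_of_conn (R : Rot G) (hP : R.Plane) {S : Finset R.Face}
    (hS : ConnS (fun e : Up G => R.face e.1) (fun e : Up G => R.face e.1.symm) S)
    (hS' : ConnS (fun e : Up G => R.face e.1) (fun e : Up G => R.face e.1.symm) Sᶜ)
    (hn : S.Nonempty) (hn' : Sᶜ.Nonempty) :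
    ∃ (v : V) (c : G.Walk v v), c.IsCycle ∧ Side R c S ∧ c.length = R.cut S := by
  classical
  obtain ⟨e, he⟩ := connS_univ R hP S (subset_univ _) hn (by
    rintro rfl
    simp at hn')
  have h0 : ¬ (R.face e.1 ∈ S ↔ R.face e.1.symm ∈ S) := by
    simp only [mem_sdiff, mem_univ, true_and] at he
    tauto
  obtain ⟨v, c, hc, hmem, hbd⟩ := exists_cycle_through R S e.1 h0
  obtain ⟨a, ha⟩ := cycle_sides R hP c hc
  have hside : Side R c S := by
    intro d
    refine ⟨hbd d, fun h1 => ?_⟩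
    by_contra h2
    have h3 := (ha d).2 h2
    have h4 : a (R.face e.1) ≠ a (R.face e.1.symm) := fun h => (ha e.1).1 h hmem
    have hin : ∀ d : G.Dart, (R.face d ∈ S ↔ R.face d.symm ∈ S) →
        a (R.face d) = a (R.face d.symm) := fun d hd => (ha d).2 fun h => hbd d h hd
    have hc1 : ∀ f ∈ S, ∀ f' ∈ S, a f = a f' := fun f hf f' hf' =>
      const_on R hS a (fun d h5 h6 => hin d (iff_of_true h5 h6)) hf hf'
    have hc2 : ∀ f ∈ Sᶜ, ∀ f' ∈ Sᶜ, a f = a f' := fun f hf f' hf' =>
      const_on R hS' a (fun d h5 h6 => hin d (iff_of_false (mem_compl.1 h5) (mem_compl.1 h6)))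
        hf hf'
    simp only [mem_compl] at hc2
    apply h4
    by_cases h5 : R.face e.1 ∈ S
    · have h6 : R.face e.1.symm ∉ S := fun h => h0 (iff_of_true h5 h)
      by_cases h7 : R.face d ∈ S
      · have h8 : R.face d.symm ∉ S := fun h => h1 (iff_of_true h7 h)
        rw [hc1 _ h5 _ h7, h3, hc2 _ h8 _ h6]
      · have h8 : R.face d.symm ∈ S := by
          by_contra h
          exact h1 (iff_of_false h7 h)
        rw [hc1 _ h5 _ h8, ← h3, hc2 _ h7 _ h6]
    · have h6 : R.face e.1.symm ∈ S := by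
        by_contra h
        exact h0 (iff_of_false h5 h)
      by_cases h7 : R.face d ∈ S
      · have h8 : R.face d.symm ∉ S := fun h => h1 (iff_of_true h7 h)
        rw [hc2 _ h5 _ h8, ← h3, hc1 _ h7 _ h6]
      · have h8 : R.face d.symm ∈ S := by
          by_contra h
          exact h1 (iff_of_false h7 h)
        rw [hc2 _ h5 _ h7, h3, hc1 _ h8 _ h6]
  exact ⟨v, c, hc, hside, length_of_side R hc hside⟩

/-- From a flow on the faces to a circular colouring. -/
theorem colour_of_good_pq (R : Rot G) (hP : R.Plane) {p q : ℕ} (hq : 1 ≤ q) (h2q : 2 * q ≤ p)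
    (h : Good (fun e : Up G => R.face e.1) (fun e : Up G => R.face e.1.symm)
      (((p - 2 * q : ℕ) : ℝ) / p)) :
    ∃ c : V → ℕ, (∀ v, c v < p) ∧
      ∀ u v, G.Adj u v → (q : ℤ) ≤ |(c u : ℤ) - c v| ∧ |(c u : ℤ) - c v| ≤ p - q := by
  obtain ⟨f, hf, hb⟩ := h
  obtain ⟨φ, hφ⟩ := circle_exact R hP f hf
  obtain ⟨c, hc1, hc2⟩ := Arb392.exists_colouring hq h2q φ
  have hp0 : (0 : ℝ) < p := by exact_mod_cast (by omega : 0 < p)
  have h0 : 2 * (q : ℝ) / p = 1 - ((p - 2 * q : ℕ) : ℝ) / p := by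
    rw [Nat.cast_sub h2q]
    field_simp
    push_cast
    ring
  refine ⟨c, hc1, fun u v huv => hc2 u v ?_⟩
  rw [h0]
  have key : ∀ e : Up G, 1 - ((p - 2 * q : ℕ) : ℝ) / p ≤ ‖φ e.1.snd - φ e.1.fst‖ := fun e => by
    rw [← hφ]
    exact Arb392.le_norm_of_antipode (hb e)
  rcases up_or (⟨(u, v), huv⟩ : G.Dart) with h | h
  · have := key ⟨_, h⟩
    rw [norm_sub_rev] at this
    exact this
  · exact key ⟨_, h⟩

/-- **Packings and nearly critical cycles.** -/
theorem plane_near (R : Rot G) (hP : R.Plane) {g : ℕ} (hg : Odd g)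
    (hcut : ∀ S : Finset R.Face, Odd (R.cut S) → g ≤ R.cut S) (r : ℕ)
    (hr : ∀ P : Finset (Finset R.Face), (∀ S ∈ P, R.cut S = g) →
      (P : Set (Finset R.Face)).PairwiseDisjoint id → P.card ≤ r)
    (p q : ℕ) (hq : 1 ≤ q) (h2q : 2 * q ≤ p) (x y : ℕ) (hy : 0 < y)
    (hxy : ∀ n j : ℕ, 2 ≤ n → n ≤ R.odd.card → j ≤ n → j ≤ r →
      2 * y * (n - 1) + x * (2 * j) ≤ x * ((g + 2) * n))
    (m : R.Face → ℕ)
    (hm : ∀ f ∈ R.odd, ∀ j : ℕ, Odd j → y * j ≤ x * R.cut {f} → j ≤ m f)
    (hcrit : ∀ (v : V) (c : G.Walk v v) (S : Finset R.Face) (j : ℕ), c.IsCycle → Side R c S →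
      Even (j + c.length) → y * j ≤ x * c.length →
      j ≤ ∑ f ∈ S ∩ R.odd, m f → j ≤ ∑ f ∈ R.odd \ S, m f →
      p * j ≤ (p - 2 * q) * c.length) :
    ∃ c : V → ℕ, (∀ v, c v < p) ∧
      ∀ u v, G.Adj u v → (q : ℤ) ≤ |(c u : ℤ) - c v| ∧ |(c u : ℤ) - c v| ≤ p - q := by
  classical
  have hk : Odd (g + 2) := by
    rw [Nat.odd_iff] at hg ⊢
    omega
  have hy0 : (0 : ℝ) < y := by exact_mod_cast hy
  obtain ⟨F, hF, hFc⟩ := exists_F (fun e : Up G => R.face e.1) (fun e : Up G => R.face e.1.symm)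
    hk (by
      intro X hX
      rw [card_cut_eq] at hX ⊢
      have := hcut X hX
      omega) r (by
      intro P h1 h2
      refine hr P (fun S hS => ?_) (fun S hS T hT hST => h2 S hS T hT hST)
      have h3 := h1 S hS
      rw [card_cut_eq] at h3
      have h4 := hcut S h3.1
      have h5 := h3.1
      rw [Nat.odd_iff] at h5 hg
      omega)
  have hle : ∀ (a b : ℕ), ((a : ℝ) ≤ (x : ℝ) / y * b ↔ y * a ≤ x * b) := by
    intro a b
    rw [div_mul_eq_mul_div, le_div_iff₀ hy0]
    constructor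
    · intro h
      have h1 : ((a * y : ℕ) : ℝ) ≤ ((x * b : ℕ) : ℝ) := by
        push_cast
        exact h
      have h2 : a * y ≤ x * b := by exact_mod_cast h1
      rw [mul_comm]
      exact h2
    · intro h
      have h1 : ((y * a : ℕ) : ℝ) ≤ ((x * b : ℕ) : ℝ) := by exact_mod_cast h
      push_cast at h1
      linarith
  refine colour_of_good_pq R hP hq h2q (good_near _ _ (connS_univ R hP) hk F ?_ ((x : ℝ) / y)
    (by positivity) ?_ m ?_ (by omega) ?_)
  · intro X hX
    exact hFc X hX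
  · intro n j h1 h2 h3 h4
    rw [oddV_eq] at h2
    have h5 := hxy n j h1 h2 h3 (h4.trans hF)
    rw [div_mul_eq_mul_div, le_div_iff₀ hy0]
    have h6 : ((2 * y * (n - 1) + x * (2 * j) : ℕ) : ℝ) ≤ ((x * ((g + 2) * n) : ℕ) : ℝ) := by
      exact_mod_cast h5
    rw [Nat.cast_add, Nat.cast_mul, Nat.cast_mul, Nat.cast_sub (by omega : 1 ≤ n)] at h6
    push_cast at h6 ⊢
    linarith
  · intro f hf j hj h1
    rw [oddV_eq] at hf
    rw [card_cut_eq, hle] at h1
    exact hm f hf j hj h1
  · intro S j hS1 hS2 hn1 hn2 h1 h2 h3 h4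
    rw [card_cut_eq] at h1 h2 ⊢
    rw [oddV_eq] at h3 h4
    rw [hle] at h2
    obtain ⟨v, c, hc, hside, hlen⟩ := cycle_of_conn R hP hS1 hS2 hn1 hn2
    rw [← hlen] at h1 h2 ⊢
    exact hcrit v c S j hc hside h1 h2 h3 h4

end Pool.Agent.OddFlow
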