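import Mathlib
import Pool.Agent.Work.MP_392c8e_co_odd.PlaneN

/-!
# Circular colourings of plane graphs from integral charges of the faces
-/

namespace Pool.Agent.OddFlow

open Finset Pool.Agent.Circ Pool.Agent.Sub392

set_option linter.unusedSectionVars false

section

variable {V E : Type*} [Fintype V] [DecidableEq V] [Fintype E] [DecidableEq E]

/-- Integral charges with the cut condition for the connected cuts give a flow. -/
theorem good_of_conn_bound (s t : E → V) (hconn : ConnS s t univ) (w : V → ℤ)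
    (hpar : ∀ v, (2 : ℤ) ∣ w v - ((cut s t {v}).card : ℤ)) (htot : ∑ v, w v = 0)
    {a b : ℕ} (hb : 0 < b)
    (h : ∀ Z : Finset V, ConnS s t Z → ConnS s t Zᶜ → Z.Nonempty → Zᶜ.Nonempty →
      (b : ℤ) * |∑ v ∈ Z, w v| ≤ a * (cut s t Z).card) :
    Good s t ((a : ℝ) / b) := by
  have key := bound_of_conn s t hconn w htot a b h
  refine good_of_chg s t hb ⟨hpar, fun Z => ?_⟩
  have hb' : (0 : ℝ) < b := by exact_mod_cast hb
  rw [div_mul_eq_mul_div, le_div_iff₀ hb']
  have h2 : (((b : ℤ) * |∑ v ∈ Z, w v| : ℤ) : ℝ) ≤ ((a * (cut s t Z).card : ℤ) : ℝ) := by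
    exact_mod_cast key Z
  push_cast at h2 ⊢
  linarith

end

variable {V : Type} [Fintype V] [DecidableEq V] {G : SimpleGraph V} [DecidableRel G.Adj]

/-- **Charges of the faces.**  Let `w` be integral charges of the faces with the parities of
their sizes and sum `0`.  If `p |w(S)| ≤ (p - 2 q) |C|` for every cycle `C` with side `S`, there is
a `(p, q)`-colouring. -/
theorem plane_of_charges (R : Rot G) (hP : R.Plane) {p q : ℕ} (hq : 1 ≤ q) (h2q : 2 * q ≤ p)
    (w : R.Face → ℤ) (hpar : ∀ f, (2 : ℤ) ∣ w f - (R.cut {f} : ℤ)) (htot : ∑ f, w f = 0)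
    (h : ∀ (v : V) (c : G.Walk v v) (S : Finset R.Face), c.IsCycle → Side R c S →
      (p : ℤ) * |∑ f ∈ S, w f| ≤ (p - 2 * q : ℕ) * c.length) :
    ∃ c : V → ℕ, (∀ v, c v < p) ∧
      ∀ u v, G.Adj u v → (q : ℤ) ≤ |(c u : ℤ) - c v| ∧ |(c u : ℤ) - c v| ≤ p - q := by
  classical
  refine colour_of_good_pq R hP hq h2q (good_of_conn_bound _ _ (connS_univ R hP) w ?_ htot
    (by omega) ?_)
  · intro f
    rw [card_cut_eq]
    exact hpar f
  · intro S hS1 hS2 hn1 hn2
    obtain ⟨v, c, hc, hside, hlen⟩ := cycle_of_conn R hP hS1 hS2 hn1 hn2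
    rw [card_cut_eq, ← hlen]
    exact h v c S hc hside

/-- The sum of a function over the edges of a cycle, as a sum over the boundary of a side. -/
theorem sum_of_side (R : Rot G) {v : V} {c : G.Walk v v} (hc : c.IsCycle)
    {S : Finset R.Face} (hside : Side R c S) (m : Sym2 V → ℕ) :
    (c.edges.map m).sum =
      ∑ e ∈ cut (fun e : Up G => R.face e.1) (fun e : Up G => R.face e.1.symm) S, m e.1.edge := by
  classical
  rw [← List.sum_toFinset _ hc.edges_nodup]
  symm
  refine Finset.sum_bij (fun e _ => e.1.edge) ?_ ?_ ?_ fun _ _ => rfl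
  · intro e he
    simp only [cut, mem_filter, mem_univ, true_and] at he
    rw [List.mem_toFinset]
    exact (hside e.1).2 (by tauto)
  · intro e _ e' _ h
    rcases (SimpleGraph.dart_edge_eq_iff e.1 e'.1).1 h with h1 | h1
    · exact Subtype.ext h1
    · exfalso
      have h2 := e.2
      have h3 := e'.2
      have h4 : e.1.fst = e'.1.snd := by rw [h1]; rfl
      have h5 : e.1.snd = e'.1.fst := by rw [h1]; rfl
      rw [h4, h5] at h2
      omega
  · intro x hx
    rw [List.mem_toFinset] at hx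
    have h1 := c.edges_subset_edgeSet hx
    induction x using Sym2.ind with
    | _ a b =>
      rw [SimpleGraph.mem_edgeSet] at h1
      have h2 := (hside ⟨(a, b), h1⟩).1 hx
      rcases up_or (⟨(a, b), h1⟩ : G.Dart) with h3 | h3
      · refine ⟨⟨_, h3⟩, ?_, rfl⟩
        unfold cut
        exact mem_filter.2 ⟨mem_univ _, h2⟩
      · refine ⟨⟨_, h3⟩, ?_, ?_⟩
        · unfold cut
          refine mem_filter.2 ⟨mem_univ _, ?_⟩
          show ¬ (R.face (⟨(a, b), h1⟩ : G.Dart).symm ∈ S ↔
            R.face (⟨(a, b), h1⟩ : G.Dart).symm.symm ∈ S)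
          rw [SimpleGraph.Dart.symm_symm]
          exact fun h => h2 h.symm
        · exact SimpleGraph.Dart.edge_symm _

theorem up_edge_inj {e e' : Up G} (h : e.1.edge = e'.1.edge) : e = e' := by
  rcases (SimpleGraph.dart_edge_eq_iff e.1 e'.1).1 h with h1 | h1
  · exact Subtype.ext h1
  · exfalso
    have h2 := e.2
    have h3 := e'.2
    have h4 : e.1.fst = e'.1.snd := by rw [h1]; rfl
    have h5 : e.1.snd = e'.1.fst := by rw [h1]; rfl
    rw [h4, h5] at h2
    omega

/-- If all odd cycles have weight at least `B`, so have all odd boundaries. -/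
theorem le_weight_of_odd (R : Rot G) (m : Sym2 V → ℕ) {B : ℕ}
    (h : ∀ (v : V) (c : G.Walk v v), c.IsCycle → Odd c.length → B ≤ (c.edges.map m).sum)
    (S : Finset R.Face) (hS : Odd (R.cut S)) :
    B ≤ ∑ e ∈ cut (fun e : Up G => R.face e.1) (fun e : Up G => R.face e.1.symm) S,
      m e.1.edge := by
  classical
  obtain ⟨v, c, hcyc, hodd, hE⟩ := exists_odd_cycle R S hS
  refine (h v c hcyc hodd).trans ?_
  rw [← List.sum_toFinset _ hcyc.edges_nodup,
    ← Finset.sum_image (f := m) (g := fun e : Up G => e.1.edge) fun e _ e' _ h => up_edge_inj h]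
  refine Finset.sum_le_sum_of_subset ?_
  intro x hx
  rw [List.mem_toFinset] at hx
  obtain ⟨d, hd, h1, h2⟩ := hE x hx
  rw [Finset.mem_image]
  rcases up_or d with h3 | h3
  · refine ⟨⟨d, h3⟩, ?_, hd⟩
    unfold cut
    refine mem_filter.2 ⟨mem_univ _, ?_⟩
    show ¬ (R.face d ∈ S ↔ R.face d.symm ∈ S)
    tauto
  · refine ⟨⟨d.symm, h3⟩, ?_, (SimpleGraph.Dart.edge_symm _).trans hd⟩
    unfold cut
    refine mem_filter.2 ⟨mem_univ _, ?_⟩
    show ¬ (R.face d.symm ∈ S ↔ R.face d.symm.symm ∈ S)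
    rw [SimpleGraph.Dart.symm_symm]
    tauto

end Pool.Agent.OddFlow
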