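import Mathlib
import Pool.Agent.Work.MP_392c8e_co_odd.SplitD
import Pool.Agent.Work.MP_392c8e_co_odd.MainF
import Pool.Agent.Work.MP_392c8e_co_odd.GoodOf

/-!
# Integral charges from edge weights

If every odd cut has weight at least `2`, there are integral charges which have the parity of the
degrees, vanish at the vertices of even degree, and are bounded on every set of vertices by
`(N - 1) / N` times the weight of its cut, where `N` is the number of odd vertices.
-/

namespace Pool.Agent.OddFlow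

open Finset Pool.Agent.Circ Filter Topology

set_option linter.unusedSectionVars false

variable {V E : Type*} [Fintype V] [DecidableEq V] [Fintype E] [DecidableEq E]

namespace Wt

/-- the multiplicities -/
noncomputable def mul (ω : E → ℝ) (M : ℕ) (e : E) : ℕ := 1 + 2 * ⌊(M : ℝ) * ω e⌋₊

theorem mul_le (ω : E → ℝ) (h0 : ∀ e, 0 ≤ ω e) (M : ℕ) (e : E) :
    ((mul ω M e : ℕ) : ℝ) ≤ 1 + 2 * (M * ω e) := by
  unfold mul
  have := Nat.floor_le (show 0 ≤ (M : ℝ) * ω e by have := h0 e; positivity)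
  push_cast
  linarith

theorem le_mul (ω : E → ℝ) (M : ℕ) (e : E) :
    2 * (M * ω e) - 1 ≤ ((mul ω M e : ℕ) : ℝ) := by
  unfold mul
  have := Nat.lt_floor_add_one ((M : ℝ) * ω e)
  push_cast
  linarith

theorem mul_odd (ω : E → ℝ) (M : ℕ) (e : E) : Odd (mul ω M e) := by
  unfold mul
  exact ⟨_, add_comm _ _⟩

/-- the cut of the multigraph -/
theorem card_cut_sigma (s t : E → V) (h : E → ℕ) (X : Finset V) :
    (cut (fun a : Σ e, Fin (h e) => s a.1) (fun a : Σ e, Fin (h e) => t a.1) X).card =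
      ∑ e ∈ cut s t X, h e := by
  have h1 : cut (fun a : Σ e, Fin (h e) => s a.1) (fun a : Σ e, Fin (h e) => t a.1) X =
      (cut s t X).sigma fun _ => univ := by
    ext a
    simp [cut, mem_sigma]
  rw [h1, card_sigma]
  simp

theorem odd_sum (A : Finset E) (h : E → ℕ) (hh : ∀ e, Odd (h e)) :
    Odd (∑ e ∈ A, h e) ↔ Odd A.card := by
  rw [Finset.odd_sum_iff_odd_card_odd]
  have : A.filter (fun e => Odd (h e)) = A := filter_true_of_mem fun e _ => hh e
  rw [this]

/-- The charges for given multiplicities. -/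
theorem exists_chg_mul (s t : E → V) (ω : E → ℝ) (h0 : ∀ e, 0 ≤ ω e)
    (hodd : ∀ X : Finset V, Odd (cut s t X).card → 2 ≤ ∑ e ∈ cut s t X, ω e)
    (M : ℕ) (hM : Fintype.card E < M) :
    ∃ w : V → ℤ, (∀ v, v ∉ oddV s t → w v = 0) ∧
      (∀ v, (2 : ℤ) ∣ w v - ((cut s t {v}).card : ℤ)) ∧
      ∀ Z : Finset V, |((∑ v ∈ Z, w v : ℤ) : ℝ)| ≤
        2 * (((oddV s t).card - 1 : ℕ) : ℝ) /
          ((oddV s t).card * (4 * M - 2 * Fintype.card E - 1)) *
          (Fintype.card E + 2 * (M * ∑ e ∈ cut s t Z, ω e)) := by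
  classical
  set m := Fintype.card E with hm
  set N := (oddV s t).card with hN
  set k := 4 * M - 2 * m - 1 with hk
  have hkodd : Odd k := by
    rw [Nat.odd_iff]
    omega
  have hkR : (k : ℝ) = 4 * M - 2 * m - 1 := by
    have h1 : k + (2 * m + 1) = 4 * M := by omega
    have h2 : ((k + (2 * m + 1) : ℕ) : ℝ) = ((4 * M : ℕ) : ℝ) := by rw [h1]
    push_cast at h2
    linarith
  have hk0 : (0 : ℝ) < k := by
    have : 0 < k := by omega
    exact_mod_cast this
  let s1 : (Σ e, Fin (mul ω M e)) → V := fun a => s a.1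
  let t1 : (Σ e, Fin (mul ω M e)) → V := fun a => t a.1
  have hc1 : ∀ X, (cut s1 t1 X).card = ∑ e ∈ cut s t X, mul ω M e :=
    fun X => card_cut_sigma s t (mul ω M) X
  have hp1 : ∀ X, Odd (cut s1 t1 X).card ↔ Odd (cut s t X).card := fun X => by
    rw [hc1]
    exact odd_sum _ _ (mul_odd ω M)
  have hcm : ∀ X : Finset V, ((cut s t X).card : ℝ) ≤ m := fun X => by
    exact_mod_cast card_le_univ _
  have hF : OddCutF s1 t1 k ∅ := by
    intro X hX
    have h1 := hodd X ((hp1 X).1 hX)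
    have h2 : (k : ℝ) ≤ ((cut s1 t1 X).card : ℕ) := by
      rw [hc1, Nat.cast_sum]
      calc (k : ℝ) ≤ 2 * (M * 2) - m := by
            rw [hkR]
            have : (0 : ℝ) ≤ m := Nat.cast_nonneg _
            linarith
        _ ≤ 2 * (M * ∑ e ∈ cut s t X, ω e) - (cut s t X).card := by
            have h3 := hcm X
            have h4 : (M : ℝ) * 2 ≤ M * ∑ e ∈ cut s t X, ω e :=
              mul_le_mul_of_nonneg_left h1 (Nat.cast_nonneg _)
            linarith
        _ = ∑ e ∈ cut s t X, (2 * (M * ω e) - 1) := by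
            rw [sum_sub_distrib, ← mul_sum, ← mul_sum, sum_const, nsmul_eq_mul, mul_one]
        _ ≤ _ := sum_le_sum fun e _ => le_mul ω M e
    have h3 : k ≤ (cut s1 t1 X).card := by exact_mod_cast h2
    omega
  obtain ⟨s', t', F', g1, g2, g3, g4, g5⟩ := exists_fullF s1 t1 hkodd ∅ hF
  have hodd1 : oddV s1 t1 = oddV s t := by
    rw [oddV, oddV]
    exact Finset.filter_congr fun v _ => hp1 {v}
  have hodd' : oddV s' t' = oddV s t := by
    rw [← hodd1, oddV, oddV]
    exact Finset.filter_congr fun v _ => g1 {v}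
  set θ : ℝ := 2 * ((N - 1 : ℕ) : ℝ) / (N * k) with hθdef
  have hθ0 : 0 ≤ θ := by positivity
  have hgood : Good s' t' θ := by
    refine mainF s' t' hkodd F' g2 θ hθ0 fun n j h1 h2 h3 h4 => ?_
    rw [hodd', ← hN] at h2
    rw [card_empty] at g3
    have hj : j = 0 := by omega
    subst hj
    have hN0 : (0 : ℝ) < N := by
      have : 0 < N := by omega
      exact_mod_cast this
    have hn0 : (0 : ℝ) < n := by
      have : 0 < n := by omega
      exact_mod_cast this
    have e1 : θ * (k * n - 2 * ((0 : ℕ) : ℝ)) = 2 * ((N - 1 : ℕ) : ℝ) * n / N := by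
      rw [hθdef]
      field_simp
      push_cast
      ring
    rw [e1, Nat.cast_sub (by omega : 1 ≤ N), le_div_iff₀ hN0]
    have h5 : (n : ℝ) ≤ N := by exact_mod_cast h2
    push_cast
    nlinarith
  obtain ⟨w, hw'⟩ := chg_of_good s' t' hgood
  have hw : Chg s1 t1 θ w := hw'.mono hθ0 g1 g5
  refine ⟨w, fun v hv => ?_, fun v => ?_, fun Z => ?_⟩
  · have h1 : Even (cut s1 t1 {v}).card := by
      rw [← hodd1, oddV, mem_filter, not_and] at hv
      exact Nat.not_odd_iff_even.1 (hv (mem_univ _))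
    have h2 := hw'.2 {v}
    rw [g4 v h1, sum_singleton, Nat.cast_zero, mul_zero] at h2
    have h3 := abs_nonpos_iff.1 h2
    exact_mod_cast h3
  · have h1 := hw.1 v
    have h2 := hp1 {v}
    rw [Nat.odd_iff, Nat.odd_iff] at h2
    omega
  · refine (hw.2 Z).trans ?_
    rw [← hkR, ← hθdef]
    refine mul_le_mul_of_nonneg_left ?_ hθ0
    rw [hc1, Nat.cast_sum]
    calc ∑ e ∈ cut s t Z, ((mul ω M e : ℕ) : ℝ)
        ≤ ∑ e ∈ cut s t Z, (1 + 2 * (M * ω e)) := sum_le_sum fun e _ => mul_le ω h0 M e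
      _ = (cut s t Z).card + 2 * (M * ∑ e ∈ cut s t Z, ω e) := by
          rw [sum_add_distrib, ← mul_sum, ← mul_sum, sum_const, nsmul_eq_mul, mul_one]
      _ ≤ _ := by
          have := hcm Z
          linarith

theorem tendsto_bound (m S a : ℝ) :
    Tendsto (fun M : ℕ => a / (4 * (M : ℝ) - 2 * m - 1) * (m + 2 * (M * S))) atTop
      (𝓝 (a / 2 * S)) := by
  have h1 : Tendsto (fun M : ℕ => 1 / (M : ℝ)) atTop (𝓝 0) :=
    tendsto_one_div_atTop_nhds_zero_nat
  have h2 : Tendsto (fun M : ℕ => a / (4 - (2 * m + 1) * (1 / (M : ℝ))) *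
      (m * (1 / (M : ℝ)) + 2 * S)) atTop (𝓝 (a / (4 - (2 * m + 1) * 0) * (m * 0 + 2 * S))) := by
    refine Tendsto.mul (Tendsto.div tendsto_const_nhds ?_ (by norm_num)) ?_
    · exact tendsto_const_nhds.sub (h1.const_mul _)
    · exact (h1.const_mul _).add tendsto_const_nhds
  have h3 : a / (4 - (2 * m + 1) * 0) * (m * 0 + 2 * S) = a / 2 * S := by ring
  rw [h3] at h2
  refine h2.congr' ?_
  filter_upwards [eventually_gt_atTop 0] with M hM
  have hM' : (M : ℝ) ≠ 0 := by
    have : (0 : ℝ) < M := by exact_mod_cast hM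
    exact this.ne'
  have e1 : 4 * (M : ℝ) - 2 * m - 1 = M * (4 - (2 * m + 1) * (1 / (M : ℝ))) := by
    field_simp
    ring
  have e2 : m + 2 * (M * S) = M * (m * (1 / (M : ℝ)) + 2 * S) := by
    field_simp
  rw [e1, e2]
  by_cases h4 : 4 - (2 * m + 1) * (1 / (M : ℝ)) = 0
  · rw [h4]
    simp
  · field_simp

end Wt

/-- **Integral charges from edge weights.**  If every odd cut has weight at least `2`, there are
integral charges with the parity of the degrees, zero at the even vertices, and at most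
`(N - 1) / N` times the weight of the cut on every set, where `N` is the number of odd vertices. -/
theorem exists_chg_weight (s t : E → V) (ω : E → ℝ) (h0 : ∀ e, 0 ≤ ω e)
    (hodd : ∀ X : Finset V, Odd (cut s t X).card → 2 ≤ ∑ e ∈ cut s t X, ω e) :
    ∃ w : V → ℤ, (∀ v, v ∉ oddV s t → w v = 0) ∧
      (∀ v, (2 : ℤ) ∣ w v - ((cut s t {v}).card : ℤ)) ∧
      ∀ Z : Finset V, ((oddV s t).card : ℝ) * |((∑ v ∈ Z, w v : ℤ) : ℝ)| ≤
        (((oddV s t).card - 1 : ℕ) : ℝ) * ∑ e ∈ cut s t Z, ω e := by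
  classical
  set m := Fintype.card E with hm
  set N := (oddV s t).card with hN
  rcases Nat.eq_zero_or_pos N with hN0 | hN0
  · have h1 : oddV s t = ∅ := by
      rw [← card_eq_zero, ← hN, hN0]
    refine ⟨0, fun v _ => rfl, fun v => ?_, fun Z => ?_⟩
    · have h2 : v ∉ oddV s t := by rw [h1]; exact notMem_empty v
      rw [oddV, mem_filter, not_and] at h2
      have h3 := Nat.not_odd_iff_even.1 (h2 (mem_univ _))
      rw [Nat.even_iff] at h3
      show (2 : ℤ) ∣ 0 - ((cut s t {v}).card : ℤ)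
      omega
    · have h2 : 0 ≤ ∑ e ∈ cut s t Z, ω e := sum_nonneg fun e _ => h0 e
      rw [hN0]
      simp
  have hNR : (0 : ℝ) < N := by exact_mod_cast hN0
  let W : ℕ → V → ℤ := fun M => if h : m < M then (Wt.exists_chg_mul s t ω h0 hodd M h).choose
    else 0
  have hW : ∀ M, m < M → (∀ v, v ∉ oddV s t → W M v = 0) ∧
      (∀ v, (2 : ℤ) ∣ W M v - ((cut s t {v}).card : ℤ)) ∧
      ∀ Z : Finset V, |((∑ v ∈ Z, W M v : ℤ) : ℝ)| ≤
        2 * ((N - 1 : ℕ) : ℝ) / (N * (4 * M - 2 * m - 1)) *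
          (m + 2 * (M * ∑ e ∈ cut s t Z, ω e)) := by
    intro M hM
    have h1 : W M = (Wt.exists_chg_mul s t ω h0 hodd M hM).choose := dif_pos hM
    rw [h1]
    exact (Wt.exists_chg_mul s t ω h0 hodd M hM).choose_spec
  -- the limit of the bounds
  have hlim : ∀ Z : Finset V, Tendsto (fun M : ℕ => 2 * ((N - 1 : ℕ) : ℝ) /
      (N * (4 * M - 2 * m - 1)) * (m + 2 * (M * ∑ e ∈ cut s t Z, ω e))) atTop
      (𝓝 (2 * ((N - 1 : ℕ) : ℝ) / N / 2 * ∑ e ∈ cut s t Z, ω e)) := by
    intro Z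
    have h1 := Wt.tendsto_bound (m : ℝ) (∑ e ∈ cut s t Z, ω e) (2 * ((N - 1 : ℕ) : ℝ) / N)
    refine h1.congr fun M => ?_
    rw [div_div]
  -- all charges lie in a finite set
  obtain ⟨B, hB⟩ : ∃ B : ℕ, ∀ᶠ M in atTop, ∀ v, |W M v| ≤ B := by
    have h1 : ∀ v, ∃ B : ℕ, ∀ᶠ M in atTop, |W M v| ≤ B := by
      intro v
      obtain ⟨B, hB⟩ := exists_nat_gt (2 * ((N - 1 : ℕ) : ℝ) / N / 2 * ∑ e ∈ cut s t {v}, ω e)
      refine ⟨B, ?_⟩
      filter_upwards [(hlim {v}).eventually (eventually_lt_nhds hB), eventually_gt_atTop m]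
        with M h2 h3
      have h4 := (hW M h3).2.2 {v}
      rw [sum_singleton] at h4
      have h5 : |((W M v : ℤ) : ℝ)| ≤ B := h4.trans h2.le
      exact_mod_cast h5
    choose B hB using h1
    refine ⟨∑ v, B v, ?_⟩
    rw [eventually_all]
    intro v
    filter_upwards [hB v] with M hM
    have h2 : B v ≤ ∑ v, B v := single_le_sum (fun _ _ => Nat.zero_le _) (mem_univ v)
    omega
  have hfin : ∃ w : V → ℤ, ∃ᶠ M in atTop, W M = w := by
    by_contra hcon
    push Not at hcon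
    have h1 : ∀ᶠ M in atTop, ∀ w ∈ Fintype.piFinset fun _ : V => Finset.Icc (-(B : ℤ)) B,
        W M ≠ w := by
      rw [eventually_all_finset]
      exact fun w _ => hcon w
    obtain ⟨M, h2, h3⟩ := (h1.and hB).exists
    refine h2 (W M) ?_ rfl
    rw [Fintype.mem_piFinset]
    intro v
    rw [Finset.mem_Icc]
    exact abs_le.1 (h3 v)
  obtain ⟨w, hw⟩ := hfin
  have hw' : ∃ᶠ M in atTop, m < M ∧ W M = w := by
    refine (hw.and_eventually (eventually_gt_atTop m)).mono fun M h => ⟨h.2, h.1⟩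
  obtain ⟨M, hM, hMw⟩ := hw'.exists
  obtain ⟨h1, h2, _⟩ := hW M hM
  rw [hMw] at h1 h2
  refine ⟨w, h1, h2, fun Z => ?_⟩
  have h3 : |((∑ v ∈ Z, w v : ℤ) : ℝ)| ≤
      2 * ((N - 1 : ℕ) : ℝ) / N / 2 * ∑ e ∈ cut s t Z, ω e := by
    refine ge_of_tendsto_of_frequently (hlim Z) (hw'.mono fun M h => ?_)
    have := (hW M h.1).2.2 Z
    rwa [h.2] at this
  have h4 : (N : ℝ) * (2 * ((N - 1 : ℕ) : ℝ) / N / 2 * ∑ e ∈ cut s t Z, ω e) =
      ((N - 1 : ℕ) : ℝ) * ∑ e ∈ cut s t Z, ω e := by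
    field_simp
  rw [← h4]
  exact mul_le_mul_of_nonneg_left h3 hNR.le

end Pool.Agent.OddFlow
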