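import Mathlib
import Pool.Agent.Work.MP_392c8e_co_odd.PlaneC
import Pool.Agent.Work.MP_392c8e_co_odd.WChg

/-!
# Charges of the faces of a plane graph from weights of its edges
-/

namespace Pool.Agent.OddFlow

open Finset Pool.Agent.Circ Pool.Agent.Sub392

set_option linter.unusedSectionVars false

variable {V : Type} [Fintype V] [DecidableEq V] {G : SimpleGraph V} [DecidableRel G.Adj]

theorem mem_cut_up (R : Rot G) (S : Finset R.Face) (e : Up G) :
    e ∈ cut (fun e : Up G => R.face e.1) (fun e : Up G => R.face e.1.symm) S ↔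
      ¬ (R.face e.1 ∈ S ↔ R.face e.1.symm ∈ S) := by
  unfold cut
  exact mem_filter.trans (and_iff_right (mem_univ _))

/-- The edges of a cycle are the boundary edges of its sides. -/
theorem image_cut_of_side (R : Rot G) {v : V} {c : G.Walk v v}
    {S : Finset R.Face} (hside : Side R c S) :
    (cut (fun e : Up G => R.face e.1) (fun e : Up G => R.face e.1.symm) S).image
      (fun e : Up G => e.1.edge) = c.edges.toFinset := by
  classical
  ext x
  rw [Finset.mem_image, List.mem_toFinset]
  constructor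
  · rintro ⟨e, he, rfl⟩
    rw [mem_cut_up] at he
    exact (hside e.1).2 he
  · intro hx
    have h1 := c.edges_subset_edgeSet hx
    induction x using Sym2.ind with
    | _ a b =>
      rw [SimpleGraph.mem_edgeSet] at h1
      have h2 := (hside ⟨(a, b), h1⟩).1 hx
      rcases up_or (⟨(a, b), h1⟩ : G.Dart) with h3 | h3
      · exact ⟨⟨_, h3⟩, (mem_cut_up R S _).2 h2, rfl⟩
      · refine ⟨⟨_, h3⟩, (mem_cut_up R S _).2 ?_, SimpleGraph.Dart.edge_symm _⟩
        show ¬ (R.face (⟨(a, b), h1⟩ : G.Dart).symm ∈ S ↔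
          R.face (⟨(a, b), h1⟩ : G.Dart).symm.symm ∈ S)
        rw [SimpleGraph.Dart.symm_symm]
        exact fun h => h2 h.symm

/-- The sum of a function over the edges of a cycle, as a sum over the boundary of a side. -/
theorem sum_side {A : Type*} [AddCommMonoid A] (R : Rot G) {v : V} {c : G.Walk v v}
    (hc : c.IsCycle) {S : Finset R.Face} (hside : Side R c S) (m : Sym2 V → A) :
    (c.edges.map m).sum =
      ∑ e ∈ cut (fun e : Up G => R.face e.1) (fun e : Up G => R.face e.1.symm) S, m e.1.edge := by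
  classical
  rw [← List.sum_toFinset _ hc.edges_nodup, ← image_cut_of_side R hside,
    Finset.sum_image fun e _ e' _ h => up_edge_inj h]

/-- If all odd cycles have weight at least `B`, so have all odd boundaries. -/
theorem le_weight_odd (R : Rot G) (m : Sym2 V → ℝ) (h0 : ∀ e ∈ G.edgeSet, 0 ≤ m e) {B : ℝ}
    (h : ∀ (v : V) (c : G.Walk v v), c.IsCycle → Odd c.length → B ≤ (c.edges.map m).sum)
    (S : Finset R.Face) (hS : Odd (R.cut S)) :
    B ≤ ∑ e ∈ cut (fun e : Up G => R.face e.1) (fun e : Up G => R.face e.1.symm) S,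
      m e.1.edge := by
  classical
  obtain ⟨v, c, hcyc, hodd, hE⟩ := exists_odd_cycle R S hS
  refine (h v c hcyc hodd).trans ?_
  rw [← List.sum_toFinset _ hcyc.edges_nodup,
    ← Finset.sum_image (f := m) (g := fun e : Up G => e.1.edge) fun e _ e' _ h => up_edge_inj h]
  refine Finset.sum_le_sum_of_subset_of_nonneg ?_ ?_
  · intro x hx
    rw [List.mem_toFinset] at hx
    obtain ⟨d, hd, h1, h2⟩ := hE x hx
    rw [Finset.mem_image]
    rcases up_or d with h3 | h3
    · refine ⟨⟨d, h3⟩, (mem_cut_up R S _).2 ?_, hd⟩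
      show ¬ (R.face d ∈ S ↔ R.face d.symm ∈ S)
      tauto
    · refine ⟨⟨d.symm, h3⟩, (mem_cut_up R S _).2 ?_, (SimpleGraph.Dart.edge_symm _).trans hd⟩
      show ¬ (R.face d.symm ∈ S ↔ R.face d.symm.symm ∈ S)
      rw [SimpleGraph.Dart.symm_symm]
      tauto
  · intro x hx _
    obtain ⟨e, -, rfl⟩ := Finset.mem_image.1 hx
    exact h0 _ e.1.edge_mem

/-- **Charges from weights.**  If every odd cycle has weight at least `2`, the faces have
integral charges, `0` at the even faces, with the parities of the sizes and sum `0`, such that the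
charge of a side of a cycle `C` is at most `(1 - 1 / N)` times the weight of `C`. -/
theorem plane_charges (R : Rot G) (om : Sym2 V → ℝ) (h0 : ∀ e ∈ G.edgeSet, 0 ≤ om e)
    (h : ∀ (v : V) (c : G.Walk v v), c.IsCycle → Odd c.length → 2 ≤ (c.edges.map om).sum) :
    ∃ w : R.Face → ℤ, (∀ f, f ∉ R.odd → w f = 0) ∧ (∀ f, (2 : ℤ) ∣ w f - (R.cut {f} : ℤ)) ∧
      (∑ f, w f = 0) ∧
      (∀ S : Finset R.Face, (R.odd.card : ℝ) * |((∑ f ∈ S, w f : ℤ) : ℝ)| ≤
        ((R.odd.card - 1 : ℕ) : ℝ) * ∑ e ∈ cut (fun e : Up G => R.face e.1)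
          (fun e : Up G => R.face e.1.symm) S, om e.1.edge) ∧
      ∀ (v : V) (c : G.Walk v v) (S : Finset R.Face), c.IsCycle → Side R c S →
        (R.odd.card : ℝ) * |((∑ f ∈ S, w f : ℤ) : ℝ)| ≤
          ((R.odd.card - 1 : ℕ) : ℝ) * (c.edges.map om).sum := by
  classical
  obtain ⟨w, h1, h2, h3⟩ := exists_chg_weight (fun e : Up G => R.face e.1)
    (fun e : Up G => R.face e.1.symm) (fun e => om e.1.edge) (fun e => h0 _ e.1.edge_mem) (by
      intro S hS
      rw [card_cut_eq] at hS
      exact le_weight_odd R om h0 h S hS)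
  rw [oddV_eq] at h3 h1
  simp only [card_cut_eq] at h2
  refine ⟨w, h1, h2, ?_, h3, ?_⟩
  · rcases Nat.eq_zero_or_pos R.odd.card with h4 | h4
    · rw [card_eq_zero] at h4
      refine sum_eq_zero fun f _ => h1 f (by rw [h4]; exact notMem_empty _)
    · have h5 := h3 univ
      have h6 : cut (fun e : Up G => R.face e.1) (fun e : Up G => R.face e.1.symm) univ = ∅ := by
        ext e
        simp [cut]
      rw [h6, sum_empty, mul_zero] at h5
      have h7 : (0 : ℝ) < R.odd.card := by exact_mod_cast h4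
      have h8 : |((∑ f, w f : ℤ) : ℝ)| ≤ 0 := by
        by_contra h9
        rw [not_le] at h9
        have := mul_pos h7 h9
        linarith
      exact_mod_cast abs_nonpos_iff.1 h8
  · intro v c S hc hside
    rw [sum_side R hc hside]
    exact h3 S

end Pool.Agent.OddFlow
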