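import Mathlib
import Pool.Agent.Work.MP_392c8e_co_odd.Defs
import Pool.Agent.Work.MP_392c8e_co_odd.Split

/-!
# Switching cuts with five edges

If a minimal cut `Z` contains exactly four of the five edges of the cut of `S`, then the symmetric
difference of `Z` and `S` is a minimal cut with three edges less.  Repeated switching improves a
bound for charges by weights.
-/

namespace Pool.Agent.OddFlow

open Finset Pool.Agent.Circ
open scoped symmDiff

set_option linter.unusedSectionVars false

variable {V E : Type*} [Fintype V] [DecidableEq V] [Fintype E] [DecidableEq E]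

/-- `Z` has an inclusion minimal nonempty cut. -/
def MinCut (s t : E → V) (Z : Finset V) : Prop :=
  (cut s t Z).Nonempty ∧
    ∀ Y : Finset V, cut s t Y ⊆ cut s t Z → (cut s t Y).Nonempty → cut s t Y = cut s t Z

theorem mem_cut {s t : E → V} {Z : Finset V} {e : E} :
    e ∈ cut s t Z ↔ ¬ (s e ∈ Z ↔ t e ∈ Z) := by
  simp [cut]

theorem cut_symmDiff (s t : E → V) (Z S : Finset V) :
    cut s t (Z ∆ S) = cut s t Z ∆ cut s t S := by
  ext e
  simp only [mem_cut, mem_symmDiff]
  tauto

theorem cut_compl_eq (s t : E → V) (Z : Finset V) : cut s t Zᶜ = cut s t Z := by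
  ext e
  simp only [mem_cut, mem_compl]
  tauto

theorem MinCut.compl {s t : E → V} {Z : Finset V} (h : MinCut s t Z) : MinCut s t Zᶜ := by
  unfold MinCut
  rw [cut_compl_eq]
  exact h

namespace Switch

/-- The part of the four edges and the fifth edge. -/
theorem split_five (s t : E → V) {Z S : Finset V} (hS : (cut s t S).card = 5)
    (h4 : (cut s t Z ∩ cut s t S).card = 4) : ∃ e, cut s t S \ cut s t Z = {e} := by
  rw [← card_eq_one]
  have h1 := card_sdiff_add_card_inter (cut s t S) (cut s t Z)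
  rw [inter_comm, h4, hS] at h1
  omega

/-- Switching keeps minimality. -/
theorem minCut_switch (s t : E → V) {Z S : Finset V} (hZ : MinCut s t Z)
    (hS : (cut s t S).card = 5) (h4 : (cut s t Z ∩ cut s t S).card = 4) :
    MinCut s t (Z ∆ S) := by
  obtain ⟨e, he⟩ := split_five s t hS h4
  have he1 : e ∈ cut s t S ∧ e ∉ cut s t Z := by
    rw [← mem_sdiff, he]
    exact mem_singleton_self e
  have key : ∀ Y : Finset V, cut s t Y ⊆ cut s t Z \ cut s t S → ¬ (cut s t Y).Nonempty := by
    intro Y hY hn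
    have h1 := hZ.2 Y (hY.trans sdiff_subset) hn
    obtain ⟨f, hf⟩ : (cut s t Z ∩ cut s t S).Nonempty := by
      rw [← card_pos]
      omega
    rw [mem_inter] at hf
    have h2 : f ∈ cut s t Y := by
      rw [h1]
      exact hf.1
    exact (mem_sdiff.1 (hY h2)).2 hf.2
  have hsd : ∀ f, f ∈ cut s t (Z ∆ S) → f ≠ e → f ∈ cut s t Z \ cut s t S := by
    intro f hf hfe
    rw [cut_symmDiff, mem_symmDiff] at hf
    rcases hf with h1 | h1
    · exact mem_sdiff.2 h1
    · exfalso
      have h2 : f ∈ cut s t S \ cut s t Z := mem_sdiff.2 h1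
      rw [he, mem_singleton] at h2
      exact hfe h2
  refine ⟨⟨e, ?_⟩, fun Y hY hn => ?_⟩
  · rw [cut_symmDiff, mem_symmDiff]
    exact Or.inr he1
  · by_cases heY : e ∈ cut s t Y
    · have h1 : cut s t (Y ∆ (Z ∆ S)) ⊆ cut s t Z \ cut s t S := by
        intro f hf
        rw [cut_symmDiff, mem_symmDiff] at hf
        rcases hf with h2 | h2
        · exact absurd (hY h2.1) h2.2
        · refine hsd f h2.1 ?_
          rintro rfl
          exact h2.2 heY
      have h2 := key _ h1
      rw [not_nonempty_iff_eq_empty, cut_symmDiff, ← Finset.bot_eq_empty, symmDiff_eq_bot] at h2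
      exact h2
    · exfalso
      refine key Y (fun f hf => hsd f (hY hf) ?_) hn
      rintro rfl
      exact heY hf

theorem sum_symmDiff (w : V → ℤ) (Z S : Finset V) :
    ∑ v ∈ Z ∆ S, w v = ∑ v ∈ Z \ S, w v + ∑ v ∈ S \ Z, w v := by
  rw [symmDiff_def, Finset.sup_eq_union, sum_union]
  rw [Finset.disjoint_left]
  intro v h1 h2
  exact (mem_sdiff.1 h1).2 (mem_sdiff.1 h2).1

/-- One corner is empty. -/
theorem corner (s t : E → V) (hconn : ∀ Y : Finset V, cut s t Y = ∅ → Y = ∅ ∨ Y = univ)
    (w : V → ℤ) {Z S : Finset V} (hZ : MinCut s t Z)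
    (hAB : ∀ e ∈ cut s t S, ¬ (s e ∈ Z ∧ t e ∈ Z)) :
    |∑ v ∈ Z, w v| ≤ |∑ v ∈ Z ∆ S, w v| + |∑ v ∈ S, w v| := by
  have hZu : Z ≠ univ := by
    rintro rfl
    obtain ⟨e, he⟩ := hZ.1
    rw [mem_cut] at he
    simp at he
  have h1 : cut s t (Z ∩ S) ⊆ cut s t Z := by
    intro e he
    have := hAB e
    simp only [mem_cut, mem_inter] at he this ⊢
    tauto
  have h2 : cut s t (Z \ S) ⊆ cut s t Z := by
    intro e he
    have := hAB e
    simp only [mem_cut, mem_sdiff] at he this ⊢
    tauto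
  have h3 : Disjoint (cut s t (Z ∩ S)) (cut s t (Z \ S)) := by
    rw [Finset.disjoint_left]
    intro e he he'
    have := hAB e
    simp only [mem_cut, mem_inter, mem_sdiff] at he he' this
    tauto
  have h4 : Z ∩ S = ∅ ∨ Z \ S = ∅ := by
    by_cases hn1 : (cut s t (Z ∩ S)).Nonempty
    · have e1 := hZ.2 _ h1 hn1
      right
      have hn2 : cut s t (Z \ S) = ∅ := by
        by_contra hn2
        have e2 := hZ.2 _ h2 (nonempty_iff_ne_empty.2 hn2)
        rw [e1, e2, disjoint_self] at h3
        obtain ⟨e, he⟩ := hZ.1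
        rw [h3] at he
        simp at he
      rcases hconn _ hn2 with h5 | h5
      · exact h5
      · exfalso
        exact hZu (univ_subset_iff.1 (h5 ▸ sdiff_subset))
    · left
      rcases hconn _ (not_nonempty_iff_eq_empty.1 hn1) with h5 | h5
      · exact h5
      · exfalso
        exact hZu (univ_subset_iff.1 (h5 ▸ inter_subset_left))
  have e1 : ∑ v ∈ Z ∩ S, w v + ∑ v ∈ Z \ S, w v = ∑ v ∈ Z, w v := sum_inter_add_sum_sdiff Z S w
  have e2 : ∑ v ∈ S ∩ Z, w v + ∑ v ∈ S \ Z, w v = ∑ v ∈ S, w v := sum_inter_add_sum_sdiff S Z w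
  rw [inter_comm S Z] at e2
  rw [sum_symmDiff]
  rcases h4 with h5 | h5
  · rw [h5, sum_empty] at e1 e2
    have h6 : ∑ v ∈ Z, w v = (∑ v ∈ Z \ S, w v + ∑ v ∈ S \ Z, w v) - ∑ v ∈ S, w v := by
      linarith
    rw [h6]
    exact abs_sub _ _
  · rw [h5, sum_empty] at e1 ⊢
    have h6 : ∑ v ∈ Z, w v = ∑ v ∈ S, w v - (0 + ∑ v ∈ S \ Z, w v) := by
      linarith
    rw [h6, add_comm |_| |_|]
    exact abs_sub _ _

theorem charge_switch (s t : E → V)
    (hconn : ∀ Y : Finset V, cut s t Y = ∅ → Y = ∅ ∨ Y = univ)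
    (w : V → ℤ) (hw0 : ∑ v, w v = 0) {Z S : Finset V} (hZ : MinCut s t Z)
    (hS : (cut s t S).card = 5) (h4 : (cut s t Z ∩ cut s t S).card = 4) :
    |∑ v ∈ Z, w v| ≤ |∑ v ∈ Z ∆ S, w v| + |∑ v ∈ S, w v| := by
  obtain ⟨e, he⟩ := split_five s t hS h4
  have he1 : e ∈ cut s t S ∧ e ∉ cut s t Z := by
    rw [← mem_sdiff, he]
    exact mem_singleton_self e
  have hcomp : ∀ Y : Finset V, ∑ v ∈ Yᶜ, w v = -∑ v ∈ Y, w v := by
    intro Y
    have := Finset.sum_add_sum_compl Y w
    omega
  have huniq : ∀ f ∈ cut s t S, f ∉ cut s t Z → f = e := by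
    intro f h1 h2
    have h3 : f ∈ cut s t S \ cut s t Z := mem_sdiff.2 ⟨h1, h2⟩
    rwa [he, mem_singleton] at h3
  by_cases hin : s e ∈ Z ∧ t e ∈ Z
  · have h1 := corner s t hconn w (Z := Zᶜ) (S := S) hZ.compl (by
      intro f hf h2
      simp only [mem_compl] at h2
      by_cases h3 : f ∈ cut s t Z
      · rw [mem_cut] at h3
        tauto
      · have := huniq f hf h3
        subst this
        exact h2.1 hin.1)
    rw [hcomp Z, abs_neg] at h1
    have h2 : Zᶜ ∆ S = (Z ∆ S)ᶜ := by
      ext v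
      simp only [mem_symmDiff, mem_compl]
      tauto
    rw [h2, hcomp, abs_neg] at h1
    exact h1
  · refine corner s t hconn w hZ ?_
    intro f hf h2
    by_cases h3 : f ∈ cut s t Z
    · rw [mem_cut] at h3
      tauto
    · have := huniq f hf h3
      subst this
      exact hin h2

end Switch

/-- **Switching.**  Let `P` be a set of 5-edge cuts with pairwise disjoint edge sets of weight
`2 / 5`, and charge at most one.  If the charges are bounded by the weights, then for minimal cuts
the bound can be improved by `1 / 5` for every member of `P` from which `Z` has four edges. -/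
theorem weight_switch (s t : E → V)
    (hconn : ∀ Y : Finset V, cut s t Y = ∅ → Y = ∅ ∨ Y = univ)
    (w : V → ℤ) (hw0 : ∑ v, w v = 0) (ω : E → ℝ)
    (hw : ∀ Z : Finset V, |((∑ v ∈ Z, w v : ℤ) : ℝ)| ≤ ∑ e ∈ cut s t Z, ω e)
    (P : Finset (Finset V)) (hP5 : ∀ S ∈ P, (cut s t S).card = 5)
    (hPw : ∀ S ∈ P, |∑ v ∈ S, w v| ≤ 1)
    (hPd : ∀ S ∈ P, ∀ S' ∈ P, S ≠ S' → Disjoint (cut s t S) (cut s t S'))
    (hPω : ∀ S ∈ P, ∀ e ∈ cut s t S, ω e = 2 / 5) (Z : Finset V) (hZ : MinCut s t Z) :
    |((∑ v ∈ Z, w v : ℤ) : ℝ)| ≤ ∑ e ∈ cut s t Z, ω e -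
      (1 / 5) * (P.filter fun S => (cut s t Z ∩ cut s t S).card = 4).card := by
  classical
  induction hK : (P.filter fun S => (cut s t Z ∩ cut s t S).card = 4).card generalizing Z with
  | zero =>
    have := hw Z
    push_cast at this ⊢
    linarith
  | succ K ih =>
    obtain ⟨S, hS⟩ : (P.filter fun S => (cut s t Z ∩ cut s t S).card = 4).Nonempty := by
      rw [← card_pos]
      omega
    obtain ⟨hSP, h4⟩ := mem_filter.1 hS
    have h5 := hP5 S hSP
    have h1 : (P.filter fun S' => (cut s t (Z ∆ S) ∩ cut s t S').card = 4) =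
        (P.filter fun S' => (cut s t Z ∩ cut s t S').card = 4).erase S := by
      ext S'
      rw [mem_erase, mem_filter, mem_filter]
      by_cases hSS : S' = S
      · subst hSS
        have h6 : cut s t (Z ∆ S') ∩ cut s t S' = cut s t S' \ cut s t Z := by
          ext e
          rw [cut_symmDiff, mem_inter, mem_symmDiff, mem_sdiff]
          tauto
        obtain ⟨e, he⟩ := Switch.split_five s t h5 h4
        rw [h6, he, card_singleton]
        simp
      · constructor
        · rintro ⟨h6, h7⟩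
          refine ⟨hSS, h6, ?_⟩
          rw [← h7]
          congr 1
          ext e
          rw [cut_symmDiff, mem_inter, mem_inter, mem_symmDiff]
          have hd := Finset.disjoint_left.1 (hPd S' h6 S hSP hSS)
          have := @hd e
          tauto
        · rintro ⟨_, h6, h7⟩
          refine ⟨h6, ?_⟩
          rw [← h7]
          congr 1
          ext e
          rw [cut_symmDiff, mem_inter, mem_inter, mem_symmDiff]
          have hd := Finset.disjoint_left.1 (hPd S' h6 S hSP hSS)
          have := @hd e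
          tauto
    have h2 := ih (Z ∆ S) (Switch.minCut_switch s t hZ h5 h4) (by
      rw [h1, card_erase_of_mem hS, hK]
      rfl)
    have h3 : ∑ e ∈ cut s t (Z ∆ S), ω e = ∑ e ∈ cut s t Z, ω e - 6 / 5 := by
      obtain ⟨e, he⟩ := Switch.split_five s t h5 h4
      have e1 : ∑ e ∈ cut s t (Z ∆ S), ω e =
          ∑ e ∈ cut s t Z \ cut s t S, ω e + ∑ e ∈ cut s t S \ cut s t Z, ω e := by
        rw [cut_symmDiff, symmDiff_def, Finset.sup_eq_union, sum_union]
        rw [Finset.disjoint_left]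
        intro f h1 h2
        exact (mem_sdiff.1 h1).2 (mem_sdiff.1 h2).1
      have e2 : ∑ e ∈ cut s t Z ∩ cut s t S, ω e + ∑ e ∈ cut s t Z \ cut s t S, ω e =
          ∑ e ∈ cut s t Z, ω e := sum_inter_add_sum_sdiff _ _ _
      have e3 : ∑ e ∈ cut s t Z ∩ cut s t S, ω e = 4 * (2 / 5) := by
        rw [sum_congr rfl fun e he => hPω S hSP e (mem_inter.1 he).2, sum_const, h4, nsmul_eq_mul]
        norm_num
      have e4 : ∑ e ∈ cut s t S \ cut s t Z, ω e = 2 / 5 := by
        rw [sum_congr rfl fun e he => hPω S hSP e (mem_sdiff.1 he).1, he, sum_const,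
          card_singleton, one_smul]
      linarith
    have h6 := Switch.charge_switch s t hconn w hw0 hZ h5 h4
    have h7 := hPw S hSP
    have h8 : |((∑ v ∈ Z, w v : ℤ) : ℝ)| ≤ |((∑ v ∈ Z ∆ S, w v : ℤ) : ℝ)| + 1 := by
      have h9 : |∑ v ∈ Z, w v| ≤ |∑ v ∈ Z ∆ S, w v| + 1 := by linarith
      exact_mod_cast h9
    rw [h3] at h2
    push_cast at h2 h8 ⊢
    linarith

end Pool.Agent.OddFlow
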