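import Mathlib
import Pool.Agent.Work.MP_392c8e_co_odd.PlaneOm
import Pool.Agent.Work.MP_392c8e_co_odd.Switch
import Pool.Agent.Work.MP_392c8e_co_odd.Local

/-!
# Plane subcubic graphs with disjoint 5-cycles
-/

namespace Pool.Agent.OddFlow

open Finset Pool.Agent.Circ Pool.Agent.Sub392
open scoped symmDiff

set_option linter.unusedSectionVars false

section

variable {V E : Type*} [Fintype V] [DecidableEq V] [Fintype E] [DecidableEq E]

/-- Cuts with connected sides are minimal. -/
theorem minCut_of_conn_ne (s t : E → V) {Z : Finset V} (h : ConnS s t Z) (h' : ConnS s t Zᶜ)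
    (hne : (cut s t Z).Nonempty) : MinCut s t Z := by
  have key : ∀ (W Y : Finset V), ConnS s t W → cut s t Y ⊆ cut s t Z →
      (∀ e, e ∈ cut s t Z → ¬ (s e ∈ W ∧ t e ∈ W)) → Y ∩ W = ∅ ∨ Y ∩ W = W := by
    intro W Y hW hY hZ
    by_contra hcon
    rw [not_or] at hcon
    obtain ⟨e, he⟩ := hW (Y ∩ W) inter_subset_right (nonempty_iff_ne_empty.2 hcon.1) hcon.2
    have h1 : e ∈ cut s t Y ∧ s e ∈ W ∧ t e ∈ W := by
      simp only [mem_inter, mem_sdiff, mem_cut] at he ⊢
      tauto
    exact hZ e (hY h1.1) h1.2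
  refine ⟨hne, fun Y hY hn => ?_⟩
  have h1 := key Z Y h hY (fun e he h2 => by
    rw [mem_cut] at he
    tauto)
  have h2 := key Zᶜ Y h' hY (fun e he h2 => by
    rw [mem_cut] at he
    simp only [mem_compl] at h2
    tauto)
  have hmem1 : ∀ v, v ∈ Y ∩ Z ↔ v ∈ Y ∧ v ∈ Z := fun v => mem_inter
  have hmem2 : ∀ v, v ∈ Y ∩ Zᶜ ↔ v ∈ Y ∧ v ∉ Z := fun v => by rw [mem_inter, mem_compl]
  obtain ⟨f, hf⟩ := hn
  rw [mem_cut] at hf
  ext e
  rw [mem_cut, mem_cut]
  rcases h1 with h1 | h1 <;> rcases h2 with h2 | h2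
  · exfalso
    have a1 := hmem1 (s f)
    have a2 := hmem2 (s f)
    have a3 := hmem1 (t f)
    have a4 := hmem2 (t f)
    rw [h1] at a1 a3
    rw [h2] at a2 a4
    simp only [notMem_empty, false_iff] at a1 a2 a3 a4
    tauto
  · have a1 := hmem1 (s e)
    have a2 := hmem2 (s e)
    have a3 := hmem1 (t e)
    have a4 := hmem2 (t e)
    rw [h1] at a1 a3
    rw [h2] at a2 a4
    simp only [notMem_empty, false_iff, mem_compl] at a1 a2 a3 a4
    tauto
  · have a1 := hmem1 (s e)
    have a2 := hmem2 (s e)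
    have a3 := hmem1 (t e)
    have a4 := hmem2 (t e)
    rw [h1] at a1 a3
    rw [h2] at a2 a4
    simp only [notMem_empty, false_iff] at a1 a2 a3 a4
    tauto
  · exfalso
    have a1 := hmem1 (s f)
    have a2 := hmem2 (s f)
    have a3 := hmem1 (t f)
    have a4 := hmem2 (t f)
    rw [h1] at a1 a3
    rw [h2] at a2 a4
    simp only [mem_compl] at a1 a2 a3 a4
    tauto

end

variable {V : Type} [Fintype V] [DecidableEq V] {G : SimpleGraph V} [DecidableRel G.Adj]

/-- In a graph of maximum degree three. -/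
theorem deg_le {G : SimpleGraph V} [DecidableRel G.Adj] (hΔ : ∀ v, G.degree v ≤ 3) (x : V)
    (A : Finset (Sym2 V)) (hA : ∀ e ∈ A, e ∈ G.edgeSet ∧ x ∈ e) : A.card ≤ 3 := by
  refine le_trans (card_le_card (t := G.incidenceFinset x) fun e he => ?_) ?_
  · rw [SimpleGraph.mem_incidenceFinset]
    exact hA e he
  · rw [SimpleGraph.card_incidenceFinset_eq_degree]
    exact hΔ x

/-- The degrees of a cycle. -/
theorem deg_cycle {G : SimpleGraph V}
    (hdeg : ∀ (x : V) (A : Finset (Sym2 V)), (∀ e ∈ A, e ∈ G.edgeSet ∧ x ∈ e) → A.card ≤ 3)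
    {v : V} (c : G.Walk v v) (hc : c.IsCycle) (x : V) :
    (c.edges.toFinset.filter fun e => x ∈ e).card = 0 ∨
      (c.edges.toFinset.filter fun e => x ∈ e).card = 2 := by
  have h1 : (c.edges.toFinset.filter fun e => x ∈ e).card =
      c.edges.countP fun e => decide (x ∈ e) := by
    rw [List.countP_eq_length_filter, ← List.toFinset_card_of_nodup
      (hc.isTrail.edges_nodup.filter _)]
    congr 1
    ext e
    rw [mem_filter, List.mem_toFinset, List.mem_toFinset, List.mem_filter, decide_eq_true_eq]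
  have h2 := (hc.isTrail.even_countP_edges_iff x).2 (fun h => absurd rfl h)
  rw [← h1, Nat.even_iff] at h2
  have h3 := hdeg x (c.edges.toFinset.filter fun e => x ∈ e) (by
    intro e he
    rw [mem_filter, List.mem_toFinset] at he
    exact ⟨c.edges_subset_edgeSet he.1, he.2⟩)
  omega

/-- Odd cycles in a triangle-free graph have length at least five. -/
theorem five_le_length {G : SimpleGraph V} (hG : G.CliqueFree 3) {v : V} (c : G.Walk v v)
    (hc : c.IsCycle) (hodd : Odd c.length) : 5 ≤ c.length := by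
  have h3 := hc.three_le_length
  by_contra hcon
  have hl : c.length = 3 := by
    rw [Nat.odd_iff] at hodd
    omega
  obtain ⟨a1, g1, c1, rfl, l1⟩ := exists_cons c hl
  obtain ⟨a2, g2, c2, rfl, l2⟩ := exists_cons c1 l1
  obtain ⟨a3, g3, c3, rfl, l3⟩ := exists_cons c2 l2
  have e3 := SimpleGraph.Walk.eq_of_length_eq_zero l3
  subst e3
  exact hG {a3, a1, a2} (SimpleGraph.is3Clique_triple_iff.2 ⟨g1, g3.symm, g2⟩)

/-- A side of a cycle. -/
theorem exists_side_of (R : Rot G) (hP : R.Plane) {v : V} (c : G.Walk v v) (hc : c.IsCycle) :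
    ∃ S : Finset R.Face, Side R c S := by
  classical
  obtain ⟨a, ha⟩ := cycle_sides R hP c hc
  refine ⟨univ.filter fun f => a f = 1, fun d => ?_⟩
  have h1 := ha d
  have h2 : ∀ x : ZMod 2, x = 0 ∨ x = 1 := by decide
  simp only [mem_filter, mem_univ, true_and]
  rcases h2 (a (R.face d)) with h3 | h3 <;> rcases h2 (a (R.face d.symm)) with h4 | h4 <;>
    simp [h3, h4] at h1 ⊢ <;> exact h1

/-- **Plane subcubic graphs with disjoint 5-cycles.** -/
theorem plane_five (R : Rot G) (hP : R.Plane) (hΔ : ∀ v, G.degree v ≤ 3) (hG : G.CliqueFree 3)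
    (hd : DisjFive G) {p q : ℕ} (hq : 1 ≤ q) (h20 : 20 * q ≤ 7 * p) (h3 : 3 * p ≤ 10 * q)
    (hodd : ∀ (v : V) (c : G.Walk v v), c.IsCycle → (c.length = 7 ∨ c.length = 9) →
      10 * p + (10 * q - 3 * p) * cnt G c.edges.toFinset 1 ≤
        5 * (p - 2 * q) * c.length + (10 * q - 3 * p) * cnt G c.edges.toFinset 2) :
    ∃ c : V → ℕ, (∀ v, c v < p) ∧
      ∀ u v, G.Adj u v → (q : ℤ) ≤ |(c u : ℤ) - c v| ∧ |(c u : ℤ) - c v| ≤ p - q := by
  classical
  have hp0 : 0 < p := by omega
  have h2q : 2 * q ≤ p := by omega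
  have hpR : (0 : ℝ) < p := by exact_mod_cast hp0
  have h20R : 20 * (q : ℝ) ≤ 7 * p := by exact_mod_cast h20
  have h3R : 3 * (p : ℝ) ≤ 10 * q := by exact_mod_cast h3
  set β : ℝ := ((p - 2 * q : ℕ) : ℝ) / p with hβ
  have hβp : β * p = p - 2 * q := by
    rw [hβ, div_mul_cancel₀ _ hpR.ne', Nat.cast_sub h2q]
    push_cast
    ring
  have hβ3 : 3 / 10 ≤ β := by
    rw [hβ, le_div_iff₀ hpR, Nat.cast_sub h2q]
    push_cast
    linarith
  have hβ4 : β ≤ 2 / 5 := by
    rw [hβ, div_le_iff₀ hpR, Nat.cast_sub h2q]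
    push_cast
    linarith
  have hdeg := deg_le hΔ
  have hsum : ∀ (v : V) (c : G.Walk v v), c.IsCycle → (c.edges.map (wt G β)).sum =
      β * c.length + (2 / 5 - β) * ((cnt G c.edges.toFinset 2 : ℝ) - cnt G c.edges.toFinset 1) := by
    intro v c hc
    rw [← List.sum_toFinset _ hc.edges_nodup, sum_wt hd β c.edges.toFinset
      (fun e he => c.edges_subset_edgeSet (List.mem_toFinset.1 he)) hdeg (deg_cycle hdeg c hc),
      List.toFinset_card_of_nodup hc.edges_nodup, SimpleGraph.Walk.length_edges]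
  -- the odd cycles
  have hodd2 : ∀ (v : V) (c : G.Walk v v), c.IsCycle → Odd c.length →
      2 ≤ (c.edges.map (wt G β)).sum := by
    intro v c hc ho
    have h5 := five_le_length hG c hc ho
    by_cases h5' : c.length = 5
    · rw [sum_wt_five β c hc h5']
    by_cases h79 : c.length = 7 ∨ c.length = 9
    · have h1 := hodd v c hc h79
      have h2 : ((10 * p + (10 * q - 3 * p) * cnt G c.edges.toFinset 1 : ℕ) : ℝ) ≤
        ((5 * (p - 2 * q) * c.length + (10 * q - 3 * p) * cnt G c.edges.toFinset 2 : ℕ) : ℝ) := by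
        exact_mod_cast h1
      push_cast [Nat.cast_sub h2q, Nat.cast_sub h3] at h2
      rw [hsum v c hc]
      have h4 : p * (5 * 2) ≤ p * (5 * (β * c.length + (2 / 5 - β) *
          ((cnt G c.edges.toFinset 2 : ℝ) - cnt G c.edges.toFinset 1))) := by
        have e1 : p * (5 * (β * c.length + (2 / 5 - β) *
          ((cnt G c.edges.toFinset 2 : ℝ) - cnt G c.edges.toFinset 1))) =
          5 * (β * p) * c.length + (2 * p - 5 * (β * p)) *
            ((cnt G c.edges.toFinset 2 : ℝ) - cnt G c.edges.toFinset 1) := by ring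
        rw [e1, hβp]
        linarith
      have h5 := le_of_mul_le_mul_left h4 hpR
      linarith
    · have h11 : 11 ≤ c.length := by
        rw [Nat.odd_iff] at ho
        omega
      rw [hsum v c hc]
      have h1 := cnt_add_le (G := G) c.edges.toFinset
        (fun e he => c.edges_subset_edgeSet (List.mem_toFinset.1 he)) (deg_cycle hdeg c hc)
      rw [List.toFinset_card_of_nodup hc.edges_nodup, SimpleGraph.Walk.length_edges] at h1
      have h2 : (cnt G c.edges.toFinset 1 : ℝ) + cnt G c.edges.toFinset 2 ≤ c.length := by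
        exact_mod_cast h1
      have h4 : (11 : ℝ) ≤ c.length := by exact_mod_cast h11
      have h5 : (0 : ℝ) ≤ cnt G c.edges.toFinset 2 := Nat.cast_nonneg _
      nlinarith
  obtain ⟨w, w1, w2, w3, w4, w5⟩ := plane_charges R (wt G β)
    (fun e he => wt_nonneg hβ3 he) hodd2
  let s : Up G → R.Face := fun e => R.face e.1
  let t : Up G → R.Face := fun e => R.face e.1.symm
  have hNw : ∀ S : Finset R.Face, |((∑ f ∈ S, w f : ℤ) : ℝ)| ≤
      ∑ e ∈ cut s t S, wt G β e.1.edge := by
    intro S
    have h0 : 0 ≤ ∑ e ∈ cut s t S, wt G β e.1.edge :=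
      sum_nonneg fun e _ => wt_nonneg hβ3 e.1.edge_mem
    rcases Nat.eq_zero_or_pos R.odd.card with h4 | h4
    · have h5 : ∑ f ∈ S, w f = 0 := by
        rw [card_eq_zero] at h4
        exact sum_eq_zero fun f _ => w1 f (by rw [h4]; exact notMem_empty _)
      rw [h5]
      simpa using h0
    · have h5 := w4 S
      have h6 : (0 : ℝ) < R.odd.card := by exact_mod_cast h4
      have h7 : ((R.odd.card - 1 : ℕ) : ℝ) ≤ R.odd.card := by
        exact_mod_cast Nat.sub_le _ _
      have h8 := mul_le_mul_of_nonneg_right h7 h0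
      exact le_of_mul_le_mul_left (h5.trans h8) h6
  have hw2 : ∀ S : Finset R.Face, ∑ e ∈ cut s t S, wt G β e.1.edge = 2 →
      |∑ f ∈ S, w f| ≤ 1 := by
    intro S hS
    rcases Nat.eq_zero_or_pos R.odd.card with h4 | h4
    · have h5 : ∑ f ∈ S, w f = 0 := by
        rw [card_eq_zero] at h4
        exact sum_eq_zero fun f _ => w1 f (by rw [h4]; exact notMem_empty _)
      rw [h5]
      norm_num
    · have h5 := w4 S
      rw [hS] at h5
      have h6 : (0 : ℝ) < R.odd.card := by exact_mod_cast h4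
      have h7 : ((R.odd.card - 1 : ℕ) : ℝ) < R.odd.card := by
        exact_mod_cast Nat.sub_lt h4 one_pos
      have h8 : |((∑ f ∈ S, w f : ℤ) : ℝ)| < 2 := by
        by_contra hcon
        rw [not_lt] at hcon
        have := mul_le_mul_of_nonneg_left hcon h6.le
        linarith
      have h9 : |∑ f ∈ S, w f| < 2 := by exact_mod_cast h8
      omega
  -- the sides of the 5-cycles
  have hsd : ∀ Q : Finset (Sym2 V), ∃ S : Finset R.Face, Q ∈ pent G →
      ((cut s t S).image fun e : Up G => e.1.edge) = Q ∧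
        ∑ e ∈ cut s t S, wt G β e.1.edge = 2 := by
    intro Q
    by_cases hQ : Q ∈ pent G
    · rw [pent, mem_filter] at hQ
      obtain ⟨_, v, c, hc, hl, rfl⟩ := hQ
      obtain ⟨S, hS⟩ := exists_side_of R hP c hc
      refine ⟨S, fun _ => ⟨image_cut_of_side R hS, ?_⟩⟩
      rw [← sum_side R hc hS, sum_wt_five β c hc hl]
    · exact ⟨∅, fun h => absurd h hQ⟩
  choose sd hsd using hsd
  have hinj : ∀ (A : Finset (Up G)), Set.InjOn (fun e : Up G => e.1.edge) A :=
    fun A e _ e' _ h => up_edge_inj h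
  have hmem : ∀ Q ∈ pent G, ∀ e : Up G, e ∈ cut s t (sd Q) ↔ e.1.edge ∈ Q := by
    intro Q hQ e
    have hq : e.1.edge ∈ Q ↔ e.1.edge ∈ (cut s t (sd Q)).image fun e : Up G => e.1.edge := by
      rw [(hsd Q hQ).1]
    rw [hq, mem_image]
    constructor
    · exact fun h => ⟨e, h, rfl⟩
    · rintro ⟨e', h, he'⟩
      rwa [← up_edge_inj he']
  have hcard5 : ∀ Q ∈ pent G, (cut s t (sd Q)).card = 5 := by
    intro Q hQ
    rw [← card_image_of_injOn (hinj _), (hsd Q hQ).1]
    obtain ⟨x, hx, rfl⟩ := pent_param hQ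
    rw [card_image_of_injective _ (pedge_injective hx.1)]
    rfl
  have hpdisj : ∀ Q ∈ pent G, ∀ Q' ∈ pent G, Q ≠ Q' → Disjoint Q Q' := by
    intro Q hQ Q' hQ' hne
    rw [Finset.disjoint_left]
    intro e he he'
    apply hne
    induction e using Sym2.ind with
    | _ a b =>
      refine pent_disj hd hQ hQ' (y := a) ?_ ?_
      · exact mem_filter.2 ⟨mem_univ _, _, he, Sym2.mem_mk_left _ _⟩
      · exact mem_filter.2 ⟨mem_univ _, _, he', Sym2.mem_mk_left _ _⟩
  refine colour_of_good_pq R hP hq h2q (good_of_conn_bound _ _ (connS_univ R hP) w ?_ w3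
    (by omega) ?_)
  · intro f
    rw [card_cut_eq]
    exact w2 f
  · intro Z hZ1 hZ2 hn1 hn2
    obtain ⟨v, c, hc, hside, hlen⟩ := cycle_of_conn R hP hZ1 hZ2 hn1 hn2
    set D := c.edges.toFinset with hD
    have himg : ((cut s t Z).image fun e : Up G => e.1.edge) = D := image_cut_of_side R hside
    have hcardD : (cut s t Z).card = D.card := by
      rw [← himg, card_image_of_injOn (hinj _)]
    have hmemZ : ∀ e : Up G, e ∈ cut s t Z ↔ e.1.edge ∈ D := by
      intro e
      rw [← himg, mem_image]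
      constructor
      · exact fun h => ⟨e, h, rfl⟩
      · rintro ⟨e', h, he'⟩
        rwa [← up_edge_inj he']
    have hcut0 : (cut s t Z).Nonempty := by
      rw [← card_pos, hcardD, hD, List.toFinset_card_of_nodup hc.edges_nodup,
        SimpleGraph.Walk.length_edges]
      have := hc.three_le_length
      omega
    have hmin : MinCut s t Z := minCut_of_conn_ne s t hZ1 hZ2 hcut0
    show (p : ℤ) * |∑ f ∈ Z, w f| ≤ (p - 2 * q : ℕ) * ((cut s t Z).card : ℕ)
    by_cases hfive : ∃ Q ∈ pent G, Q ⊆ D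
    · -- the boundary is a 5-cycle
      obtain ⟨Q, hQ, hQD⟩ := hfive
      have h1 : cut s t (sd Q) = cut s t Z := by
        refine hmin.2 _ (fun e he => ?_) ?_
        · rw [hmemZ]
          exact hQD ((hmem Q hQ e).1 he)
        · rw [← card_pos, hcard5 Q hQ]
          norm_num
      have h2 := hw2 Z (by rw [← h1]; exact (hsd Q hQ).2)
      rw [← h1, hcard5 Q hQ]
      have h4 : (p : ℤ) ≤ (p - 2 * q : ℕ) * (5 : ℕ) := by
        push_cast [Nat.cast_sub h2q]
        omega
      nlinarith
    · push Not at hfive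
      have h1 := weight_switch s t (by
        intro Y hY
        refine R.cut_zero hP.1 ?_
        rw [← card_cut_eq]
        exact card_eq_zero.2 hY) w w3 (fun e => wt G β e.1.edge) hNw ((pent G).image sd)
        (by
          intro S hS
          obtain ⟨Q, hQ, rfl⟩ := mem_image.1 hS
          exact hcard5 Q hQ)
        (by
          intro S hS
          obtain ⟨Q, hQ, rfl⟩ := mem_image.1 hS
          exact hw2 _ (hsd Q hQ).2)
        (by
          intro S hS S' hS' hne
          obtain ⟨Q, hQ, rfl⟩ := mem_image.1 hS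
          obtain ⟨Q', hQ', rfl⟩ := mem_image.1 hS'
          have h2 := hpdisj Q hQ Q' hQ' (fun h => hne (by rw [h]))
          rw [Finset.disjoint_left] at h2 ⊢
          intro e he he'
          exact h2 ((hmem Q hQ e).1 he) ((hmem Q' hQ' e).1 he'))
        (by
          intro S hS e he
          obtain ⟨Q, hQ, rfl⟩ := mem_image.1 hS
          exact if_pos (onFive_iff.2 ⟨Q, hQ, (hmem Q hQ e).1 he⟩)) Z hmin
      have h2 : (((pent G).image sd).filter fun S => (cut s t Z ∩ cut s t S).card = 4).card =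
          (heavy G D).card := by
        rw [filter_image, card_image_of_injOn, heavy]
        · congr 1
          refine filter_congr fun Q hQ => ?_
          have h4 : (cut s t Z ∩ cut s t (sd Q)).image (fun e : Up G => e.1.edge) = Q ∩ D := by
            ext x
            have hq : x ∈ Q ↔ x ∈ (cut s t (sd Q)).image fun e : Up G => e.1.edge := by
              rw [(hsd Q hQ).1]
            rw [mem_image, mem_inter, hq, mem_image]
            constructor
            · rintro ⟨e, he, rfl⟩
              rw [mem_inter] at he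
              exact ⟨⟨e, he.2, rfl⟩, (hmemZ e).1 he.1⟩
            · rintro ⟨⟨e, he, rfl⟩, h5⟩
              exact ⟨e, mem_inter.2 ⟨(hmemZ e).2 h5, he⟩, rfl⟩
          rw [← h4, card_image_of_injOn (hinj _)]
        · intro Q hQ Q' hQ' hQQ
          rw [mem_coe, mem_filter] at hQ hQ'
          rw [← (hsd Q hQ.1).1, ← (hsd Q' hQ'.1).1, hQQ]
      rw [h2] at h1
      have h4 := cnt_le hd D hfive
      have h5 : ∑ e ∈ cut s t Z, wt G β e.1.edge = β * D.card +
          (2 / 5 - β) * ((cnt G D 2 : ℝ) - cnt G D 1) := by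
        rw [← sum_side R hc hside, hsum v c hc, ← hD, hD,
          List.toFinset_card_of_nodup hc.edges_nodup, SimpleGraph.Walk.length_edges]
      rw [h5] at h1
      have h6 : (cnt G D 2 : ℝ) ≤ cnt G D 1 + (heavy G D).card := by exact_mod_cast h4
      have h7 : |((∑ f ∈ Z, w f : ℤ) : ℝ)| ≤ β * D.card := by
        have h8 : (2 / 5 - β) * ((cnt G D 2 : ℝ) - cnt G D 1) ≤
            (2 / 5 - β) * ((heavy G D).card : ℝ) :=
          mul_le_mul_of_nonneg_left (by linarith) (by linarith)
        have h9 : (2 / 5 - β) * ((heavy G D).card : ℝ) ≤ 1 / 5 * ((heavy G D).card : ℝ) :=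
          mul_le_mul_of_nonneg_right (by linarith) (Nat.cast_nonneg _)
        linarith
      rw [hcardD]
      have h8 : (p : ℝ) * |((∑ f ∈ Z, w f : ℤ) : ℝ)| ≤ ((p - 2 * q : ℕ) : ℝ) * D.card := by
        have h9 := mul_le_mul_of_nonneg_left h7 hpR.le
        have h10 : (p : ℝ) * (β * D.card) = ((p - 2 * q : ℕ) : ℝ) * D.card := by
          rw [← mul_assoc, mul_comm (p : ℝ) β, hβp, Nat.cast_sub h2q]
          push_cast
          ring
        rwa [h10] at h9
      exact_mod_cast h8

end Pool.Agent.OddFlow
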