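import Mathlib
import Pool.Agent.Work.MP_392c8e_co_odd.PlaneFive
import Pool.Agent.Work.MP_392c8e_co_odd.LocalG

/-!
# Plane subcubic graphs whose 5-cycles have an exit

Every 5-cycle gets a vertex; the two edges of the 5-cycle at this vertex lie on no other 5-cycle
and on few other short odd cycles.  Then the circular chromatic number is smaller than three.
-/

namespace Pool.Agent.OddFlow

open Finset Pool.Agent.Circ Pool.Agent.Sub392
open scoped symmDiff

set_option linter.unusedSectionVars false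

variable {V : Type} [Fintype V] [DecidableEq V] {G : SimpleGraph V}

/-- The pattern of the edges. -/
def aE : Fin 5 → ℤ := ![0, 1, 0, 1, 0]

/-- The pattern of the vertices. -/
def bE : Fin 5 → ℤ := ![1, 1, 0, 0, 1]

theorem excE_le : ∀ d : Fin 5 → Bool, (univ.filter fun i => d i = true).card ≤ 3 →
    exc aE bE d ≤ 0 := by
  unfold exc
  decide

theorem excE_nonneg : ∀ d : Fin 5 → Bool, d 0 = false → d 4 = false → 0 ≤ exc aE bE d := by
  unfold exc
  decide

theorem excE_ge : ∀ d : Fin 5 → Bool, -2 ≤ exc aE bE d := by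
  unfold exc
  decide

theorem excE_full : ∀ d : Fin 5 → Bool, (∀ i, d i = true) → exc aE bE d = 2 := by
  unfold exc
  decide

/-- Two edges of a 5-cycle at a vertex. -/
theorem pedge_ne {x : Fin 5 → V} (hx : Function.Injective x) (i : Fin 5) :
    pedge x (i - 1) ≠ pedge x i := by
  intro h
  have key : ∀ i : Fin 5, i - 1 = i → False := by decide
  exact key i (pedge_injective hx h)

/-- **Few 5-cycles reduce the weight of an edge.** -/
theorem stub_le
    (hdeg : ∀ (x : V) (A : Finset (Sym2 V)), (∀ e ∈ A, e ∈ G.edgeSet ∧ x ∈ e) → A.card ≤ 3)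
    (b : Fin 5 → ℤ) (hb : ∀ i, b i = 0 ∨ b i = 1) (x : Finset (Sym2 V) → Fin 5 → V)
    (hx : ∀ P ∈ pent G, IsPent G (x P)) (hP : ∀ P ∈ pent G, P = univ.image (pedge (x P)))
    (hpriv : ∀ P ∈ pent G, ∀ i, b i = 1 → ∃ f, (f = pedge (x P) (i - 1) ∨ f = pedge (x P) i) ∧
      ∀ Q ∈ pent G, f ∈ Q → Q = P)
    {e : Sym2 V} (he : e ∈ G.edgeSet) :
    ∑ P ∈ pent G, ∑ i, (if x P i ∈ e ∧ e ∉ univ.image (pedge (x P)) then b i else 0) ≤ 2 := by
  classical
  set T := ((pent G) ×ˢ (univ : Finset (Fin 5))).filter fun q =>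
    (x q.1 q.2 ∈ e ∧ e ∉ univ.image (pedge (x q.1))) ∧ b q.2 = 1 with hT
  have h1 : ∑ P ∈ pent G, ∑ i, (if x P i ∈ e ∧ e ∉ univ.image (pedge (x P)) then b i else 0) =
      (T.card : ℤ) := by
    rw [hT, card_filter, sum_product]
    push_cast
    refine sum_congr rfl fun P _ => sum_congr rfl fun i _ => ?_
    rcases hb i with h | h <;> simp [h]
  have h2 : T.card ≤ (univ.filter fun v => v ∈ e).card := by
    refine card_le_card_of_injOn (fun q => x q.1 q.2) ?_ ?_
    · intro q hq
      rw [mem_coe, hT, mem_filter] at hq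
      exact mem_coe.2 (mem_filter.2 ⟨mem_univ _, hq.2.1.1⟩)
    · rintro ⟨P, i⟩ hq ⟨Q, j⟩ hq' hxx
      rw [mem_coe, hT, mem_filter, mem_product] at hq hq'
      obtain ⟨⟨hP1, _⟩, ⟨h1, h2⟩, h3⟩ := hq
      obtain ⟨⟨hQ1, _⟩, ⟨h1', h2'⟩, _⟩ := hq'
      simp only at hP1 h1 h2 h3 hQ1 h1' h2' hxx
      obtain ⟨f, hf, hpr⟩ := hpriv P hP1 i h3
      have hfx : x P i ∈ f := by
        rcases hf with rfl | rfl
        · exact (mem_pedge (hx P hP1).1).2 (Or.inr rfl)
        · exact (mem_pedge (hx P hP1).1).2 (Or.inl rfl)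
      have hfP : f ∈ univ.image (pedge (x P)) := by
        rcases hf with rfl | rfl <;> exact mem_image_of_mem _ (mem_univ _)
      have hfG : f ∈ G.edgeSet := by
        rcases hf with rfl | rfl <;> exact (hx P hP1).2 _
      have hfQ : f ∈ Q := by
        by_contra hcon
        rw [hP Q hQ1] at hcon
        have h5 := hdeg (x P i) {f, e, pedge (x Q) (j - 1), pedge (x Q) j} (by
          intro g hg
          simp only [mem_insert, mem_singleton] at hg
          rcases hg with rfl | rfl | rfl | rfl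
          · exact ⟨hfG, hfx⟩
          · exact ⟨he, h1⟩
          · rw [hxx]
            exact ⟨(hx Q hQ1).2 _, (mem_pedge (hx Q hQ1).1).2 (Or.inr rfl)⟩
          · rw [hxx]
            exact ⟨(hx Q hQ1).2 _, (mem_pedge (hx Q hQ1).1).2 (Or.inl rfl)⟩)
        rw [card_insert_of_notMem, card_insert_of_notMem, card_insert_of_notMem,
          card_singleton] at h5
        · omega
        · rw [mem_singleton]
          exact pedge_ne (hx Q hQ1).1 j
        · simp only [mem_insert, mem_singleton, not_or]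
          exact ⟨fun h => h2' (h ▸ mem_image_of_mem _ (mem_univ _)),
            fun h => h2' (h ▸ mem_image_of_mem _ (mem_univ _))⟩
        · simp only [mem_insert, mem_singleton, not_or]
          exact ⟨fun h => h2 (h ▸ hfP), fun h => hcon (h ▸ mem_image_of_mem _ (mem_univ _)),
            fun h => hcon (h ▸ mem_image_of_mem _ (mem_univ _))⟩
      have hQP := hpr Q hQ1 hfQ
      subst hQP
      rw [(hx Q hQ1).1 hxx]
  rw [h1]
  rw [card_ends he] at h2
  exact_mod_cast h2

/-- Distinct 5-cycles have at most three common edges. -/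
theorem inter_le_three
    (hdeg : ∀ (x : V) (A : Finset (Sym2 V)), (∀ e ∈ A, e ∈ G.edgeSet ∧ x ∈ e) → A.card ≤ 3)
    {P Q : Finset (Sym2 V)} (hP : P ∈ pent G) (hQ : Q ∈ pent G) (hne : P ≠ Q) :
    (P ∩ Q).card ≤ 3 := by
  classical
  obtain ⟨x, hx, rfl⟩ := pent_param hP
  have hQ5 : Q.card = 5 := by
    obtain ⟨y, hy, rfl⟩ := pent_param hQ
    rw [card_image_of_injective _ (pedge_injective hy.1)]
    rfl
  have hP5 : (univ.image (pedge x)).card = 5 := by
    rw [card_image_of_injective _ (pedge_injective hx.1)]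
    rfl
  obtain ⟨v, c, hc, hl, rfl⟩ := (mem_filter.1 hQ).2
  have hQG : ∀ e ∈ c.edges.toFinset, e ∈ G.edgeSet :=
    fun e he => c.edges_subset_edgeSet (List.mem_toFinset.1 he)
  have hQD := deg_cycle hdeg c hc
  by_contra hcon
  have h1 := card_sdiff_add_card_inter c.edges.toFinset (univ.image (pedge x))
  rw [inter_comm, hQ5] at h1
  have h2 : ¬ univ.image (pedge x) ⊆ c.edges.toFinset := by
    intro h
    exact hne (eq_of_subset_of_card_le h (by rw [hQ5, hP5]))
  -- a missing edge
  obtain ⟨i, hi⟩ : ∃ i, pedge x i ∉ c.edges.toFinset := by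
    by_contra h
    push Not at h
    apply h2
    intro e he
    obtain ⟨i, _, rfl⟩ := mem_image.1 he
    exact h i
  have h4 : (univ.image (pedge x) \ c.edges.toFinset).card ≤ 1 := by
    have := card_sdiff_add_card_inter (univ.image (pedge x)) c.edges.toFinset
    rw [hP5] at this
    omega
  have hothers : ∀ j, j ≠ i → pedge x j ∈ c.edges.toFinset := by
    intro j hj
    by_contra h
    have h5 := card_le_one.1 h4 (pedge x j) (mem_sdiff.2 ⟨mem_image_of_mem _ (mem_univ _), h⟩)
      (pedge x i) (mem_sdiff.2 ⟨mem_image_of_mem _ (mem_univ _), hi⟩)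
    exact hj (pedge_injective hx.1 h5)
  have hp : ∀ j, pat x c.edges.toFinset j = decide (j ≠ i) := by
    intro j
    unfold pat
    by_cases h : j = i
    · subst h
      simp only [hi, ne_eq, not_true_eq_false]
    · simp only [hothers j h, ne_eq, h, not_false_eq_true]
  have s1 := card_stub hx c.edges.toFinset hQG hdeg hQD i
  have s2 := card_stub hx c.edges.toFinset hQG hdeg hQD (i + 1)
  have k1 : ∀ i : Fin 5, ¬ (decide (i - 1 ≠ i) = decide (i ≠ i)) := by decide
  have k2 : ∀ i : Fin 5, ¬ (decide (i + 1 - 1 ≠ i) = decide (i + 1 ≠ i)) := by decide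
  rw [hp, hp, if_neg (k1 i)] at s1
  rw [hp, hp, if_neg (k2 i)] at s2
  obtain ⟨f, hf⟩ := card_eq_one.1 s1
  obtain ⟨g, hg⟩ := card_eq_one.1 s2
  have hf' := mem_filter.1 (by rw [hf]; exact mem_singleton_self f :
    f ∈ c.edges.toFinset.filter fun e => x i ∈ e ∧ e ∉ univ.image (pedge x))
  have hg' := mem_filter.1 (by rw [hg]; exact mem_singleton_self g :
    g ∈ c.edges.toFinset.filter fun e => x (i + 1) ∈ e ∧ e ∉ univ.image (pedge x))
  have h5 : (c.edges.toFinset \ univ.image (pedge x)).card ≤ 1 := by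
    have h7 : (univ.image (pedge x) ∩ c.edges.toFinset).card =
      (c.edges.toFinset ∩ univ.image (pedge x)).card := by rw [inter_comm]
    omega
  have hfg := card_le_one.1 h5 f (mem_sdiff.2 ⟨hf'.1, hf'.2.2⟩) g (mem_sdiff.2 ⟨hg'.1, hg'.2.2⟩)
  subst hfg
  apply hf'.2.2
  have h6 : f = pedge x i := by
    unfold pedge
    have h8 : x i ≠ x (i + 1) := (hx.2 i).ne
    exact ((Sym2.mem_and_mem_iff h8).1 ⟨hf'.2.1, hg'.2.1⟩)
  rw [h6]
  exact mem_image_of_mem _ (mem_univ _)

/-- The edges of a boundary have even degrees. -/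
theorem deg_cut [DecidableRel G.Adj] (R : Rot G)
    (hdeg : ∀ (x : V) (A : Finset (Sym2 V)), (∀ e ∈ A, e ∈ G.edgeSet ∧ x ∈ e) → A.card ≤ 3)
    (S : Finset R.Face) (x : V) :
    ((((cut (fun e : Up G => R.face e.1) (fun e : Up G => R.face e.1.symm) S).image
      fun e : Up G => e.1.edge).filter fun e => x ∈ e).card = 0) ∨
    ((((cut (fun e : Up G => R.face e.1) (fun e : Up G => R.face e.1.symm) S).image
      fun e : Up G => e.1.edge).filter fun e => x ∈ e).card = 2) := by
  classical
  have hc : ∀ d : G.Dart, d.edge ∈ (cut (fun e : Up G => R.face e.1)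
      (fun e : Up G => R.face e.1.symm) S).image (fun e : Up G => e.1.edge) ↔
      ¬ (R.face d ∈ S ↔ R.face d.symm ∈ S) := by
    intro d
    rw [mem_image]
    constructor
    · rintro ⟨e, he, hed⟩
      rw [mem_cut] at he
      rcases (SimpleGraph.dart_edge_eq_iff e.1 d).1 hed with h1 | h1
      · rwa [h1] at he
      · rw [h1, SimpleGraph.Dart.symm_symm] at he
        tauto
    · intro h
      rcases up_or d with h1 | h1
      · exact ⟨⟨d, h1⟩, mem_cut.2 h, rfl⟩
      · refine ⟨⟨d.symm, h1⟩, mem_cut.2 ?_, SimpleGraph.Dart.edge_symm _⟩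
        show ¬ (R.face d.symm ∈ S ↔ R.face d.symm.symm ∈ S)
        rw [SimpleGraph.Dart.symm_symm]
        tauto
  have h0 := CycD.sum_vertex_faces (k := ZMod 2) R (fun f => if f ∈ S then 1 else 0) x
  have h1 : ∑ d : G.Dart with d.fst = x, ((if R.face d ∈ S then (1 : ZMod 2) else 0) -
      (if R.face d.symm ∈ S then 1 else 0)) =
      (((univ.filter fun d : G.Dart => d.fst = x).filter fun d =>
        ¬ (R.face d ∈ S ↔ R.face d.symm ∈ S)).card : ZMod 2) := by
    rw [card_filter]
    push_cast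
    refine sum_congr rfl fun d _ => ?_
    by_cases h1 : R.face d ∈ S <;> by_cases h2 : R.face d.symm ∈ S <;> simp [h1, h2]
  rw [h1, ZMod.natCast_eq_zero_iff_even] at h0
  have h2 : ((univ.filter fun d : G.Dart => d.fst = x).filter fun d =>
      ¬ (R.face d ∈ S ↔ R.face d.symm ∈ S)).card =
      ((((cut (fun e : Up G => R.face e.1) (fun e : Up G => R.face e.1.symm) S).image
        fun e : Up G => e.1.edge).filter fun e => x ∈ e).card) := by
    refine card_bij (fun d _ => d.edge) ?_ ?_ ?_
    · intro d hd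
      rw [mem_filter, mem_filter] at hd
      rw [mem_filter]
      refine ⟨(hc d).2 hd.2, ?_⟩
      rw [← hd.1.2]
      exact Sym2.mem_mk_left _ _
    · intro d hd d' hd' h
      rw [mem_filter, mem_filter] at hd hd'
      rcases (SimpleGraph.dart_edge_eq_iff d d').1 h with h2 | h2
      · exact h2
      · exfalso
        have h3 : d.fst = d'.snd := by rw [h2]; rfl
        exact d'.adj.ne (by rw [hd'.1.2, ← hd.1.2, h3])
    · intro e he
      rw [mem_filter] at he
      obtain ⟨he1, he2⟩ := he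
      obtain ⟨z, rfl⟩ := Sym2.mem_iff_exists.1 he2
      obtain ⟨e', _, he'⟩ := mem_image.1 he1
      have hadj : G.Adj x z := by
        rw [← SimpleGraph.mem_edgeSet, ← he']
        exact e'.1.edge_mem
      refine ⟨⟨(x, z), hadj⟩, ?_, rfl⟩
      rw [mem_filter, mem_filter]
      exact ⟨⟨mem_univ _, rfl⟩, (hc ⟨(x, z), hadj⟩).1 he1⟩
  rw [h2, Nat.even_iff] at h0
  have h3 := hdeg x ((((cut (fun e : Up G => R.face e.1) (fun e : Up G => R.face e.1.symm) S).image
        fun e : Up G => e.1.edge).filter fun e => x ∈ e)) (by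
    intro e he
    rw [mem_filter] at he
    obtain ⟨e', _, he'⟩ := mem_image.1 he.1
    exact ⟨he' ▸ e'.1.edge_mem, he.2⟩)
  omega

/-- A plane graph has an edge. -/
theorem one_le_edges [DecidableRel G.Adj] (R : Rot G) (hP : R.Plane) :
    1 ≤ G.edgeFinset.card := by
  classical
  by_contra hcon
  have h0 : G.edgeFinset.card = 0 := by omega
  have hno : ∀ u v, ¬ G.Adj u v := by
    intro u v huv
    have h1 : s(u, v) ∈ G.edgeFinset := SimpleGraph.mem_edgeFinset.2 huv
    rw [card_eq_zero] at h0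
    rw [h0] at h1
    exact notMem_empty _ h1
  obtain ⟨hc, hE⟩ := hP
  have hF : IsEmpty R.Face := by
    constructor
    intro f
    obtain ⟨d, rfl⟩ := Quotient.exists_rep f
    exact hno _ _ d.adj
  have hV : Fintype.card V ≤ 1 := by
    rw [Fintype.card_le_one_iff]
    intro u v
    obtain ⟨p⟩ := hc.preconnected u v
    cases p with
    | nil => rfl
    | cons h _ => exact absurd h (hno _ _)
  have hF0 : Fintype.card R.Face = 0 := Fintype.card_eq_zero
  omega

/-- **Plane subcubic graphs whose 5-cycles have an exit.** -/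
theorem plane_exit [DecidableRel G.Adj] (R : Rot G) (hP : R.Plane) (hΔ : ∀ v, G.degree v ≤ 3)
    (hG : G.CliqueFree 3) (y : Finset (Sym2 V) → V) (hy : ∀ P ∈ pent G, y P ∈ verts P)
    (h5 : ∀ P ∈ pent G, ∀ Q ∈ pent G, P ≠ Q → ∀ e ∈ P, y P ∈ e → e ∉ Q)
    (h7 : ∀ (v : V) (c : G.Walk v v), c.IsCycle → Odd c.length → 7 ≤ c.length →
      ((pent G).filter fun P => ∃ e ∈ P, y P ∈ e ∧ e ∈ c.edges).card + 6 ≤ c.length) :
    ∃ c : V → ℕ, (∀ v, c v < 6 * G.edgeFinset.card) ∧
      ∀ u v, G.Adj u v → ((2 * G.edgeFinset.card + 1 : ℕ) : ℤ) ≤ |(c u : ℤ) - c v| ∧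
        |(c u : ℤ) - c v| ≤ (6 * G.edgeFinset.card : ℕ) - (2 * G.edgeFinset.card + 1 : ℕ) := by
  classical
  have hdeg := deg_le hΔ
  -- parametrise the 5-cycles
  have hpar : ∀ P : Finset (Sym2 V), ∃ x : Fin 5 → V, P ∈ pent G →
      IsPent G x ∧ P = univ.image (pedge x) ∧ x 0 = y P := by
    intro P
    by_cases h : P ∈ pent G
    · obtain ⟨x, h1, h2, h3⟩ := pent_param_at h (hy P h)
      exact ⟨x, fun _ => ⟨h1, h2, h3⟩⟩
    · exact ⟨fun _ => y P, fun h' => absurd h' h⟩
  choose x hx using hpar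
  have hx1 : ∀ P ∈ pent G, IsPent G (x P) := fun P h => (hx P h).1
  have hx2 : ∀ P ∈ pent G, P = univ.image (pedge (x P)) := fun P h => (hx P h).2.1
  have hx3 : ∀ P ∈ pent G, x P 0 = y P := fun P h => (hx P h).2.2
  have hmemP : ∀ P ∈ pent G, ∀ i, pedge (x P) i ∈ P := by
    intro P h i
    have := mem_image_of_mem (pedge (x P)) (mem_univ i)
    rwa [← hx2 P h] at this
  have hex0 : ∀ P ∈ pent G, y P ∈ pedge (x P) 0 := by
    intro P h
    rw [← hx3 P h]
    exact (mem_pedge (hx1 P h).1).2 (Or.inl rfl)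
  have hex4 : ∀ P ∈ pent G, y P ∈ pedge (x P) 4 := by
    intro P h
    rw [← hx3 P h]
    exact (mem_pedge (hx1 P h).1).2 (Or.inr rfl)
  set om : Sym2 V → ℝ := wg G (1 / 3) (1 / 6) aE bE x with hom
  -- the weights are not negative
  have hom0 : ∀ e ∈ G.edgeSet, 0 ≤ om e := by
    intro e he
    have h1 := stub_le hdeg bE (by decide) x hx1 hx2 (by
      intro P hP i hi
      have k : ∀ i : Fin 5, bE i = 1 → i = 0 ∨ i = 1 ∨ i = 4 := by decide
      rcases k i hi with rfl | rfl | rfl
      · refine ⟨pedge (x P) 0, Or.inr rfl, fun Q hQ hf => ?_⟩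
        by_contra hne
        exact h5 P hP Q hQ (fun h => hne h.symm) _ (hmemP P hP 0) (hex0 P hP) hf
      · refine ⟨pedge (x P) 0, Or.inl rfl, fun Q hQ hf => ?_⟩
        by_contra hne
        exact h5 P hP Q hQ (fun h => hne h.symm) _ (hmemP P hP 0) (hex0 P hP) hf
      · refine ⟨pedge (x P) 4, Or.inr rfl, fun Q hQ hf => ?_⟩
        by_contra hne
        exact h5 P hP Q hQ (fun h => hne h.symm) _ (hmemP P hP 4) (hex4 P hP) hf) he
    have h2 : (-2 : ℤ) ≤ ∑ P ∈ pent G, ctr aE bE (x P) e := by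
      unfold ctr
      rw [sum_sub_distrib]
      have h3 : 0 ≤ ∑ P ∈ pent G, ∑ i, (if e = pedge (x P) i then aE i else 0) := by
        refine sum_nonneg fun P _ => sum_nonneg fun i _ => ?_
        have k : ∀ i, 0 ≤ aE i := by decide
        split_ifs
        · exact k i
        · exact le_rfl
      linarith
    have h3 : (-2 : ℝ) ≤ ((∑ P ∈ pent G, ctr aE bE (x P) e : ℤ) : ℝ) := by exact_mod_cast h2
    rw [hom, wg]
    linarith
  have hsumD : ∀ D : Finset (Sym2 V), (∀ e ∈ D, e ∈ G.edgeSet) →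
      (∀ x, (D.filter fun e => x ∈ e).card = 0 ∨ (D.filter fun e => x ∈ e).card = 2) →
      ∑ e ∈ D, om e = 1 / 3 * D.card +
        1 / 6 * ((∑ P ∈ pent G, exc aE bE (pat (x P) D) : ℤ) : ℝ) :=
    fun D h1 h2 => sum_wg (1 / 3) (1 / 6) aE bE x hx1 D h1 hdeg h2
  have hcyc : ∀ (v : V) (c : G.Walk v v), c.IsCycle → (c.edges.map om).sum =
      1 / 3 * c.length +
        1 / 6 * ((∑ P ∈ pent G, exc aE bE (pat (x P) c.edges.toFinset) : ℤ) : ℝ) := by
    intro v c hc
    rw [← List.sum_toFinset _ hc.edges_nodup, hsumD _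
      (fun e he => c.edges_subset_edgeSet (List.mem_toFinset.1 he)) (deg_cycle hdeg c hc),
      List.toFinset_card_of_nodup hc.edges_nodup, SimpleGraph.Walk.length_edges]
  -- the sum of the excesses at a 5-cycle
  have hfive : ∀ Q ∈ pent G, ∑ P ∈ pent G, exc aE bE (pat (x P) Q) = 2 := by
    intro Q hQ
    rw [← add_sum_erase _ _ hQ]
    have h1 : exc aE bE (pat (x Q) Q) = 2 := excE_full _ fun i => by
      unfold pat
      simpa using hmemP Q hQ i
    have h2 : ∑ P ∈ (pent G).erase Q, exc aE bE (pat (x P) Q) = 0 := by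
      refine sum_eq_zero fun P hP => ?_
      rw [mem_erase] at hP
      refine le_antisymm (excE_le _ ?_) (excE_nonneg _ ?_ ?_)
      · have h3 := inter_le_three hdeg hP.2 hQ hP.1
        rw [hx2 P hP.2, card_pat (hx1 P hP.2).1] at h3
        exact h3
      · unfold pat
        rw [decide_eq_false_iff_not]
        exact h5 P hP.2 Q hQ hP.1 _ (hmemP P hP.2 0) (hex0 P hP.2)
      · unfold pat
        rw [decide_eq_false_iff_not]
        exact h5 P hP.2 Q hQ hP.1 _ (hmemP P hP.2 4) (hex4 P hP.2)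
    rw [h1, h2, add_zero]
  -- the odd cycles
  have hodd2 : ∀ (v : V) (c : G.Walk v v), c.IsCycle → Odd c.length →
      2 ≤ (c.edges.map om).sum := by
    intro v c hc ho
    have hl5 := five_le_length hG c hc ho
    rw [hcyc v c hc]
    by_cases hl : c.length = 5
    · have h1 : c.edges.toFinset ∈ pent G := mem_filter.2 ⟨mem_univ _, v, c, hc, hl, rfl⟩
      rw [hfive _ h1, hl]
      norm_num
    · have hl7 : 7 ≤ c.length := by
        rw [Nat.odd_iff] at ho
        omega
      have h1 := h7 v c hc ho hl7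
      have h2 : -2 * (((pent G).filter fun P => ∃ e ∈ P, y P ∈ e ∧ e ∈ c.edges).card : ℤ) ≤
          ∑ P ∈ pent G, exc aE bE (pat (x P) c.edges.toFinset) := by
        rw [card_filter]
        push_cast
        rw [mul_sum]
        refine sum_le_sum fun P hP => ?_
        split_ifs with h
        · rw [mul_one]
          exact excE_ge _
        · rw [mul_zero]
          refine excE_nonneg _ ?_ ?_
          · unfold pat
            rw [decide_eq_false_iff_not, List.mem_toFinset]
            exact fun h3 => h ⟨_, hmemP P hP 0, hex0 P hP, h3⟩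
          · unfold pat
            rw [decide_eq_false_iff_not, List.mem_toFinset]
            exact fun h3 => h ⟨_, hmemP P hP 4, hex4 P hP, h3⟩
      have h3 : (((pent G).filter fun P => ∃ e ∈ P, y P ∈ e ∧ e ∈ c.edges).card : ℝ) + 6 ≤
          c.length := by exact_mod_cast h1
      have h4 : -2 * (((pent G).filter fun P => ∃ e ∈ P, y P ∈ e ∧ e ∈ c.edges).card : ℝ) ≤
          ((∑ P ∈ pent G, exc aE bE (pat (x P) c.edges.toFinset) : ℤ) : ℝ) := by
        exact_mod_cast h2
      linarith
  obtain ⟨w, w1, w2, w3, w4, w5⟩ := plane_charges R om hom0 hodd2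
  let s : Up G → R.Face := fun e => R.face e.1
  let t : Up G → R.Face := fun e => R.face e.1.symm
  have hinj : ∀ (A : Finset (Up G)), Set.InjOn (fun e : Up G => e.1.edge) A :=
    fun A e _ e' _ h => up_edge_inj h
  let img : Finset R.Face → Finset (Sym2 V) := fun S => (cut s t S).image fun e : Up G => e.1.edge
  have himgc : ∀ S, (img S).card = (cut s t S).card := fun S => card_image_of_injOn (hinj _)
  have himg : ∀ S (e : Up G), e.1.edge ∈ img S ↔ e ∈ cut s t S := by
    intro S e
    show e.1.edge ∈ (cut s t S).image (fun e : Up G => e.1.edge) ↔ _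
    rw [mem_image]
    constructor
    · rintro ⟨e', h, he'⟩
      rwa [← up_edge_inj he']
    · exact fun h => ⟨e, h, rfl⟩
  have himgG : ∀ S, ∀ e ∈ img S, e ∈ G.edgeSet := by
    intro S e he
    obtain ⟨e', _, he'⟩ := mem_image.1 he
    exact he' ▸ e'.1.edge_mem
  have homS : ∀ S, ∑ e ∈ cut s t S, om e.1.edge = 1 / 3 * (cut s t S).card +
      1 / 6 * ((∑ P ∈ pent G, exc aE bE (pat (x P) (img S)) : ℤ) : ℝ) := by
    intro S
    rw [← himgc, ← hsumD (img S) (himgG S) (deg_cut R hdeg S)]
    exact (sum_image (hinj _)).symm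
  -- small charges
  have hsmall : ∀ (S : Finset R.Face) (r : ℝ), ∑ e ∈ cut s t S, om e.1.edge ≤ r → 0 < r →
      |((∑ f ∈ S, w f : ℤ) : ℝ)| < r := by
    intro S r hr hr0
    rcases Nat.eq_zero_or_pos R.odd.card with h4 | h4
    · have h5 : ∑ f ∈ S, w f = 0 := by
        rw [card_eq_zero] at h4
        exact sum_eq_zero fun f _ => w1 f (by rw [h4]; exact notMem_empty _)
      rw [h5]
      simpa using hr0
    · have h5 := w4 S
      have h6 : (0 : ℝ) < R.odd.card := by exact_mod_cast h4
      have h7 : ((R.odd.card - 1 : ℕ) : ℝ) < R.odd.card := by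
        exact_mod_cast Nat.sub_lt h4 one_pos
      by_contra hcon
      rw [not_lt] at hcon
      have h8 := mul_le_mul_of_nonneg_left hcon h6.le
      have h9 : ((R.odd.card - 1 : ℕ) : ℝ) * ∑ e ∈ cut s t S, om e.1.edge ≤
          ((R.odd.card - 1 : ℕ) : ℝ) * r := mul_le_mul_of_nonneg_left hr (Nat.cast_nonneg _)
      have h10 : ((R.odd.card - 1 : ℕ) : ℝ) * r < R.odd.card * r :=
        mul_lt_mul_of_pos_right h7 hr0
      linarith
  -- the sides of the 5-cycles
  have hsd : ∀ Q : Finset (Sym2 V), ∃ S : Finset R.Face, Q ∈ pent G → img S = Q := by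
    intro Q
    by_cases hQ : Q ∈ pent G
    · obtain ⟨_, v, c, hc, hl, rfl⟩ := mem_filter.1 hQ
      obtain ⟨S, hS⟩ := exists_side_of R hP c hc
      exact ⟨S, fun _ => image_cut_of_side R hS⟩
    · exact ⟨∅, fun h => absurd h hQ⟩
  choose sd hsd using hsd
  have hcard5 : ∀ Q ∈ pent G, (cut s t (sd Q)).card = 5 := by
    intro Q hQ
    rw [← himgc, hsd Q hQ, hx2 Q hQ, card_image_of_injective _ (pedge_injective (hx1 Q hQ).1)]
    rfl
  have hsd1 : ∀ S, img S ∈ pent G → |∑ f ∈ S, w f| ≤ 1 := by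
    intro S hS
    have h1 := homS S
    rw [hfive _ hS] at h1
    have h2 : (cut s t S).card = 5 := by
      rw [← himgc, hx2 _ hS, card_image_of_injective _ (pedge_injective (hx1 _ hS).1)]
      rfl
    rw [h2] at h1
    have h3 := hsmall S 2 (by rw [h1]; norm_num) (by norm_num)
    have h4 : |∑ f ∈ S, w f| < 2 := by exact_mod_cast h3
    omega
  have hconn : ∀ Y : Finset R.Face, cut s t Y = ∅ → Y = ∅ ∨ Y = univ := by
    intro Y hY
    refine R.cut_zero hP.1 ?_
    rw [← card_cut_eq]
    exact card_eq_zero.2 hY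
  -- the main estimate
  have main : ∀ (n : ℕ) (Z : Finset R.Face), (cut s t Z).card = n → MinCut s t Z →
      3 * |∑ f ∈ Z, w f| < n := by
    intro n
    induction n using Nat.strong_induction_on with
    | _ n ih =>
    intro Z hn hZ
    have hn0 : 0 < n := by
      rw [← hn]
      exact card_pos.2 hZ.1
    by_cases hsub : ∃ Q ∈ pent G, Q ⊆ img Z
    · obtain ⟨Q, hQ, hQZ⟩ := hsub
      have h1 : cut s t (sd Q) = cut s t Z := by
        refine hZ.2 _ (fun e he => ?_) ?_
        · rw [← himg]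
          refine hQZ ?_
          rw [← hsd Q hQ]
          exact (himg _ e).2 he
        · rw [← card_pos, hcard5 Q hQ]
          norm_num
      have h2 : img Z = Q := by
        rw [← hsd Q hQ]
        show (cut s t Z).image _ = (cut s t (sd Q)).image _
        rw [h1]
      have h3 := hsd1 Z (by rw [h2]; exact hQ)
      have h4 : n = 5 := by rw [← hn, ← h1, hcard5 Q hQ]
      omega
    by_cases hheavy : ∃ Q ∈ pent G, 4 ≤ (Q ∩ img Z).card
    · obtain ⟨Q, hQ, h4⟩ := hheavy
      have hQ5 : Q.card = 5 := by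
        rw [← hsd Q hQ, himgc, hcard5 Q hQ]
      have h5' : (Q ∩ img Z).card = 4 := by
        have h6 := card_le_card (inter_subset_left (s₁ := Q) (s₂ := img Z))
        by_contra hne
        have h7 : (Q ∩ img Z).card = Q.card := by omega
        have h8 := eq_of_subset_of_card_le inter_subset_left h7.ge
        exact hsub ⟨Q, hQ, h8 ▸ inter_subset_right⟩
      have h6 : (cut s t Z ∩ cut s t (sd Q)).card = 4 := by
        rw [← h5', ← card_image_of_injOn (hinj (cut s t Z ∩ cut s t (sd Q)))]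
        congr 1
        ext f
        rw [mem_image, mem_inter]
        constructor
        · rintro ⟨e, he, rfl⟩
          rw [mem_inter] at he
          refine ⟨?_, (himg Z e).2 he.1⟩
          rw [← hsd Q hQ]
          exact (himg _ e).2 he.2
        · rintro ⟨h7, h8⟩
          obtain ⟨e, he, rfl⟩ := mem_image.1 h8
          refine ⟨e, mem_inter.2 ⟨he, ?_⟩, rfl⟩
          rw [← hsd Q hQ] at h7
          exact (himg _ e).1 h7
      have h7 := Switch.minCut_switch s t hZ (hcard5 Q hQ) h6
      have h8 := Switch.charge_switch s t hconn w w3 hZ (hcard5 Q hQ) h6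
      have h9 := hsd1 (sd Q) (by rw [hsd Q hQ]; exact hQ)
      have h10 : (cut s t (Z ∆ sd Q)).card + 3 = n := by
        obtain ⟨e, he⟩ := Switch.split_five s t (hcard5 Q hQ) h6
        have e1 : (cut s t (Z ∆ sd Q)).card =
            (cut s t Z \ cut s t (sd Q)).card + (cut s t (sd Q) \ cut s t Z).card := by
          rw [cut_symmDiff, symmDiff_def, Finset.sup_eq_union, card_union_of_disjoint]
          rw [Finset.disjoint_left]
          intro f h1 h2
          exact (mem_sdiff.1 h1).2 (mem_sdiff.1 h2).1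
        rw [he, card_singleton] at e1
        have e2 := card_sdiff_add_card_inter (cut s t Z) (cut s t (sd Q))
        omega
      have h11 := ih _ (by omega) (Z ∆ sd Q) rfl h7
      omega
    · push Not at hheavy
      have h1 := homS Z
      have h2 : ∑ P ∈ pent G, exc aE bE (pat (x P) (img Z)) ≤ 0 := by
        refine sum_nonpos fun P hP => excE_le _ ?_
        have h3 := hheavy P hP
        rw [hx2 P hP, card_pat (hx1 P hP).1] at h3
        omega
      have h3 : ((∑ P ∈ pent G, exc aE bE (pat (x P) (img Z)) : ℤ) : ℝ) ≤ 0 := by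
        exact_mod_cast h2
      have h4 := hsmall Z (n / 3) (by rw [h1, hn]; linarith) (by
        have : (0 : ℝ) < n := by exact_mod_cast hn0
        positivity)
      have h5' : 3 * |((∑ f ∈ Z, w f : ℤ) : ℝ)| < n := by linarith
      exact_mod_cast h5'
  have hm1 : 1 ≤ G.edgeFinset.card := one_le_edges R hP
  refine colour_of_good_pq R hP (by omega) (by omega) (good_of_conn_bound _ _ (connS_univ R hP) w
    ?_ w3 (by omega) ?_)
  · intro f
    rw [card_cut_eq]
    exact w2 f
  · intro Z hZ1 hZ2 hn1 hn2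
    have hcut0 : (cut s t Z).Nonempty := by
      by_contra hcon
      rw [not_nonempty_iff_eq_empty] at hcon
      rcases hconn Z hcon with h | h
      · rw [h] at hn1
        exact not_nonempty_empty hn1
      · rw [h, compl_univ] at hn2
        exact not_nonempty_empty hn2
    have h1 := main _ Z rfl (minCut_of_conn_ne s t hZ1 hZ2 hcut0)
    have h2 : (cut s t Z).card ≤ G.edgeFinset.card := by
      rw [← card_up]
      exact card_le_univ _
    show ((6 * G.edgeFinset.card : ℕ) : ℤ) * |∑ f ∈ Z, w f| ≤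
      ((6 * G.edgeFinset.card - 2 * (2 * G.edgeFinset.card + 1) : ℕ) : ℤ) * ((cut s t Z).card : ℕ)
    have e1 : ((6 * G.edgeFinset.card - 2 * (2 * G.edgeFinset.card + 1) : ℕ) : ℤ) =
        2 * G.edgeFinset.card - 2 := by omega
    rw [e1]
    have h3 : ((cut s t Z).card : ℤ) ≤ G.edgeFinset.card := by exact_mod_cast h2
    have h4 : 3 * |∑ f ∈ Z, w f| + 1 ≤ ((cut s t Z).card : ℤ) := h1
    have h5' : (1 : ℤ) ≤ G.edgeFinset.card := by exact_mod_cast hm1
    push_cast
    nlinarith

end Pool.Agent.OddFlow
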