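import Pool.Agent.Work.MP_392c8e_co_odd.PlaneP

/-!
# Arithmetic for at most twelve odd faces
-/

namespace Pool.Agent.OddFlow

open Finset Pool.Agent.Sub392

/-- With at most twelve odd faces of length five or seven, a cut that is not critical is small. -/
theorem twelve_arith (N d j : ℕ) (hN : N ≤ 12) (hN2 : 2 ≤ N) (hp : Even (j + d))
    (h1 : 5 * N * j ≤ 2 * (N - 1) * d) (h2 : j ≤ N / 2) (h5 : Odd d → 5 ≤ d)
    (hc : ∀ q, 2 ≤ q → d = 3 * q → j ≠ q) : 10 * j ≤ 3 * d := by
  have hj : j ≤ 6 := by omega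
  have hc2 : d ≠ 6 ∨ j ≠ 2 := by
    by_contra h; push Not at h; exact hc 2 (by norm_num) (by omega) h.2
  have hc3 : d ≠ 9 ∨ j ≠ 3 := by
    by_contra h; push Not at h; exact hc 3 (by norm_num) (by omega) h.2
  have hc4 : d ≠ 12 ∨ j ≠ 4 := by
    by_contra h; push Not at h; exact hc 4 (by norm_num) (by omega) h.2
  have hc5 : d ≠ 15 ∨ j ≠ 5 := by
    by_contra h; push Not at h; exact hc 5 (by norm_num) (by omega) h.2
  have hc6 : d ≠ 18 ∨ j ≠ 6 := by
    by_contra h; push Not at h; exact hc 6 (by norm_num) (by omega) h.2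
  have h5' : d % 2 = 1 → 5 ≤ d := fun h => h5 (Nat.odd_iff.2 h)
  have hp' : (j + d) % 2 = 0 := Nat.even_iff.1 hp
  clear hc h5 hp
  interval_cases N <;> interval_cases j <;> omega

end Pool.Agent.OddFlow

namespace Pool.Agent.Sub392

open Finset

variable {V : Type} {G : SimpleGraph V} [Fintype V] [DecidableEq V] [DecidableRel G.Adj]

/-- An edge with exactly one side in a face is counted once in the length of the face. -/
theorem size_cut (R : Rot G) (f : R.Face) : R.cut {f} ≤ R.size f := by
  rw [Rot.cut, Rot.size]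
  refine card_le_card fun d hd => ?_
  simp only [mem_filter, mem_univ, true_and, mem_singleton] at hd ⊢
  exact hd.1

end Pool.Agent.Sub392
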