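import Mathlib
import Pool.Agent.Work.MP_392c8e_co_odd.PlaneExit
import Pool.Agent.Work.MP_392c8e_co_odd.Twelve

/-!
# Strict charges of the faces from weights of the edges

If every odd cycle has weight at least `2`, the 5-cycles have weight at most `2`, and every even
subgraph with at most three edges on each 5-cycle has weight at most a third of its number of
edges, then the faces have charges which are smaller than a third of the boundary.
-/

namespace Pool.Agent.OddFlow

open Finset Pool.Agent.Circ Pool.Agent.Sub392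
open scoped symmDiff

set_option linter.unusedSectionVars false

variable {V : Type} [Fintype V] [DecidableEq V] {G : SimpleGraph V}

/-- **Strict charges.** -/
theorem strict_core [DecidableRel G.Adj] (R : Rot G) (hP : R.Plane)
    (hdeg : ∀ (x : V) (A : Finset (Sym2 V)), (∀ e ∈ A, e ∈ G.edgeSet ∧ x ∈ e) → A.card ≤ 3)
    (om : Sym2 V → ℝ) (hom0 : ∀ e ∈ G.edgeSet, 0 ≤ om e)
    (hodd2 : ∀ (v : V) (c : G.Walk v v), c.IsCycle → Odd c.length → 2 ≤ (c.edges.map om).sum)
    (hfive : ∀ Q ∈ pent G, ∑ e ∈ Q, om e ≤ 2)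
    (hup : ∀ D : Finset (Sym2 V), (∀ e ∈ D, e ∈ G.edgeSet) →
      (∀ x, (D.filter fun e => x ∈ e).card = 0 ∨ (D.filter fun e => x ∈ e).card = 2) →
      (∀ Q ∈ pent G, (Q ∩ D).card ≤ 3) → ∑ e ∈ D, om e ≤ (D.card : ℝ) / 3) :
    ∃ w : R.Face → ℤ, (∀ f, f ∉ R.odd → w f = 0) ∧ (∀ f, (2 : ℤ) ∣ w f - (R.cut {f} : ℤ)) ∧
      (∑ f, w f = 0) ∧ ∀ S : Finset R.Face,
        ((3 * G.edgeFinset.card : ℕ) : ℤ) * |∑ f ∈ S, w f| ≤
          ((G.edgeFinset.card - 1 : ℕ) : ℤ) * R.cut S := by
  classical
  obtain ⟨w, w1, w2, w3, w4, w5⟩ := plane_charges R om hom0 hodd2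
  let s : Up G → R.Face := fun e => R.face e.1
  let t : Up G → R.Face := fun e => R.face e.1.symm
  have hinj : ∀ (A : Finset (Up G)), Set.InjOn (fun e : Up G => e.1.edge) A :=
    fun A e _ e' _ h => up_edge_inj h
  let img : Finset R.Face → Finset (Sym2 V) := fun S => (cut s t S).image fun e : Up G => e.1.edge
  have himgc : ∀ S, (img S).card = (cut s t S).card := fun S => card_image_of_injOn (hinj _)
  have himg : ∀ S (e : Up G), e.1.edge ∈ img S ↔ e ∈ cut s t S := by
    intro S e
    show e.1.edge ∈ (cut s t S).image (fun e : Up G => e.1.edge) ↔ _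
    rw [mem_image]
    constructor
    · rintro ⟨e', h, he'⟩
      rwa [← up_edge_inj he']
    · exact fun h => ⟨e, h, rfl⟩
  have himgG : ∀ S, ∀ e ∈ img S, e ∈ G.edgeSet := by
    intro S e he
    obtain ⟨e', _, he'⟩ := mem_image.1 he
    exact he' ▸ e'.1.edge_mem
  have homS : ∀ S, ∑ e ∈ cut s t S, om e.1.edge = ∑ e ∈ img S, om e := by
    intro S
    exact (sum_image (hinj _)).symm
  -- small charges
  have hsmall : ∀ (S : Finset R.Face) (r : ℝ), ∑ e ∈ cut s t S, om e.1.edge ≤ r → 0 < r →
      |((∑ f ∈ S, w f : ℤ) : ℝ)| < r := by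
    intro S r hr hr0
    rcases Nat.eq_zero_or_pos R.odd.card with h4 | h4
    · have h5 : ∑ f ∈ S, w f = 0 := by
        rw [card_eq_zero] at h4
        exact sum_eq_zero fun f _ => w1 f (by rw [h4]; exact notMem_empty _)
      rw [h5]
      simpa using hr0
    · have h5 := w4 S
      have h6 : (0 : ℝ) < R.odd.card := by exact_mod_cast h4
      have h7 : ((R.odd.card - 1 : ℕ) : ℝ) < R.odd.card := by
        exact_mod_cast Nat.sub_lt h4 one_pos
      by_contra hcon
      rw [not_lt] at hcon
      have h8 := mul_le_mul_of_nonneg_left hcon h6.le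
      have h9 : ((R.odd.card - 1 : ℕ) : ℝ) * ∑ e ∈ cut s t S, om e.1.edge ≤
          ((R.odd.card - 1 : ℕ) : ℝ) * r := mul_le_mul_of_nonneg_left hr (Nat.cast_nonneg _)
      have h10 : ((R.odd.card - 1 : ℕ) : ℝ) * r < R.odd.card * r :=
        mul_lt_mul_of_pos_right h7 hr0
      linarith
  -- the sides of the 5-cycles
  have hsd : ∀ Q : Finset (Sym2 V), ∃ S : Finset R.Face, Q ∈ pent G → img S = Q := by
    intro Q
    by_cases hQ : Q ∈ pent G
    · obtain ⟨_, v, c, hc, hl, rfl⟩ := mem_filter.1 hQ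
      obtain ⟨S, hS⟩ := exists_side_of R hP c hc
      exact ⟨S, fun _ => image_cut_of_side R hS⟩
    · exact ⟨∅, fun h => absurd h hQ⟩
  choose sd hsd using hsd
  have hQ5 : ∀ Q ∈ pent G, Q.card = 5 := by
    intro Q hQ
    obtain ⟨x, hx, rfl⟩ := pent_param hQ
    rw [card_image_of_injective _ (pedge_injective hx.1)]
    rfl
  have hcard5 : ∀ Q ∈ pent G, (cut s t (sd Q)).card = 5 := by
    intro Q hQ
    rw [← himgc, hsd Q hQ, hQ5 Q hQ]
  have hsd1 : ∀ S, img S ∈ pent G → |∑ f ∈ S, w f| ≤ 1 := by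
    intro S hS
    have h1 := homS S
    have h3 := hsmall S 2 (by rw [h1]; exact hfive _ hS) (by norm_num)
    have h4 : |∑ f ∈ S, w f| < 2 := by exact_mod_cast h3
    omega
  have hconn : ∀ Y : Finset R.Face, cut s t Y = ∅ → Y = ∅ ∨ Y = univ := by
    intro Y hY
    refine R.cut_zero hP.1 ?_
    rw [← card_cut_eq]
    exact card_eq_zero.2 hY
  -- the main estimate
  have main : ∀ (n : ℕ) (Z : Finset R.Face), (cut s t Z).card = n → MinCut s t Z →
      3 * |∑ f ∈ Z, w f| < n := by
    intro n
    induction n using Nat.strong_induction_on with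
    | _ n ih =>
    intro Z hn hZ
    have hn0 : 0 < n := by
      rw [← hn]
      exact card_pos.2 hZ.1
    by_cases hsub : ∃ Q ∈ pent G, Q ⊆ img Z
    · obtain ⟨Q, hQ, hQZ⟩ := hsub
      have h1 : cut s t (sd Q) = cut s t Z := by
        refine hZ.2 _ (fun e he => ?_) ?_
        · rw [← himg]
          refine hQZ ?_
          rw [← hsd Q hQ]
          exact (himg _ e).2 he
        · rw [← card_pos, hcard5 Q hQ]
          norm_num
      have h2 : img Z = Q := by
        rw [← hsd Q hQ]
        show (cut s t Z).image _ = (cut s t (sd Q)).image _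
        rw [h1]
      have h3 := hsd1 Z (by rw [h2]; exact hQ)
      have h4 : n = 5 := by rw [← hn, ← h1, hcard5 Q hQ]
      omega
    by_cases hheavy : ∃ Q ∈ pent G, 4 ≤ (Q ∩ img Z).card
    · obtain ⟨Q, hQ, h4⟩ := hheavy
      have h5' : (Q ∩ img Z).card = 4 := by
        have h6 := card_le_card (inter_subset_left (s₁ := Q) (s₂ := img Z))
        have h6' := hQ5 Q hQ
        by_contra hne
        have h7 : (Q ∩ img Z).card = Q.card := by omega
        have h8 := eq_of_subset_of_card_le inter_subset_left h7.ge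
        exact hsub ⟨Q, hQ, h8 ▸ inter_subset_right⟩
      have h6 : (cut s t Z ∩ cut s t (sd Q)).card = 4 := by
        rw [← h5', ← card_image_of_injOn (hinj (cut s t Z ∩ cut s t (sd Q)))]
        congr 1
        ext f
        rw [mem_image, mem_inter]
        constructor
        · rintro ⟨e, he, rfl⟩
          rw [mem_inter] at he
          refine ⟨?_, (himg Z e).2 he.1⟩
          rw [← hsd Q hQ]
          exact (himg _ e).2 he.2
        · rintro ⟨h7, h8⟩
          obtain ⟨e, he, rfl⟩ := mem_image.1 h8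
          refine ⟨e, mem_inter.2 ⟨he, ?_⟩, rfl⟩
          rw [← hsd Q hQ] at h7
          exact (himg _ e).1 h7
      have h7 := Switch.minCut_switch s t hZ (hcard5 Q hQ) h6
      have h8 := Switch.charge_switch s t hconn w w3 hZ (hcard5 Q hQ) h6
      have h9 := hsd1 (sd Q) (by rw [hsd Q hQ]; exact hQ)
      have h10 : (cut s t (Z ∆ sd Q)).card + 3 = n := by
        obtain ⟨e, he⟩ := Switch.split_five s t (hcard5 Q hQ) h6
        have e1 : (cut s t (Z ∆ sd Q)).card =
            (cut s t Z \ cut s t (sd Q)).card + (cut s t (sd Q) \ cut s t Z).card := by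
          rw [cut_symmDiff, symmDiff_def, Finset.sup_eq_union, card_union_of_disjoint]
          rw [Finset.disjoint_left]
          intro f h1 h2
          exact (mem_sdiff.1 h1).2 (mem_sdiff.1 h2).1
        rw [he, card_singleton] at e1
        have e2 := card_sdiff_add_card_inter (cut s t Z) (cut s t (sd Q))
        omega
      have h11 := ih _ (by omega) (Z ∆ sd Q) rfl h7
      omega
    · push Not at hheavy
      have h1 := homS Z
      have h2 := hup (img Z) (himgG Z) (deg_cut R hdeg Z) (fun Q hQ => by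
        have := hheavy Q hQ
        omega)
      rw [himgc, hn] at h2
      have h4 := hsmall Z (n / 3) (by rw [h1]; exact h2) (by
        have : (0 : ℝ) < n := by exact_mod_cast hn0
        positivity)
      have h5' : 3 * |((∑ f ∈ Z, w f : ℤ) : ℝ)| < n := by linarith
      exact_mod_cast h5'
  have hm1 : 1 ≤ G.edgeFinset.card := one_le_edges R hP
  refine ⟨w, w1, w2, w3, ?_⟩
  have key := bound_of_conn s t (connS_univ R hP) w w3 (G.edgeFinset.card - 1)
    (3 * G.edgeFinset.card) (fun Z hZ1 hZ2 hn1 hn2 => by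
      have hcut0 : (cut s t Z).Nonempty := by
        by_contra hcon
        rw [not_nonempty_iff_eq_empty] at hcon
        rcases hconn Z hcon with h | h
        · rw [h] at hn1
          exact not_nonempty_empty hn1
        · rw [h, compl_univ] at hn2
          exact not_nonempty_empty hn2
      have h1 := main _ Z rfl (minCut_of_conn_ne s t hZ1 hZ2 hcut0)
      have h2 : (cut s t Z).card ≤ G.edgeFinset.card := by
        rw [← card_up]
        exact card_le_univ _
      have e1 : ((G.edgeFinset.card - 1 : ℕ) : ℤ) = G.edgeFinset.card - 1 := by omega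
      rw [e1]
      have h3 : ((cut s t Z).card : ℤ) ≤ G.edgeFinset.card := by exact_mod_cast h2
      have h4 : 3 * |∑ f ∈ Z, w f| + 1 ≤ ((cut s t Z).card : ℤ) := h1
      have h5' : (1 : ℤ) ≤ G.edgeFinset.card := by exact_mod_cast hm1
      push_cast
      nlinarith)
  intro S
  have h1 := key S
  rwa [card_cut_eq] at h1

/-- A colouring with `6 m` colours from strict charges. -/
theorem colour_strict [DecidableRel G.Adj] (R : Rot G) (hP : R.Plane) (w : R.Face → ℤ)
    (w2 : ∀ f, (2 : ℤ) ∣ w f - (R.cut {f} : ℤ)) (w3 : ∑ f, w f = 0)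
    (h : ∀ S : Finset R.Face, ((3 * G.edgeFinset.card : ℕ) : ℤ) * |∑ f ∈ S, w f| ≤
      ((G.edgeFinset.card - 1 : ℕ) : ℤ) * R.cut S) :
    ∃ c : V → ℕ, (∀ v, c v < 6 * G.edgeFinset.card) ∧
      ∀ u v, G.Adj u v → ((2 * G.edgeFinset.card + 1 : ℕ) : ℤ) ≤ |(c u : ℤ) - c v| ∧
        |(c u : ℤ) - c v| ≤ (6 * G.edgeFinset.card : ℕ) - (2 * G.edgeFinset.card + 1 : ℕ) := by
  classical
  have hm1 : 1 ≤ G.edgeFinset.card := one_le_edges R hP
  refine colour_of_good_pq R hP (by omega) (by omega) (good_of_conn_bound _ _ (connS_univ R hP) w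
    ?_ w3 (by omega) ?_)
  · intro f
    rw [card_cut_eq]
    exact w2 f
  · intro Z _ _ _ _
    have h1 := h Z
    rw [← card_cut_eq] at h1
    have e1 : ((6 * G.edgeFinset.card - 2 * (2 * G.edgeFinset.card + 1) : ℕ) : ℤ) =
        2 * ((G.edgeFinset.card - 1 : ℕ) : ℤ) := by omega
    rw [e1]
    push_cast at h1 ⊢
    linarith

/-- With at most twelve odd faces, all of length at most nine, strict charges give a
`(20, 7)`-colouring. -/
theorem colour_twelve [DecidableRel G.Adj] (R : Rot G) (hP : R.Plane) (w : R.Face → ℤ)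
    (w1 : ∀ f, f ∉ R.odd → w f = 0)
    (w2 : ∀ f, (2 : ℤ) ∣ w f - (R.cut {f} : ℤ)) (w3 : ∑ f, w f = 0)
    (h : ∀ S : Finset R.Face, ((3 * G.edgeFinset.card : ℕ) : ℤ) * |∑ f ∈ S, w f| ≤
      ((G.edgeFinset.card - 1 : ℕ) : ℤ) * R.cut S)
    (hN : R.odd.card ≤ 13) (h9 : ∀ f ∈ R.odd, R.size f ≤ 9) :
    ∃ c : V → ℕ, (∀ v, c v < 20) ∧
      ∀ u v, G.Adj u v → (7 : ℤ) ≤ |(c u : ℤ) - c v| ∧ |(c u : ℤ) - c v| ≤ 20 - 7 := by
  classical
  have hm1 : 1 ≤ G.edgeFinset.card := one_le_edges R hP
  have hm1' : (1 : ℤ) ≤ G.edgeFinset.card := by exact_mod_cast hm1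
  -- strict inequalities
  have hst : ∀ S : Finset R.Face, 0 < R.cut S → 3 * |∑ f ∈ S, w f| < R.cut S := by
    intro S hS
    have h1 := h S
    have e1 : ((G.edgeFinset.card - 1 : ℕ) : ℤ) = G.edgeFinset.card - 1 := by omega
    rw [e1] at h1
    push_cast at h1
    have h2 : (0 : ℤ) < R.cut S := by exact_mod_cast hS
    by_contra hcon
    rw [not_lt] at hcon
    nlinarith
  have hz : ∀ S : Finset R.Face, R.cut S = 0 → ∑ f ∈ S, w f = 0 := by
    intro S hS
    have h1 := h S
    rw [hS] at h1
    push_cast at h1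
    have h2 := abs_nonneg (∑ f ∈ S, w f)
    have h3 : |∑ f ∈ S, w f| = 0 := by
      by_contra hne
      have h4 : 0 < |∑ f ∈ S, w f| := lt_of_le_of_ne h2 (Ne.symm hne)
      nlinarith
    exact abs_eq_zero.1 h3
  -- the charges of the faces
  have hw1 : ∀ f, |w f| ≤ if f ∈ R.odd then 1 else 0 := by
    intro f
    split_ifs with hf
    · rcases Nat.eq_zero_or_pos (R.cut {f}) with h0 | h0
      · have := hz {f} h0
        rw [sum_singleton] at this
        rw [this]
        norm_num
      · have h1 := hst {f} h0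
        rw [sum_singleton] at h1
        have h2 := (size_cut R f).trans (h9 f hf)
        have h3 : R.cut {f} % 2 = 1 := by
          have h4 := R.cut_parity {f}
          have h5 : (({f} : Finset R.Face) ∩ R.odd).card = 1 := by
            rw [singleton_inter_of_mem hf, card_singleton]
          rw [h5, Nat.even_iff] at h4
          omega
        have h4 := w2 f
        have h5 : |w f| < 3 := by omega
        rw [abs_lt] at h5
        rw [abs_le]
        omega
    · rw [w1 f hf]
      norm_num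
  have hsum : ∀ S : Finset R.Face, |∑ f ∈ S, w f| ≤ ((S ∩ R.odd).card : ℤ) := by
    intro S
    refine (abs_sum_le_sum_abs _ _).trans ((sum_le_sum fun f _ => hw1 f).trans ?_)
    rw [← sum_filter, sum_const, nsmul_eq_mul, mul_one, filter_mem_eq_inter]
  have hsix : ∀ S : Finset R.Face, |∑ f ∈ S, w f| ≤ 6 := by
    intro S
    have h1 := hsum S
    have h2 := hsum Sᶜ
    have h3 : |∑ f ∈ Sᶜ, w f| = |∑ f ∈ S, w f| := by
      have h4 := sum_add_sum_compl S w
      rw [w3] at h4
      have h5 : ∑ f ∈ Sᶜ, w f = -∑ f ∈ S, w f := by linarith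
      rw [h5, abs_neg]
    rw [h3] at h2
    have h4 : (S ∩ R.odd).card + (Sᶜ ∩ R.odd).card = R.odd.card := by
      rw [← card_union_of_disjoint, ← union_inter_distrib_right, union_compl, univ_inter]
      exact (disjoint_compl_right (a := S)).mono inter_subset_left inter_subset_left
    omega
  have key := colour_of_good_pq R hP (p := 20) (q := 7) (by norm_num) (by norm_num)
    (good_of_conn_bound _ _ (connS_univ R hP) w (fun f => by rw [card_cut_eq]; exact w2 f) w3
      (by norm_num) ?_)
  · obtain ⟨c, hc1, hc2⟩ := key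
    exact ⟨c, hc1, fun u v huv => by simpa using hc2 u v huv⟩
  · intro Z _ _ _ _
    rw [card_cut_eq]
    show (20 : ℤ) * |∑ f ∈ Z, w f| ≤ (6 : ℤ) * (R.cut Z : ℤ)
    rcases Nat.eq_zero_or_pos (R.cut Z) with h0 | h0
    · rw [hz Z h0, h0]
      norm_num
    · have h1 := hst Z h0
      have h2 := hsix Z
      have h3 : (2 : ℤ) ∣ ∑ v ∈ Z, w v - (R.cut Z : ℤ) := by
        have h4 := chg_parity (fun e : Up G => R.face e.1) (fun e : Up G => R.face e.1.symm)
          (w := w) (fun f => by rw [card_cut_eq]; exact w2 f) Z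
        rwa [card_cut_eq] at h4
      rcases abs_cases (∑ f ∈ Z, w f) with ⟨h4, _⟩ | ⟨h4, _⟩ <;> rw [h4] at h1 h2 ⊢ <;> omega

end Pool.Agent.OddFlow
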