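import Mathlib
import Pool.Agent.Work.MP_392c8e_co_odd.StrictCore

/-!
# Plane subcubic graphs: fractional exits of the 5-cycles

Weights of the vertices which add up to one on every 5-cycle and vanish on the vertices of two
5-cycles; every odd cycle `C` of length at least seven meets a weight of at most `|C| - 6` in
short runs.  Then the faces have strict charges.
-/

namespace Pool.Agent.OddFlow

open Finset Pool.Agent.Circ Pool.Agent.Sub392

set_option linter.unusedSectionVars false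

variable {V : Type} [Fintype V] [DecidableEq V] {G : SimpleGraph V}

/-- The component at `t` of the intersection of the 5-cycle `P` with `D` is not trivial, and all
its edges contain `t`. -/
def HitAt (D P : Finset (Sym2 V)) (t : V) : Prop :=
  (∃ e ∈ P, e ∈ D ∧ t ∈ e) ∧
    ∀ e ∈ P, ∀ f ∈ P, e ∈ D → f ∈ D → t ∈ e → t ∉ f → ∀ v, v ∈ e → v ∉ f

theorem excE_hit : ∀ d : Fin 5 → Bool, exc aE bE d < 0 →
    (d 0 = true ∨ d 4 = true) ∧ (d 0 = true → d 1 = false) ∧ (d 4 = true → d 3 = false) := by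
  unfold exc
  decide

theorem hit_of_exc {x : Fin 5 → V} (hx : Function.Injective x) (D : Finset (Sym2 V))
    (h : exc aE bE (pat x D) < 0) : HitAt D (univ.image (pedge x)) (x 0) := by
  classical
  obtain ⟨h1, h2, h3⟩ := excE_hit _ h
  have hm : ∀ i, pedge x i ∈ univ.image (pedge x) := fun i => mem_image_of_mem _ (mem_univ _)
  have hp : ∀ i, pat x D i = true ↔ pedge x i ∈ D := by
    intro i
    unfold pat
    exact decide_eq_true_iff
  have hn : ∀ i, pat x D i = false ↔ pedge x i ∉ D := by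
    intro i
    unfold pat
    exact decide_eq_false_iff_not
  simp only [hp, hn] at h1 h2 h3
  constructor
  · rcases h1 with h1 | h1
    · exact ⟨_, hm 0, h1, (mem_pedge hx).2 (Or.inl rfl)⟩
    · exact ⟨_, hm 4, h1, (mem_pedge hx).2 (Or.inr rfl)⟩
  · intro e he f hf heD hfD hte htf v hve hvf
    obtain ⟨i, _, rfl⟩ := mem_image.1 he
    obtain ⟨j, _, rfl⟩ := mem_image.1 hf
    rw [mem_pedge hx] at hte htf
    have hv : ∃ k, v = x k := by
      unfold pedge at hve
      rcases Sym2.mem_iff.1 hve with h4 | h4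
      · exact ⟨_, h4⟩
      · exact ⟨_, h4⟩
    obtain ⟨k, rfl⟩ := hv
    rw [mem_pedge hx] at hve hvf
    have key : ∀ i j k : Fin 5, (i = 0 ∨ i = 0 - 1) → ¬ (j = 0 ∨ j = 0 - 1) →
        (i = k ∨ i = k - 1) → (j = k ∨ j = k - 1) → (i = 0 ∧ j = 1) ∨ (i = 4 ∧ j = 3) := by
      decide
    rcases key i j k hte htf hve hvf with ⟨rfl, rfl⟩ | ⟨rfl, rfl⟩
    · exact h2 heD hfD
    · exact h3 heD hfD

/-- Two 5-cycles through a vertex which avoid an edge at this vertex have the same edges there. -/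
theorem same_at
    (hdeg : ∀ (x : V) (A : Finset (Sym2 V)), (∀ e ∈ A, e ∈ G.edgeSet ∧ x ∈ e) → A.card ≤ 3)
    {Q : Finset (Sym2 V)} {y : Fin 5 → V} (hy : IsPent G y) (hQ : Q = univ.image (pedge y))
    {e f : Sym2 V} {j : Fin 5} (he : e ∈ G.edgeSet) (hue : y j ∈ e) (heQ : e ∉ Q)
    (hf : f ∈ G.edgeSet) (huf : y j ∈ f) (hef : e ≠ f) : f ∈ Q := by
  classical
  subst hQ
  by_contra hcon
  have h5 := hdeg (y j) {f, e, pedge y (j - 1), pedge y j} (by
    intro g hg
    simp only [mem_insert, mem_singleton] at hg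
    rcases hg with rfl | rfl | rfl | rfl
    · exact ⟨hf, huf⟩
    · exact ⟨he, hue⟩
    · exact ⟨hy.2 _, (mem_pedge hy.1).2 (Or.inr rfl)⟩
    · exact ⟨hy.2 _, (mem_pedge hy.1).2 (Or.inl rfl)⟩)
  rw [card_insert_of_notMem, card_insert_of_notMem, card_insert_of_notMem,
    card_singleton] at h5
  · omega
  · rw [mem_singleton]
    exact pedge_ne hy.1 j
  · simp only [mem_insert, mem_singleton, not_or]
    exact ⟨fun h => heQ (h ▸ mem_image_of_mem _ (mem_univ _)),
      fun h => heQ (h ▸ mem_image_of_mem _ (mem_univ _))⟩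
  · simp only [mem_insert, mem_singleton, not_or]
    exact ⟨Ne.symm hef, fun h => hcon (h ▸ mem_image_of_mem _ (mem_univ _)),
      fun h => hcon (h ▸ mem_image_of_mem _ (mem_univ _))⟩

theorem mem_verts_iff {P : Finset (Sym2 V)} {v : V} : v ∈ verts P ↔ ∃ e ∈ P, v ∈ e := by
  unfold verts
  rw [mem_filter]
  exact and_iff_right (mem_univ _)

/-- The data of a family of fractional exits. -/
structure Exits (G : SimpleGraph V) (μ : V → ℝ) (x : Finset (Sym2 V) → V → Fin 5 → V) :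
    Prop where
  nonneg : ∀ v, 0 ≤ μ v
  one : ∀ P ∈ pent G, ∑ t ∈ verts P, μ t = 1
  priv : ∀ P ∈ pent G, ∀ Q ∈ pent G, P ≠ Q → ∀ t ∈ verts P, t ∈ verts Q → μ t = 0
  pent : ∀ P ∈ pent G, ∀ t ∈ verts P, IsPent G (x P t)
  img : ∀ P ∈ OddFlow.pent G, ∀ t ∈ verts P, P = univ.image (pedge (x P t))
  zero : ∀ P ∈ OddFlow.pent G, ∀ t ∈ verts P, x P t 0 = t

theorem Exits.mem_zero {μ : V → ℝ} {x : Finset (Sym2 V) → V → Fin 5 → V} (hE : Exits G μ x)
    {P : Finset (Sym2 V)} (hP : P ∈ OddFlow.pent G) {t : V} (ht : t ∈ verts P) :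
    t ∈ pedge (x P t) 0 := by
  have h := (mem_pedge (hE.pent P hP t ht).1 (i := 0) (j := 0)).2 (Or.inl rfl)
  rw [hE.zero P hP t ht] at h
  exact h

theorem Exits.mem_four {μ : V → ℝ} {x : Finset (Sym2 V) → V → Fin 5 → V} (hE : Exits G μ x)
    {P : Finset (Sym2 V)} (hP : P ∈ OddFlow.pent G) {t : V} (ht : t ∈ verts P) :
    t ∈ pedge (x P t) 4 := by
  have h := (mem_pedge (hE.pent P hP t ht).1 (i := 0) (j := 4)).2 (Or.inr rfl)
  rw [hE.zero P hP t ht] at h
  exact h

/-- The weight of the edges. -/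
noncomputable def wm (G : SimpleGraph V) (μ : V → ℝ) (x : Finset (Sym2 V) → V → Fin 5 → V)
    (e : Sym2 V) : ℝ :=
  1 / 3 + 1 / 6 * ∑ P ∈ pent G, ∑ t ∈ verts P, μ t * ((ctr aE bE (x P t) e : ℤ) : ℝ)

theorem sum_wm {μ : V → ℝ} {x : Finset (Sym2 V) → V → Fin 5 → V} (hE : Exits G μ x)
    (D : Finset (Sym2 V)) (hDG : ∀ e ∈ D, e ∈ G.edgeSet)
    (hdeg : ∀ (x : V) (A : Finset (Sym2 V)), (∀ e ∈ A, e ∈ G.edgeSet ∧ x ∈ e) → A.card ≤ 3)
    (hD : ∀ x, (D.filter fun e => x ∈ e).card = 0 ∨ (D.filter fun e => x ∈ e).card = 2) :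
    ∑ e ∈ D, wm G μ x e = 1 / 3 * D.card +
      1 / 6 * ∑ P ∈ pent G, ∑ t ∈ verts P, μ t * ((exc aE bE (pat (x P t) D) : ℤ) : ℝ) := by
  unfold wm
  rw [sum_add_distrib, sum_const, nsmul_eq_mul, ← mul_sum, sum_comm]
  have h1 : ∑ P ∈ pent G, ∑ e ∈ D, ∑ t ∈ verts P, μ t * ((ctr aE bE (x P t) e : ℤ) : ℝ) =
      ∑ P ∈ pent G, ∑ t ∈ verts P, μ t * ((exc aE bE (pat (x P t) D) : ℤ) : ℝ) := by
    refine sum_congr rfl fun P hP => ?_
    rw [sum_comm]
    refine sum_congr rfl fun t ht => ?_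
    rw [← mul_sum, ← Int.cast_sum, sum_ctr aE bE (hE.pent P hP t ht) D hDG hdeg hD]
  rw [h1]
  ring

/-- The losses at one end of an edge. -/
theorem end_le {μ : V → ℝ} {x : Finset (Sym2 V) → V → Fin 5 → V} (hE : Exits G μ x)
    (hdeg : ∀ (x : V) (A : Finset (Sym2 V)), (∀ e ∈ A, e ∈ G.edgeSet ∧ x ∈ e) → A.card ≤ 3)
    {e : Sym2 V} (he : e ∈ G.edgeSet) {u : V} (hu : u ∈ e) :
    ∑ P ∈ pent G, ∑ t ∈ verts P, μ t *
      ((∑ i, (if x P t i = u ∧ e ∉ univ.image (pedge (x P t)) then bE i else 0) : ℤ) : ℝ) ≤ 1 := by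
  classical
  set β : Finset (Sym2 V) → V → ℤ := fun P t =>
    ∑ i, (if x P t i = u ∧ e ∉ univ.image (pedge (x P t)) then bE i else 0) with hβ
  have hb0 : ∀ i, 0 ≤ bE i := by decide
  have hb1 : ∀ i, bE i ≤ 1 := by decide
  have hβ0 : ∀ P t, 0 ≤ β P t := by
    intro P t
    refine sum_nonneg fun i _ => ?_
    split_ifs
    · exact hb0 i
    · exact le_rfl
  have hβ1 : ∀ P ∈ pent G, ∀ t ∈ verts P, β P t ≤ 1 := by
    intro P hP t ht
    have h1 : β P t ≤ ∑ i, (if x P t i = u then 1 else 0 : ℤ) := by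
      refine sum_le_sum fun i _ => ?_
      by_cases h2 : x P t i = u
      · rw [if_pos h2]
        split_ifs
        · exact hb1 i
        · exact zero_le_one
      · rw [if_neg h2, if_neg fun h => h2 h.1]
    refine h1.trans ?_
    have h2 : ∑ i, (if x P t i = u then 1 else 0 : ℤ) =
        ((univ.filter fun i => x P t i = u).card : ℤ) := by
      rw [card_filter]
      push_cast
      rfl
    rw [h2]
    have h3 : (univ.filter fun i => x P t i = u).card ≤ 1 := by
      refine card_le_one.2 fun a ha b hb => ?_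
      exact (hE.pent P hP t ht).1 ((mem_filter.1 ha).2.trans (mem_filter.1 hb).2.symm)
    exact_mod_cast h3
  have hext : ∀ P ∈ pent G, ∀ t ∈ verts P, β P t ≠ 0 → e ∉ P ∧ ∃ i, x P t i = u ∧ bE i ≠ 0 := by
    intro P hP t ht h
    obtain ⟨i, _, hi⟩ := exists_ne_zero_of_sum_ne_zero h
    by_cases h2 : x P t i = u ∧ e ∉ univ.image (pedge (x P t))
    · rw [if_pos h2] at hi
      refine ⟨?_, i, h2.1, hi⟩
      rw [hE.img P hP t ht]
      exact h2.2
    · rw [if_neg h2] at hi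
      exact absurd rfl hi
  by_cases hall : ∀ P ∈ pent G, ∀ t ∈ verts P, μ t * ((β P t : ℤ) : ℝ) = 0
  · rw [sum_eq_zero fun P hP => sum_eq_zero fun t ht => hall P hP t ht]
    norm_num
  push Not at hall
  obtain ⟨P, hP, t, ht, hne⟩ := hall
  have hμt : μ t ≠ 0 := fun h => hne (by rw [h, zero_mul])
  have hβt : β P t ≠ 0 := fun h => hne (by rw [h, Int.cast_zero, mul_zero])
  obtain ⟨heP, i, hiu, hi⟩ := hext P hP t ht hβt
  have hxP := hE.pent P hP t ht
  have hPi := hE.img P hP t ht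
  have hx0 := hE.zero P hP t ht
  have hmem : ∀ j, pedge (x P t) j ∈ P := by
    intro j
    have := mem_image_of_mem (pedge (x P t)) (mem_univ j)
    rwa [← hPi] at this
  obtain ⟨f, hfP, huf, htf⟩ : ∃ f ∈ P, u ∈ f ∧ t ∈ f := by
    have k : ∀ i : Fin 5, bE i ≠ 0 → i = 0 ∨ i = 1 ∨ i = 4 := by decide
    rcases k i hi with rfl | rfl | rfl
    · refine ⟨_, hmem 0, ?_, ?_⟩
      · rw [← hiu]
        exact (mem_pedge hxP.1).2 (Or.inl rfl)
      · exact hE.mem_zero hP ht
    · refine ⟨_, hmem 0, ?_, ?_⟩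
      · rw [← hiu]
        exact (mem_pedge hxP.1).2 (Or.inr rfl)
      · exact hE.mem_zero hP ht
    · refine ⟨_, hmem 4, ?_, ?_⟩
      · rw [← hiu]
        exact (mem_pedge hxP.1).2 (Or.inl rfl)
      · exact hE.mem_four hP ht
  have hfG : f ∈ G.edgeSet := by
    rw [hPi] at hfP
    obtain ⟨j, _, rfl⟩ := mem_image.1 hfP
    exact hxP.2 j
  have hother : ∀ Q ∈ pent G, Q ≠ P → ∑ t' ∈ verts Q, μ t' * ((β Q t' : ℤ) : ℝ) = 0 := by
    intro Q hQ hQP
    refine sum_eq_zero fun t' ht' => ?_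
    by_contra hcon
    have hβ' : β Q t' ≠ 0 := fun h => hcon (by rw [h, Int.cast_zero, mul_zero])
    obtain ⟨heQ, j, hju, _⟩ := hext Q hQ t' ht' hβ'
    have hfQ : f ∈ Q := same_at hdeg (hE.pent Q hQ t' ht') (hE.img Q hQ t' ht') (j := j) he
      (by rw [hju]; exact hu) heQ hfG (by rw [hju]; exact huf) (fun h => heP (h ▸ hfP))
    exact hμt (hE.priv P hP Q hQ (Ne.symm hQP) t ht (mem_verts_iff.2 ⟨f, hfQ, htf⟩))
  rw [sum_eq_single_of_mem P hP hother, ← hE.one P hP]
  refine sum_le_sum fun t' ht' => ?_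
  have h1 : ((β P t' : ℤ) : ℝ) ≤ 1 := by exact_mod_cast hβ1 P hP t' ht'
  have h2 := mul_le_mul_of_nonneg_left h1 (hE.nonneg t')
  rwa [mul_one] at h2

theorem wm_nonneg {μ : V → ℝ} {x : Finset (Sym2 V) → V → Fin 5 → V} (hE : Exits G μ x)
    (hdeg : ∀ (x : V) (A : Finset (Sym2 V)), (∀ e ∈ A, e ∈ G.edgeSet ∧ x ∈ e) → A.card ≤ 3)
    {e : Sym2 V} (he : e ∈ G.edgeSet) : 0 ≤ wm G μ x e := by
  classical
  have h1 : ∀ P ∈ pent G, ∀ t ∈ verts P,
      -(∑ u ∈ univ.filter (fun v => v ∈ e),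
        ∑ i, (if x P t i = u ∧ e ∉ univ.image (pedge (x P t)) then bE i else 0)) ≤
      ctr aE bE (x P t) e := by
    intro P hP t ht
    have h2 : ∑ u ∈ univ.filter (fun v => v ∈ e),
        ∑ i, (if x P t i = u ∧ e ∉ univ.image (pedge (x P t)) then bE i else 0) =
        ∑ i, (if x P t i ∈ e ∧ e ∉ univ.image (pedge (x P t)) then bE i else 0) := by
      rw [sum_comm]
      refine sum_congr rfl fun i _ => ?_
      by_cases h3 : e ∉ univ.image (pedge (x P t))
      · simp only [h3, not_false_eq_true, and_true]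
        rw [sum_ite_eq]
        simp
      · simp only [h3, and_false, if_false, sum_const_zero]
    rw [h2]
    unfold ctr
    have h3 : 0 ≤ ∑ i, (if e = pedge (x P t) i then aE i else 0) := by
      refine sum_nonneg fun i _ => ?_
      have k : ∀ i, 0 ≤ aE i := by decide
      split_ifs
      · exact k i
      · exact le_rfl
    linarith
  have h2 : -(∑ u ∈ univ.filter (fun v => v ∈ e), ∑ P ∈ pent G, ∑ t ∈ verts P, μ t *
      ((∑ i, (if x P t i = u ∧ e ∉ univ.image (pedge (x P t)) then bE i else 0) : ℤ) : ℝ)) ≤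
      ∑ P ∈ pent G, ∑ t ∈ verts P, μ t * ((ctr aE bE (x P t) e : ℤ) : ℝ) := by
    rw [sum_comm, ← sum_neg_distrib]
    refine sum_le_sum fun P hP => ?_
    rw [sum_comm, ← sum_neg_distrib]
    refine sum_le_sum fun t ht => ?_
    rw [← mul_sum, ← Int.cast_sum, ← mul_neg, ← Int.cast_neg]
    refine mul_le_mul_of_nonneg_left ?_ (hE.nonneg t)
    exact_mod_cast h1 P hP t ht
  have h3 : ∑ u ∈ univ.filter (fun v => v ∈ e), ∑ P ∈ pent G, ∑ t ∈ verts P, μ t *
      ((∑ i, (if x P t i = u ∧ e ∉ univ.image (pedge (x P t)) then bE i else 0) : ℤ) : ℝ) ≤ 2 := by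
    have h4 := sum_le_sum fun u (hu : u ∈ univ.filter (fun v => v ∈ e)) =>
      end_le hE hdeg he (mem_filter.1 hu).2
    rw [sum_const, card_ends he, nsmul_eq_mul] at h4
    norm_num at h4 ⊢
    exact h4
  unfold wm
  linarith

/-- The excesses at a 5-cycle add up to two. -/
theorem five_mu {μ : V → ℝ} {x : Finset (Sym2 V) → V → Fin 5 → V} (hE : Exits G μ x)
    (hdeg : ∀ (x : V) (A : Finset (Sym2 V)), (∀ e ∈ A, e ∈ G.edgeSet ∧ x ∈ e) → A.card ≤ 3)
    {Q : Finset (Sym2 V)} (hQ : Q ∈ pent G) :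
    ∑ P ∈ pent G, ∑ t ∈ verts P, μ t * ((exc aE bE (pat (x P t) Q) : ℤ) : ℝ) = 2 := by
  classical
  have hmem : ∀ P ∈ pent G, ∀ t ∈ verts P, ∀ j, pedge (x P t) j ∈ P := by
    intro P hP t ht j
    have := mem_image_of_mem (pedge (x P t)) (mem_univ j)
    rwa [← hE.img P hP t ht] at this
  have hother : ∀ P ∈ pent G, P ≠ Q →
      ∑ t ∈ verts P, μ t * ((exc aE bE (pat (x P t) Q) : ℤ) : ℝ) = 0 := by
    intro P hP hne
    refine sum_eq_zero fun t ht => ?_
    by_cases htQ : t ∈ verts Q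
    · rw [hE.priv P hP Q hQ hne t ht htQ, zero_mul]
    · have h1 : exc aE bE (pat (x P t) Q) = 0 := by
        refine le_antisymm (excE_le _ ?_) (excE_nonneg _ ?_ ?_)
        · have h3 := inter_le_three hdeg hP hQ hne
          have h4 := card_pat (hE.pent P hP t ht).1 Q
          rw [← hE.img P hP t ht] at h4
          omega
        · unfold pat
          rw [decide_eq_false_iff_not]
          intro h2
          exact htQ (mem_verts_iff.2 ⟨_, h2, hE.mem_zero hP ht⟩)
        · unfold pat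
          rw [decide_eq_false_iff_not]
          intro h2
          exact htQ (mem_verts_iff.2 ⟨_, h2, hE.mem_four hP ht⟩)
      rw [h1, Int.cast_zero, mul_zero]
  rw [sum_eq_single_of_mem Q hQ hother]
  have h1 : ∀ t ∈ verts Q, μ t * ((exc aE bE (pat (x Q t) Q) : ℤ) : ℝ) = μ t * 2 := by
    intro t ht
    rw [excE_full _ fun i => by
      unfold pat
      simpa using hmem Q hQ t ht i]
    norm_num
  rw [sum_congr rfl h1, ← sum_mul, hE.one Q hQ, one_mul]

open scoped Classical in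
/-- **Strict charges from fractional exits.** -/
theorem strict_mu [DecidableRel G.Adj] (R : Rot G) (hP : R.Plane) (hΔ : ∀ v, G.degree v ≤ 3)
    (hG : G.CliqueFree 3) {μ : V → ℝ} {x : Finset (Sym2 V) → V → Fin 5 → V} (hE : Exits G μ x)
    (h7 : ∀ (v : V) (c : G.Walk v v), c.IsCycle → Odd c.length → 7 ≤ c.length →
      ∑ P ∈ pent G, ∑ t ∈ (verts P).filter (fun t => HitAt c.edges.toFinset P t), μ t + 6 ≤
        c.length) :
    ∃ w : R.Face → ℤ, (∀ f, f ∉ R.odd → w f = 0) ∧ (∀ f, (2 : ℤ) ∣ w f - (R.cut {f} : ℤ)) ∧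
      (∑ f, w f = 0) ∧ ∀ S : Finset R.Face,
        ((3 * G.edgeFinset.card : ℕ) : ℤ) * |∑ f ∈ S, w f| ≤
          ((G.edgeFinset.card - 1 : ℕ) : ℤ) * R.cut S := by
  have hdeg := deg_le hΔ
  have hcyc : ∀ (v : V) (c : G.Walk v v), c.IsCycle → (c.edges.map (wm G μ x)).sum =
      1 / 3 * c.length + 1 / 6 * ∑ P ∈ pent G, ∑ t ∈ verts P,
        μ t * ((exc aE bE (pat (x P t) c.edges.toFinset) : ℤ) : ℝ) := by
    intro v c hc
    rw [← List.sum_toFinset _ hc.edges_nodup, sum_wm hE _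
      (fun e he => c.edges_subset_edgeSet (List.mem_toFinset.1 he)) hdeg (deg_cycle hdeg c hc),
      List.toFinset_card_of_nodup hc.edges_nodup, SimpleGraph.Walk.length_edges]
  refine strict_core R hP hdeg (wm G μ x) (fun e he => wm_nonneg hE hdeg he) ?_ ?_ ?_
  · intro v c hc ho
    have hl5 := five_le_length hG c hc ho
    rw [hcyc v c hc]
    by_cases hl : c.length = 5
    · have h1 : c.edges.toFinset ∈ pent G := mem_filter.2 ⟨mem_univ _, v, c, hc, hl, rfl⟩
      rw [five_mu hE hdeg h1, hl]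
      norm_num
    · have hl7 : 7 ≤ c.length := by
        rw [Nat.odd_iff] at ho
        omega
      have h1 := h7 v c hc ho hl7
      have h2 : -2 * ∑ P ∈ pent G,
          ∑ t ∈ (verts P).filter (fun t => HitAt c.edges.toFinset P t), μ t ≤
          ∑ P ∈ pent G, ∑ t ∈ verts P,
            μ t * ((exc aE bE (pat (x P t) c.edges.toFinset) : ℤ) : ℝ) := by
        rw [mul_sum]
        refine sum_le_sum fun P hP => ?_
        rw [mul_sum, sum_filter]
        refine sum_le_sum fun t ht => ?_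
        split_ifs with h
        · have h3 : (-2 : ℝ) ≤ ((exc aE bE (pat (x P t) c.edges.toFinset) : ℤ) : ℝ) := by
            exact_mod_cast excE_ge _
          have h4 := mul_le_mul_of_nonneg_left h3 (hE.nonneg t)
          linarith
        · refine mul_nonneg (hE.nonneg t) ?_
          by_contra hcon
          rw [not_le] at hcon
          have h3 : exc aE bE (pat (x P t) c.edges.toFinset) < 0 := by exact_mod_cast hcon
          have h4 := hit_of_exc (hE.pent P hP t ht).1 _ h3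
          rw [← hE.img P hP t ht, hE.zero P hP t ht] at h4
          exact h h4
      linarith
  · intro Q hQ
    obtain ⟨_, v, c, hc, hl, rfl⟩ := mem_filter.1 hQ
    rw [sum_wm hE _ (fun e he => c.edges_subset_edgeSet (List.mem_toFinset.1 he)) hdeg
      (deg_cycle hdeg c hc), five_mu hE hdeg hQ, List.toFinset_card_of_nodup hc.edges_nodup,
      SimpleGraph.Walk.length_edges, hl]
    norm_num
  · intro D hDG hD h3
    rw [sum_wm hE D hDG hdeg hD]
    have h1 : ∑ P ∈ pent G, ∑ t ∈ verts P, μ t * ((exc aE bE (pat (x P t) D) : ℤ) : ℝ) ≤ 0 := by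
      refine sum_nonpos fun P hP => sum_nonpos fun t ht => ?_
      refine mul_nonpos_of_nonneg_of_nonpos (hE.nonneg t) ?_
      have h4 : exc aE bE (pat (x P t) D) ≤ 0 := by
        refine excE_le _ ?_
        have h5 := card_pat (hE.pent P hP t ht).1 D
        rw [← hE.img P hP t ht] at h5
        have := h3 P hP
        omega
      exact_mod_cast h4
    linarith

/-- Fractional exits from a weight of the vertices. -/
theorem exists_exits {μ : V → ℝ} (h0 : ∀ v, 0 ≤ μ v)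
    (h1 : ∀ P ∈ pent G, ∑ t ∈ verts P, μ t = 1)
    (h2 : ∀ P ∈ pent G, ∀ Q ∈ pent G, P ≠ Q → ∀ t ∈ verts P, t ∈ verts Q → μ t = 0) :
    ∃ x : Finset (Sym2 V) → V → Fin 5 → V, Exits G μ x := by
  classical
  have hpar : ∀ (P : Finset (Sym2 V)) (t : V), ∃ x : Fin 5 → V, P ∈ pent G → t ∈ verts P →
      IsPent G x ∧ P = univ.image (pedge x) ∧ x 0 = t := by
    intro P t
    by_cases h : P ∈ pent G ∧ t ∈ verts P
    · obtain ⟨x, h1, h2, h3⟩ := pent_param_at h.1 h.2
      exact ⟨x, fun _ _ => ⟨h1, h2, h3⟩⟩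
    · exact ⟨fun _ => t, fun h' h'' => absurd ⟨h', h''⟩ h⟩
  choose x hx using hpar
  exact ⟨x, h0, h1, h2, fun P hP t ht => (hx P t hP ht).1, fun P hP t ht => (hx P t hP ht).2.1,
    fun P hP t ht => (hx P t hP ht).2.2⟩

end Pool.Agent.OddFlow
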