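import Mathlib
import Pool.Agent.Work.MP_392c8e_co_odd.SplitC

/-!
# Splitting off down to degree `k` at every odd vertex

In a graph all of whose odd cuts have at least `k` edges one can split off pairs of edges until all
vertices of even degree are isolated and all vertices of odd degree have degree exactly `k`.
-/

namespace Pool.Agent.OddFlow

open Finset Pool.Agent.Circ

set_option linter.unusedSectionVars false

variable {V E : Type*} [Fintype V] [DecidableEq V] [Fintype E] [DecidableEq E]

namespace Split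

/-- Some edge at a vertex `v` of degree more than `k` can be split off together with `e₀`: no cut
of size `k` separates `v` from the two other ends. -/
theorem exists_good_odd (s t : E → V) {k : ℕ} (hk : Odd k) (h : OddCut s t k) (v : V)
    (hkv : k < (cut s t {v}).card) {e₀ : E} (he₀ : e₀ ∈ cut s t {v}) :
    ∃ f₀ ∈ cut s t {v}, f₀ ≠ e₀ ∧
      ∀ S : Finset V, v ∉ S → oth s t v e₀ ∈ S → oth s t v f₀ ∈ S → (cut s t S).card ≠ k := by
  classical
  by_contra hcon
  push Not at hcon
  have hpos : 0 < (cut s t {v}).card := card_pos.2 ⟨e₀, he₀⟩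
  obtain ⟨f₁, hf₁, hf₁'⟩ : ∃ f₁ ∈ cut s t {v}, f₁ ≠ e₀ := by
    by_contra hc
    push Not at hc
    have : cut s t {v} = {e₀} := by
      apply subset_antisymm
      · intro f hf
        simp [hc f hf]
      · simpa using he₀
    rw [this] at hkv
    rcases hk with ⟨d, hd⟩
    simp at hkv
    omega
  let 𝒯 : Finset (Finset V) := univ.filter fun S => v ∉ S ∧ oth s t v e₀ ∈ S ∧ (cut s t S).card = k
  have h𝒯 : 𝒯.Nonempty := by
    obtain ⟨S, h1, h2, -, h4⟩ := hcon f₁ hf₁ hf₁'
    exact ⟨S, by simp [𝒯, h1, h2, h4]⟩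
  obtain ⟨S, hS, hmax⟩ := exists_max_image 𝒯 card h𝒯
  simp only [𝒯, mem_filter, mem_univ, true_and] at hS hmax
  obtain ⟨hvS, haS, hkS⟩ := hS
  have hends : ∀ T : Finset V, v ∉ T → oth s t v e₀ ∈ T →
      ((s e₀ ∈ S ∩ T ∧ t e₀ ∉ S ∪ T) ∨ (t e₀ ∈ S ∩ T ∧ s e₀ ∉ S ∪ T)) := by
    intro T h1 h2
    unfold oth at h2 haS
    rw [cut, mem_filter] at he₀
    by_cases hs : s e₀ = v
    · right
      simp_all
    · left
      have ht : t e₀ = v := by
        by_contra ht
        exact he₀.2 (by simp [hs, ht])
      simp_all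
  have key : ∀ T : Finset V, v ∉ T → oth s t v e₀ ∈ T → (cut s t T).card = k → T ⊆ S := by
    intro T hvT haT hkT
    have hpu := parity_union s t S T
    have hsm := sub_modular s t S T
    rw [hkS, hkT] at hpu hsm
    rcases Nat.even_or_odd (cut s t (S ∪ T)).card with hev | hod
    · exfalso
      have hi : Even (cut s t (S ∩ T)).card := by
        rcases Nat.even_or_odd (cut s t (S ∩ T)).card with h1 | h1
        · exact h1
        · exfalso
          rcases h1 with ⟨a, ha⟩
          rcases hev with ⟨b, hb⟩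
          rcases hpu with ⟨c, hc⟩
          omega
      have hp1 := parity_sdiff s t S T
      have hp2 := parity_sdiff s t T S
      rw [inter_comm T S] at hp2
      have ho1 : Odd (cut s t (S \ T)).card := by
        rw [← Nat.not_even_iff_odd]
        intro h1
        rw [hkS] at hp1
        rcases hp1 with ⟨a, ha⟩
        rcases h1 with ⟨b, hb⟩
        rcases hi with ⟨c, hc⟩
        rcases hk with ⟨d, hd⟩
        omega
      have ho2 : Odd (cut s t (T \ S)).card := by
        rw [← Nat.not_even_iff_odd]
        intro h1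
        rw [hkT] at hp2
        rcases hp2 with ⟨a, ha⟩
        rcases h1 with ⟨b, hb⟩
        rcases hi with ⟨c, hc⟩
        rcases hk with ⟨d, hd⟩
        omega
      have := posi_modular s t S T e₀ (hends T hvT haT)
      have h1 := h _ ho1
      have h2 := h _ ho2
      omega
    · have ho : Odd (cut s t (S ∩ T)).card := by
        rw [← Nat.not_even_iff_odd]
        intro h1
        rcases h1 with ⟨a, ha⟩
        rcases hod with ⟨b, hb⟩
        rcases hpu with ⟨c, hc⟩
        omega
      have h1 := h _ ho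
      have h2 := h _ hod
      have h3 : (cut s t (S ∪ T)).card = k := by omega
      have h4 := hmax (S ∪ T) ⟨by simp [hvS, hvT], by simp [haS], h3⟩
      have h5 : S = S ∪ T := eq_of_subset_of_card_le subset_union_left h4
      rw [h5]
      exact subset_union_right
  have hall : ∀ f ∈ cut s t {v}, oth s t v f ∈ S := by
    intro f hf
    by_cases hfe : f = e₀
    · rw [hfe]
      exact haS
    · obtain ⟨T, h1, h2, h3, h4⟩ := hcon f hf hfe
      exact key T h1 h2 h4 h3
  have hc := card_insert s t S v hvS
    (fun e h1 h2 => by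
      have := hall e (by simp [cut, h1, h2])
      simpa [oth, h1] using this)
    (fun e h1 h2 => by
      have := hall e (by simp [cut, h1, h2])
      simpa [oth, h2] using this)
  omega

end Split

/-- Splitting off two edges at a vertex of degree more than `k`; the cuts do not grow. -/
theorem exists_splitO (s t : E → V) {k : ℕ} (hk : Odd k) (h : OddCut s t k) (v : V)
    (hkv : k < (cut s t {v}).card) :
    ∃ s' t' : E → V, (∀ X, Odd (cut s' t' X).card ↔ Odd (cut s t X).card) ∧ OddCut s' t' k ∧
      (univ.filter fun e => s' e ≠ t' e).card < (univ.filter fun e => s e ≠ t e).card ∧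
      ∀ X, (cut s' t' X).card ≤ (cut s t X).card := by
  classical
  obtain ⟨e₀, he₀⟩ := card_ne_zero.1 (show (cut s t {v}).card ≠ 0 by omega)
  obtain ⟨f₀, hf₀, hne, hgood⟩ := Split.exists_good_odd s t hk h v hkv he₀
  have he₁ : ¬ (s e₀ = v ↔ t e₀ = v) := by simpa [cut] using he₀
  have hf₁ : ¬ (s f₀ = v ↔ t f₀ = v) := by simpa [cut] using hf₀
  let A : Finset E := univ.filter fun e => (e = e₀ ∧ s e₀ = v) ∨ (e = f₀ ∧ t f₀ = v)
  have hA1 : e₀ ∈ A ↔ s e₀ = v := by simp [A, hne.symm]
  have hA2 : f₀ ∈ A ↔ t f₀ = v := by simp [A, hne]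
  have e1 : Split.fl A t s e₀ = v := by
    unfold Split.fl
    by_cases h1 : s e₀ = v
    · simp [hA1.2 h1, h1]
    · rw [if_neg (fun h2 => h1 (hA1.1 h2))]
      tauto
  have e2 : Split.fl A s t e₀ = Split.oth s t v e₀ := by
    unfold Split.fl Split.oth
    by_cases h1 : s e₀ = v
    · simp [hA1.2 h1, h1]
    · rw [if_neg (fun h2 => h1 (hA1.1 h2)), if_neg h1]
  have f1 : Split.fl A s t f₀ = v := by
    unfold Split.fl
    by_cases h1 : t f₀ = v
    · simp [hA2.2 h1, h1]
    · rw [if_neg (fun h2 => h1 (hA2.1 h2))]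
      tauto
  have f2 : Split.fl A t s f₀ = Split.oth s t v f₀ := by
    unfold Split.fl Split.oth
    by_cases h1 : t f₀ = v
    · have h3 : s f₀ ≠ v := by tauto
      simp [hA2.2 h1, h3]
    · have h3 : s f₀ = v := by tauto
      rw [if_neg (fun h2 => h1 (hA2.1 h2)), if_pos h3]
  have e3 : Split.oth s t v e₀ ≠ v := by
    unfold Split.oth
    by_cases h1 : s e₀ = v
    · rw [if_pos h1]
      tauto
    · rw [if_neg h1]
      exact h1
  have f3 : Split.oth s t v f₀ ≠ v := by
    unfold Split.oth
    by_cases h1 : s f₀ = v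
    · rw [if_pos h1]
      tauto
    · rw [if_neg h1]
      exact h1
  have hcard := Split.card_newt (Split.fl A s t) (Split.fl A t s) hne e1 f1
  simp only [Split.cut_fl] at hcard
  refine ⟨Split.fl A s t, Split.newt (Split.fl A t s) v e₀ f₀, fun X => ?_, fun X hX => ?_, ?_,
    fun X => ?_⟩
  · rw [← hcard X, Nat.odd_add, iff_true_right (even_two_mul _)]
  · have hc := hcard X
    have hXo : Odd (cut s t X).card := by
      rw [← hc, Nat.odd_add, iff_true_right (even_two_mul _)]
      exact hX
    have hkX := h X hXo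
    split_ifs at hc with hcond
    · -- the cut loses two edges
      rw [e2, f2] at hcond
      have hne' : (cut s t X).card ≠ k := by
        by_cases hvX : v ∈ X
        · have ha : Split.oth s t v e₀ ∈ Xᶜ := by
            rw [mem_compl]
            tauto
          have hb : Split.oth s t v f₀ ∈ Xᶜ := by
            rw [mem_compl]
            tauto
          have := hgood Xᶜ (by simp [hvX]) ha hb
          rwa [Split.cut_compl_card] at this
        · exact hgood X hvX (by tauto) (by tauto)
      rcases hk with ⟨d, hd⟩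
      rcases hXo with ⟨b, hb⟩
      omega
    · omega
  · rw [← Split.loops_fl A s t]
    exact Split.loops_newt _ _ hne e1 f1 (by rw [e2]; exact e3) (by rw [f2]; exact f3)
  · have := hcard X
    omega

/-- **Complete splitting**: the vertices of even degree become isolated, the vertices of odd degree
get degree exactly `k`. -/
theorem exists_fullO (s t : E → V) {k : ℕ} (hk : Odd k) (h : OddCut s t k) :
    ∃ s' t' : E → V, (∀ X, Odd (cut s' t' X).card ↔ Odd (cut s t X).card) ∧ OddCut s' t' k ∧
      (∀ v, Even (cut s t {v}).card → (cut s' t' {v}).card = 0) ∧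
      (∀ v, (cut s' t' {v}).card ≤ k) ∧
      ∀ X, (cut s' t' X).card ≤ (cut s t X).card := by
  induction hm : (univ.filter fun e => s e ≠ t e).card using Nat.strong_induction_on
    generalizing s t with
  | _ m ih =>
  subst hm
  by_cases hev : ∃ v, Even (cut s t {v}).card ∧ (cut s t {v}).card ≠ 0
  · obtain ⟨v, hv, hv0⟩ := hev
    obtain ⟨s₁, t₁, h1, h2, h3, h4⟩ := exists_splitC s t hk h v hv hv0
    obtain ⟨s', t', g1, g2, g3, g5, g4⟩ := ih _ h3 s₁ t₁ h2 rfl
    refine ⟨s', t', fun X => (g1 X).trans (h1 X), g2, fun u hu => g3 u ?_, g5,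
      fun X => (g4 X).trans (h4 X)⟩
    rw [← Nat.not_odd_iff_even] at hu ⊢
    exact fun h5 => hu ((h1 {u}).1 h5)
  by_cases hod : ∃ v, k < (cut s t {v}).card
  · obtain ⟨v, hkv⟩ := hod
    obtain ⟨s₁, t₁, h1, h2, h3, h4⟩ := exists_splitO s t hk h v hkv
    obtain ⟨s', t', g1, g2, g3, g5, g4⟩ := ih _ h3 s₁ t₁ h2 rfl
    refine ⟨s', t', fun X => (g1 X).trans (h1 X), g2, fun u hu => g3 u ?_, g5,
      fun X => (g4 X).trans (h4 X)⟩
    rw [← Nat.not_odd_iff_even] at hu ⊢
    exact fun h5 => hu ((h1 {u}).1 h5)
  · push Not at hev hod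
    exact ⟨s, t, fun X => Iff.rfl, h, hev, hod, fun X => le_rfl⟩

end Pool.Agent.OddFlow
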