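import Mathlib
import Pool.Agent.Work.MP_392c8e_co_odd.WChg
import Pool.Agent.Work.MP_392c8e_co_odd.SplitO

/-!
# Charges `0`, `± 1` from edge weights

The charges of `exists_chg_weight` can be taken `0` at the vertices of even degree and `± 1` at the
vertices of odd degree.
-/

namespace Pool.Agent.OddFlow

open Finset Pool.Agent.Circ Filter Topology

set_option linter.unusedSectionVars false

variable {V E : Type*} [Fintype V] [DecidableEq V] [Fintype E] [DecidableEq E]

namespace WtS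

open Wt

/-- The charges for given multiplicities; they are at most `1` everywhere. -/
theorem exists_chg_mulS (s t : E → V) (ω : E → ℝ) (h0 : ∀ e, 0 ≤ ω e)
    (hodd : ∀ X : Finset V, Odd (cut s t X).card → 2 ≤ ∑ e ∈ cut s t X, ω e)
    (M : ℕ) (hM : Fintype.card E < M) :
    ∃ w : V → ℤ, (∀ v, v ∉ oddV s t → w v = 0) ∧
      (∀ v, (2 : ℤ) ∣ w v - ((cut s t {v}).card : ℤ)) ∧ (∀ v, |w v| ≤ 1) ∧
      ∀ Z : Finset V, |((∑ v ∈ Z, w v : ℤ) : ℝ)| ≤
        2 * (((oddV s t).card - 1 : ℕ) : ℝ) /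
          ((oddV s t).card * (4 * M - 2 * Fintype.card E - 1)) *
          (Fintype.card E + 2 * (M * ∑ e ∈ cut s t Z, ω e)) := by
  classical
  set m := Fintype.card E with hm
  set N := (oddV s t).card with hN
  set k := 4 * M - 2 * m - 1 with hk
  have hkodd : Odd k := by
    rw [Nat.odd_iff]
    omega
  have hkR : (k : ℝ) = 4 * M - 2 * m - 1 := by
    have h1 : k + (2 * m + 1) = 4 * M := by omega
    have h2 : ((k + (2 * m + 1) : ℕ) : ℝ) = ((4 * M : ℕ) : ℝ) := by rw [h1]
    push_cast at h2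
    linarith
  have hk0 : (0 : ℝ) < k := by
    have : 0 < k := by omega
    exact_mod_cast this
  let s1 : (Σ e, Fin (mul ω M e)) → V := fun a => s a.1
  let t1 : (Σ e, Fin (mul ω M e)) → V := fun a => t a.1
  have hc1 : ∀ X, (cut s1 t1 X).card = ∑ e ∈ cut s t X, mul ω M e :=
    fun X => card_cut_sigma s t (mul ω M) X
  have hp1 : ∀ X, Odd (cut s1 t1 X).card ↔ Odd (cut s t X).card := fun X => by
    rw [hc1]
    exact odd_sum _ _ (mul_odd ω M)
  have hcm : ∀ X : Finset V, ((cut s t X).card : ℝ) ≤ m := fun X => by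
    exact_mod_cast card_le_univ _
  have hF : OddCut s1 t1 k := by
    intro X hX
    have h1 := hodd X ((hp1 X).1 hX)
    have h2 : (k : ℝ) ≤ ((cut s1 t1 X).card : ℕ) := by
      rw [hc1, Nat.cast_sum]
      calc (k : ℝ) ≤ 2 * (M * 2) - m := by
            rw [hkR]
            have : (0 : ℝ) ≤ m := Nat.cast_nonneg _
            linarith
        _ ≤ 2 * (M * ∑ e ∈ cut s t X, ω e) - (cut s t X).card := by
            have h3 := hcm X
            have h4 : (M : ℝ) * 2 ≤ M * ∑ e ∈ cut s t X, ω e :=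
              mul_le_mul_of_nonneg_left h1 (Nat.cast_nonneg _)
            linarith
        _ = ∑ e ∈ cut s t X, (2 * (M * ω e) - 1) := by
            rw [sum_sub_distrib, ← mul_sum, ← mul_sum, sum_const, nsmul_eq_mul, mul_one]
        _ ≤ _ := sum_le_sum fun e _ => le_mul ω M e
    exact_mod_cast h2
  obtain ⟨s', t', g1, g2, g4, g6, g5⟩ := exists_fullO s1 t1 hkodd hF
  have hodd1 : oddV s1 t1 = oddV s t := by
    rw [oddV, oddV]
    exact Finset.filter_congr fun v _ => hp1 {v}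
  have hodd' : oddV s' t' = oddV s t := by
    rw [← hodd1, oddV, oddV]
    exact Finset.filter_congr fun v _ => g1 {v}
  set θ : ℝ := 2 * ((N - 1 : ℕ) : ℝ) / (N * k) with hθdef
  have hθ0 : 0 ≤ θ := by positivity
  have hgood : Good s' t' θ := by
    refine mainF s' t' hkodd ∅ (fun X hX => (g2 X hX).trans (Nat.le_add_right _ _)) θ hθ0
      fun n j h1 h2 h3 h4 => ?_
    rw [hodd', ← hN] at h2
    rw [card_empty] at h4
    have hj : j = 0 := by omega
    subst hj
    have hN0 : (0 : ℝ) < N := by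
      have : 0 < N := by omega
      exact_mod_cast this
    have hn0 : (0 : ℝ) < n := by
      have : 0 < n := by omega
      exact_mod_cast this
    have e1 : θ * (k * n - 2 * ((0 : ℕ) : ℝ)) = 2 * ((N - 1 : ℕ) : ℝ) * n / N := by
      rw [hθdef]
      field_simp
      push_cast
      ring
    rw [e1, Nat.cast_sub (by omega : 1 ≤ N), le_div_iff₀ hN0]
    have h5 : (n : ℝ) ≤ N := by exact_mod_cast h2
    push_cast
    nlinarith
  obtain ⟨w, hw'⟩ := chg_of_good s' t' hgood
  have hw : Chg s1 t1 θ w := hw'.mono hθ0 g1 g5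
  refine ⟨w, fun v hv => ?_, fun v => ?_, fun v => ?_, fun Z => ?_⟩
  · have h1 : Even (cut s1 t1 {v}).card := by
      rw [← hodd1, oddV, mem_filter, not_and] at hv
      exact Nat.not_odd_iff_even.1 (hv (mem_univ _))
    have h2 := hw'.2 {v}
    rw [g4 v h1, sum_singleton, Nat.cast_zero, mul_zero] at h2
    have h3 := abs_nonpos_iff.1 h2
    exact_mod_cast h3
  · have h1 := hw.1 v
    have h2 := hp1 {v}
    rw [Nat.odd_iff, Nat.odd_iff] at h2
    omega
  · -- the vertices of odd degree have degree `k` in the split graph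
    have h1 := hw'.2 {v}
    rw [sum_singleton] at h1
    have h2 : ((cut s' t' {v}).card : ℝ) ≤ k := by exact_mod_cast g6 v
    have h3 : θ * (cut s' t' {v}).card < 2 := by
      refine (mul_le_mul_of_nonneg_left h2 hθ0).trans_lt ?_
      rcases Nat.eq_zero_or_pos N with hN0 | hN0
      · rw [hθdef, hN0]
        simp
      have hNR : (0 : ℝ) < N := by exact_mod_cast hN0
      have e1 : θ * k = 2 * ((N - 1 : ℕ) : ℝ) / N := by
        rw [hθdef]
        field_simp
      rw [e1, Nat.cast_sub (by omega : 1 ≤ N), div_lt_iff₀ hNR]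
      push_cast
      linarith
    have h4 : |((w v : ℤ) : ℝ)| < 2 := h1.trans_lt h3
    have h5 : |w v| < 2 := by exact_mod_cast h4
    omega
  · refine (hw.2 Z).trans ?_
    rw [← hkR, ← hθdef]
    refine mul_le_mul_of_nonneg_left ?_ hθ0
    rw [hc1, Nat.cast_sum]
    calc ∑ e ∈ cut s t Z, ((mul ω M e : ℕ) : ℝ)
        ≤ ∑ e ∈ cut s t Z, (1 + 2 * (M * ω e)) := sum_le_sum fun e _ => mul_le ω h0 M e
      _ = (cut s t Z).card + 2 * (M * ∑ e ∈ cut s t Z, ω e) := by
          rw [sum_add_distrib, ← mul_sum, ← mul_sum, sum_const, nsmul_eq_mul, mul_one]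
      _ ≤ _ := by
          have := hcm Z
          linarith

end WtS

/-- **Integral charges from edge weights.**  If every odd cut has weight at least `2`, there are
integral charges with the parity of the degrees, `0` or `± 1` everywhere, and at most
`(N - 1) / N` times the weight of the cut on every set, where `N` is the number of odd vertices. -/
theorem exists_chg_weightS (s t : E → V) (ω : E → ℝ) (h0 : ∀ e, 0 ≤ ω e)
    (hodd : ∀ X : Finset V, Odd (cut s t X).card → 2 ≤ ∑ e ∈ cut s t X, ω e) :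
    ∃ w : V → ℤ, (∀ v, v ∉ oddV s t → w v = 0) ∧
      (∀ v, (2 : ℤ) ∣ w v - ((cut s t {v}).card : ℤ)) ∧ (∀ v, |w v| ≤ 1) ∧
      ∀ Z : Finset V, ((oddV s t).card : ℝ) * |((∑ v ∈ Z, w v : ℤ) : ℝ)| ≤
        (((oddV s t).card - 1 : ℕ) : ℝ) * ∑ e ∈ cut s t Z, ω e := by
  classical
  set m := Fintype.card E with hm
  set N := (oddV s t).card with hN
  rcases Nat.eq_zero_or_pos N with hN0 | hN0
  · have h1 : oddV s t = ∅ := by
      rw [← card_eq_zero, ← hN, hN0]
    refine ⟨0, fun v _ => rfl, fun v => ?_, fun v => by simp, fun Z => ?_⟩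
    · have h2 : v ∉ oddV s t := by rw [h1]; exact notMem_empty v
      rw [oddV, mem_filter, not_and] at h2
      have h3 := Nat.not_odd_iff_even.1 (h2 (mem_univ _))
      rw [Nat.even_iff] at h3
      show (2 : ℤ) ∣ 0 - ((cut s t {v}).card : ℤ)
      omega
    · have h2 : 0 ≤ ∑ e ∈ cut s t Z, ω e := sum_nonneg fun e _ => h0 e
      rw [hN0]
      simp
  have hNR : (0 : ℝ) < N := by exact_mod_cast hN0
  let W : ℕ → V → ℤ := fun M => if h : m < M then (WtS.exists_chg_mulS s t ω h0 hodd M h).choose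
    else 0
  have hW : ∀ M, m < M → (∀ v, v ∉ oddV s t → W M v = 0) ∧
      (∀ v, (2 : ℤ) ∣ W M v - ((cut s t {v}).card : ℤ)) ∧ (∀ v, |W M v| ≤ 1) ∧
      ∀ Z : Finset V, |((∑ v ∈ Z, W M v : ℤ) : ℝ)| ≤
        2 * ((N - 1 : ℕ) : ℝ) / (N * (4 * M - 2 * m - 1)) *
          (m + 2 * (M * ∑ e ∈ cut s t Z, ω e)) := by
    intro M hM
    have h1 : W M = (WtS.exists_chg_mulS s t ω h0 hodd M hM).choose := dif_pos hM
    rw [h1]
    exact (WtS.exists_chg_mulS s t ω h0 hodd M hM).choose_spec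
  -- the limit of the bounds
  have hlim : ∀ Z : Finset V, Tendsto (fun M : ℕ => 2 * ((N - 1 : ℕ) : ℝ) /
      (N * (4 * M - 2 * m - 1)) * (m + 2 * (M * ∑ e ∈ cut s t Z, ω e))) atTop
      (𝓝 (2 * ((N - 1 : ℕ) : ℝ) / N / 2 * ∑ e ∈ cut s t Z, ω e)) := by
    intro Z
    have h1 := Wt.tendsto_bound (m : ℝ) (∑ e ∈ cut s t Z, ω e) (2 * ((N - 1 : ℕ) : ℝ) / N)
    refine h1.congr fun M => ?_
    rw [div_div]
  -- all charges lie in a finite set
  have hB : ∀ᶠ M in atTop, ∀ v, |W M v| ≤ ((1 : ℕ) : ℤ) := by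
    filter_upwards [eventually_gt_atTop m] with M hM v
    simpa using (hW M hM).2.2.1 v
  have hfin : ∃ w : V → ℤ, ∃ᶠ M in atTop, W M = w := by
    by_contra hcon
    push Not at hcon
    have h1 : ∀ᶠ M in atTop, ∀ w ∈ Fintype.piFinset fun _ : V => Finset.Icc (-((1 : ℕ) : ℤ)) ((1 : ℕ) : ℤ),
        W M ≠ w := by
      rw [eventually_all_finset]
      exact fun w _ => hcon w
    obtain ⟨M, h2, h3⟩ := (h1.and hB).exists
    refine h2 (W M) ?_ rfl
    rw [Fintype.mem_piFinset]
    intro v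
    rw [Finset.mem_Icc]
    exact abs_le.1 (h3 v)
  obtain ⟨w, hw⟩ := hfin
  have hw' : ∃ᶠ M in atTop, m < M ∧ W M = w := by
    refine (hw.and_eventually (eventually_gt_atTop m)).mono fun M h => ⟨h.2, h.1⟩
  obtain ⟨M, hM, hMw⟩ := hw'.exists
  obtain ⟨h1, h2, h2', _⟩ := hW M hM
  rw [hMw] at h1 h2 h2'
  refine ⟨w, h1, h2, h2', fun Z => ?_⟩
  have h3 : |((∑ v ∈ Z, w v : ℤ) : ℝ)| ≤
      2 * ((N - 1 : ℕ) : ℝ) / N / 2 * ∑ e ∈ cut s t Z, ω e := by
    refine ge_of_tendsto_of_frequently (hlim Z) (hw'.mono fun M h => ?_)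
    have := (hW M h.1).2.2.2 Z
    rwa [h.2] at this
  have h4 : (N : ℝ) * (2 * ((N - 1 : ℕ) : ℝ) / N / 2 * ∑ e ∈ cut s t Z, ω e) =
      ((N - 1 : ℕ) : ℝ) * ∑ e ∈ cut s t Z, ω e := by
    field_simp
  rw [← h4]
  exact mul_le_mul_of_nonneg_left h3 hNR.le

end Pool.Agent.OddFlow
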