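import Mathlib
import Pool.Agent.Work.MP_392c8e_co_odd.PlaneOm
import Pool.Agent.Work.MP_392c8e_co_odd.WChgS

/-!
# Charges `± 1` of the odd faces of a plane graph from weights of its edges

With charges `± 1` on the odd faces, the strict inequalities `3 |w| < d` on the connected cuts give
a `(3 N + 4, N + 2)`-colouring, where `N` is the number of odd faces.
-/

namespace Pool.Agent.OddFlow

open Finset Pool.Agent.Circ Pool.Agent.Sub392

set_option linter.unusedSectionVars false

variable {V : Type} [Fintype V] [DecidableEq V] {G : SimpleGraph V} [DecidableRel G.Adj]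

/-- **Charges from weights.**  If every odd cycle has weight at least `2`, the faces have
charges, `± 1` at the odd faces and `0` at the even faces, with sum `0`, such that the
charge of a side of a cycle `C` is at most `(1 - 1 / N)` times the weight of `C`. -/
theorem plane_chargesS (R : Rot G) (om : Sym2 V → ℝ) (h0 : ∀ e ∈ G.edgeSet, 0 ≤ om e)
    (h : ∀ (v : V) (c : G.Walk v v), c.IsCycle → Odd c.length → 2 ≤ (c.edges.map om).sum) :
    ∃ w : R.Face → ℤ, (∀ f, f ∉ R.odd → w f = 0) ∧ (∀ f, (2 : ℤ) ∣ w f - (R.cut {f} : ℤ)) ∧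
      (∀ f, |w f| ≤ 1) ∧ (∑ f, w f = 0) ∧
      (∀ S : Finset R.Face, (R.odd.card : ℝ) * |((∑ f ∈ S, w f : ℤ) : ℝ)| ≤
        ((R.odd.card - 1 : ℕ) : ℝ) * ∑ e ∈ cut (fun e : Up G => R.face e.1)
          (fun e : Up G => R.face e.1.symm) S, om e.1.edge) ∧
      ∀ (v : V) (c : G.Walk v v) (S : Finset R.Face), c.IsCycle → Side R c S →
        (R.odd.card : ℝ) * |((∑ f ∈ S, w f : ℤ) : ℝ)| ≤
          ((R.odd.card - 1 : ℕ) : ℝ) * (c.edges.map om).sum := by
  classical
  obtain ⟨w, h1, h2, h2', h3⟩ := exists_chg_weightS (fun e : Up G => R.face e.1)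
    (fun e : Up G => R.face e.1.symm) (fun e => om e.1.edge) (fun e => h0 _ e.1.edge_mem) (by
      intro S hS
      rw [card_cut_eq] at hS
      exact le_weight_odd R om h0 h S hS)
  rw [oddV_eq] at h3 h1
  simp only [card_cut_eq] at h2
  refine ⟨w, h1, h2, h2', ?_, h3, ?_⟩
  · rcases Nat.eq_zero_or_pos R.odd.card with h4 | h4
    · rw [card_eq_zero] at h4
      refine sum_eq_zero fun f _ => h1 f (by rw [h4]; exact notMem_empty _)
    · have h5 := h3 univ
      have h6 : cut (fun e : Up G => R.face e.1) (fun e : Up G => R.face e.1.symm) univ = ∅ := by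
        ext e
        simp [cut]
      rw [h6, sum_empty, mul_zero] at h5
      have h7 : (0 : ℝ) < R.odd.card := by exact_mod_cast h4
      have h8 : |((∑ f, w f : ℤ) : ℝ)| ≤ 0 := by
        by_contra h9
        rw [not_le] at h9
        have := mul_pos h7 h9
        linarith
      exact_mod_cast abs_nonpos_iff.1 h8
  · intro v c S hc hside
    rw [sum_side R hc hside]
    exact h3 S

/-- Charges `± 1` on `N` vertices with sum `0`: every partial sum is at most `N / 2`. -/
theorem two_abs_sum_le {W : Type*} [Fintype W] [DecidableEq W] (O : Finset W) (w : W → ℤ)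
    (h0 : ∀ v, v ∉ O → w v = 0) (h1 : ∀ v, |w v| ≤ 1) (hs : ∑ v, w v = 0) (S : Finset W) :
    2 * |∑ v ∈ S, w v| ≤ O.card := by
  have key : ∀ T : Finset W, |∑ v ∈ T, w v| ≤ ((T ∩ O).card : ℤ) := by
    intro T
    have e1 : ∑ v ∈ T, w v = ∑ v ∈ T ∩ O, w v := by
      symm
      refine sum_subset inter_subset_left fun v hv hv' => h0 v fun hO => hv' ?_
      exact mem_inter.2 ⟨hv, hO⟩
    rw [e1]
    refine (abs_sum_le_sum_abs _ _).trans ?_
    refine (sum_le_sum fun v _ => h1 v).trans ?_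
    simp
  have h2 := key S
  have h3 := key Sᶜ
  have h4 : ∑ v ∈ Sᶜ, w v = -∑ v ∈ S, w v := by
    have := Finset.sum_add_sum_compl S w
    omega
  rw [h4, abs_neg] at h3
  have h5 : (S ∩ O).card + (Sᶜ ∩ O).card = O.card := by
    rw [← card_union_of_disjoint]
    · congr 1
      ext v
      simp only [mem_union, mem_inter, mem_compl]
      tauto
    · rw [Finset.disjoint_left]
      intro v h6 h7
      exact (mem_compl.1 (mem_inter.1 h7).1) (mem_inter.1 h6).1
  omega

/-- **Strict charges give a colouring.**  If charges `± 1` of the `N` odd faces satisfy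
`3 |w| < d` on all connected cuts, then there is a `(3 N + 4, N + 2)`-colouring. -/
theorem colour_of_strict (R : Rot G) (hP : R.Plane) (w : R.Face → ℤ)
    (h0 : ∀ f, f ∉ R.odd → w f = 0) (hpar : ∀ f, (2 : ℤ) ∣ w f - (R.cut {f} : ℤ))
    (h1 : ∀ f, |w f| ≤ 1) (hs : ∑ f, w f = 0)
    (hc : ∀ Z : Finset R.Face,
      ConnS (fun e : Up G => R.face e.1) (fun e : Up G => R.face e.1.symm) Z →
      ConnS (fun e : Up G => R.face e.1) (fun e : Up G => R.face e.1.symm) Zᶜ →
      Z.Nonempty → Zᶜ.Nonempty →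
      3 * |∑ f ∈ Z, w f| < ((cut (fun e : Up G => R.face e.1)
        (fun e : Up G => R.face e.1.symm) Z).card : ℤ)) :
    ∃ c : V → ℕ, (∀ v, c v < 3 * R.odd.card + 4) ∧
      ∀ u v, G.Adj u v → ((R.odd.card + 2 : ℕ) : ℤ) ≤ |(c u : ℤ) - c v| ∧
        |(c u : ℤ) - c v| ≤ (3 * R.odd.card + 4 : ℕ) - (R.odd.card + 2 : ℕ) := by
  classical
  have hpar' : ∀ f, (2 : ℤ) ∣ w f - ((cut (fun e : Up G => R.face e.1)
      (fun e : Up G => R.face e.1.symm) {f}).card : ℤ) := by
    intro f
    rw [card_cut_eq]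
    exact hpar f
  refine colour_of_good_pq R hP (by omega) (by omega) (good_of_conn_bound _ _ (connS_univ R hP) w
    hpar' hs (by omega) ?_)
  intro Z hZ1 hZ2 hn1 hn2
  have h2 := hc Z hZ1 hZ2 hn1 hn2
  have h3 := two_abs_sum_le R.odd w h0 h1 hs Z
  have h4 := chg_parity (fun e : Up G => R.face e.1) (fun e : Up G => R.face e.1.symm) hpar' Z
  set a := ∑ f ∈ Z, w f with ha
  set d := (cut (fun e : Up G => R.face e.1) (fun e : Up G => R.face e.1.symm) Z).card with hd
  have h5 : 3 * |a| + 2 ≤ (d : ℤ) := by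
    rcases abs_cases a with ⟨e1, _⟩ | ⟨e1, _⟩ <;> rw [e1] at h2 ⊢ <;> omega
  have e1 : ((3 * R.odd.card + 4 - 2 * (R.odd.card + 2) : ℕ) : ℤ) = R.odd.card := by omega
  rw [e1]
  have h6 : (0 : ℤ) ≤ R.odd.card := Nat.cast_nonneg _
  push_cast
  nlinarith [mul_le_mul_of_nonneg_left h5 h6]

end Pool.Agent.OddFlow
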