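import Mathlib
import Pool.Agent.Work.MP_392c8e_co_odd.PlaneMu
import Pool.Agent.Work.MP_392c8e_co_odd.PlaneOmS

/-!
# Plane subcubic graphs: fractional exits of the 5-cycles, with a parameter

The base weight `θ` of the edges may be larger than `1 / 3` if there are few odd faces.
-/

namespace Pool.Agent.OddFlow

open Finset Pool.Agent.Circ Pool.Agent.Sub392
open scoped symmDiff

set_option linter.unusedSectionVars false

variable {V : Type} [Fintype V] [DecidableEq V] {G : SimpleGraph V}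

/-- **Strict charges.** -/
theorem strict_coreS [DecidableRel G.Adj] (R : Rot G) (hP : R.Plane) {θ : ℝ}
    (hθ : 0 < R.odd.card → 3 * ((R.odd.card - 1 : ℕ) : ℝ) * θ < R.odd.card)
    (hdeg : ∀ (x : V) (A : Finset (Sym2 V)), (∀ e ∈ A, e ∈ G.edgeSet ∧ x ∈ e) → A.card ≤ 3)
    (om : Sym2 V → ℝ) (hom0 : ∀ e ∈ G.edgeSet, 0 ≤ om e)
    (hodd2 : ∀ (v : V) (c : G.Walk v v), c.IsCycle → Odd c.length → 2 ≤ (c.edges.map om).sum)
    (hfive : ∀ Q ∈ pent G, ∑ e ∈ Q, om e ≤ 2)
    (hup : ∀ D : Finset (Sym2 V), (∀ e ∈ D, e ∈ G.edgeSet) →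
      (∀ x, (D.filter fun e => x ∈ e).card = 0 ∨ (D.filter fun e => x ∈ e).card = 2) →
      (∀ Q ∈ pent G, (Q ∩ D).card ≤ 3) → ∑ e ∈ D, om e ≤ θ * (D.card : ℝ)) :
    ∃ w : R.Face → ℤ, (∀ f, f ∉ R.odd → w f = 0) ∧ (∀ f, (2 : ℤ) ∣ w f - (R.cut {f} : ℤ)) ∧
      (∀ f, |w f| ≤ 1) ∧ (∑ f, w f = 0) ∧
      ∀ Z : Finset R.Face,
      ConnS (fun e : Up G => R.face e.1) (fun e : Up G => R.face e.1.symm) Z →
      ConnS (fun e : Up G => R.face e.1) (fun e : Up G => R.face e.1.symm) Zᶜ →
      Z.Nonempty → Zᶜ.Nonempty →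
      3 * |∑ f ∈ Z, w f| < ((cut (fun e : Up G => R.face e.1)
        (fun e : Up G => R.face e.1.symm) Z).card : ℤ) := by
  classical
  obtain ⟨w, w1, w2, w2', w3, w4, w5⟩ := plane_chargesS R om hom0 hodd2
  let s : Up G → R.Face := fun e => R.face e.1
  let t : Up G → R.Face := fun e => R.face e.1.symm
  have hinj : ∀ (A : Finset (Up G)), Set.InjOn (fun e : Up G => e.1.edge) A :=
    fun A e _ e' _ h => up_edge_inj h
  let img : Finset R.Face → Finset (Sym2 V) := fun S => (cut s t S).image fun e : Up G => e.1.edge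
  have himgc : ∀ S, (img S).card = (cut s t S).card := fun S => card_image_of_injOn (hinj _)
  have himg : ∀ S (e : Up G), e.1.edge ∈ img S ↔ e ∈ cut s t S := by
    intro S e
    show e.1.edge ∈ (cut s t S).image (fun e : Up G => e.1.edge) ↔ _
    rw [mem_image]
    constructor
    · rintro ⟨e', h, he'⟩
      rwa [← up_edge_inj he']
    · exact fun h => ⟨e, h, rfl⟩
  have himgG : ∀ S, ∀ e ∈ img S, e ∈ G.edgeSet := by
    intro S e he
    obtain ⟨e', _, he'⟩ := mem_image.1 he
    exact he' ▸ e'.1.edge_mem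
  have homS : ∀ S, ∑ e ∈ cut s t S, om e.1.edge = ∑ e ∈ img S, om e := by
    intro S
    exact (sum_image (hinj _)).symm
  -- small charges
  have hsmall : ∀ (S : Finset R.Face) (r : ℝ), ∑ e ∈ cut s t S, om e.1.edge ≤ r → 0 < r →
      |((∑ f ∈ S, w f : ℤ) : ℝ)| < r := by
    intro S r hr hr0
    rcases Nat.eq_zero_or_pos R.odd.card with h4 | h4
    · have h5 : ∑ f ∈ S, w f = 0 := by
        rw [card_eq_zero] at h4
        exact sum_eq_zero fun f _ => w1 f (by rw [h4]; exact notMem_empty _)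
      rw [h5]
      simpa using hr0
    · have h5 := w4 S
      have h6 : (0 : ℝ) < R.odd.card := by exact_mod_cast h4
      have h7 : ((R.odd.card - 1 : ℕ) : ℝ) < R.odd.card := by
        exact_mod_cast Nat.sub_lt h4 one_pos
      by_contra hcon
      rw [not_lt] at hcon
      have h8 := mul_le_mul_of_nonneg_left hcon h6.le
      have h9 : ((R.odd.card - 1 : ℕ) : ℝ) * ∑ e ∈ cut s t S, om e.1.edge ≤
          ((R.odd.card - 1 : ℕ) : ℝ) * r := mul_le_mul_of_nonneg_left hr (Nat.cast_nonneg _)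
      have h10 : ((R.odd.card - 1 : ℕ) : ℝ) * r < R.odd.card * r :=
        mul_lt_mul_of_pos_right h7 hr0
      linarith
  -- the sides of the 5-cycles
  have hsd : ∀ Q : Finset (Sym2 V), ∃ S : Finset R.Face, Q ∈ pent G → img S = Q := by
    intro Q
    by_cases hQ : Q ∈ pent G
    · obtain ⟨_, v, c, hc, hl, rfl⟩ := mem_filter.1 hQ
      obtain ⟨S, hS⟩ := exists_side_of R hP c hc
      exact ⟨S, fun _ => image_cut_of_side R hS⟩
    · exact ⟨∅, fun h => absurd h hQ⟩
  choose sd hsd using hsd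
  have hQ5 : ∀ Q ∈ pent G, Q.card = 5 := by
    intro Q hQ
    obtain ⟨x, hx, rfl⟩ := pent_param hQ
    rw [card_image_of_injective _ (pedge_injective hx.1)]
    rfl
  have hcard5 : ∀ Q ∈ pent G, (cut s t (sd Q)).card = 5 := by
    intro Q hQ
    rw [← himgc, hsd Q hQ, hQ5 Q hQ]
  have hsd1 : ∀ S, img S ∈ pent G → |∑ f ∈ S, w f| ≤ 1 := by
    intro S hS
    have h1 := homS S
    have h3 := hsmall S 2 (by rw [h1]; exact hfive _ hS) (by norm_num)
    have h4 : |∑ f ∈ S, w f| < 2 := by exact_mod_cast h3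
    omega
  have hconn : ∀ Y : Finset R.Face, cut s t Y = ∅ → Y = ∅ ∨ Y = univ := by
    intro Y hY
    refine R.cut_zero hP.1 ?_
    rw [← card_cut_eq]
    exact card_eq_zero.2 hY
  -- the main estimate
  have main : ∀ (n : ℕ) (Z : Finset R.Face), (cut s t Z).card = n → MinCut s t Z →
      3 * |∑ f ∈ Z, w f| < n := by
    intro n
    induction n using Nat.strong_induction_on with
    | _ n ih =>
    intro Z hn hZ
    have hn0 : 0 < n := by
      rw [← hn]
      exact card_pos.2 hZ.1
    by_cases hsub : ∃ Q ∈ pent G, Q ⊆ img Z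
    · obtain ⟨Q, hQ, hQZ⟩ := hsub
      have h1 : cut s t (sd Q) = cut s t Z := by
        refine hZ.2 _ (fun e he => ?_) ?_
        · rw [← himg]
          refine hQZ ?_
          rw [← hsd Q hQ]
          exact (himg _ e).2 he
        · rw [← card_pos, hcard5 Q hQ]
          norm_num
      have h2 : img Z = Q := by
        rw [← hsd Q hQ]
        show (cut s t Z).image _ = (cut s t (sd Q)).image _
        rw [h1]
      have h3 := hsd1 Z (by rw [h2]; exact hQ)
      have h4 : n = 5 := by rw [← hn, ← h1, hcard5 Q hQ]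
      omega
    by_cases hheavy : ∃ Q ∈ pent G, 4 ≤ (Q ∩ img Z).card
    · obtain ⟨Q, hQ, h4⟩ := hheavy
      have h5' : (Q ∩ img Z).card = 4 := by
        have h6 := card_le_card (inter_subset_left (s₁ := Q) (s₂ := img Z))
        have h6' := hQ5 Q hQ
        by_contra hne
        have h7 : (Q ∩ img Z).card = Q.card := by omega
        have h8 := eq_of_subset_of_card_le inter_subset_left h7.ge
        exact hsub ⟨Q, hQ, h8 ▸ inter_subset_right⟩
      have h6 : (cut s t Z ∩ cut s t (sd Q)).card = 4 := by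
        rw [← h5', ← card_image_of_injOn (hinj (cut s t Z ∩ cut s t (sd Q)))]
        congr 1
        ext f
        rw [mem_image, mem_inter]
        constructor
        · rintro ⟨e, he, rfl⟩
          rw [mem_inter] at he
          refine ⟨?_, (himg Z e).2 he.1⟩
          rw [← hsd Q hQ]
          exact (himg _ e).2 he.2
        · rintro ⟨h7, h8⟩
          obtain ⟨e, he, rfl⟩ := mem_image.1 h8
          refine ⟨e, mem_inter.2 ⟨he, ?_⟩, rfl⟩
          rw [← hsd Q hQ] at h7
          exact (himg _ e).1 h7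
      have h7 := Switch.minCut_switch s t hZ (hcard5 Q hQ) h6
      have h8 := Switch.charge_switch s t hconn w w3 hZ (hcard5 Q hQ) h6
      have h9 := hsd1 (sd Q) (by rw [hsd Q hQ]; exact hQ)
      have h10 : (cut s t (Z ∆ sd Q)).card + 3 = n := by
        obtain ⟨e, he⟩ := Switch.split_five s t (hcard5 Q hQ) h6
        have e1 : (cut s t (Z ∆ sd Q)).card =
            (cut s t Z \ cut s t (sd Q)).card + (cut s t (sd Q) \ cut s t Z).card := by
          rw [cut_symmDiff, symmDiff_def, Finset.sup_eq_union, card_union_of_disjoint]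
          rw [Finset.disjoint_left]
          intro f h1 h2
          exact (mem_sdiff.1 h1).2 (mem_sdiff.1 h2).1
        rw [he, card_singleton] at e1
        have e2 := card_sdiff_add_card_inter (cut s t Z) (cut s t (sd Q))
        omega
      have h11 := ih _ (by omega) (Z ∆ sd Q) rfl h7
      omega
    · push Not at hheavy
      have h1 := homS Z
      have h2 := hup (img Z) (himgG Z) (deg_cut R hdeg Z) (fun Q hQ => by
        have := hheavy Q hQ
        omega)
      rw [himgc, hn] at h2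
      rcases Nat.eq_zero_or_pos R.odd.card with h4 | h4
      · have h5 : ∑ f ∈ Z, w f = 0 := by
          rw [card_eq_zero] at h4
          exact sum_eq_zero fun f _ => w1 f (by rw [h4]; exact notMem_empty _)
        rw [h5]
        simpa using hn0
      · have h5 := w4 Z
        have h6 : (0 : ℝ) < R.odd.card := by exact_mod_cast h4
        have h7 : (0 : ℝ) < n := by exact_mod_cast hn0
        have h8 := mul_le_mul_of_nonneg_left (h1 ▸ h2 : ∑ e ∈ cut s t Z, om e.1.edge ≤ θ * n)
          (Nat.cast_nonneg (α := ℝ) (R.odd.card - 1))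
        have h9 := mul_lt_mul_of_pos_right (hθ h4) h7
        have h10 : (R.odd.card : ℝ) * (3 * |((∑ f ∈ Z, w f : ℤ) : ℝ)|) < R.odd.card * n := by
          have h11 := h5.trans h8
          nlinarith
        have h11 : 3 * |((∑ f ∈ Z, w f : ℤ) : ℝ)| < n := lt_of_mul_lt_mul_left h10 h6.le
        exact_mod_cast h11
  refine ⟨w, w1, w2, w2', w3, ?_⟩
  intro Z hZ1 hZ2 hn1 hn2
  have hcut0 : (cut s t Z).Nonempty := by
    by_contra hcon
    rw [not_nonempty_iff_eq_empty] at hcon
    rcases hconn Z hcon with h | h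
    · rw [h] at hn1
      exact not_nonempty_empty hn1
    · rw [h, compl_univ] at hn2
      exact not_nonempty_empty hn2
  exact main _ Z rfl (minCut_of_conn_ne s t hZ1 hZ2 hcut0)

/-- The weight of the edges. -/
noncomputable def wmT (G : SimpleGraph V) (θ : ℝ) (μ : V → ℝ)
    (x : Finset (Sym2 V) → V → Fin 5 → V) (e : Sym2 V) : ℝ :=
  θ + (2 - 5 * θ) * (3 * (wm G μ x e - 1 / 3))

theorem sum_wmT (θ : ℝ) {μ : V → ℝ} {x : Finset (Sym2 V) → V → Fin 5 → V} (hE : Exits G μ x)
    (D : Finset (Sym2 V)) (hDG : ∀ e ∈ D, e ∈ G.edgeSet)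
    (hdeg : ∀ (x : V) (A : Finset (Sym2 V)), (∀ e ∈ A, e ∈ G.edgeSet ∧ x ∈ e) → A.card ≤ 3)
    (hD : ∀ x, (D.filter fun e => x ∈ e).card = 0 ∨ (D.filter fun e => x ∈ e).card = 2) :
    ∑ e ∈ D, wmT G θ μ x e = θ * D.card + (2 - 5 * θ) / 2 *
      ∑ P ∈ pent G, ∑ t ∈ verts P, μ t * ((exc aE bE (pat (x P t) D) : ℤ) : ℝ) := by
  have h1 := sum_wm hE D hDG hdeg hD
  unfold wmT
  rw [sum_add_distrib, sum_const, nsmul_eq_mul, ← mul_sum, ← mul_sum, sum_sub_distrib, h1,
    sum_const, nsmul_eq_mul]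
  ring

open scoped Classical in
/-- **Strict charges from fractional exits**, with a parameter. -/
theorem strict_muS [DecidableRel G.Adj] (R : Rot G) (hP : R.Plane) (hΔ : ∀ v, G.degree v ≤ 3)
    (hG : G.CliqueFree 3) {θ : ℝ} (hθ3 : 1 / 3 ≤ θ) (hθ5 : θ ≤ 2 / 5)
    (hθ : 0 < R.odd.card → 3 * ((R.odd.card - 1 : ℕ) : ℝ) * θ < R.odd.card)
    {μ : V → ℝ} {x : Finset (Sym2 V) → V → Fin 5 → V} (hE : Exits G μ x)
    (h7 : ∀ (v : V) (c : G.Walk v v), c.IsCycle → Odd c.length → 7 ≤ c.length →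
      (2 - 5 * θ) * ∑ P ∈ pent G,
        ∑ t ∈ (verts P).filter (fun t => HitAt c.edges.toFinset P t), μ t + 2 ≤ θ * c.length) :
    ∃ w : R.Face → ℤ, (∀ f, f ∉ R.odd → w f = 0) ∧ (∀ f, (2 : ℤ) ∣ w f - (R.cut {f} : ℤ)) ∧
      (∀ f, |w f| ≤ 1) ∧ (∑ f, w f = 0) ∧
      ∀ Z : Finset R.Face,
      ConnS (fun e : Up G => R.face e.1) (fun e : Up G => R.face e.1.symm) Z →
      ConnS (fun e : Up G => R.face e.1) (fun e : Up G => R.face e.1.symm) Zᶜ →
      Z.Nonempty → Zᶜ.Nonempty →
      3 * |∑ f ∈ Z, w f| < ((cut (fun e : Up G => R.face e.1)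
        (fun e : Up G => R.face e.1.symm) Z).card : ℤ) := by
  have hdeg := deg_le hΔ
  have hκ : 0 ≤ 2 - 5 * θ := by linarith
  have hcyc : ∀ (v : V) (c : G.Walk v v), c.IsCycle → (c.edges.map (wmT G θ μ x)).sum =
      θ * c.length + (2 - 5 * θ) / 2 * ∑ P ∈ pent G, ∑ t ∈ verts P,
        μ t * ((exc aE bE (pat (x P t) c.edges.toFinset) : ℤ) : ℝ) := by
    intro v c hc
    rw [← List.sum_toFinset _ hc.edges_nodup, sum_wmT θ hE _
      (fun e he => c.edges_subset_edgeSet (List.mem_toFinset.1 he)) hdeg (deg_cycle hdeg c hc),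
      List.toFinset_card_of_nodup hc.edges_nodup, SimpleGraph.Walk.length_edges]
  refine strict_coreS R hP (θ := θ) hθ hdeg (wmT G θ μ x) (fun e he => ?_) ?_ ?_ ?_
  · have h1 := wm_nonneg hE hdeg he
    unfold wmT
    nlinarith
  · intro v c hc ho
    have hl5 := five_le_length hG c hc ho
    rw [hcyc v c hc]
    by_cases hl : c.length = 5
    · have h1 : c.edges.toFinset ∈ pent G := mem_filter.2 ⟨mem_univ _, v, c, hc, hl, rfl⟩
      rw [five_mu hE hdeg h1, hl]
      push_cast
      linarith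
    · have hl7 : 7 ≤ c.length := by
        rw [Nat.odd_iff] at ho
        omega
      have h1 := h7 v c hc ho hl7
      have h2 : -2 * ∑ P ∈ pent G,
          ∑ t ∈ (verts P).filter (fun t => HitAt c.edges.toFinset P t), μ t ≤
          ∑ P ∈ pent G, ∑ t ∈ verts P,
            μ t * ((exc aE bE (pat (x P t) c.edges.toFinset) : ℤ) : ℝ) := by
        rw [mul_sum]
        refine sum_le_sum fun P hP => ?_
        rw [mul_sum, sum_filter]
        refine sum_le_sum fun t ht => ?_
        split_ifs with h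
        · have h3 : (-2 : ℝ) ≤ ((exc aE bE (pat (x P t) c.edges.toFinset) : ℤ) : ℝ) := by
            exact_mod_cast excE_ge _
          have h4 := mul_le_mul_of_nonneg_left h3 (hE.nonneg t)
          linarith
        · refine mul_nonneg (hE.nonneg t) ?_
          by_contra hcon
          rw [not_le] at hcon
          have h3 : exc aE bE (pat (x P t) c.edges.toFinset) < 0 := by exact_mod_cast hcon
          have h4 := hit_of_exc (hE.pent P hP t ht).1 _ h3
          rw [← hE.img P hP t ht, hE.zero P hP t ht] at h4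
          exact h h4
      have h3 := mul_le_mul_of_nonneg_left h2 (by linarith : 0 ≤ (2 - 5 * θ) / 2)
      nlinarith
  · intro Q hQ
    obtain ⟨_, v, c, hc, hl, rfl⟩ := mem_filter.1 hQ
    rw [sum_wmT θ hE _ (fun e he => c.edges_subset_edgeSet (List.mem_toFinset.1 he)) hdeg
      (deg_cycle hdeg c hc), five_mu hE hdeg hQ, List.toFinset_card_of_nodup hc.edges_nodup,
      SimpleGraph.Walk.length_edges, hl]
    push_cast
    linarith
  · intro D hDG hD h3
    rw [sum_wmT θ hE D hDG hdeg hD]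
    have h1 : ∑ P ∈ pent G, ∑ t ∈ verts P, μ t * ((exc aE bE (pat (x P t) D) : ℤ) : ℝ) ≤ 0 := by
      refine sum_nonpos fun P hP => sum_nonpos fun t ht => ?_
      refine mul_nonpos_of_nonneg_of_nonpos (hE.nonneg t) ?_
      have h4 : exc aE bE (pat (x P t) D) ≤ 0 := by
        refine excE_le _ ?_
        have h5 := card_pat (hE.pent P hP t ht).1 D
        rw [← hE.img P hP t ht] at h5
        have := h3 P hP
        omega
      exact_mod_cast h4
    nlinarith

end Pool.Agent.OddFlow
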