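import Mathlib
import Pool.Agent.Work.MP_392c8e_co_odd.Small
import Pool.Agent.Work.MP_392c8e_co_odd.DenseF

/-!
# The sparse case

All degrees are odd, at most five of them are `5`, and no set `U` of at least two vertices has
`3/10 e(U) ≥ |U| - 1`. Then there are six vertices and `16` edges or eight vertices and `23` edges,
and the partitions have more than `3 (τ - 1)` crossing edges.
-/

namespace Pool.Agent.OddFlow

open Finset Pool.Agent.Circ

set_option linter.unusedSectionVars false

variable {V E : Type*} [Fintype V] [DecidableEq V] [Fintype E] [DecidableEq E]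

namespace Last

theorem ends_mem (s t : E → V)
    (hodd : ∀ v, Odd (cut s t {v}).card ∨ (cut s t {v}).card = 0) (e : E) (he : s e ≠ t e) :
    s e ∈ oddV s t ∧ t e ∈ oddV s t := by
  constructor
  · have h1 : e ∈ cut s t {s e} := by
      simp only [cut, mem_filter, mem_univ, true_and, mem_singleton]
      intro h2
      exact he (h2.1 trivial).symm
    rw [oddV, mem_filter]
    refine ⟨mem_univ _, (hodd _).resolve_right ?_⟩
    exact card_ne_zero.2 ⟨e, h1⟩
  · have h1 : e ∈ cut s t {t e} := by
      simp only [cut, mem_filter, mem_univ, true_and, mem_singleton]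
      intro h2
      exact he (h2.2 trivial)
    rw [oddV, mem_filter]
    refine ⟨mem_univ _, (hodd _).resolve_right ?_⟩
    exact card_ne_zero.2 ⟨e, h1⟩

theorem sum_deg (s t : E → V)
    (hodd : ∀ v, Odd (cut s t {v}).card ∨ (cut s t {v}).card = 0) :
    ∑ v ∈ oddV s t, (cut s t {v}).card = 2 * (univ.filter fun e => s e ≠ t e).card := by
  rw [← handshake]
  refine Finset.sum_subset (subset_univ _) fun v _ hv => ?_
  rw [oddV, mem_filter] at hv
  exact (hodd v).resolve_left fun h => hv ⟨mem_univ _, h⟩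

theorem ein_oddV (s t : E → V)
    (hodd : ∀ v, Odd (cut s t {v}).card ∨ (cut s t {v}).card = 0) :
    ein s t (oddV s t) = (univ.filter fun e => s e ≠ t e).card := by
  rw [ein]
  congr 1
  ext e
  simp only [mem_filter, mem_univ, true_and]
  exact ⟨fun h1 => h1.1, fun h1 => ⟨h1, ends_mem s t hodd e h1⟩⟩

/-- The crossing edges of a partition. -/
def cr (s t : E → V) (W : Finset V) (P : V → ℕ) : ℕ :=
  (univ.filter fun e => (s e ∈ W ∧ t e ∈ W) ∧ P (s e) ≠ P (t e)).card

theorem cr_single (s t : E → V)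
    (hodd : ∀ v, Odd (cut s t {v}).card ∨ (cut s t {v}).card = 0) (P : V → ℕ) (v : V)
    (hv : (oddV s t).filter (fun x => P x = P v) = {v}) :
    (cut s t {v}).card ≤ cr s t (oddV s t) P := by
  refine card_le_card fun e he => ?_
  simp only [cut, mem_filter, mem_univ, true_and, mem_singleton] at he
  have hne : s e ≠ t e := fun h => he (by rw [h])
  obtain ⟨h1, h2⟩ := ends_mem s t hodd e hne
  simp only [mem_filter, mem_univ, true_and]
  refine ⟨⟨h1, h2⟩, fun h3 => ?_⟩
  by_cases h4 : s e = v
  · have h5 : t e ∈ (oddV s t).filter (fun x => P x = P v) := by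
      rw [mem_filter]
      exact ⟨h2, by rw [← h3, h4]⟩
    rw [hv, mem_singleton] at h5
    exact he (by simp [h4, h5])
  · have h6 : t e = v := by
      by_contra h6
      exact he (by simp [h4, h6])
    have h5 : s e ∈ (oddV s t).filter (fun x => P x = P v) := by
      rw [mem_filter]
      exact ⟨h1, by rw [h3, h6]⟩
    rw [hv, mem_singleton] at h5
    exact h4 h5

/-- The number of crossing edges. -/
theorem cr_bound (s t : E → V)
    (hodd : ∀ v, Odd (cut s t {v}).card ∨ (cut s t {v}).card = 0)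
    (h5 : ∀ v, Odd (cut s t {v}).card → 5 ≤ (cut s t {v}).card)
    (hnd : ∀ U : Finset V, U ⊆ oddV s t → 2 ≤ U.card → 3 * ein s t U + 10 < 10 * U.card)
    (hN : ((oddV s t).card = 6 ∧ (univ.filter fun e => s e ≠ t e).card = 16) ∨
      ((oddV s t).card = 8 ∧ (univ.filter fun e => s e ≠ t e).card = 23))
    (P : V → ℕ) (h2 : 2 ≤ ((oddV s t).image P).card) :
    3 * ((oddV s t).image P).card ≤ cr s t (oddV s t) P + 2 := by
  classical
  set W := oddV s t with hW
  set τ := (W.image P).card with hτ
  have hs := ein_split s t P W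
  rw [← cr, ein_oddV s t hodd] at hs
  have hcl : ∀ i ∈ W.image P, 3 * ein s t (W.filter fun x => P x = i) +
      (if 2 ≤ (W.filter fun x => P x = i).card then 1 else 0) + 10 ≤
      10 * (W.filter fun x => P x = i).card := by
    intro i hi
    have h1 : 1 ≤ (W.filter fun x => P x = i).card := by
      obtain ⟨x, hx, hxi⟩ := mem_image.1 hi
      exact card_pos.2 ⟨x, mem_filter.2 ⟨hx, hxi⟩⟩
    split_ifs with h3
    · have := hnd _ (filter_subset _ _) h3
      omega
    · have h4 : (W.filter fun x => P x = i).card = 1 := by omega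
      have h5 : ein s t (W.filter fun x => P x = i) = 0 := by
        rw [ein, card_eq_zero, filter_eq_empty_iff]
        rintro e _ ⟨h6, h7, h8⟩
        exact h6 (card_le_one.1 h4.le _ h7 _ h8)
      omega
  have hsum := Finset.sum_le_sum hcl
  rw [sum_add_distrib, sum_add_distrib, ← mul_sum, ← mul_sum, sum_const, smul_eq_mul, ← hτ,
    ← Finset.card_eq_sum_card_fiberwise (f := P) (t := W.image P)
      (fun x hx => mem_coe.2 (mem_image_of_mem _ hx))] at hsum
  set k2 := ∑ i ∈ W.image P, (if 2 ≤ (W.filter fun x => P x = i).card then 1 else 0) with hk2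
  have hτN : τ ≤ W.card := card_image_le
  -- either all classes have two elements, or a class is a vertex
  have hor : k2 = τ ∨ 5 ≤ cr s t W P := by
    by_cases h3 : ∀ i ∈ W.image P, 2 ≤ (W.filter fun x => P x = i).card
    · left
      rw [hk2, hτ, card_eq_sum_ones]
      exact sum_congr rfl fun i hi => if_pos (h3 i hi)
    · right
      push Not at h3
      obtain ⟨i, hi, h4⟩ := h3
      obtain ⟨v, hv, hvi⟩ := mem_image.1 hi
      subst hvi
      have h5' : (W.filter fun x => P x = P v) = {v} := by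
        have h6 : v ∈ W.filter fun x => P x = P v := mem_filter.2 ⟨hv, rfl⟩
        have h7 : (W.filter fun x => P x = P v).card ≤ ({v} : Finset V).card := by
          rw [card_singleton]
          omega
        exact (eq_of_subset_of_card_le (singleton_subset_iff.2 h6) h7).symm
      have h6 := cr_single s t hodd P v h5'
      rw [← hW] at h6
      have h7 : v ∈ oddV s t := hv
      rw [oddV, mem_filter] at h7
      have := h5 v h7.2
      omega
  have hk21 : τ < W.card → 1 ≤ k2 := by
    intro h3
    by_contra h4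
    have h5' : k2 = 0 := by omega
    rw [hk2, Finset.sum_eq_zero_iff] at h5'
    have h6 : W.card ≤ ∑ _i ∈ W.image P, 1 := by
      rw [Finset.card_eq_sum_card_fiberwise (f := P) (t := W.image P)
        (fun x hx => mem_coe.2 (mem_image_of_mem _ hx))]
      refine sum_le_sum fun i hi => ?_
      have := h5' i hi
      by_cases h7 : 2 ≤ (W.filter fun x => P x = i).card
      · rw [if_pos h7] at this
        omega
      · omega
    rw [← card_eq_sum_ones, ← hτ] at h6
    omega
  generalize (∑ i ∈ W.image P, ein s t (W.filter fun x => P x = i)) = Q at *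
  generalize cr s t W P = c at *
  rcases hN with ⟨hN, hM⟩ | ⟨hN, hM⟩
  · rw [hM] at hs
    rw [hN] at hsum hτN hk21
    omega
  · rw [hM] at hs
    rw [hN] at hsum hτN hk21
    omega

theorem cases_N (N m J : ℕ) (hN : 2 ≤ N) (hev : N % 2 = 0) (h1 : 3 * m + 10 < 10 * N)
    (h2 : 7 * N ≤ 2 * m + 2 * J) (h3 : J ≤ 5) (h4 : J ≤ N) :
    (N = 6 ∧ m = 16) ∨ (N = 8 ∧ m = 23) := by
  have h5 : N ≤ 8 := by omega
  interval_cases N <;> omega

theorem good_inside (s t : E → V) (W : Finset V)
    (hW : ∀ e, s e ≠ t e → s e ∈ W ∧ t e ∈ W) {θ : ℝ} (hθ : 0 ≤ θ)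
    (h : Good (fun e : {e : E // s e ∈ W ∧ t e ∈ W} => (⟨s e.1, e.2.1⟩ : {x // x ∈ W}))
      (fun e => ⟨t e.1, e.2.2⟩) θ) : Good s t θ := by
  classical
  obtain ⟨f, hf, hb⟩ := h
  refine ⟨fun e => if h : s e ∈ W ∧ t e ∈ W then f ⟨e, h⟩ else ((1 : ℝ) : AddCircle (2 : ℝ)),
    fun v => ?_, fun e => ?_⟩
  · have hsplit : ∀ F : E → AddCircle (2 : ℝ), ∑ e, F e =
        (∑ e : {e : E // s e ∈ W ∧ t e ∈ W}, F e.1) +
          ∑ e : {e : E // ¬ (s e ∈ W ∧ t e ∈ W)}, F e.1 := fun F =>
      (Fintype.sum_subtype_add_sum_subtype (fun e => s e ∈ W ∧ t e ∈ W) F).symm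
    rw [dvT, hsplit]
    have h1 : ∑ e : {e : E // ¬ (s e ∈ W ∧ t e ∈ W)},
        ((if s e.1 = v then (if h : s e.1 ∈ W ∧ t e.1 ∈ W then f ⟨e.1, h⟩
            else ((1 : ℝ) : AddCircle (2 : ℝ))) else 0) -
          (if t e.1 = v then (if h : s e.1 ∈ W ∧ t e.1 ∈ W then f ⟨e.1, h⟩
            else ((1 : ℝ) : AddCircle (2 : ℝ))) else 0)) = 0 := by
      refine Finset.sum_eq_zero fun e _ => ?_
      have h2 : s e.1 = t e.1 := by
        by_contra h2
        exact e.2 (hW e.1 h2)
      rw [dif_neg e.2, h2, sub_self]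
    have h2 : ∑ e : {e : E // s e ∈ W ∧ t e ∈ W},
        ((if s e.1 = v then (if h : s e.1 ∈ W ∧ t e.1 ∈ W then f ⟨e.1, h⟩
            else ((1 : ℝ) : AddCircle (2 : ℝ))) else 0) -
          (if t e.1 = v then (if h : s e.1 ∈ W ∧ t e.1 ∈ W then f ⟨e.1, h⟩
            else ((1 : ℝ) : AddCircle (2 : ℝ))) else 0)) =
        ∑ e : {e : E // s e ∈ W ∧ t e ∈ W},
        ((if s e.1 = v then f e else 0) - (if t e.1 = v then f e else 0)) := by
      refine Finset.sum_congr rfl fun e _ => ?_
      rw [dif_pos e.2]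
    rw [h1, h2, add_zero]
    by_cases hv : v ∈ W
    · refine Eq.trans ?_ (hf ⟨v, hv⟩)
      rw [dvT]
      refine Finset.sum_congr rfl fun e _ => ?_
      simp only [Subtype.mk.injEq]
    · refine Finset.sum_eq_zero fun e _ => ?_
      rw [if_neg (fun h4 : s e.1 = v => hv (h4 ▸ e.2.1)),
        if_neg (fun h4 : t e.1 = v => hv (h4 ▸ e.2.2)), sub_zero]
  · by_cases h : s e ∈ W ∧ t e ∈ W
    · simp only [h, and_self, dite_true]
      exact hb _
    · simp only [h, dite_false, sub_self, norm_zero]
      exact hθ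

theorem card_cut_sub (s t : E → V) (W : Finset V)
    (hW : ∀ e, s e ≠ t e → s e ∈ W ∧ t e ∈ W) (v : {x // x ∈ W}) :
    (cut (fun e : {e : E // s e ∈ W ∧ t e ∈ W} => (⟨s e.1, e.2.1⟩ : {x // x ∈ W}))
      (fun e => ⟨t e.1, e.2.2⟩) {v}).card = (cut s t {v.1}).card := by
  refine Finset.card_bij (fun e _ => e.1) ?_ ?_ ?_
  · intro e he
    simp only [cut, mem_filter, mem_univ, true_and, mem_singleton] at he ⊢
    simpa [Subtype.ext_iff] using he
  · intro a _ b _ hab
    exact Subtype.ext hab
  · intro e he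
    simp only [cut, mem_filter, mem_univ, true_and, mem_singleton] at he
    have hne : s e ≠ t e := fun h => he (by rw [h])
    refine ⟨⟨e, hW e hne⟩, ?_, rfl⟩
    simp only [cut, mem_filter, mem_univ, true_and, mem_singleton]
    simpa [Subtype.ext_iff] using he

end Last

/-- **The sparse case.** -/
theorem good_last (s t : E → V)
    (hodd : ∀ v, Odd (cut s t {v}).card ∨ (cut s t {v}).card = 0)
    (h5 : ∀ v, Odd (cut s t {v}).card → 5 ≤ (cut s t {v}).card)
    (hJ : ((oddV s t).filter fun v => (cut s t {v}).card < 7).card ≤ 5)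
    (hm : (univ.filter fun e => s e ≠ t e).card ≠ 0)
    (hnd : ∀ U : Finset V, U ⊆ oddV s t → 2 ≤ U.card → 3 * ein s t U + 10 < 10 * U.card) :
    Good s t (3 / 10) := by
  classical
  set W := oddV s t with hW
  have hmem : ∀ v ∈ W, Odd (cut s t {v}).card := fun v hv => (mem_filter.1 hv).2
  have hsum := Last.sum_deg s t hodd
  rw [← hW] at hsum
  set m := (univ.filter fun e => s e ≠ t e).card with hmdef
  have hWm := Last.ein_oddV s t hodd
  rw [← hW, ← hmdef] at hWm
  -- the number of odd vertices is even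
  have hev : W.card % 2 = 0 := by
    have h1 : Even (∑ v ∈ W, (cut s t {v}).card) := by
      rw [hsum]
      exact even_two_mul _
    rw [Finset.even_sum_iff_even_card_odd] at h1
    have h2 : (W.filter fun v => Odd (cut s t {v}).card) = W := filter_true_of_mem hmem
    rw [h2] at h1
    exact Nat.even_iff.1 h1
  have hW2 : 2 ≤ W.card := by
    obtain ⟨e, he⟩ := card_ne_zero.1 hm
    rw [mem_filter] at he
    obtain ⟨h1, h2⟩ := Last.ends_mem s t hodd e he.2
    have h3 : ({s e, t e} : Finset V) ⊆ W := by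
      intro x hx
      rw [mem_insert, mem_singleton] at hx
      rcases hx with rfl | rfl
      · exact h1
      · exact h2
    have h4 := card_le_card h3
    rwa [card_pair he.2] at h4
  -- degrees
  have hdeg : ∀ v ∈ W, 7 ≤ (cut s t {v}).card + (if (cut s t {v}).card < 7 then 2 else 0) := by
    intro v hv
    have h1 := h5 v (hmem v hv)
    obtain ⟨a, ha⟩ := hmem v hv
    split_ifs <;> omega
  have hJsum : ∀ X : Finset V, X ⊆ W → 7 * X.card ≤ ∑ v ∈ X, (cut s t {v}).card + 10 := by
    intro X hX
    have h1 : 7 * X.card ≤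
        ∑ v ∈ X, ((cut s t {v}).card + (if (cut s t {v}).card < 7 then 2 else 0)) := by
      rw [mul_comm, ← smul_eq_mul]
      exact card_nsmul_le_sum _ _ _ fun v hv => hdeg v (hX hv)
    rw [sum_add_distrib, ← Finset.sum_filter, Finset.sum_const, smul_eq_mul] at h1
    have h2 : (X.filter fun v => (cut s t {v}).card < 7).card ≤ 5 :=
      (card_le_card (filter_subset_filter _ hX)).trans hJ
    omega
  have hJ2 : 7 * W.card ≤ 2 * m +
      2 * (W.filter fun v => (cut s t {v}).card < 7).card := by
    have h1 : 7 * W.card ≤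
        ∑ v ∈ W, ((cut s t {v}).card + (if (cut s t {v}).card < 7 then 2 else 0)) := by
      rw [mul_comm, ← smul_eq_mul]
      exact card_nsmul_le_sum _ _ _ fun v hv => hdeg v hv
    rw [sum_add_distrib, ← Finset.sum_filter, Finset.sum_const, smul_eq_mul, hsum] at h1
    omega
  have hN := Last.cases_N W.card m (W.filter fun v => (cut s t {v}).card < 7).card hW2 hev
    (by have := hnd W (Subset.refl _) hW2; rwa [hWm] at this) hJ2 hJ
    (card_le_card (filter_subset _ _))
  have hdeg8 : ∀ v ∈ W, (cut s t {v}).card ≤ 8 := by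
    intro v hv
    have h1 := hJsum (W.erase v) (erase_subset _ _)
    rw [card_erase_of_mem hv] at h1
    have h2 : (cut s t {v}).card + ∑ x ∈ W.erase v, (cut s t {x}).card =
        ∑ x ∈ W, (cut s t {x}).card :=
      Finset.add_sum_erase W (fun v => (cut s t {v}).card) hv
    rw [hsum] at h2
    rcases hN with ⟨h3, h4⟩ | ⟨h3, h4⟩ <;> rw [h3] at h1 <;> rw [h4] at h2 <;> omega
  have hWe := Last.ends_mem s t hodd
  rw [← hW] at hWe
  refine Last.good_inside s t W hWe (by norm_num) (good_small _ _ ?_ ?_ ?_)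
  · rw [Fintype.card_coe]
    rcases hN with ⟨h3, -⟩ | ⟨h3, -⟩ <;> omega
  · intro v
    rw [Last.card_cut_sub s t W hWe v]
    exact ⟨hmem v.1 v.2, hdeg8 v.1 v.2⟩
  · intro p hp
    set P : V → ℕ := fun x => if hx : x ∈ W then p ⟨x, hx⟩ else 0 with hP
    have hPp : ∀ x (hx : x ∈ W), P x = p ⟨x, hx⟩ := fun x hx => dif_pos hx
    have himg : (univ.image p).card = (W.image P).card := by
      congr 1
      ext i
      simp only [mem_image, mem_univ, true_and]
      constructor
      · rintro ⟨x, rfl⟩
        exact ⟨x.1, x.2, hPp _ _⟩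
      · rintro ⟨x, hx, rfl⟩
        exact ⟨⟨x, hx⟩, (hPp _ _).symm⟩
    have hcross : (univ.filter (fun e : {e : E // s e ∈ W ∧ t e ∈ W} =>
        p ⟨s e.1, e.2.1⟩ ≠ p ⟨t e.1, e.2.2⟩)).card = Last.cr s t W P := by
      refine Finset.card_bij (fun e _ => e.1) ?_ ?_ ?_
      · intro e he
        simp only [mem_filter, mem_univ, true_and] at he ⊢
        refine ⟨e.2, ?_⟩
        rw [hPp _ e.2.1, hPp _ e.2.2]
        exact he
      · intro a _ b _ hab
        exact Subtype.ext hab
      · intro e he
        simp only [mem_filter, mem_univ, true_and] at he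
        refine ⟨⟨e, he.1⟩, ?_, rfl⟩
        simp only [mem_filter, mem_univ, true_and]
        rw [← hPp _ he.1.1, ← hPp _ he.1.2]
        exact he.2
    have hb := Last.cr_bound s t hodd h5 hnd hN P (by rw [← himg]; exact hp)
    rw [himg, hcross]
    exact hb

end Pool.Agent.OddFlow
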