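import Mathlib
import Pool.Agent.Work.MP_392c8e_co_odd.Pack
import Pool.Agent.Work.MP_392c8e_co_odd.MainF
import Pool.Agent.Work.MP_392c8e_co_odd.Last

/-!
# At most five disjoint small odd cuts

If all odd cuts have at least five edges and at most five sets with exactly five leaving edges
are pairwise disjoint, then there is a circle valued flow within `3 / 10` of the antipode.
-/

namespace Pool.Agent.OddFlow

open Finset Pool.Agent.Circ

set_option linter.unusedSectionVars false

variable {V E : Type*} [Fintype V] [DecidableEq V] [Fintype E] [DecidableEq E]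

namespace Five

theorem cut_parity_sum (s t : E → V) (S : Finset V) :
    Even ((cut s t S).card + ∑ v ∈ S, (cut s t {v}).card) := by
  simp only [Split.card_cut]
  rw [sum_comm, ← sum_add_distrib]
  refine Finset.even_sum _ fun e _ => ?_
  unfold Split.ci
  by_cases h : s e = t e
  · simp [h]
  · have h3 : ∀ v : V, (if (s e ∈ ({v} : Finset V) ↔ t e ∈ ({v} : Finset V)) then 0 else 1)
        = (if s e = v then 1 else 0) + (if t e = v then 1 else 0) := by
      intro v
      by_cases h4 : s e = v <;> by_cases h5 : t e = v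
      · exact absurd (h4.trans h5.symm) h
      · simp [h4, h5]
      · simp [h4, h5]
      · simp [h4, h5]
    simp only [h3]
    rw [sum_add_distrib, sum_ite_eq, sum_ite_eq]
    by_cases h1 : s e ∈ S <;> by_cases h2 : t e ∈ S <;> simp [h1, h2]

theorem exists_odd (s t : E → V) {S : Finset V} (hS : Odd (cut s t S).card) :
    ∃ v ∈ S, v ∈ oddV s t := by
  by_contra h
  push Not at h
  have h1 : Even (∑ v ∈ S, (cut s t {v}).card) := by
    refine Finset.even_sum _ fun v hv => ?_
    have := h v hv
    rw [oddV, mem_filter, not_and] at this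
    exact Nat.not_odd_iff_even.1 (this (mem_univ _))
  have h2 := cut_parity_sum s t S
  rw [Nat.even_add] at h2
  exact Nat.not_even_iff_odd.2 hS (h2.2 h1)

/-- The exceptional vertices can be chosen of odd degree. -/
theorem exists_F_odd (s t : E → V) {k : ℕ} (hk : Odd k)
    (h : ∀ X : Finset V, Odd (cut s t X).card → k ≤ (cut s t X).card + 2) (r : ℕ)
    (hr : ∀ P : Finset (Finset V), (∀ S ∈ P, Odd (cut s t S).card ∧ (cut s t S).card < k) →
      (∀ S ∈ P, ∀ T ∈ P, S ≠ T → Disjoint S T) → P.card ≤ r) :
    ∃ F : Finset V, F ⊆ oddV s t ∧ F.card ≤ r ∧ OddCutF s t k F := by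
  classical
  let M : Finset (Finset V) := univ.filter fun S => Pack.Mini s t k S
  have hM : M.card ≤ r := by
    refine hr M (fun S hS => ?_) (fun S hS T hT hne => ?_)
    · rw [mem_filter] at hS
      exact hS.2.1
    · rw [mem_filter] at hS hT
      exact Pack.mini_disjoint s t hk h hS.2 hT.2 hne
  have hne : ∀ S : Finset V, ∃ x : Option V, Pack.Small s t k S →
      ∃ y ∈ S, y ∈ oddV s t ∧ x = some y := by
    intro S
    by_cases h1 : Pack.Small s t k S
    · obtain ⟨y, hy, hy'⟩ := exists_odd s t h1.1
      exact ⟨some y, fun _ => ⟨y, hy, hy', rfl⟩⟩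
    · exact ⟨none, fun h2 => absurd h2 h1⟩
  choose φ hφ using hne
  refine ⟨univ.filter fun y : V => some y ∈ M.image φ, ?_, ?_, fun X hX => ?_⟩
  · intro y hy
    rw [mem_filter, mem_image] at hy
    obtain ⟨-, T, hT, hTy⟩ := hy
    rw [mem_filter] at hT
    obtain ⟨z, -, hz2, hz3⟩ := hφ T hT.2.1
    rw [hTy] at hz3
    rw [Option.some.inj hz3]
    exact hz2
  · refine le_trans ?_ (le_trans (card_image_le (s := M) (f := φ)) hM)
    refine card_le_card_of_injOn some (fun y hy => ?_) (fun a _ b _ hab => Option.some.inj hab)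
    simpa using hy
  · rcases Nat.lt_or_ge (cut s t X).card k with h1 | h1
    · have hkey : ∀ Y : Finset V, Pack.Small s t k Y →
          ∃ y ∈ (univ.filter fun y : V => some y ∈ M.image φ), y ∈ Y := by
        intro Y hY
        obtain ⟨T, hTY, hT⟩ := Pack.exists_mini (s := s) (t := t) (k := k) Y hY
        obtain ⟨y, hy, -, hyφ⟩ := hφ T hT.1
        refine ⟨y, ?_, hTY hy⟩
        rw [mem_filter]
        exact ⟨mem_univ _, mem_image.2 ⟨T, by simp [M, hT], hyφ⟩⟩
      have hsX : Pack.Small s t k X := ⟨hX, h1⟩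
      obtain ⟨x, hx, hx'⟩ := hkey X hsX
      obtain ⟨y, hy, hy'⟩ := hkey Xᶜ (Pack.small_compl hsX)
      rw [if_pos ⟨⟨x, hx, hx'⟩, ⟨y, hy, by simpa using hy'⟩⟩]
      exact h X hX
    · omega

/-- A small set of exceptional vertices bounds the number of disjoint small cuts. -/
theorem pack_of_F (s t : E → V) {k : ℕ} (F : Finset V) (h : OddCutF s t k F)
    (P : Finset (Finset V)) (hP : ∀ S ∈ P, Odd (cut s t S).card ∧ (cut s t S).card < k)
    (hd : ∀ S ∈ P, ∀ T ∈ P, S ≠ T → Disjoint S T) : P.card ≤ F.card := by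
  classical
  have hsep : ∀ S ∈ P, ∃ x ∈ F, x ∈ S := by
    intro S hS
    have h1 := h S (hP S hS).1
    have h2 := (hP S hS).2
    by_contra h3
    have h4 : ¬ Sep F S := fun h5 => h3 h5.1
    rw [if_neg h4] at h1
    omega
  rcases Finset.eq_empty_or_nonempty P with rfl | ⟨S0, hS0⟩
  · simp
  obtain ⟨x0, -, -⟩ := hsep S0 hS0
  have hch : ∀ S : Finset V, ∃ x : V, S ∈ P → x ∈ F ∧ x ∈ S := by
    intro S
    by_cases h1 : S ∈ P
    · obtain ⟨x, hx, hx'⟩ := hsep S h1
      exact ⟨x, fun _ => ⟨hx, hx'⟩⟩
    · exact ⟨x0, fun h2 => absurd h2 h1⟩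
  choose φ hφ using hch
  refine card_le_card_of_injOn φ (fun S hS => (hφ S hS).1) fun S hS T hT hST => ?_
  by_contra hne
  have h1 := hd S hS T hT hne
  have h2 := (hφ S hS).2
  have h3 := (hφ T hT).2
  have h4 : φ S = φ T := hST
  rw [h4] at h2
  exact disjoint_left.1 h1 h2 h3

/-- Contraction and packings. -/
theorem pack_contract (s t : E → V) {k r : ℕ} (U : Finset V) (u : V)
    (hr : ∀ P : Finset (Finset V), (∀ S ∈ P, Odd (cut s t S).card ∧ (cut s t S).card < k) →
      (∀ S ∈ P, ∀ T ∈ P, S ≠ T → Disjoint S T) → P.card ≤ r)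
    (P : Finset (Finset V))
    (hP : ∀ S ∈ P,
      Odd (cut (fun e => if s e ∈ U then u else s e) (fun e => if t e ∈ U then u else t e) S).card ∧
      (cut (fun e => if s e ∈ U then u else s e) (fun e => if t e ∈ U then u else t e) S).card < k)
    (hd : ∀ S ∈ P, ∀ T ∈ P, S ≠ T → Disjoint S T) : P.card ≤ r := by
  classical
  set pre : Finset V → Finset V := fun X => univ.filter fun x => (if x ∈ U then u else x) ∈ X
    with hpre
  have hP' : ∀ S ∈ P, Pack.Small s t k (pre S) := by
    intro S hS
    have h1 := hP S hS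
    rw [cut_contract] at h1
    exact h1
  have hdis : ∀ S ∈ P, ∀ T ∈ P, S ≠ T → Disjoint (pre S) (pre T) := by
    intro S hS T hT hne
    rw [disjoint_left]
    intro x hx hx'
    simp only [hpre, mem_filter, mem_univ, true_and] at hx hx'
    exact disjoint_left.1 (hd S hS T hT hne) hx hx'
  have hinj : Set.InjOn pre (P : Set (Finset V)) := by
    intro S hS T hT hST
    by_contra hne
    have h1 := hdis S hS T hT hne
    rw [show pre T = pre S from hST.symm, disjoint_self] at h1
    have h2 := (hP' S hS).nonempty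
    rw [show pre S = ∅ from h1] at h2
    exact not_nonempty_empty h2
  rw [← card_image_of_injOn hinj]
  refine hr _ (fun S hS => ?_) (fun S hS T hT hne => ?_)
  · obtain ⟨S', hS', rfl⟩ := mem_image.1 hS
    exact hP' S' hS'
  · obtain ⟨S', hS', rfl⟩ := mem_image.1 hS
    obtain ⟨T', hT', rfl⟩ := mem_image.1 hT
    exact hdis S' hS' T' hT' fun h => hne (by rw [h])

end Five

/-- **At most five disjoint small odd cuts.** -/
theorem main5 (s t : E → V)
    (h : ∀ X : Finset V, Odd (cut s t X).card → 7 ≤ (cut s t X).card + 2)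
    (hr : ∀ P : Finset (Finset V), (∀ S ∈ P, Odd (cut s t S).card ∧ (cut s t S).card < 7) →
      (∀ S ∈ P, ∀ T ∈ P, S ≠ T → Disjoint S T) → P.card ≤ 5) : Good s t (3 / 10) := by
  classical
  induction hm : (univ.filter fun e => s e ≠ t e).card using Nat.strong_induction_on
    generalizing s t with
  | _ m ih =>
  subst hm
  by_cases hm0 : (univ.filter fun e => s e ≠ t e).card = 0
  · -- only loops
    rw [card_eq_zero, filter_eq_empty_iff] at hm0
    refine ⟨fun _ => ((1 : ℝ) : AddCircle (2 : ℝ)), fun v => ?_, fun e => by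
      rw [sub_self, norm_zero]; norm_num⟩
    rw [dvT]
    refine Finset.sum_eq_zero fun e _ => ?_
    have := hm0 (mem_univ e)
    push Not at this
    rw [this, sub_self]
  by_cases hev : ∃ v, Even (cut s t {v}).card ∧ (cut s t {v}).card ≠ 0
  · -- split at a vertex of even degree
    obtain ⟨v, hv, hv0⟩ := hev
    obtain ⟨F, hFo, hF5, hF⟩ := Five.exists_F_odd s t (by decide : Odd 7) h 5 hr
    have hvF : v ∉ F := by
      intro h1
      have h2 := hFo h1
      rw [oddV, mem_filter] at h2
      exact Nat.not_odd_iff_even.2 hv h2.2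
    obtain ⟨s', t', h1, h2, h3, h4⟩ :=
      exists_splitF s t (by decide : Odd 7) F hF v hv hv0 (Or.inl hvF)
    refine h4 _ (by norm_num) (ih _ h3 s' t' (fun X hX => ?_) (fun P hP hd => ?_) rfl)
    · refine (h2 X hX).trans (Nat.add_le_add_left ?_ _)
      split_ifs <;> omega
    · exact (Five.pack_of_F s' t' F h2 P hP hd).trans hF5
  -- all degrees are odd
  have hodd : ∀ v, Odd (cut s t {v}).card ∨ (cut s t {v}).card = 0 := by
    intro v
    by_contra h1
    push Not at h1
    exact hev ⟨v, Nat.not_odd_iff_even.1 h1.1, h1.2⟩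
  by_cases hnd : ∀ U : Finset V, U ⊆ oddV s t → 2 ≤ U.card → 3 * ein s t U + 10 < 10 * U.card
  · refine good_last s t hodd (fun v hv => ?_) ?_ hm0 hnd
    · have := h _ hv
      omega
    · have hinj : Set.InjOn (fun v : V => ({v} : Finset V))
          (((oddV s t).filter fun v => (cut s t {v}).card < 7 : Finset V) : Set V) :=
        fun a _ b _ hab => by simpa using hab
      rw [← card_image_of_injOn hinj]
      refine hr _ (fun S hS => ?_) (fun S hS T hT hne => ?_)
      · obtain ⟨v, hv, rfl⟩ := mem_image.1 hS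
        rw [mem_filter, oddV, mem_filter] at hv
        exact ⟨hv.1.2, hv.2⟩
      · obtain ⟨v, hv, rfl⟩ := mem_image.1 hS
        obtain ⟨w, hw, rfl⟩ := mem_image.1 hT
        rw [disjoint_singleton]
        rintro rfl
        exact hne rfl
  -- a dense set
  push Not at hnd
  obtain ⟨W, hWo, hW2, hWd⟩ := hnd
  obtain ⟨U, hU2, hUW, hU⟩ := dense_core s t (3 / 10) (by norm_num) W hW2 (by
    have h1 : (10 : ℝ) * W.card ≤ 3 * ein s t W + 10 := by exact_mod_cast hWd
    linarith)
  obtain ⟨u, hu⟩ : U.Nonempty := card_pos.1 (by omega)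
  have hlt : (univ.filter fun e => (if s e ∈ U then u else s e) ≠
      (if t e ∈ U then u else t e)).card < (univ.filter fun e => s e ≠ t e).card := by
    -- fewer edges: some edge inside `U` is no loop
    refine Finset.card_lt_card ?_
    rw [Finset.ssubset_iff_of_subset]
    · -- an edge inside `U`
      obtain ⟨e, he1, he2, he3⟩ : ∃ e, s e ∈ U ∧ t e ∈ U ∧ s e ≠ t e := by
        by_contra hno
        push Not at hno
        have h1 := hU (fun x => (Fintype.equivFin V x.1 : ℕ))
        have h2 : (univ.filter (fun e : {e : E // s e ∈ U ∧ t e ∈ U} =>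
            (Fintype.equivFin V (s e.1) : ℕ) ≠ Fintype.equivFin V (t e.1))).card = 0 := by
          rw [card_eq_zero, filter_eq_empty_iff]
          intro e _
          push Not
          rw [hno e.1 e.2.1 e.2.2]
        have h3 : (univ.image fun x : {x // x ∈ U} => (Fintype.equivFin V x.1 : ℕ)).card
            = U.card := by
          rw [card_image_of_injective, card_univ, Fintype.card_coe]
          intro x y hxy
          exact Subtype.ext ((Fintype.equivFin V).injective (Fin.ext hxy))
        simp only at h1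
        rw [h2, h3] at h1
        have h4 : (2 : ℝ) ≤ U.card := by exact_mod_cast hU2
        norm_num at h1
        linarith
      refine ⟨e, ?_, ?_⟩
      · simpa using he3
      · simp [he1, he2]
    · intro e he
      simp only [mem_filter, mem_univ, true_and] at he ⊢
      intro h1
      exact he (by rw [h1])
  refine good_of_contract s t U u hu _ (by norm_num) hU
    (ih _ hlt _ _ (fun X hX => ?_) (fun P hP hd => ?_) rfl)
  · rw [cut_contract] at hX ⊢
    exact h _ hX
  · exact Five.pack_contract s t U u hr P hP hd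

end Pool.Agent.OddFlow
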