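import Mathlib
import Pool.Agent.Work.MP_392c8e_co_odd.Main5
import Pool.Agent.Work.MP_392c8e_co_odd.PlaneP

/-!
# Plane graphs with at most five disjoint sides of five-cycles
-/

namespace Pool.Agent.OddFlow

open Finset Pool.Agent.Circ Pool.Agent.Sub392

set_option linter.unusedSectionVars false

variable {V : Type} [Fintype V] [DecidableEq V] {G : SimpleGraph V} [DecidableRel G.Adj]

/-- from a flow on the faces to a `(20, 7)`-colouring -/
theorem colour_of_good (R : Rot G) (hP : R.Plane)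
    (h : Good (fun e : Up G => R.face e.1) (fun e : Up G => R.face e.1.symm) (3 / 10)) :
    ∃ c : V → ℕ, (∀ v, c v < 20) ∧
      ∀ u v, G.Adj u v → 7 ≤ |(c u : ℤ) - c v| ∧ |(c u : ℤ) - c v| ≤ 13 := by
  obtain ⟨f, hf, hb⟩ := h
  obtain ⟨φ, hφ⟩ := circle_exact R hP f hf
  obtain ⟨c, hc1, hc2⟩ := Arb392.exists_colouring (p := 20) (q := 7) (by norm_num) (by norm_num) φ
  refine ⟨c, hc1, fun u v huv => ?_⟩
  have key : ∀ e : Up G, (7 / 10 : ℝ) ≤ ‖φ e.1.snd - φ e.1.fst‖ := fun e => by
    rw [← hφ]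
    have := Arb392.le_norm_of_antipode (hb e)
    linarith
  have h1 : (7 / 10 : ℝ) ≤ ‖φ u - φ v‖ := by
    rcases up_or (⟨(u, v), huv⟩ : G.Dart) with h | h
    · have := key ⟨_, h⟩
      rw [norm_sub_rev] at this
      exact this
    · exact key ⟨_, h⟩
  have h2 := hc2 u v (by push_cast; linarith)
  constructor
  · exact_mod_cast h2.1
  · have := h2.2
    norm_num at this
    exact this

/-- **At most five disjoint sides of five-cycles.** -/
theorem plane_five (R : Rot G) (hP : R.Plane)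
    (hcut : ∀ S : Finset R.Face, Odd (R.cut S) → 5 ≤ R.cut S)
    (hr : ∀ P : Finset (Finset R.Face), (∀ S ∈ P, R.cut S = 5) →
      (P : Set (Finset R.Face)).PairwiseDisjoint id → P.card ≤ 5) :
    ∃ c : V → ℕ, (∀ v, c v < 20) ∧
      ∀ u v, G.Adj u v → 7 ≤ |(c u : ℤ) - c v| ∧ |(c u : ℤ) - c v| ≤ 13 := by
  classical
  refine colour_of_good R hP (main5 _ _ ?_ ?_)
  · intro X hX
    rw [card_cut_eq] at hX ⊢
    have := hcut X hX
    omega
  · intro P h1 h2
    refine hr P (fun S hS => ?_) (fun S hS T hT hST => h2 S hS T hT hST)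
    have h3 := h1 S hS
    rw [card_cut_eq] at h3
    have h4 := hcut S h3.1
    have h5 := h3.1
    rw [Nat.odd_iff] at h5
    omega

end Pool.Agent.OddFlow
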