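import Mathlib
import Pool.Agent.Work.MP_392c8e_co_odd.PlaneOm
import Pool.Agent.Work.MP_392c8e_co_odd.Switch
import Pool.Agent.Work.MP_392c8e_co_odd.CycD

/-!
# Weights with switching at the cycles of length five: plane graphs
-/

namespace Pool.Agent.OddFlow

open Finset Pool.Agent.Circ Pool.Agent.Sub392

set_option linter.unusedSectionVars false

section

variable {V E : Type*} [Fintype V] [DecidableEq V] [Fintype E] [DecidableEq E]

/-- A cut with connected sides is minimal. -/
theorem minCut_of_conn (s t : E → V) (hconn : ConnS s t univ) {Z : Finset V}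
    (h1 : ConnS s t Z) (h2 : ConnS s t Zᶜ) (hn : Z.Nonempty) (hn' : Zᶜ.Nonempty) :
    MinCut s t Z := by
  have hZu : Z ≠ univ := by
    rintro rfl
    rw [compl_univ] at hn'
    exact not_nonempty_empty hn'
  refine ⟨?_, fun Y hY hYn => ?_⟩
  · obtain ⟨e, he⟩ := hconn Z (subset_univ _) hn hZu
    refine ⟨e, ?_⟩
    rw [mem_cut]
    simp only [mem_sdiff, mem_univ, true_and] at he
    tauto
  · have key : ∀ W : Finset V, ConnS s t W → cut s t W = cut s t Z →
        Y ∩ W = ∅ ∨ W ⊆ Y := by
      intro W hW hWZ
      by_contra hcon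
      rw [not_or] at hcon
      obtain ⟨e, he⟩ := hW (Y ∩ W) inter_subset_right (nonempty_iff_ne_empty.2 hcon.1) (by
        intro h
        exact hcon.2 (inter_eq_right.1 h))
      have h3 : e ∈ cut s t Y := by
        rw [mem_cut]
        simp only [mem_sdiff, mem_inter] at he
        tauto
      have h4 := hY h3
      rw [← hWZ, mem_cut] at h4
      simp only [mem_sdiff, mem_inter] at he
      tauto
    rcases key Z h1 rfl with h3 | h3
    · rcases key Zᶜ h2 (cut_compl_eq s t Z) with h4 | h4
      · exfalso
        obtain ⟨e, he⟩ := hYn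
        have h5 : Y = ∅ := by
          ext v
          simp only [notMem_empty, iff_false]
          intro hv
          by_cases hvZ : v ∈ Z
          · exact notMem_empty v (h3 ▸ mem_inter.2 ⟨hv, hvZ⟩)
          · exact notMem_empty v (h4 ▸ mem_inter.2 ⟨hv, mem_compl.2 hvZ⟩)
        rw [h5, mem_cut] at he
        simp at he
      · have h5 : Y = Zᶜ := by
          refine subset_antisymm (fun v hv => ?_) h4
          rw [mem_compl]
          intro hvZ
          exact notMem_empty v (h3 ▸ mem_inter.2 ⟨hv, hvZ⟩)
        rw [h5, cut_compl_eq]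
    · rcases key Zᶜ h2 (cut_compl_eq s t Z) with h4 | h4
      · have h5 : Y = Z := by
          refine subset_antisymm (fun v hv => ?_) h3
          by_contra hvZ
          exact notMem_empty v (h4 ▸ mem_inter.2 ⟨hv, mem_compl.2 hvZ⟩)
        rw [h5]
      · exfalso
        obtain ⟨e, he⟩ := hYn
        have h5 : Y = univ := by
          ext v
          simp only [mem_univ, iff_true]
          by_cases hvZ : v ∈ Z
          · exact h3 hvZ
          · exact h4 (mem_compl.2 hvZ)
        rw [h5, mem_cut] at he
        simp at he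

end

variable {V : Type} [Fintype V] [DecidableEq V] {G : SimpleGraph V} [DecidableRel G.Adj]

/-- Every cycle has a side. -/
theorem exists_side (R : Rot G) (hP : R.Plane) {v : V} (c : G.Walk v v) (hc : c.IsCycle) :
    ∃ S : Finset R.Face, Side R c S := by
  classical
  obtain ⟨a, ha⟩ := cycle_sides R hP c hc
  refine ⟨univ.filter fun f => a f = 1, fun d => ?_⟩
  have h1 := ha d
  simp only [mem_filter, mem_univ, true_and]
  have h2 : (a (R.face d) = 1 ↔ a (R.face d.symm) = 1) ↔ a (R.face d) = a (R.face d.symm) := by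
    generalize a (R.face d) = x
    generalize a (R.face d.symm) = y
    revert x y
    decide
  rw [h2, h1, not_not]

/-- **Weights with switching.**  Let `om` be nonnegative weights of the edges of the plane graph
`G` such that every odd cycle has weight at least `2`, and `P` a set of pairwise edge disjoint
cycles of length `5` with all weights `2 / 5`.  If every cycle `C` not in `P` has weight at most
`(1 - 2 q / p) |C| + K / 5`, where `K` is the number of cycles in `P` sharing exactly four edges
with `C`, then there is a `(p, q)`-colouring. -/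
theorem plane_switch (R : Rot G) (hP : R.Plane) {p q : ℕ} (hq : 1 ≤ q) (h52 : 5 * q ≤ 2 * p)
    (om : Sym2 V → ℝ) (h0 : ∀ e ∈ G.edgeSet, 0 ≤ om e)
    (hodd : ∀ (v : V) (c : G.Walk v v), c.IsCycle → Odd c.length → 2 ≤ (c.edges.map om).sum)
    (P : Finset (Finset (Sym2 V)))
    (hP5 : ∀ D ∈ P, ∃ (v : V) (c : G.Walk v v), c.IsCycle ∧ c.length = 5 ∧
      c.edges.toFinset = D)
    (hPd : ∀ D ∈ P, ∀ D' ∈ P, D ≠ D' → Disjoint D D')
    (hPom : ∀ D ∈ P, ∀ e ∈ D, om e = 2 / 5)
    (hb : ∀ (v : V) (c : G.Walk v v), c.IsCycle → c.edges.toFinset ∉ P →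
      (c.edges.map om).sum ≤ (1 - 2 * (q : ℝ) / p) * c.length +
        (1 / 5) * (P.filter fun D => (c.edges.toFinset ∩ D).card = 4).card) :
    ∃ c : V → ℕ, (∀ v, c v < p) ∧
      ∀ u v, G.Adj u v → (q : ℤ) ≤ |(c u : ℤ) - c v| ∧ |(c u : ℤ) - c v| ≤ p - q := by
  classical
  have h2q : 2 * q ≤ p := by omega
  have hp0 : 0 < p := by omega
  have hp : (0 : ℝ) < p := by exact_mod_cast hp0
  obtain ⟨w, hw1, hw2, hw3, hw4, -⟩ := plane_charges R om h0 hodd
  set s : Up G → R.Face := fun e => R.face e.1 with hs
  set t : Up G → R.Face := fun e => R.face e.1.symm with ht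
  -- the bound without the factor
  have hw5 : ∀ S : Finset R.Face, |((∑ f ∈ S, w f : ℤ) : ℝ)| ≤ ∑ e ∈ cut s t S, om e.1.edge := by
    intro S
    have h1 := hw4 S
    have h2 : 0 ≤ ∑ e ∈ cut s t S, om e.1.edge :=
      sum_nonneg fun e _ => h0 _ e.1.edge_mem
    rcases Nat.eq_zero_or_pos R.odd.card with h3 | h3
    · rw [card_eq_zero] at h3
      have h4 : ∑ f ∈ S, w f = 0 :=
        sum_eq_zero fun f _ => hw1 f (by rw [h3]; exact notMem_empty _)
      rw [h4, Int.cast_zero, abs_zero]
      exact h2
    · have h4 : (1 : ℝ) ≤ R.odd.card := by exact_mod_cast h3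
      rw [Nat.cast_sub h3, Nat.cast_one] at h1
      by_contra h5
      rw [not_le] at h5
      have h6 : ((R.odd.card : ℝ) - 1) * ∑ e ∈ cut s t S, om e.1.edge ≤
          (R.odd.card : ℝ) * ∑ e ∈ cut s t S, om e.1.edge := by
        nlinarith
      have h7 : (R.odd.card : ℝ) * ∑ e ∈ cut s t S, om e.1.edge <
          (R.odd.card : ℝ) * |((∑ f ∈ S, w f : ℤ) : ℝ)| :=
        mul_lt_mul_of_pos_left h5 (by linarith)
      linarith
  have hconnU := connS_univ R hP
  have hconn : ∀ Y : Finset R.Face, cut s t Y = ∅ → Y = ∅ ∨ Y = univ := by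
    intro Y hY
    refine R.cut_zero hP.1 ?_
    rw [← card_cut_eq, ← hs, ← ht, hY, card_empty]
  -- the sides of the cycles in `P`
  have hside : ∀ D ∈ P, ∃ S : Finset R.Face,
      (cut s t S).image (fun e : Up G => e.1.edge) = D ∧ D.card = 5 := by
    intro D hD
    obtain ⟨v, c, h1, h2, h3⟩ := hP5 D hD
    obtain ⟨S, hS⟩ := exists_side R hP c h1
    refine ⟨S, ?_, ?_⟩
    · rw [image_cut_of_side R hS, h3]
    · rw [← h3, List.toFinset_card_of_nodup h1.edges_nodup, SimpleGraph.Walk.length_edges, h2]
  choose! sd hcutimg hD5 using hside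
  have hinj : Function.Injective fun e : Up G => e.1.edge := fun e e' h => up_edge_inj h
  have hcut5 : ∀ D ∈ P, (cut s t (sd D)).card = 5 := by
    intro D hD
    rw [← card_image_of_injective _ hinj, hcutimg D hD, hD5 D hD]
  have hmemP : ∀ D ∈ P, ∀ e ∈ cut s t (sd D), e.1.edge ∈ D := by
    intro D hD e he
    rw [← hcutimg D hD]
    exact mem_image_of_mem _ he
  have hP' := weight_switch s t hconn w hw3 (fun e => om e.1.edge) hw5 (P.image sd)
    (by
      intro S hS
      obtain ⟨D, hD, rfl⟩ := mem_image.1 hS
      exact hcut5 D hD)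
    (by
      intro S hS
      obtain ⟨D, hD, rfl⟩ := mem_image.1 hS
      have h1 := hw4 (sd D)
      have h2 : ∑ e ∈ cut s t (sd D), om e.1.edge = 2 := by
        rw [sum_congr rfl fun e he => hPom D hD _ (hmemP D hD e he), sum_const, hcut5 D hD]
        norm_num
      rw [h2] at h1
      have h3 : (2 : ℤ) ∣ ∑ f ∈ sd D, w f - ((cut s t (sd D)).card : ℤ) :=
        chg_parity s t (fun f => by rw [card_cut_eq]; exact hw2 f) (sd D)
      rw [hcut5 D hD] at h3
      have h4 : |∑ f ∈ sd D, w f| < 2 := by
        rcases Nat.eq_zero_or_pos R.odd.card with h5 | h5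
        · rw [card_eq_zero] at h5
          have h6 : ∑ f ∈ sd D, w f = 0 :=
            sum_eq_zero fun f _ => hw1 f (by rw [h5]; exact notMem_empty _)
          rw [h6]
          norm_num
        · by_contra h6
          rw [not_lt] at h6
          have h7 : (2 : ℝ) ≤ |((∑ f ∈ sd D, w f : ℤ) : ℝ)| := by exact_mod_cast h6
          have h8 : (1 : ℝ) ≤ R.odd.card := by exact_mod_cast h5
          rw [Nat.cast_sub h5, Nat.cast_one] at h1
          nlinarith
      omega)
    (by
      intro S hS S' hS' hne
      obtain ⟨D, hD, rfl⟩ := mem_image.1 hS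
      obtain ⟨D', hD', rfl⟩ := mem_image.1 hS'
      have h1 : D ≠ D' := by
        rintro rfl
        exact hne rfl
      have h2 := hPd D hD D' hD' h1
      rw [Finset.disjoint_left] at h2 ⊢
      intro e he he'
      exact h2 (hmemP D hD e he) (hmemP D' hD' e he'))
    (by
      intro S hS e he
      obtain ⟨D, hD, rfl⟩ := mem_image.1 hS
      exact hPom D hD _ (hmemP D hD e he))
  refine colour_of_good_pq R hP hq h2q (good_of_conn_bound s t hconnU w ?_ hw3 hp0 ?_)
  · intro f
    rw [card_cut_eq]
    exact hw2 f
  · intro S hS1 hS2 hn1 hn2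
    obtain ⟨v, c, hc, hsd', hlen⟩ := cycle_of_conn R hP hS1 hS2 hn1 hn2
    have hmin := minCut_of_conn s t hconnU hS1 hS2 hn1 hn2
    have hcard : (cut s t S).card = c.length := by
      rw [card_cut_eq, hlen]
    have himg := image_cut_of_side R hsd'
    have hsum := sum_side R hc hsd' om
    have hpq : ((p - 2 * q : ℕ) : ℝ) = (1 - 2 * (q : ℝ) / p) * p := by
      rw [Nat.cast_sub h2q]
      push_cast
      field_simp
    rw [hcard]
    have goal : |((∑ f ∈ S, w f : ℤ) : ℝ)| ≤ (1 - 2 * (q : ℝ) / p) * c.length := by
      by_cases hmem : c.edges.toFinset ∈ P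
      · -- one of the cycles in `P`
        have h1 : (c.edges.map om).sum = 2 := by
          rw [← List.sum_toFinset _ hc.edges_nodup,
            sum_congr rfl fun e he => hPom _ hmem e he, sum_const, hD5 _ hmem]
          norm_num
        have h5 : c.length = 5 := by
          have h3 := hD5 _ hmem
          rwa [List.toFinset_card_of_nodup hc.edges_nodup, SimpleGraph.Walk.length_edges] at h3
        have h6 : (R.odd.card : ℝ) * |((∑ f ∈ S, w f : ℤ) : ℝ)| ≤
            ((R.odd.card - 1 : ℕ) : ℝ) * (c.edges.map om).sum := by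
          rw [hsum]
          exact hw4 S
        rw [h1] at h6
        have h7 : (2 : ℤ) ∣ ∑ f ∈ S, w f - ((cut s t S).card : ℤ) :=
          chg_parity s t (fun f => by rw [card_cut_eq]; exact hw2 f) S
        rw [hcard, h5] at h7
        have h8 : |∑ f ∈ S, w f| < 2 := by
          rcases Nat.eq_zero_or_pos R.odd.card with h9 | h9
          · rw [card_eq_zero] at h9
            have h10 : ∑ f ∈ S, w f = 0 :=
              sum_eq_zero fun f _ => hw1 f (by rw [h9]; exact notMem_empty _)
            rw [h10]
            norm_num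
          · by_contra h10
            rw [not_lt] at h10
            have h11 : (2 : ℝ) ≤ |((∑ f ∈ S, w f : ℤ) : ℝ)| := by exact_mod_cast h10
            have h12 : (1 : ℝ) ≤ R.odd.card := by exact_mod_cast h9
            rw [Nat.cast_sub h9, Nat.cast_one] at h6
            nlinarith
        have h9 : |∑ f ∈ S, w f| ≤ 1 := by omega
        have h10 : |((∑ f ∈ S, w f : ℤ) : ℝ)| ≤ 1 := by exact_mod_cast h9
        refine h10.trans ?_
        rw [h5]
        have h11 : (5 : ℝ) * q ≤ 2 * p := by exact_mod_cast h52
        have h12 : (q : ℝ) / p ≤ 2 / 5 := by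
          rw [div_le_div_iff₀ hp (by norm_num)]
          linarith
        have h13 : 2 * (q : ℝ) / p = 2 * (q / p) := by ring
        rw [h13]
        push_cast
        linarith
      · have h1 := hP' S hmin
        have h2 := hb v c hc hmem
        have h1' : |((∑ f ∈ S, w f : ℤ) : ℝ)| ≤ (c.edges.map om).sum -
            (1 / 5) * ((P.image sd).filter fun S' => (cut s t S ∩ cut s t S').card = 4).card := by
          rw [hsum]
          exact h1
        have h3 : ((P.image sd).filter fun S' => (cut s t S ∩ cut s t S').card = 4).card =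
            (P.filter fun D => (c.edges.toFinset ∩ D).card = 4).card := by
          rw [filter_image, card_image_of_injOn]
          · congr 1
            refine filter_congr fun D hD => ?_
            rw [← card_image_of_injective (cut s t S ∩ cut s t (sd D)) hinj,
              image_inter _ _ hinj, himg, hcutimg D hD]
          · intro D hD D' hD' h
            have h4 := (mem_filter.1 (mem_coe.1 hD)).1
            have h5 := (mem_filter.1 (mem_coe.1 hD')).1
            rw [← hcutimg D h4, ← hcutimg D' h5]
            have h : sd D = sd D' := h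
            rw [h]
        rw [h3] at h1'
        linarith
    have h1 : (p : ℝ) * |((∑ f ∈ S, w f : ℤ) : ℝ)| ≤ ((p - 2 * q : ℕ) : ℝ) * c.length := by
      rw [hpq]
      nlinarith
    exact_mod_cast h1

end Pool.Agent.OddFlow
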