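import Mathlib
import Pool.Agent.Work.MP_392c8e_co_odd.SplitD
import Pool.Agent.Work.MP_392c8e_co_odd.MainF
import Pool.Agent.Work.MP_392c8e_co_odd.GoodOf

/-!
# Integral charges at the odd vertices from the energy bound
-/

namespace Pool.Agent.OddFlow

open Finset Pool.Agent.Circ

set_option linter.unusedSectionVars false

variable {V E : Type*} [Fintype V] [DecidableEq V] [Fintype E] [DecidableEq E]

/-- **Charges.**  The energy bound gives integral charges that vanish at the vertices of even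
degree. -/
theorem exists_chg (s t : E → V) {k : ℕ} (hk : Odd k) (F : Finset V)
    (h : OddCutF s t k F) (θ : ℝ) (hθ0 : 0 ≤ θ)
    (hθ : ∀ n j : ℕ, 2 ≤ n → n ≤ (oddV s t).card → j ≤ n → j ≤ F.card →
      2 * ((n : ℝ) - 1) ≤ θ * (k * n - 2 * j)) :
    ∃ w : V → ℤ, Chg s t θ w ∧ ∀ v, v ∉ oddV s t → w v = 0 := by
  classical
  obtain ⟨s', t', F', g1, g2, g3, g4, g5⟩ := exists_fullF s t hk F h
  have hodd : oddV s' t' = oddV s t := by
    rw [oddV, oddV]
    exact Finset.filter_congr fun v _ => g1 {v}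
  have hgood : Good s' t' θ := by
    refine mainF s' t' hk F' g2 θ hθ0 fun n j h1 h2 h3 h4 => ?_
    rw [hodd] at h2
    exact hθ n j h1 h2 h3 (h4.trans g3)
  obtain ⟨w, hw'⟩ := chg_of_good s' t' hgood
  refine ⟨w, hw'.mono hθ0 g1 g5, fun v hv => ?_⟩
  have h1 : Even (cut s t {v}).card := by
    rw [oddV, mem_filter, not_and] at hv
    exact Nat.not_odd_iff_even.1 (hv (mem_univ _))
  have h2 := hw'.2 {v}
  rw [g4 v h1, sum_singleton, Nat.cast_zero, mul_zero] at h2
  have h3 := abs_nonpos_iff.1 h2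
  exact_mod_cast h3

end Pool.Agent.OddFlow
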