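import Mathlib
import Pool.Agent.Work.MP_392c8e_co_odd.PlaneFive

/-!
# Weights with switching at 5-cycles and integral rounding
-/

namespace Pool.Agent.OddFlow

open Finset Pool.Agent.Circ Pool.Agent.Sub392

set_option linter.unusedSectionVars false

variable {V : Type} [Fintype V] [DecidableEq V] {G : SimpleGraph V} [DecidableRel G.Adj]

/-- **Weights with switching and rounding.**  Let `om` be nonnegative weights of the edges of the
plane graph `G` such that every odd cycle has weight at least `2`, and `P` a set of pairwise edge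
disjoint cycles of length `5` with all weights `2 / 5`.  Suppose that for every cycle `C` which
contains no member of `P` and every `j` of the parity of `|C|` which is at most the weight of `C`
minus `K / 5` one has `p j ≤ (p - 2 q) |C|`, where `K` is the number of cycles in `P` sharing
exactly four edges with `C`.  Then there is a `(p, q)`-colouring. -/
theorem plane_switch_int (R : Rot G) (hP : R.Plane) {p q : ℕ} (hq : 1 ≤ q) (h52 : 5 * q ≤ 2 * p)
    (om : Sym2 V → ℝ) (h0 : ∀ e ∈ G.edgeSet, 0 ≤ om e)
    (hodd : ∀ (v : V) (c : G.Walk v v), c.IsCycle → Odd c.length → 2 ≤ (c.edges.map om).sum)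
    (P : Finset (Finset (Sym2 V)))
    (hP5 : ∀ D ∈ P, ∃ (v : V) (c : G.Walk v v), c.IsCycle ∧ c.length = 5 ∧
      c.edges.toFinset = D)
    (hPd : ∀ D ∈ P, ∀ D' ∈ P, D ≠ D' → Disjoint D D')
    (hPom : ∀ D ∈ P, ∀ e ∈ D, om e = 2 / 5)
    (hb : ∀ (v : V) (c : G.Walk v v), c.IsCycle → (∀ D ∈ P, ¬ D ⊆ c.edges.toFinset) →
      ∀ j : ℕ, Even (j + c.length) → (j : ℝ) ≤ (c.edges.map om).sum -
        (1 / 5) * (P.filter fun D => (c.edges.toFinset ∩ D).card = 4).card →
      p * j ≤ (p - 2 * q) * c.length) :
    ∃ c : V → ℕ, (∀ v, c v < p) ∧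
      ∀ u v, G.Adj u v → (q : ℤ) ≤ |(c u : ℤ) - c v| ∧ |(c u : ℤ) - c v| ≤ p - q := by
  classical
  have h2q : 2 * q ≤ p := by omega
  have hp0 : 0 < p := by omega
  have hp : (0 : ℝ) < p := by exact_mod_cast hp0
  obtain ⟨w, hw1, hw2, hw3, hw4, -⟩ := plane_charges R om h0 hodd
  set s : Up G → R.Face := fun e => R.face e.1 with hs
  set t : Up G → R.Face := fun e => R.face e.1.symm with ht
  -- the bound without the factor
  have hw5 : ∀ S : Finset R.Face, |((∑ f ∈ S, w f : ℤ) : ℝ)| ≤ ∑ e ∈ cut s t S, om e.1.edge := by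
    intro S
    have h1 := hw4 S
    have h2 : 0 ≤ ∑ e ∈ cut s t S, om e.1.edge :=
      sum_nonneg fun e _ => h0 _ e.1.edge_mem
    rcases Nat.eq_zero_or_pos R.odd.card with h3 | h3
    · rw [card_eq_zero] at h3
      have h4 : ∑ f ∈ S, w f = 0 :=
        sum_eq_zero fun f _ => hw1 f (by rw [h3]; exact notMem_empty _)
      rw [h4, Int.cast_zero, abs_zero]
      exact h2
    · have h4 : (1 : ℝ) ≤ R.odd.card := by exact_mod_cast h3
      rw [Nat.cast_sub h3, Nat.cast_one] at h1
      by_contra h5
      rw [not_le] at h5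
      have h6 : ((R.odd.card : ℝ) - 1) * ∑ e ∈ cut s t S, om e.1.edge ≤
          (R.odd.card : ℝ) * ∑ e ∈ cut s t S, om e.1.edge := by
        nlinarith
      have h7 : (R.odd.card : ℝ) * ∑ e ∈ cut s t S, om e.1.edge <
          (R.odd.card : ℝ) * |((∑ f ∈ S, w f : ℤ) : ℝ)| :=
        mul_lt_mul_of_pos_left h5 (by linarith)
      linarith
  have hconnU := connS_univ R hP
  have hconn : ∀ Y : Finset R.Face, cut s t Y = ∅ → Y = ∅ ∨ Y = univ := by
    intro Y hY
    refine R.cut_zero hP.1 ?_
    rw [← card_cut_eq, ← hs, ← ht, hY, card_empty]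
  have hpar : ∀ S : Finset R.Face, (2 : ℤ) ∣ ∑ f ∈ S, w f - ((cut s t S).card : ℤ) := fun S =>
    chg_parity s t (fun f => by rw [card_cut_eq]; exact hw2 f) S
  -- the sides of the cycles in `P`
  have hside : ∀ D ∈ P, ∃ S : Finset R.Face,
      (cut s t S).image (fun e : Up G => e.1.edge) = D ∧ D.card = 5 := by
    intro D hD
    obtain ⟨v, c, h1, h2, h3⟩ := hP5 D hD
    obtain ⟨S, hS⟩ := exists_side_of R hP c h1
    refine ⟨S, ?_, ?_⟩
    · rw [image_cut_of_side R hS, h3]
    · rw [← h3, List.toFinset_card_of_nodup h1.edges_nodup, SimpleGraph.Walk.length_edges, h2]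
  choose! sd hcutimg hD5 using hside
  have hinj : Function.Injective fun e : Up G => e.1.edge := fun e e' h => up_edge_inj h
  have hcut5 : ∀ D ∈ P, (cut s t (sd D)).card = 5 := by
    intro D hD
    rw [← card_image_of_injective _ hinj, hcutimg D hD, hD5 D hD]
  have hmemP : ∀ D ∈ P, ∀ e ∈ cut s t (sd D), e.1.edge ∈ D := by
    intro D hD e he
    rw [← hcutimg D hD]
    exact mem_image_of_mem _ he
  have hone : ∀ D ∈ P, |∑ f ∈ sd D, w f| ≤ 1 := by
    intro D hD
    have h1 := hw4 (sd D)
    have h2 : ∑ e ∈ cut s t (sd D), om e.1.edge = 2 := by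
      rw [sum_congr rfl fun e he => hPom D hD _ (hmemP D hD e he), sum_const, hcut5 D hD]
      norm_num
    rw [h2] at h1
    have h3 := hpar (sd D)
    rw [hcut5 D hD] at h3
    have h4 : |∑ f ∈ sd D, w f| < 2 := by
      rcases Nat.eq_zero_or_pos R.odd.card with h5 | h5
      · rw [card_eq_zero] at h5
        have h6 : ∑ f ∈ sd D, w f = 0 :=
          sum_eq_zero fun f _ => hw1 f (by rw [h5]; exact notMem_empty _)
        rw [h6]
        norm_num
      · by_contra h6
        rw [not_lt] at h6
        have h7 : (2 : ℝ) ≤ |((∑ f ∈ sd D, w f : ℤ) : ℝ)| := by exact_mod_cast h6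
        have h8 : (1 : ℝ) ≤ R.odd.card := by exact_mod_cast h5
        rw [Nat.cast_sub h5, Nat.cast_one] at h1
        nlinarith
    omega
  have hP' := weight_switch s t hconn w hw3 (fun e => om e.1.edge) hw5 (P.image sd)
    (by
      intro S hS
      obtain ⟨D, hD, rfl⟩ := mem_image.1 hS
      exact hcut5 D hD)
    (by
      intro S hS
      obtain ⟨D, hD, rfl⟩ := mem_image.1 hS
      exact hone D hD)
    (by
      intro S hS S' hS' hne
      obtain ⟨D, hD, rfl⟩ := mem_image.1 hS
      obtain ⟨D', hD', rfl⟩ := mem_image.1 hS'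
      have h1 : D ≠ D' := by
        rintro rfl
        exact hne rfl
      have h2 := hPd D hD D' hD' h1
      rw [Finset.disjoint_left] at h2 ⊢
      intro e he he'
      exact h2 (hmemP D hD e he) (hmemP D' hD' e he'))
    (by
      intro S hS e he
      obtain ⟨D, hD, rfl⟩ := mem_image.1 hS
      exact hPom D hD _ (hmemP D hD e he))
  refine colour_of_good_pq R hP hq h2q (good_of_conn_bound s t hconnU w ?_ hw3 hp0 ?_)
  · intro f
    rw [card_cut_eq]
    exact hw2 f
  · intro S hS1 hS2 hn1 hn2
    obtain ⟨v, c, hc, hsd', hlen⟩ := cycle_of_conn R hP hS1 hS2 hn1 hn2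
    have hcard : (cut s t S).card = c.length := by
      rw [card_cut_eq, hlen]
    have hmin : MinCut s t S := minCut_of_conn_ne s t hS1 hS2 (by
      rw [← card_pos, hcard]
      have := hc.three_le_length
      omega)
    have himg := image_cut_of_side R hsd'
    have hsum := sum_side R hc hsd' om
    rw [hcard]
    have hpar' := hpar S
    rw [hcard] at hpar'
    by_cases hmem : ∃ D ∈ P, D ⊆ c.edges.toFinset
    · -- one of the cycles in `P`
      obtain ⟨D, hD, hDc⟩ := hmem
      have h1 : cut s t (sd D) = cut s t S := by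
        refine hmin.2 _ (fun e he => ?_) ?_
        · have h2 : e.1.edge ∈ (cut s t S).image fun e : Up G => e.1.edge := by
            rw [himg]
            exact hDc (hmemP D hD e he)
          obtain ⟨e', he', h3⟩ := mem_image.1 h2
          rwa [← hinj h3]
        · rw [← card_pos, hcut5 D hD]
          norm_num
      have h5 : c.length = 5 := by
        rw [← hcard, ← h1, hcut5 D hD]
      have h6 := hw4 S
      rw [← h1] at h6
      have h2 : ∑ e ∈ cut s t (sd D), om e.1.edge = 2 := by
        rw [sum_congr rfl fun e he => hPom D hD _ (hmemP D hD e he), sum_const, hcut5 D hD]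
        norm_num
      rw [h2] at h6
      rw [h5] at hpar' ⊢
      have h8 : |∑ f ∈ S, w f| < 2 := by
        rcases Nat.eq_zero_or_pos R.odd.card with h9 | h9
        · rw [card_eq_zero] at h9
          have h10 : ∑ f ∈ S, w f = 0 :=
            sum_eq_zero fun f _ => hw1 f (by rw [h9]; exact notMem_empty _)
          rw [h10]
          norm_num
        · by_contra h10
          rw [not_lt] at h10
          have h11 : (2 : ℝ) ≤ |((∑ f ∈ S, w f : ℤ) : ℝ)| := by exact_mod_cast h10
          have h12 : (1 : ℝ) ≤ R.odd.card := by exact_mod_cast h9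
          rw [Nat.cast_sub h9, Nat.cast_one] at h6
          nlinarith
      have h9 : |∑ f ∈ S, w f| ≤ 1 := by omega
      have h10 : (p : ℤ) ≤ (p - 2 * q : ℕ) * (5 : ℕ) := by
        push_cast [Nat.cast_sub h2q]
        omega
      have h11 : (0 : ℤ) ≤ p := by positivity
      nlinarith
    · push Not at hmem
      have h1 := hP' S hmin
      have h3 : ((P.image sd).filter fun S' => (cut s t S ∩ cut s t S').card = 4).card =
          (P.filter fun D => (c.edges.toFinset ∩ D).card = 4).card := by
        rw [filter_image, card_image_of_injOn]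
        · congr 1
          refine filter_congr fun D hD => ?_
          rw [← card_image_of_injective (cut s t S ∩ cut s t (sd D)) hinj,
            image_inter _ _ hinj, himg, hcutimg D hD]
        · intro D hD D' hD' h
          have h4 := (mem_filter.1 (mem_coe.1 hD)).1
          have h5 := (mem_filter.1 (mem_coe.1 hD')).1
          rw [← hcutimg D h4, ← hcutimg D' h5]
          have h : sd D = sd D' := h
          rw [h]
      rw [h3, ← hsum] at h1
      have h4 := hb v c hc hmem (∑ f ∈ S, w f).natAbs (by
        rw [Nat.even_iff]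
        omega) (by
        have h5 : (((∑ f ∈ S, w f).natAbs : ℕ) : ℝ) = |((∑ f ∈ S, w f : ℤ) : ℝ)| := by
          rw [← Int.cast_abs, ← Int.natCast_natAbs]
          rfl
        rw [h5]
        exact h1)
      have h5 : (((∑ f ∈ S, w f).natAbs : ℕ) : ℤ) = |∑ f ∈ S, w f| := Int.natCast_natAbs _
      rw [← h5]
      exact_mod_cast h4

end Pool.Agent.OddFlow
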