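import Mathlib
import Pool.Agent.Work.MP_392c8e_co_odd.SwitchI

/-!
# Plane triangle-free graphs whose 5-cycles are far apart
-/

namespace Pool.Agent.OddFlow

open Finset Pool.Agent.Circ Pool.Agent.Sub392
open scoped symmDiff

set_option linter.unusedSectionVars false

section

variable {V : Type} [Fintype V] [DecidableEq V] {G : SimpleGraph V}

/-- Distinct 5-cycles have distance at least `n`. -/
def FarFive (G : SimpleGraph V) (n : ℕ) : Prop :=
  ∀ (u v : V) (c : G.Walk u u) (c' : G.Walk v v), c.IsCycle → c'.IsCycle → c.length = 5 →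
    c'.length = 5 → ∀ x ∈ c.support, ∀ y ∈ c'.support, G.dist x y < n →
      ∀ e, e ∈ c.edges ↔ e ∈ c'.edges

theorem FarFive.disj {n : ℕ} (hn : 1 ≤ n) (h : FarFive G n) : DisjFive G := by
  intro u v c c' hc hc' h5 h5' ⟨x, hx, hx'⟩
  exact h u v c c' hc hc' h5 h5' x hx x hx' (by rw [SimpleGraph.dist_self]; omega)

theorem mem_verts_of_support {v : V} (c : G.Walk v v) (x : V)
    (hx : x ∈ verts c.edges.toFinset) : x ∈ c.support := by
  rw [verts, mem_filter] at hx
  obtain ⟨_, e, he, hxe⟩ := hx
  rw [List.mem_toFinset] at he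
  exact SimpleGraph.Walk.mem_support_of_mem_edges he hxe

theorem FarFive.pent {n : ℕ} (h : FarFive G n) {P Q : Finset (Sym2 V)} (hP : P ∈ pent G)
    (hQ : Q ∈ pent G) {x y : V} (hx : x ∈ verts P) (hy : y ∈ verts Q) (hxy : G.dist x y < n) :
    P = Q := by
  classical
  rw [OddFlow.pent, mem_filter] at hP hQ
  obtain ⟨_, u, c, hc, hl, rfl⟩ := hP
  obtain ⟨_, v, c', hc', hl', rfl⟩ := hQ
  ext e
  rw [List.mem_toFinset, List.mem_toFinset]
  exact h u v c c' hc hc' hl hl' x (mem_verts_of_support c x hx) y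
    (mem_verts_of_support c' y hy) hxy e

/-- The ball around a set of edges. -/
noncomputable def ballP (G : SimpleGraph V) (P : Finset (Sym2 V)) (i : ℕ) : Finset V := by
  classical
  exact univ.filter fun v => ∃ x ∈ verts P, G.dist x v ≤ i

theorem mem_ballP {P : Finset (Sym2 V)} {i : ℕ} {v : V} :
    v ∈ ballP G P i ↔ ∃ x ∈ verts P, G.dist x v ≤ i := by
  unfold ballP
  rw [mem_filter]
  exact and_iff_right (mem_univ _)

/-- The edges of `D` leaving `B`. -/
noncomputable def crossing (D : Finset (Sym2 V)) (B : Finset V) : Finset (Sym2 V) := by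
  classical
  exact D.filter fun e => ∃ u v, e = s(u, v) ∧ u ∈ B ∧ v ∉ B

theorem mem_crossing {D : Finset (Sym2 V)} {B : Finset V} {e : Sym2 V} :
    e ∈ crossing D B ↔ e ∈ D ∧ ∃ u v, e = s(u, v) ∧ u ∈ B ∧ v ∉ B := by
  unfold crossing
  rw [mem_filter]

theorem even_crossing {D : Finset (Sym2 V)} (hDG : ∀ e ∈ D, e ∈ G.edgeSet)
    (hD : ∀ x, Even (D.filter fun e => x ∈ e).card) (B : Finset V) :
    Even (crossing D B).card := by
  classical
  have h1 : ∑ x ∈ B, (D.filter fun e => x ∈ e).card = ∑ e ∈ D, (B.filter fun x => x ∈ e).card := by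
    simp only [card_filter]
    rw [sum_comm]
  have h2 : Even (∑ x ∈ B, (D.filter fun e => x ∈ e).card) := Finset.even_sum _ fun x _ => hD x
  have h3 : (crossing D B).card = ∑ e ∈ D, if (∃ u v, e = s(u, v) ∧ u ∈ B ∧ v ∉ B) then 1 else 0 := by
    rw [← card_filter]
    congr 1
  have h4 : Even ((crossing D B).card + ∑ e ∈ D, (B.filter fun x => x ∈ e).card) := by
    rw [h3, ← sum_add_distrib]
    refine Finset.even_sum _ fun e he => ?_
    have h5 := hDG e he
    induction e using Sym2.ind with
    | _ a b =>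
      rw [SimpleGraph.mem_edgeSet] at h5
      have hab := h5.ne
      have h6 : (B.filter fun x => x ∈ s(a, b)) = ({a, b} : Finset V).filter fun x => x ∈ B := by
        ext x
        simp only [mem_filter, Sym2.mem_iff, mem_insert, mem_singleton]
        tauto
      have h7 : (∃ u v, s(a, b) = s(u, v) ∧ u ∈ B ∧ v ∉ B) ↔ ¬ (a ∈ B ↔ b ∈ B) := by
        constructor
        · rintro ⟨u, v, h, h8, h9⟩
          rcases Sym2.eq_iff.1 h with ⟨rfl, rfl⟩ | ⟨rfl, rfl⟩
          · tauto
          · tauto
        · intro h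
          by_cases ha : a ∈ B
          · exact ⟨a, b, rfl, ha, fun hb => h ⟨fun _ => hb, fun _ => ha⟩⟩
          · by_cases hb : b ∈ B
            · exact ⟨b, a, Sym2.eq_swap, hb, ha⟩
            · exact absurd ⟨fun h => absurd h ha, fun h => absurd h hb⟩ h
      rw [h6, filter_insert, filter_singleton]
      by_cases ha : a ∈ B <;> by_cases hb : b ∈ B
      · rw [if_neg (by rw [h7]; tauto), if_pos ha, if_pos hb, card_insert_of_notMem (by
          simpa using hab), card_singleton]
        decide
      · rw [if_pos (h7.2 (by tauto)), if_pos ha, if_neg hb, insert_empty_eq, card_singleton]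
        decide
      · rw [if_pos (h7.2 (by tauto)), if_neg ha, if_pos hb, card_singleton]
        decide
      · rw [if_neg (by rw [h7]; tauto), if_neg ha, if_neg hb, card_empty]
        decide
  rw [← h1] at h4
  rw [Nat.even_add] at h4
  exact h4.2 h2

/-- A cycle which meets `B` and its complement has two edges leaving `B`. -/
theorem two_le_crossing {v : V} (c : G.Walk v v) (hc : c.IsCycle) (B : Finset V) {x y : V}
    (hx : x ∈ c.support) (hy : y ∈ c.support) (hxB : x ∈ B) (hyB : y ∉ B) :
    2 ≤ (crossing c.edges.toFinset B).card := by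
  classical
  have h1 : Even (crossing c.edges.toFinset B).card := by
    refine even_crossing (G := G)
      (fun e he => c.edges_subset_edgeSet (List.mem_toFinset.1 he)) (fun z => ?_) B
    have h1 : (c.edges.toFinset.filter fun e => z ∈ e).card =
        c.edges.countP fun e => decide (z ∈ e) := by
      rw [List.countP_eq_length_filter, ← List.toFinset_card_of_nodup
        (hc.isTrail.edges_nodup.filter _)]
      congr 1
      ext e
      rw [mem_filter, List.mem_toFinset, List.mem_toFinset, List.mem_filter, decide_eq_true_eq]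
    rw [h1]
    exact (hc.isTrail.even_countP_edges_iff z).2 (fun h => absurd rfl h)
  have h2 : 0 < (crossing c.edges.toFinset B).card := by
    rw [card_pos]
    by_cases hv : v ∈ B
    · obtain ⟨d, hd, h3, h4⟩ := (c.takeUntil y hy).exists_boundary_dart (B : Set V) hv hyB
      refine ⟨d.edge, mem_crossing.2 ⟨?_, d.fst, d.snd, rfl, h3, h4⟩⟩
      rw [List.mem_toFinset]
      exact c.edges_takeUntil_subset_edges hy (List.mem_map_of_mem hd)
    · obtain ⟨d, hd, h3, h4⟩ := (c.takeUntil x hx).exists_boundary_dart ((B : Set V)ᶜ) hv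
        (fun h => h hxB)
      refine ⟨d.edge, mem_crossing.2 ⟨?_, d.snd, d.fst, Sym2.eq_swap, ?_, h3⟩⟩
      · rw [List.mem_toFinset]
        exact c.edges_takeUntil_subset_edges hx (List.mem_map_of_mem hd)
      · by_contra h5
        exact h4 h5
  obtain ⟨m, hm⟩ := h1
  omega

/-- The 5-cycles which have an edge in `D`. -/
noncomputable def metBy (G : SimpleGraph V) (D : Finset (Sym2 V)) : Finset (Finset (Sym2 V)) := by
  classical
  exact (pent G).filter fun P => (D ∩ P).Nonempty

theorem mem_metBy {D P : Finset (Sym2 V)} : P ∈ metBy G D ↔ P ∈ pent G ∧ (D ∩ P).Nonempty := by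
  unfold metBy
  rw [mem_filter]

theorem mem_verts {P : Finset (Sym2 V)} {x : V} : x ∈ verts P ↔ ∃ e ∈ P, x ∈ e := by
  unfold verts
  rw [mem_filter]
  exact and_iff_right (mem_univ _)

open scoped Classical in
/-- **The count for 5-cycles which are far apart.** -/
theorem far_count (hconn : G.Connected) {k : ℕ} (hfar : FarFive G (2 * k)) {v : V}
    (c : G.Walk v v) (hc : c.IsCycle) (hM : 2 ≤ (metBy G c.edges.toFinset).card) :
    2 * k * (metBy G c.edges.toFinset).card +
      (c.edges.toFinset.filter fun e => OnFive G e).card ≤ c.edges.toFinset.card := by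
  classical
  set D := c.edges.toFinset with hD
  set M := metBy G D with hMdef
  have hDG : ∀ e ∈ D, e ∈ G.edgeSet := fun e he => c.edges_subset_edgeSet (List.mem_toFinset.1 he)
  -- a vertex of the cycle on every member of `M`
  have hvert : ∀ P ∈ M, ∃ x ∈ verts P, x ∈ c.support := by
    intro P hP
    obtain ⟨_, e, he⟩ := mem_metBy.1 hP
    rw [mem_inter] at he
    induction e using Sym2.ind with
    | _ a b =>
      exact ⟨a, mem_verts.2 ⟨_, he.2, Sym2.mem_mk_left _ _⟩,
        SimpleGraph.Walk.mem_support_of_mem_edges (List.mem_toFinset.1 he.1)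
          (Sym2.mem_mk_left _ _)⟩
  have hstep : ∀ {P : Finset (Sym2 V)} {i : ℕ} {a b : V}, G.Adj a b → ∀ {x : V},
      G.dist x a ≤ i → G.dist x b ≤ i + 1 := by
    intro P i a b hab x hx
    have h1 := hconn.dist_triangle (u := x) (v := a) (w := b)
    have h2 : G.dist a b = 1 := SimpleGraph.dist_eq_one_iff_adj.2 hab
    omega
  have hcr : ∀ P ∈ M, ∀ i < k, 2 ≤ (crossing D (ballP G P i)).card := by
    intro P hP i hi
    obtain ⟨x, hx, hxc⟩ := hvert P hP
    obtain ⟨Q, hQ, hPQ⟩ : ∃ Q ∈ M, Q ≠ P := by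
      by_contra hcon
      push Not at hcon
      have h1 : M ⊆ {P} := fun Q hQ => mem_singleton.2 (hcon Q hQ)
      have h2 := card_le_card h1
      rw [card_singleton] at h2
      omega
    obtain ⟨y, hy, hyc⟩ := hvert Q hQ
    refine two_le_crossing c hc _ hxc hyc (mem_ballP.2 ⟨x, hx, ?_⟩) ?_
    · rw [SimpleGraph.dist_self]
      omega
    · intro h
      obtain ⟨z, hz, hzy⟩ := mem_ballP.1 h
      exact hPQ (hfar.pent (mem_metBy.1 hP).1 (mem_metBy.1 hQ).1 hz hy (by omega)).symm
  have hdisj : ∀ a ∈ M ×ˢ range k, ∀ b ∈ M ×ˢ range k, a ≠ b →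
      Disjoint (crossing D (ballP G a.1 a.2)) (crossing D (ballP G b.1 b.2)) := by
    rintro ⟨P, i⟩ hPi ⟨Q, j⟩ hQj hne
    rw [mem_product, mem_range] at hPi hQj
    obtain ⟨hP, hi⟩ := hPi
    obtain ⟨hQ, hj⟩ := hQj
    simp only at hP hi hQ hj ⊢
    rw [Finset.disjoint_left]
    intro e he he'
    obtain ⟨heD, u, w, rfl, hu, hw⟩ := mem_crossing.1 he
    obtain ⟨-, u', w', huw, hu', hw'⟩ := mem_crossing.1 he'
    have hadj : G.Adj u w := hDG _ heD
    obtain ⟨x, hx, hxu⟩ := mem_ballP.1 hu
    have hxw := hstep (P := P) hadj hxu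
    obtain ⟨y, hy, hyu⟩ := mem_ballP.1 hu'
    have hu'' : u' = u ∨ u' = w := by
      rcases Sym2.eq_iff.1 huw with ⟨h1, _⟩ | ⟨_, h1⟩
      · exact Or.inl h1.symm
      · exact Or.inr h1.symm
    have hxu' : G.dist x u' ≤ i + 1 := by
      rcases hu'' with rfl | rfl
      · omega
      · exact hxw
    have hPQ : P = Q := by
      refine hfar.pent (mem_metBy.1 hP).1 (mem_metBy.1 hQ).1 hx hy ?_
      have h1 := hconn.dist_triangle (u := x) (v := u') (w := y)
      rw [SimpleGraph.dist_comm (u := u') (v := y)] at h1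
      omega
    subst hPQ
    have hij : i ≠ j := fun h => hne (by rw [h])
    have hboth : ∀ {a b : ℕ}, a < b → ∀ {u w : V}, G.Adj u w → u ∈ ballP G P a →
        u ∈ ballP G P b ∧ w ∈ ballP G P b := by
      intro a b hab u w huw h
      obtain ⟨x, hx, hxu⟩ := mem_ballP.1 h
      exact ⟨mem_ballP.2 ⟨x, hx, by omega⟩, mem_ballP.2 ⟨x, hx, by
        have := hstep (P := P) huw hxu
        omega⟩⟩
    rcases Nat.lt_or_ge i j with h1 | h1
    · obtain ⟨h2, h3⟩ := hboth h1 hadj hu
      rcases Sym2.eq_iff.1 huw with ⟨_, h4⟩ | ⟨h4, _⟩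
      · exact hw' (h4 ▸ h3)
      · exact hw' (h4 ▸ h2)
    · have h1' : j < i := by omega
      have hadj' : G.Adj u' w' := by
        rcases Sym2.eq_iff.1 huw with ⟨h2, h3⟩ | ⟨h2, h3⟩
        · rw [← h2, ← h3]
          exact hadj
        · rw [← h3, ← h2]
          exact hadj.symm
      obtain ⟨h2, h3⟩ := hboth h1' hadj' hu'
      rcases Sym2.eq_iff.1 huw with ⟨_, h4⟩ | ⟨_, h4⟩
      · exact hw (h4 ▸ h3)
      · exact hw (h4 ▸ h2)
  have hsub : ((M ×ˢ range k).biUnion fun a => crossing D (ballP G a.1 a.2)) ⊆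
      D.filter fun e => ¬ OnFive G e := by
    intro e he
    rw [mem_biUnion] at he
    obtain ⟨⟨P, i⟩, hPi, he⟩ := he
    rw [mem_product, mem_range] at hPi
    obtain ⟨hP, hi⟩ := hPi
    simp only at hP hi he
    obtain ⟨heD, u, w, rfl, hu, hw⟩ := mem_crossing.1 he
    rw [mem_filter]
    refine ⟨heD, fun hfive => ?_⟩
    obtain ⟨Q, hQ, heQ⟩ := onFive_iff.1 hfive
    obtain ⟨x, hx, hxu⟩ := mem_ballP.1 hu
    have h1 : P = Q := hfar.pent (mem_metBy.1 hP).1 hQ hx
      (mem_verts.2 ⟨_, heQ, Sym2.mem_mk_left _ _⟩) (by omega)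
    subst h1
    exact hw (mem_ballP.2 ⟨w, mem_verts.2 ⟨_, heQ, Sym2.mem_mk_right _ _⟩, by
      rw [SimpleGraph.dist_self]
      omega⟩)
  have h1 := card_le_card hsub
  rw [card_biUnion hdisj] at h1
  have h2 : (M ×ˢ range k).card * 2 ≤
      ∑ a ∈ M ×ˢ range k, (crossing D (ballP G a.1 a.2)).card := by
    rw [← smul_eq_mul, ← sum_const]
    refine sum_le_sum fun a ha => ?_
    rw [mem_product, mem_range] at ha
    exact hcr a.1 ha.1 a.2 ha.2
  rw [card_product, card_range] at h2
  have h3 := card_filter_add_card_filter_not (s := D) (fun e => OnFive G e)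
  nlinarith

end

variable {V : Type} [Fintype V] [DecidableEq V] {G : SimpleGraph V} [DecidableRel G.Adj]

theorem exists_up {x : Sym2 V} (hx : x ∈ G.edgeSet) : ∃ e : Up G, e.1.edge = x := by
  induction x using Sym2.ind with
  | _ a b =>
    rw [SimpleGraph.mem_edgeSet] at hx
    rcases up_or (⟨(a, b), hx⟩ : G.Dart) with h3 | h3
    · exact ⟨⟨_, h3⟩, rfl⟩
    · exact ⟨⟨_, h3⟩, SimpleGraph.Dart.edge_symm _⟩

theorem iff_four (a b c d : Prop) : (¬ (a ↔ b) ∧ ¬ ¬ (c ↔ d) ∨ ¬ (c ↔ d) ∧ ¬ ¬ (a ↔ b)) ↔
    ¬ ((a ∧ ¬ c ∨ c ∧ ¬ a) ↔ (b ∧ ¬ d ∨ d ∧ ¬ b)) := by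
  by_cases a <;> by_cases b <;> by_cases c <;> by_cases d <;> simp [*]

/-- A 6-cycle does not share exactly three edges with a 5-cycle. -/
theorem no_six (R : Rot G) (hP : R.Plane) (hG : G.CliqueFree 3) (hd : DisjFive G)
    {v : V} (c : G.Walk v v) (hc : c.IsCycle) (h6 : c.length = 6) {P : Finset (Sym2 V)}
    (hPp : P ∈ pent G) (h3 : (c.edges.toFinset ∩ P).card = 3) : False := by
  classical
  have hPp' := hPp
  rw [pent, mem_filter] at hPp'
  obtain ⟨_, u, c5, hc5, hl5, hP5⟩ := hPp'
  obtain ⟨Z, hZ⟩ := exists_side_of R hP c hc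
  obtain ⟨S, hS⟩ := exists_side_of R hP c5 hc5
  set D := c.edges.toFinset with hD
  have hDc : D.card = 6 := by
    rw [hD, List.toFinset_card_of_nodup hc.edges_nodup, SimpleGraph.Walk.length_edges, h6]
  have hPc : P.card = 5 := by
    rw [hP5, List.toFinset_card_of_nodup hc5.edges_nodup, SimpleGraph.Walk.length_edges, hl5]
  have hDP : (D ∆ P).card = 5 := by
    have h1 : D ∆ P = (D \ P) ∪ (P \ D) := rfl
    rw [h1, card_union_of_disjoint (by
      rw [Finset.disjoint_left]
      intro e he he'
      exact (mem_sdiff.1 he').2 (mem_sdiff.1 he).1)]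
    have h2 := card_sdiff_add_card_inter D P
    have h4 := card_sdiff_add_card_inter P D
    rw [inter_comm] at h4
    omega
  have hmem : ∀ d : G.Dart, d.edge ∈ D ∆ P ↔ ¬ (R.face d ∈ Z ∆ S ↔ R.face d.symm ∈ Z ∆ S) := by
    intro d
    have h1 : d.edge ∈ D ↔ ¬ (R.face d ∈ Z ↔ R.face d.symm ∈ Z) := by
      rw [hD, List.mem_toFinset]
      exact hZ d
    have h2 : d.edge ∈ P ↔ ¬ (R.face d ∈ S ↔ R.face d.symm ∈ S) := by
      rw [hP5, List.mem_toFinset]
      exact hS d
    rw [mem_symmDiff, mem_symmDiff, mem_symmDiff, h1, h2]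
    exact iff_four _ _ _ _
  have hcard : R.cut (Z ∆ S) = 5 := by
    rw [← card_cut_eq, ← card_image_of_injective _ (fun e e' h => up_edge_inj h :
      Function.Injective fun e : Up G => e.1.edge), ← hDP]
    congr 1
    ext x
    rw [mem_image]
    constructor
    · rintro ⟨e, he, rfl⟩
      rw [mem_cut_up] at he
      exact (hmem e.1).2 he
    · intro hx
      have hxG : x ∈ G.edgeSet := by
        rcases mem_symmDiff.1 hx with h | h
        · exact c.edges_subset_edgeSet (List.mem_toFinset.1 h.1)
        · have h5 := h.1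
          rw [hP5] at h5
          exact c5.edges_subset_edgeSet (List.mem_toFinset.1 h5)
      obtain ⟨e, rfl⟩ := exists_up hxG
      exact ⟨e, (mem_cut_up R _ e).2 ((hmem e.1).1 hx), rfl⟩
  obtain ⟨a, c', hc', hodd, hE⟩ := exists_odd_cycle R (Z ∆ S) (by rw [hcard]; decide)
  have hsub : c'.edges.toFinset ⊆ D ∆ P := by
    intro e he
    rw [List.mem_toFinset] at he
    obtain ⟨d, hd, h1, h2⟩ := hE e he
    rw [← hd, hmem]
    tauto
  have hlen := five_le_length hG c' hc' hodd
  have hcc : c'.edges.toFinset.card = c'.length := by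
    rw [List.toFinset_card_of_nodup hc'.edges_nodup, SimpleGraph.Walk.length_edges]
  have heq : c'.edges.toFinset = D ∆ P := by
    refine eq_of_subset_of_card_le hsub ?_
    rw [hDP, hcc]
    exact hlen
  have hl' : c'.length = 5 := by
    rw [← hcc, heq, hDP]
  have hpent : D ∆ P ∈ pent G := by
    rw [pent, mem_filter]
    exact ⟨mem_univ _, a, c', hc', hl', heq.symm⟩
  -- a common edge with `P`
  obtain ⟨e, he⟩ : (P \ D).Nonempty := by
    rw [← card_pos]
    have h4 := card_sdiff_add_card_inter P D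
    rw [inter_comm] at h4
    omega
  rw [mem_sdiff] at he
  have heq2 : D ∆ P = P := by
    induction e using Sym2.ind with
    | _ a b =>
      refine pent_disj hd hpent hPp (y := a) ?_ ?_
      · exact mem_verts.2 ⟨_, mem_symmDiff.2 (Or.inr he), Sym2.mem_mk_left _ _⟩
      · exact mem_verts.2 ⟨_, he.1, Sym2.mem_mk_left _ _⟩
  obtain ⟨f, hf⟩ : (D \ P).Nonempty := by
    rw [← card_pos]
    have h4 := card_sdiff_add_card_inter D P
    omega
  rw [mem_sdiff] at hf
  have : f ∈ D ∆ P := mem_symmDiff.2 (Or.inl hf)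
  rw [heq2] at this
  exact hf.2 this

theorem far_arith (a j m : ℕ) (hj : Even (j + a)) (hm : 1 ≤ m ∧ m ≤ 4) (ha : 4 ≤ a)
    (h6 : a = 6 → m ≠ 3) (h : 35 * j + 7 * (if m = 4 then 1 else 0) ≤ 10 * a + 4 * m) :
    10 * j ≤ 3 * a := by
  rw [Nat.even_iff] at hj
  have h1 : 35 * j ≤ 10 * a + 12 := by
    split_ifs at h <;> omega
  by_contra hcon
  have h2 : a ≤ 17 := by omega
  obtain ⟨h3, h4⟩ := hm
  interval_cases a
  all_goals first
    | omega
    | (interval_cases m <;> simp at h <;> omega)

/-- **Far apart 5-cycles.**  Let `G` be a triangle-free graph drawn on the sphere (no condition on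
the degrees) such that distinct 5-cycles have distance at least `2 k`.  If `20 q ≤ 7 p` and
`12 p ≤ (25 p - 70 q) (2 k + 3)`, then `G` has a `(p, q)`-colouring. -/
theorem plane_far (R : Rot G) (hP : R.Plane) (hG : G.CliqueFree 3) {k : ℕ} (hk : 1 ≤ k)
    (hfar : FarFive G (2 * k)) {p q : ℕ} (hq : 1 ≤ q) (h20 : 20 * q ≤ 7 * p)
    (hpq : 12 * p ≤ (25 * p - 70 * q) * (2 * k + 3)) :
    ∃ c : V → ℕ, (∀ v, c v < p) ∧
      ∀ u v, G.Adj u v → (q : ℤ) ≤ |(c u : ℤ) - c v| ∧ |(c u : ℤ) - c v| ≤ p - q := by
  classical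
  have hd : DisjFive G := hfar.disj (by omega)
  have h2q : 2 * q ≤ p := by omega
  set om : Sym2 V → ℝ := fun e => if OnFive G e then 2 / 5 else 2 / 7 with hom
  have hom0 : ∀ e, (2 / 7 : ℝ) ≤ om e := by
    intro e
    rw [hom]
    dsimp only
    split_ifs <;> norm_num
  have hsum : ∀ (v : V) (c : G.Walk v v), c.IsCycle → (c.edges.map om).sum =
      2 / 7 * c.length + 4 / 35 * ((c.edges.toFinset.filter fun e => OnFive G e).card : ℝ) := by
    intro v c hc
    rw [← List.sum_toFinset _ hc.edges_nodup]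
    have h1 : ∀ e, om e = 2 / 7 + 4 / 35 * (if OnFive G e then 1 else 0) := by
      intro e
      rw [hom]
      dsimp only
      split_ifs <;> norm_num
    rw [sum_congr rfl fun e _ => h1 e, sum_add_distrib, sum_const, ← mul_sum, sum_boole,
      List.toFinset_card_of_nodup hc.edges_nodup, SimpleGraph.Walk.length_edges, nsmul_eq_mul]
    ring
  have hpentdisj : ∀ P ∈ pent G, ∀ Q ∈ pent G, P ≠ Q → Disjoint P Q := by
    intro P hP' Q hQ hne
    rw [Finset.disjoint_left]
    intro e he he'
    apply hne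
    induction e using Sym2.ind with
    | _ a b =>
      exact pent_disj hd hP' hQ (y := a) (mem_verts.2 ⟨_, he, Sym2.mem_mk_left _ _⟩)
        (mem_verts.2 ⟨_, he', Sym2.mem_mk_left _ _⟩)
  refine plane_switch_int R hP hq (by omega) om (fun e _ => le_trans (by norm_num) (hom0 e)) ?_
    (pent G) ?_ hpentdisj ?_ ?_
  · -- the odd cycles
    intro v c hc ho
    have h5 := five_le_length hG c hc ho
    by_cases h5' : c.length = 5
    · rw [hsum v c hc]
      have h1 : (c.edges.toFinset.filter fun e => OnFive G e) = c.edges.toFinset := by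
        rw [filter_eq_self]
        exact fun e he => ⟨v, c, hc, h5', List.mem_toFinset.1 he⟩
      rw [h1, List.toFinset_card_of_nodup hc.edges_nodup, SimpleGraph.Walk.length_edges, h5']
      norm_num
    · have h7 : 7 ≤ c.length := by
        rw [Nat.odd_iff] at ho
        omega
      rw [hsum v c hc]
      have h8 : (7 : ℝ) ≤ c.length := by exact_mod_cast h7
      have h9 : (0 : ℝ) ≤ ((c.edges.toFinset.filter fun e => OnFive G e).card : ℝ) :=
        Nat.cast_nonneg _
      linarith
  · intro D hD
    rw [pent, mem_filter] at hD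
    obtain ⟨_, v, c, h1, h2, h3⟩ := hD
    exact ⟨v, c, h1, h2, h3.symm⟩
  · intro D hD e he
    rw [hom]
    exact if_pos (onFive_iff.2 ⟨D, hD, he⟩)
  · -- the other cycles
    intro v c hc hno j hj hjle
    set D := c.edges.toFinset with hD
    set M := metBy G D with hM
    have hDcard : D.card = c.length := by
      rw [hD, List.toFinset_card_of_nodup hc.edges_nodup, SimpleGraph.Walk.length_edges]
    -- the edges on 5-cycles
    have hK : (D.filter fun e => OnFive G e).card = ∑ P ∈ M, (D ∩ P).card := by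
      rw [← card_biUnion]
      · congr 1
        ext e
        rw [mem_filter, mem_biUnion]
        constructor
        · rintro ⟨h1, h2⟩
          obtain ⟨P, hP', he⟩ := onFive_iff.1 h2
          exact ⟨P, mem_metBy.2 ⟨hP', e, mem_inter.2 ⟨h1, he⟩⟩, mem_inter.2 ⟨h1, he⟩⟩
        · rintro ⟨P, hP', he⟩
          rw [mem_inter] at he
          exact ⟨he.1, onFive_iff.2 ⟨P, (mem_metBy.1 hP').1, he.2⟩⟩
      · intro P hP' Q hQ hne
        exact (hpentdisj P (mem_metBy.1 hP').1 Q (mem_metBy.1 hQ).1 hne).mono inter_subset_right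
          inter_subset_right
    have hheavy : ((pent G).filter fun P => (D ∩ P).card = 4).card =
        ∑ P ∈ M, if (D ∩ P).card = 4 then 1 else 0 := by
      rw [← card_filter]
      congr 1
      ext P
      rw [mem_filter, mem_filter, mem_metBy]
      constructor
      · rintro ⟨h1, h2⟩
        refine ⟨⟨h1, ?_⟩, h2⟩
        rw [← card_pos]
        omega
      · rintro ⟨⟨h1, _⟩, h2⟩
        exact ⟨h1, h2⟩
    have hle4 : ∀ P ∈ M, 1 ≤ (D ∩ P).card ∧ (D ∩ P).card ≤ 4 := by
      intro P hP'
      obtain ⟨h1, h2⟩ := mem_metBy.1 hP'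
      refine ⟨card_pos.2 h2, ?_⟩
      have h3 : P.card = 5 := by
        obtain ⟨x, hx, rfl⟩ := pent_param h1
        rw [card_image_of_injective _ (pedge_injective hx.1)]
        rfl
      by_contra h4
      have h5 : D ∩ P = P := eq_of_subset_of_card_le inter_subset_right (by omega)
      exact hno P h1 (inter_eq_right.1 h5)
    -- the bound for `j`
    have hj1 : 35 * j + 7 * ∑ P ∈ M, (if (D ∩ P).card = 4 then 1 else 0) ≤
        10 * c.length + 4 * ∑ P ∈ M, (D ∩ P).card := by
      rw [hsum v c hc, ← hD, hK, hheavy] at hjle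
      have h1 : ((35 * j + 7 * ∑ P ∈ M, (if (D ∩ P).card = 4 then 1 else 0) : ℕ) : ℝ) ≤
          ((10 * c.length + 4 * ∑ P ∈ M, (D ∩ P).card : ℕ) : ℝ) := by
        push_cast at hjle ⊢
        linarith
      exact_mod_cast h1
    have hfin : 10 * j ≤ 3 * c.length → p * j ≤ (p - 2 * q) * c.length := by
      intro h
      have h1 : 3 * p ≤ 10 * (p - 2 * q) := by omega
      have h2 : 10 * (p * j) ≤ 10 * ((p - 2 * q) * c.length) := by
        calc 10 * (p * j) = p * (10 * j) := by ring
          _ ≤ p * (3 * c.length) := Nat.mul_le_mul_left _ h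
          _ = (3 * p) * c.length := by ring
          _ ≤ (10 * (p - 2 * q)) * c.length := Nat.mul_le_mul_right _ h1
          _ = 10 * ((p - 2 * q) * c.length) := by ring
      omega
    have h3l := hc.three_le_length
    have h4l : 4 ≤ c.length := by
      by_contra hcon
      have h1 : c.length = 3 := by omega
      have := five_le_length hG c hc (by rw [h1]; decide)
      omega
    rcases Nat.lt_or_ge M.card 2 with hM2 | hM2
    · rcases Nat.eq_zero_or_pos M.card with hM0 | hM0
      · rw [card_eq_zero] at hM0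
        rw [hM0, sum_empty, sum_empty] at hj1
        exact hfin (by omega)
      · obtain ⟨P, hPM⟩ := card_eq_one.1 (show M.card = 1 by omega)
        rw [hPM, sum_singleton, sum_singleton] at hj1
        have h1 := hle4 P (by rw [hPM]; exact mem_singleton_self P)
        have h6 : c.length = 6 → (D ∩ P).card ≠ 3 := by
          intro h6 h7
          refine no_six R hP hG hd c hc h6 ?_ h7
          exact (mem_metBy.1 (show P ∈ metBy G D by rw [← hM, hPM]; exact mem_singleton_self P)).1
        exact hfin (far_arith _ _ _ hj h1 h4l h6 hj1)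
    · have hcount := far_count hP.1 hfar c hc hM2
      rw [← hD, ← hM, hK, hDcard] at hcount
      -- the sum over the members of `M`
      have h1 : ∀ P ∈ M, 4 * (D ∩ P).card * p ≤
          7 * (if (D ∩ P).card = 4 then 1 else 0) * p +
            (25 * p - 70 * q) * (2 * k + (D ∩ P).card) := by
        intro P hP'
        obtain ⟨h2, h3⟩ := hle4 P hP'
        generalize (D ∩ P).card = m at h2 h3
        generalize 25 * p - 70 * q = r at hpq
        interval_cases m
        · simp
          nlinarith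
        · simp
          nlinarith
        · simp
          nlinarith
        · simp
          nlinarith
      have h2 := sum_le_sum h1
      rw [← sum_mul, ← mul_sum, sum_add_distrib, ← sum_mul, ← mul_sum, ← mul_sum, sum_add_distrib,
        sum_const, smul_eq_mul] at h2
      have h3 : (25 * p - 70 * q) * (M.card * (2 * k) + ∑ P ∈ M, (D ∩ P).card) ≤
          (25 * p - 70 * q) * c.length := by
        refine Nat.mul_le_mul_left _ ?_
        nlinarith
      have h4 := Nat.mul_le_mul_right p hj1
      have h5 : 35 * (p * j) ≤ 35 * ((p - 2 * q) * c.length) := by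
        have h6 : 35 * ((p - 2 * q) * c.length) = 10 * c.length * p +
            (25 * p - 70 * q) * c.length := by
          have h7 : 35 * (p - 2 * q) = 10 * p + (25 * p - 70 * q) := by omega
          calc 35 * ((p - 2 * q) * c.length) = (35 * (p - 2 * q)) * c.length := by ring
            _ = (10 * p + (25 * p - 70 * q)) * c.length := by rw [h7]
            _ = 10 * c.length * p + (25 * p - 70 * q) * c.length := by ring
        rw [h6]
        nlinarith
      omega

/-- The weights for subcubic graphs. -/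
noncomputable def wt3 (G : SimpleGraph V) (e : Sym2 V) : ℝ := by
  classical
  exact if OnFive G e then 2 / 5
    else 2 / 7 - 2 / 35 * ((univ.filter fun x => x ∈ e ∧ OnV G x).card : ℕ)

open scoped Classical in
theorem two_mul_five (D : Finset (Sym2 V)) (hDG : ∀ e ∈ D, e ∈ G.edgeSet)
    (hD : ∀ x, (D.filter fun e => x ∈ e).card = 0 ∨ (D.filter fun e => x ∈ e).card = 2) :
    2 * (D.filter fun e => OnFive G e).card = cnt G D 1 + 2 * cnt G D 2 := by
  have h1 : ∑ x, mu G D x = (D.filter fun e => OnFive G e).card * 2 := by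
    have h2 : ∑ x, mu G D x =
        ∑ e ∈ D.filter (fun e => OnFive G e), (univ.filter fun x => x ∈ e).card := by
      unfold mu
      simp only [card_filter, sum_filter]
      rw [sum_comm]
      refine sum_congr rfl fun e _ => ?_
      by_cases h : OnFive G e <;> simp [h]
    rw [h2, sum_congr rfl fun e he => card_ends (hDG e (mem_filter.1 he).1), sum_const,
      smul_eq_mul]
  have h2 : cnt G D 1 + 2 * cnt G D 2 = ∑ x, mu G D x := by
    rw [cnt, cnt, card_filter, card_filter, mul_sum, ← sum_add_distrib]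
    refine sum_congr rfl fun x _ => ?_
    have hle : mu G D x ≤ (D.filter fun e => x ∈ e).card := by
      rw [mu, ← filter_filter]
      exact card_filter_le _ _
    have := hD x
    split_ifs <;> omega
  omega

theorem sum_wt3 (hd : DisjFive G) (D : Finset (Sym2 V)) (hDG : ∀ e ∈ D, e ∈ G.edgeSet)
    (hdeg : ∀ (x : V) (A : Finset (Sym2 V)), (∀ e ∈ A, e ∈ G.edgeSet ∧ x ∈ e) → A.card ≤ 3)
    (hD : ∀ x, (D.filter fun e => x ∈ e).card = 0 ∨ (D.filter fun e => x ∈ e).card = 2) :
    ∑ e ∈ D, wt3 G e = 2 / 7 * D.card + 4 / 35 * (cnt G D 2 : ℝ) := by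
  classical
  have h1 := sum_wt hd 0 D hDG hdeg hD
  have h2 := two_mul_five (G := G) D hDG hD
  have h3 : (2 : ℝ) * ((D.filter fun e => OnFive G e).card : ℝ) = cnt G D 1 + 2 * cnt G D 2 := by
    exact_mod_cast h2
  have h4 : ∀ e, wt3 G e = 2 / 7 + 8 / 105 * (if OnFive G e then 1 else 0) +
      2 / 21 * wt G 0 e := by
    intro e
    unfold wt3 wt
    split_ifs <;> ring
  rw [sum_congr rfl fun e _ => h4 e, sum_add_distrib, sum_add_distrib, sum_const, ← mul_sum,
    ← mul_sum, h1, sum_boole, nsmul_eq_mul]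
  linarith

theorem far3_decide : ∀ d : Fin 5 → Bool, (∃ i, d i = false) → (∃ i, d i = true) →
    (univ.filter fun i => d (i - 1) = true ∧ d i = true).card + 1 ≤
      (univ.filter fun i => d i = true).card := by
  decide

theorem far3_decide' : ∀ d : Fin 5 → Bool,
    (univ.filter fun i => d (i - 1) = true ∧ d i = true).card ≤
      (univ.filter fun i => d i = true).card := by
  decide

open scoped Classical in
theorem local3 (hd : DisjFive G) (D P : Finset (Sym2 V)) (hP : P ∈ pent G) :
    ∃ d : Fin 5 → Bool, ((verts P).filter fun y => mu G D y = 2).card =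
      (univ.filter fun i => d (i - 1) = true ∧ d i = true).card ∧
      (D ∩ P).card = (univ.filter fun i => d i = true).card ∧
      ((∀ i, d i = true) → P ⊆ D) := by
  obtain ⟨x, hx, rfl⟩ := pent_param hP
  refine ⟨fun i => decide (pedge x i ∈ D), ?_, ?_, ?_⟩
  · rw [card_verts_filter hx.1]
    congr 1
    refine filter_congr fun i _ => ?_
    rw [mu_param hd D hx hP]
    by_cases h2 : pedge x (i - 1) ∈ D <;> by_cases h3 : pedge x i ∈ D <;> simp [h2, h3]
  · have : D ∩ univ.image (pedge x) =
        (univ.filter fun i => decide (pedge x i ∈ D) = true).image (pedge x) := by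
      ext e
      rw [mem_inter, mem_image, mem_image]
      constructor
      · rintro ⟨h, ⟨i, _, rfl⟩⟩
        exact ⟨i, mem_filter.2 ⟨mem_univ _, by simpa using h⟩, rfl⟩
      · rintro ⟨i, h, rfl⟩
        exact ⟨by simpa using (mem_filter.1 h).2, ⟨i, mem_univ _, rfl⟩⟩
    rw [this, card_image_of_injective _ (pedge_injective hx.1)]
  · intro h e he
    obtain ⟨i, _, rfl⟩ := mem_image.1 he
    simpa using h i

/-- The inner vertices of the passages through the 5-cycles. -/
theorem cnt_two_le (hd : DisjFive G) (D : Finset (Sym2 V)) (hno : ∀ P ∈ pent G, ¬ P ⊆ D) :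
    cnt G D 2 + (metBy G D).card ≤ ∑ P ∈ metBy G D, (D ∩ P).card := by
  classical
  have h1 : cnt G D 2 = ∑ P ∈ metBy G D, ((verts P).filter fun y => mu G D y = 2).card := by
    rw [cnt_eq_sum hd D (by norm_num)]
    symm
    refine sum_subset (fun P hP => (mem_metBy.1 hP).1) fun P hP hPM => ?_
    obtain ⟨d, h1, h2, -⟩ := local3 hd D P hP
    have h3 : (D ∩ P).card = 0 := by
      rw [card_eq_zero, ← not_nonempty_iff_eq_empty]
      exact fun h => hPM (mem_metBy.2 ⟨hP, h⟩)
    have h4 := far3_decide' d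
    omega
  rw [h1, card_eq_sum_ones, ← sum_add_distrib]
  refine sum_le_sum fun P hP => ?_
  obtain ⟨hPp, hne⟩ := mem_metBy.1 hP
  obtain ⟨d, h2, h3, h4⟩ := local3 hd D P hPp
  have h5 := card_pos.2 hne
  have h6 := far3_decide d (by
    by_contra hcon
    push Not at hcon
    exact hno P hPp (h4 fun i => by simpa using hcon i)) (by
    by_contra hcon
    push Not at hcon
    have h7 : (univ.filter fun i => d i = true) = ∅ := by
      rw [filter_eq_empty_iff]
      exact fun i _ => by simpa using hcon i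
    rw [h3, h7, card_empty] at h5
    omega)
  omega

theorem far_arith3 (a j m : ℕ) (hj : Even (j + a)) (hm : 1 ≤ m ∧ m ≤ 4) (ha : 4 ≤ a)
    (h : 35 * j + 7 * (if m = 4 then 1 else 0) + 4 ≤ 10 * a + 4 * m) :
    10 * j ≤ 3 * a := by
  rw [Nat.even_iff] at hj
  have h1 : 35 * j ≤ 10 * a + 8 := by
    split_ifs at h <;> omega
  by_contra hcon
  have h2 : a ≤ 9 := by omega
  interval_cases a <;> omega

/-- **Far apart 5-cycles, subcubic graphs.**  Let `G` be a triangle-free graph with maximum degree
at most `3` drawn on the sphere such that distinct 5-cycles have distance at least `2 k`.  If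
`20 q ≤ 7 p` and `8 p ≤ (25 p - 70 q) (2 k + 3)`, then `G` has a `(p, q)`-colouring. -/
theorem plane_far3 (R : Rot G) (hP : R.Plane) (hΔ : ∀ v, G.degree v ≤ 3) (hG : G.CliqueFree 3)
    {k : ℕ} (hk : 1 ≤ k) (hfar : FarFive G (2 * k)) {p q : ℕ} (hq : 1 ≤ q)
    (h20 : 20 * q ≤ 7 * p) (hpq : 8 * p ≤ (25 * p - 70 * q) * (2 * k + 3)) :
    ∃ c : V → ℕ, (∀ v, c v < p) ∧
      ∀ u v, G.Adj u v → (q : ℤ) ≤ |(c u : ℤ) - c v| ∧ |(c u : ℤ) - c v| ≤ p - q := by
  classical
  have hd : DisjFive G := hfar.disj (by omega)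
  have h2q : 2 * q ≤ p := by omega
  have hdeg := deg_le hΔ
  have hsum : ∀ (v : V) (c : G.Walk v v), c.IsCycle → (c.edges.map (wt3 G)).sum =
      2 / 7 * c.length + 4 / 35 * (cnt G c.edges.toFinset 2 : ℝ) := by
    intro v c hc
    rw [← List.sum_toFinset _ hc.edges_nodup, sum_wt3 hd c.edges.toFinset
      (fun e he => c.edges_subset_edgeSet (List.mem_toFinset.1 he)) hdeg (deg_cycle hdeg c hc),
      List.toFinset_card_of_nodup hc.edges_nodup, SimpleGraph.Walk.length_edges]
  have hpentdisj : ∀ P ∈ pent G, ∀ Q ∈ pent G, P ≠ Q → Disjoint P Q := by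
    intro P hP' Q hQ hne
    rw [Finset.disjoint_left]
    intro e he he'
    apply hne
    induction e using Sym2.ind with
    | _ a b =>
      exact pent_disj hd hP' hQ (y := a) (mem_verts.2 ⟨_, he, Sym2.mem_mk_left _ _⟩)
        (mem_verts.2 ⟨_, he', Sym2.mem_mk_left _ _⟩)
  refine plane_switch_int R hP hq (by omega) (wt3 G) ?_ ?_ (pent G) ?_ hpentdisj ?_ ?_
  · intro e he
    unfold wt3
    split_ifs with h
    · norm_num
    · have h1 : (univ.filter fun x => x ∈ e ∧ OnV G x).card ≤ 2 := by
        rw [← card_ends he, ← filter_filter]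
        exact card_filter_le _ _
      have h2 : ((univ.filter fun x => x ∈ e ∧ OnV G x).card : ℝ) ≤ 2 := by exact_mod_cast h1
      linarith
  · -- the odd cycles
    intro v c hc ho
    have h5 := five_le_length hG c hc ho
    by_cases h5' : c.length = 5
    · have h1 : c.edges.map (wt3 G) = c.edges.map fun _ => (2 / 5 : ℝ) :=
        List.map_congr_left fun e he => if_pos ⟨v, c, hc, h5', he⟩
      rw [h1, List.map_const', List.sum_replicate, SimpleGraph.Walk.length_edges, h5']
      norm_num
    · have h7 : 7 ≤ c.length := by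
        rw [Nat.odd_iff] at ho
        omega
      rw [hsum v c hc]
      have h8 : (7 : ℝ) ≤ c.length := by exact_mod_cast h7
      have h9 : (0 : ℝ) ≤ (cnt G c.edges.toFinset 2 : ℝ) := Nat.cast_nonneg _
      linarith
  · intro D hD
    rw [pent, mem_filter] at hD
    obtain ⟨_, v, c, h1, h2, h3⟩ := hD
    exact ⟨v, c, h1, h2, h3.symm⟩
  · intro D hD e he
    exact if_pos (onFive_iff.2 ⟨D, hD, he⟩)
  · -- the other cycles
    intro v c hc hno j hj hjle
    set D := c.edges.toFinset with hD
    set M := metBy G D with hM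
    have hDcard : D.card = c.length := by
      rw [hD, List.toFinset_card_of_nodup hc.edges_nodup, SimpleGraph.Walk.length_edges]
    have hK : (D.filter fun e => OnFive G e).card = ∑ P ∈ M, (D ∩ P).card := by
      rw [← card_biUnion]
      · congr 1
        ext e
        rw [mem_filter, mem_biUnion]
        constructor
        · rintro ⟨h1, h2⟩
          obtain ⟨P, hP', he⟩ := onFive_iff.1 h2
          exact ⟨P, mem_metBy.2 ⟨hP', e, mem_inter.2 ⟨h1, he⟩⟩, mem_inter.2 ⟨h1, he⟩⟩
        · rintro ⟨P, hP', he⟩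
          rw [mem_inter] at he
          exact ⟨he.1, onFive_iff.2 ⟨P, (mem_metBy.1 hP').1, he.2⟩⟩
      · intro P hP' Q hQ hne
        exact (hpentdisj P (mem_metBy.1 hP').1 Q (mem_metBy.1 hQ).1 hne).mono inter_subset_right
          inter_subset_right
    have hheavy : ((pent G).filter fun P => (D ∩ P).card = 4).card =
        ∑ P ∈ M, if (D ∩ P).card = 4 then 1 else 0 := by
      rw [← card_filter]
      congr 1
      ext P
      rw [mem_filter, mem_filter, mem_metBy]
      constructor
      · rintro ⟨h1, h2⟩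
        refine ⟨⟨h1, ?_⟩, h2⟩
        rw [← card_pos]
        omega
      · rintro ⟨⟨h1, _⟩, h2⟩
        exact ⟨h1, h2⟩
    have hle4 : ∀ P ∈ M, 1 ≤ (D ∩ P).card ∧ (D ∩ P).card ≤ 4 := by
      intro P hP'
      obtain ⟨h1, h2⟩ := mem_metBy.1 hP'
      refine ⟨card_pos.2 h2, ?_⟩
      have h3 : P.card = 5 := by
        obtain ⟨x, hx, rfl⟩ := pent_param h1
        rw [card_image_of_injective _ (pedge_injective hx.1)]
        rfl
      by_contra h4
      have h5 : D ∩ P = P := eq_of_subset_of_card_le inter_subset_right (by omega)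
      exact hno P h1 (inter_eq_right.1 h5)
    have hcnt := cnt_two_le hd D hno
    -- the bound for `j`
    have hj1 : 35 * j + 7 * ∑ P ∈ M, (if (D ∩ P).card = 4 then 1 else 0) + 4 * M.card ≤
        10 * c.length + 4 * ∑ P ∈ M, (D ∩ P).card := by
      rw [hsum v c hc, ← hD, hheavy] at hjle
      have h1 : ((35 * j + 7 * ∑ P ∈ M, (if (D ∩ P).card = 4 then 1 else 0) : ℕ) : ℝ) ≤
          ((10 * c.length + 4 * cnt G D 2 : ℕ) : ℝ) := by
        push_cast at hjle ⊢
        linarith
      have h2 : 35 * j + 7 * ∑ P ∈ M, (if (D ∩ P).card = 4 then 1 else 0) ≤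
          10 * c.length + 4 * cnt G D 2 := by exact_mod_cast h1
      rw [← hM] at hcnt
      omega
    have hfin : 10 * j ≤ 3 * c.length → p * j ≤ (p - 2 * q) * c.length := by
      intro h
      have h1 : 3 * p ≤ 10 * (p - 2 * q) := by omega
      have h2 : 10 * (p * j) ≤ 10 * ((p - 2 * q) * c.length) := by
        calc 10 * (p * j) = p * (10 * j) := by ring
          _ ≤ p * (3 * c.length) := Nat.mul_le_mul_left _ h
          _ = (3 * p) * c.length := by ring
          _ ≤ (10 * (p - 2 * q)) * c.length := Nat.mul_le_mul_right _ h1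
          _ = 10 * ((p - 2 * q) * c.length) := by ring
      omega
    have h3l := hc.three_le_length
    have h4l : 4 ≤ c.length := by
      by_contra hcon
      have h1 : c.length = 3 := by omega
      have := five_le_length hG c hc (by rw [h1]; decide)
      omega
    rcases Nat.lt_or_ge M.card 2 with hM2 | hM2
    · rcases Nat.eq_zero_or_pos M.card with hM0 | hM0
      · rw [card_eq_zero] at hM0
        rw [hM0, sum_empty, sum_empty] at hj1
        exact hfin (by omega)
      · obtain ⟨P, hPM⟩ := card_eq_one.1 (show M.card = 1 by omega)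
        rw [hPM, sum_singleton, sum_singleton, card_singleton] at hj1
        have h1 := hle4 P (by rw [hPM]; exact mem_singleton_self P)
        exact hfin (far_arith3 _ _ _ hj h1 h4l hj1)
    · have hcount := far_count hP.1 hfar c hc hM2
      rw [← hD, ← hM, hK, hDcard] at hcount
      -- the sum over the members of `M`
      have h1 : ∀ P ∈ M, 4 * (D ∩ P).card * p ≤
          7 * (if (D ∩ P).card = 4 then 1 else 0) * p + 4 * p +
            (25 * p - 70 * q) * (2 * k + (D ∩ P).card) := by
        intro P hP'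
        obtain ⟨h2, h3⟩ := hle4 P hP'
        generalize (D ∩ P).card = m at h2 h3
        generalize 25 * p - 70 * q = r at hpq
        interval_cases m <;> simp <;> nlinarith
      have h2 := sum_le_sum h1
      rw [← sum_mul, ← mul_sum, sum_add_distrib, sum_add_distrib, ← sum_mul, ← mul_sum,
        sum_const, ← mul_sum, sum_add_distrib, sum_const, smul_eq_mul, smul_eq_mul] at h2
      have h3 : (25 * p - 70 * q) * (M.card * (2 * k) + ∑ P ∈ M, (D ∩ P).card) ≤
          (25 * p - 70 * q) * c.length := by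
        refine Nat.mul_le_mul_left _ ?_
        nlinarith
      have h4 := Nat.mul_le_mul_right p hj1
      have h5 : 35 * (p * j) ≤ 35 * ((p - 2 * q) * c.length) := by
        have h6 : 35 * ((p - 2 * q) * c.length) = 10 * c.length * p +
            (25 * p - 70 * q) * c.length := by
          have h7 : 35 * (p - 2 * q) = 10 * p + (25 * p - 70 * q) := by omega
          calc 35 * ((p - 2 * q) * c.length) = (35 * (p - 2 * q)) * c.length := by ring
            _ = (10 * p + (25 * p - 70 * q)) * c.length := by rw [h7]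
            _ = 10 * c.length * p + (25 * p - 70 * q) * c.length := by ring
        rw [h6]
        nlinarith
      omega

end Pool.Agent.OddFlow
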