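import Mathlib
import Pool.Agent.Work.MP_392c8e_co_odd.PlaneExit

/-!
# Plane subcubic graphs whose 5-cycles are isolated or have an apex
-/

namespace Pool.Agent.OddFlow

open Finset Pool.Agent.Circ Pool.Agent.Sub392
open scoped symmDiff

set_option linter.unusedSectionVars false

variable {V : Type} [Fintype V] [DecidableEq V] {G : SimpleGraph V}

/-- The pattern at a 5-cycle with an apex: edges. -/
def aA : Fin 5 → ℤ := ![5, 0, 0, 0, 5]

/-- The pattern at a 5-cycle with an apex: vertices. -/
def bA : Fin 5 → ℤ := ![0, 5, 5, 5, 5]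

/-- The pattern at an isolated 5-cycle: edges. -/
def aI : Fin 5 → ℤ := fun _ => 2

/-- The pattern at an isolated 5-cycle: vertices. -/
def bI : Fin 5 → ℤ := fun _ => 3

theorem excA_le : ∀ d : Fin 5 → Bool, (univ.filter fun i => d i = true).card ≤ 4 →
    exc aA bA d ≤ 0 := by
  unfold exc
  decide

theorem excA_zero : ∀ d : Fin 5 → Bool, d 1 = false → d 2 = false → d 3 = false →
    exc aA bA d = 0 := by
  unfold exc
  decide

theorem excA_full : ∀ d : Fin 5 → Bool, (∀ i, d i = true) → exc aA bA d = 10 := by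
  unfold exc
  decide

theorem excI_le : ∀ d : Fin 5 → Bool, (univ.filter fun i => d i = true).card ≤ 4 →
    exc aI bI d ≤ 2 * (if (univ.filter fun i => d i = true).card = 4 then 1 else 0) := by
  unfold exc
  decide

theorem excI_zero : ∀ d : Fin 5 → Bool, (∀ i, d i = false) → exc aI bI d = 0 := by
  unfold exc
  decide

theorem excI_full : ∀ d : Fin 5 → Bool, (∀ i, d i = true) → exc aI bI d = 10 := by
  unfold exc
  decide

/-- The sum of the contributions for patterns which depend on the 5-cycle. -/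
theorem sum_wgP (θ κ : ℝ) (a b : Finset (Sym2 V) → Fin 5 → ℤ) (x : Finset (Sym2 V) → Fin 5 → V)
    (hx : ∀ P ∈ pent G, IsPent G (x P)) (D : Finset (Sym2 V))
    (hDG : ∀ e ∈ D, e ∈ G.edgeSet)
    (hdeg : ∀ (x : V) (A : Finset (Sym2 V)), (∀ e ∈ A, e ∈ G.edgeSet ∧ x ∈ e) → A.card ≤ 3)
    (hD : ∀ x, (D.filter fun e => x ∈ e).card = 0 ∨ (D.filter fun e => x ∈ e).card = 2) :
    ∑ e ∈ D, (θ + κ * ((∑ P ∈ pent G, ctr (a P) (b P) (x P) e : ℤ) : ℝ)) =
      θ * D.card + κ * ((∑ P ∈ pent G, exc (a P) (b P) (pat (x P) D) : ℤ) : ℝ) := by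
  rw [sum_add_distrib, sum_const, nsmul_eq_mul, ← mul_sum, ← Int.cast_sum, sum_comm,
    sum_congr rfl fun P hP => sum_ctr (a P) (b P) (hx P hP) D hDG hdeg hD]
  ring

/-- The gain of an edge `e` of the 5-cycle `P` and the loss at a vertex `x` of `P`. -/
def gainA (A : Finset (Sym2 V) → Prop) [DecidablePred A] (y : Finset (Sym2 V) → V)
    (P : Finset (Sym2 V)) (e : Sym2 V) : ℤ :=
  if A P then (if y P ∈ e then 5 else 0) else 2

def lossA (A : Finset (Sym2 V) → Prop) [DecidablePred A] (y : Finset (Sym2 V) → V)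
    (P : Finset (Sym2 V)) (x : V) : ℤ :=
  if A P then (if x = y P then 0 else 5) else 3

/-- The sum of the gains and losses at an edge. -/
noncomputable def netA (G : SimpleGraph V) (A : Finset (Sym2 V) → Prop) [DecidablePred A]
    (y : Finset (Sym2 V) → V) (e : Sym2 V) : ℤ :=
  ∑ P ∈ pent G, if e ∈ P then gainA A y P e else
    -∑ x ∈ (verts P).filter (fun x => x ∈ e), lossA A y P x

theorem ctr_eq (A : Finset (Sym2 V) → Prop) [DecidablePred A] (y : Finset (Sym2 V) → V)
    {P : Finset (Sym2 V)} {x : Fin 5 → V} (hx : IsPent G x) (hP : P = univ.image (pedge x))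
    (hy : A P → x 0 = y P) (e : Sym2 V) :
    ctr (if A P then aA else aI) (if A P then bA else bI) x e =
      if e ∈ P then gainA A y P e else -∑ z ∈ (verts P).filter (fun z => z ∈ e), lossA A y P z := by
  classical
  have hv : verts P = univ.image x := by rw [hP, verts_param hx.1]
  by_cases he : e ∈ P
  · rw [if_pos he]
    unfold ctr
    have h1 : ∑ i, (if x i ∈ e ∧ e ∉ univ.image (pedge x) then
        (if A P then bA else bI) i else 0) = 0 := by
      refine sum_eq_zero fun i _ => ?_
      rw [if_neg]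
      rw [← hP]
      exact fun h => h.2 he
    rw [h1, sub_zero]
    rw [hP, mem_image] at he
    obtain ⟨j, _, rfl⟩ := he
    have h2 : ∑ i, (if pedge x j = pedge x i then (if A P then aA else aI) i else 0) =
        (if A P then aA else aI) j := by
      rw [sum_eq_single j]
      · rw [if_pos rfl]
      · intro i _ hij
        rw [if_neg]
        exact fun h => hij (pedge_injective hx.1 h).symm
      · intro h
        exact absurd (mem_univ j) h
    rw [h2]
    unfold gainA
    by_cases hA : A P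
    · simp only [hA, if_true]
      rw [← hy hA]
      have h3 : (x 0 ∈ pedge x j) ↔ j = 0 ∨ j = 0 - 1 := mem_pedge hx.1
      have k : ∀ j : Fin 5, aA j = if j = 0 ∨ j = 0 - 1 then 5 else 0 := by decide
      rw [k j]
      simp only [h3]
    · simp only [hA, if_false]
      rfl
  · rw [if_neg he]
    unfold ctr
    have h1 : ∑ i, (if e = pedge x i then (if A P then aA else aI) i else 0) = 0 := by
      refine sum_eq_zero fun i _ => ?_
      rw [if_neg]
      rintro rfl
      exact he (by rw [hP]; exact mem_image_of_mem _ (mem_univ _))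
    rw [h1, zero_sub, hv, filter_image, sum_image fun i _ j _ h => hx.1 h]
    congr 1
    rw [sum_filter]
    refine sum_congr rfl fun i _ => ?_
    rw [← hP]
    simp only [he, not_false_eq_true, and_true]
    by_cases hi : x i ∈ e
    · simp only [hi, if_true]
      unfold lossA
      by_cases hA : A P
      · simp only [hA, if_true]
        rw [← hy hA]
        have k : ∀ i : Fin 5, bA i = if i = 0 then 0 else 5 := by decide
        rw [k i]
        by_cases h0 : i = 0
        · subst h0
          simp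
        · have h3 : x i ≠ x 0 := fun h => h0 (hx.1 h)
          simp [h0, h3]
      · simp only [hA, if_false]
        rfl
    · simp only [hi, if_false]

/-- **Plane subcubic graphs whose 5-cycles are isolated or have an apex.** -/
theorem plane_apex [DecidableRel G.Adj] (R : Rot G) (hP : R.Plane) (hΔ : ∀ v, G.degree v ≤ 3)
    (hG : G.CliqueFree 3) (A : Finset (Sym2 V) → Prop) [DecidablePred A]
    (y : Finset (Sym2 V) → V)
    (hA : ∀ P ∈ pent G, A P → y P ∈ verts P ∧
      ∀ Q ∈ pent G, Q ≠ P → ∀ e ∈ P, y P ∉ e → e ∉ Q)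
    (hI : ∀ P ∈ pent G, ¬ A P → ∀ Q ∈ pent G, Q ≠ P → Disjoint (verts P) (verts Q))
    {p q : ℕ} (hq : 1 ≤ q) (h20 : 20 * q ≤ 7 * p) (h3 : 3 * p ≤ 10 * q)
    (hpos : ∀ e ∈ G.edgeSet, 0 ≤ (10 * (p - 2 * q) + (10 * q - 3 * p) * netA G A y e : ℤ))
    (hodd : ∀ (v : V) (c : G.Walk v v), c.IsCycle → Odd c.length → 7 ≤ c.length →
      (20 * p : ℤ) ≤ ∑ e ∈ c.edges.toFinset,
        (10 * (p - 2 * q) + (10 * q - 3 * p) * netA G A y e : ℤ)) :
    ∃ c : V → ℕ, (∀ v, c v < p) ∧
      ∀ u v, G.Adj u v → (q : ℤ) ≤ |(c u : ℤ) - c v| ∧ |(c u : ℤ) - c v| ≤ p - q := by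
  classical
  have hp0 : 0 < p := by omega
  have h2q : 2 * q ≤ p := by omega
  have hpR : (0 : ℝ) < p := by exact_mod_cast hp0
  have h20R : 20 * (q : ℝ) ≤ 7 * p := by exact_mod_cast h20
  have h3R : 3 * (p : ℝ) ≤ 10 * q := by exact_mod_cast h3
  set β : ℝ := ((p - 2 * q : ℕ) : ℝ) / p with hβ
  have hβp : β * p = p - 2 * q := by
    rw [hβ, div_mul_cancel₀ _ hpR.ne', Nat.cast_sub h2q]
    push_cast
    ring
  have hβ3 : 3 / 10 ≤ β := by
    rw [hβ, le_div_iff₀ hpR, Nat.cast_sub h2q]
    push_cast
    linarith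
  have hβ4 : β ≤ 2 / 5 := by
    rw [hβ, div_le_iff₀ hpR, Nat.cast_sub h2q]
    push_cast
    linarith
  have hdeg := deg_le hΔ
  -- parametrise the 5-cycles
  have hpar : ∀ P : Finset (Sym2 V), ∃ x : Fin 5 → V, P ∈ pent G →
      IsPent G x ∧ P = univ.image (pedge x) ∧ (A P → x 0 = y P) := by
    intro P
    by_cases h : P ∈ pent G
    · by_cases hAP : A P
      · obtain ⟨x, h1, h2, h3⟩ := pent_param_at h (hA P h hAP).1
        exact ⟨x, fun _ => ⟨h1, h2, fun _ => h3⟩⟩
      · obtain ⟨x, h1, h2⟩ := pent_param h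
        exact ⟨x, fun _ => ⟨h1, h2, fun h => absurd h hAP⟩⟩
    · exact ⟨fun _ => y P, fun h' => absurd h' h⟩
  choose x hx using hpar
  have hx1 : ∀ P ∈ pent G, IsPent G (x P) := fun P h => (hx P h).1
  have hx2 : ∀ P ∈ pent G, P = univ.image (pedge (x P)) := fun P h => (hx P h).2.1
  have hmemP : ∀ P ∈ pent G, ∀ i, pedge (x P) i ∈ P := by
    intro P h i
    have := mem_image_of_mem (pedge (x P)) (mem_univ i)
    rwa [← hx2 P h] at this
  -- the edges which are not at the apex
  have hout : ∀ P ∈ pent G, A P → ∀ i, i ≠ 0 → i ≠ 4 → y P ∉ pedge (x P) i := by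
    intro P h hAP i h0 h4
    rw [← (hx P h).2.2 hAP, mem_pedge (hx1 P h).1]
    rintro (h5 | h5)
    · exact h0 h5
    · exact h4 (by rw [h5]; decide)
  set a : Finset (Sym2 V) → Fin 5 → ℤ := fun P => if A P then aA else aI with ha
  set b : Finset (Sym2 V) → Fin 5 → ℤ := fun P => if A P then bA else bI with hb
  set om : Sym2 V → ℝ := fun e => β + (2 / 5 - β) / 2 *
    ((∑ P ∈ pent G, ctr (a P) (b P) (x P) e : ℤ) : ℝ) with hom
  have hnet : ∀ e, ∑ P ∈ pent G, ctr (a P) (b P) (x P) e = netA G A y e := by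
    intro e
    unfold netA
    exact sum_congr rfl fun P h => ctr_eq A y (hx1 P h) (hx2 P h) (hx P h).2.2 e
  have homp : ∀ e, 10 * p * om e =
      ((10 * (p - 2 * q) + (10 * q - 3 * p) * netA G A y e : ℤ) : ℝ) := by
    intro e
    rw [hom]
    simp only
    rw [hnet]
    push_cast
    have e1 : 10 * (p : ℝ) * (β + (2 / 5 - β) / 2 * (netA G A y e : ℝ)) =
        10 * (β * p) + (2 * p - 5 * (β * p)) * (netA G A y e : ℝ) := by ring
    rw [e1, hβp]
    ring
  have hom0 : ∀ e ∈ G.edgeSet, 0 ≤ om e := by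
    intro e he
    have h1 : (0 : ℝ) ≤ ((10 * (p - 2 * q) + (10 * q - 3 * p) * netA G A y e : ℤ) : ℝ) := by
      exact_mod_cast hpos e he
    rw [← homp e] at h1
    by_contra hcon
    rw [not_le] at hcon
    have := mul_neg_of_pos_of_neg (show (0 : ℝ) < 10 * p by positivity) hcon
    linarith
  have hsumD : ∀ D : Finset (Sym2 V), (∀ e ∈ D, e ∈ G.edgeSet) →
      (∀ x, (D.filter fun e => x ∈ e).card = 0 ∨ (D.filter fun e => x ∈ e).card = 2) →
      ∑ e ∈ D, om e = β * D.card +
        (2 / 5 - β) / 2 * ((∑ P ∈ pent G, exc (a P) (b P) (pat (x P) D) : ℤ) : ℝ) :=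
    fun D h1 h2 => sum_wgP β ((2 / 5 - β) / 2) a b x hx1 D h1 hdeg h2
  have hcyc : ∀ (v : V) (c : G.Walk v v), c.IsCycle → (c.edges.map om).sum =
      ∑ e ∈ c.edges.toFinset, om e := by
    intro v c hc
    rw [← List.sum_toFinset _ hc.edges_nodup]
  -- the sum of the excesses at a 5-cycle
  have hfive : ∀ Q ∈ pent G, ∑ P ∈ pent G, exc (a P) (b P) (pat (x P) Q) = 10 := by
    intro Q hQ
    rw [← add_sum_erase _ _ hQ]
    have h0 : ∀ i, pat (x Q) Q i = true := fun i => by
      unfold pat
      simpa using hmemP Q hQ i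
    have h1 : exc (a Q) (b Q) (pat (x Q) Q) = 10 := by
      rw [ha, hb]
      by_cases hAQ : A Q
      · simp only [hAQ, if_true]
        exact excA_full _ h0
      · simp only [hAQ, if_false]
        exact excI_full _ h0
    have h2 : ∑ P ∈ (pent G).erase Q, exc (a P) (b P) (pat (x P) Q) = 0 := by
      refine sum_eq_zero fun P hP => ?_
      rw [mem_erase] at hP
      rw [ha, hb]
      by_cases hAP : A P
      · simp only [hAP, if_true]
        have h4 : ∀ i : Fin 5, i ≠ 0 → i ≠ 4 → pat (x P) Q i = false := by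
          intro i h0 h4
          unfold pat
          rw [decide_eq_false_iff_not]
          exact (hA P hP.2 hAP).2 Q hQ (Ne.symm hP.1) _ (hmemP P hP.2 i) (hout P hP.2 hAP i h0 h4)
        exact excA_zero _ (h4 1 (by decide) (by decide)) (h4 2 (by decide) (by decide))
          (h4 3 (by decide) (by decide))
      · simp only [hAP, if_false]
        refine excI_zero _ fun i => ?_
        unfold pat
        rw [decide_eq_false_iff_not]
        intro h4
        have h5 := hI P hP.2 hAP Q hQ (Ne.symm hP.1)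
        rw [Finset.disjoint_left] at h5
        refine h5 (a := x P i) ?_ ?_
        · exact mem_filter.2 ⟨mem_univ _, _, hmemP P hP.2 i, (mem_pedge (hx1 P hP.2).1).2
            (Or.inl rfl)⟩
        · exact mem_filter.2 ⟨mem_univ _, _, h4, (mem_pedge (hx1 P hP.2).1).2 (Or.inl rfl)⟩
    rw [h1, h2, add_zero]
  have hcard5' : ∀ Q ∈ pent G, Q.card = 5 := by
    intro Q hQ
    rw [hx2 Q hQ, card_image_of_injective _ (pedge_injective (hx1 Q hQ).1)]
    rfl
  have hcycD : ∀ (v : V) (c : G.Walk v v), c.IsCycle →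
      (∀ e ∈ c.edges.toFinset, e ∈ G.edgeSet) ∧
      (∀ x, (c.edges.toFinset.filter fun e => x ∈ e).card = 0 ∨
        (c.edges.toFinset.filter fun e => x ∈ e).card = 2) :=
    fun v c hc => ⟨fun e he => c.edges_subset_edgeSet (List.mem_toFinset.1 he),
      deg_cycle hdeg c hc⟩
  have hfiveom : ∀ Q ∈ pent G, ∑ e ∈ Q, om e = 2 := by
    intro Q hQ
    obtain ⟨_, v, c, hc, hl, rfl⟩ := mem_filter.1 hQ
    obtain ⟨g1, g2⟩ := hcycD v c hc
    rw [hsumD _ g1 g2, hfive _ hQ, hcard5' _ hQ]
    push_cast
    ring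
  -- the odd cycles
  have hodd2 : ∀ (v : V) (c : G.Walk v v), c.IsCycle → Odd c.length →
      2 ≤ (c.edges.map om).sum := by
    intro v c hc ho
    have hl5 := five_le_length hG c hc ho
    rw [hcyc v c hc]
    by_cases hl : c.length = 5
    · rw [hfiveom _ (mem_filter.2 ⟨mem_univ _, v, c, hc, hl, rfl⟩)]
    · have hl7 : 7 ≤ c.length := by
        rw [Nat.odd_iff] at ho
        omega
      have h1 := hodd v c hc ho hl7
      have h2 : 20 * (p : ℝ) ≤ 10 * p * ∑ e ∈ c.edges.toFinset, om e := by
        rw [mul_sum, sum_congr rfl fun e _ => homp e, ← Int.cast_sum]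
        exact_mod_cast h1
      have h3 : 10 * (p : ℝ) * 2 ≤ 10 * p * ∑ e ∈ c.edges.toFinset, om e := by linarith
      exact le_of_mul_le_mul_left h3 (by positivity)
  obtain ⟨w, w1, w2, w3, w4, w5⟩ := plane_charges R om hom0 hodd2
  let s : Up G → R.Face := fun e => R.face e.1
  let t : Up G → R.Face := fun e => R.face e.1.symm
  have hinj : ∀ (A : Finset (Up G)), Set.InjOn (fun e : Up G => e.1.edge) A :=
    fun A e _ e' _ h => up_edge_inj h
  let img : Finset R.Face → Finset (Sym2 V) := fun S => (cut s t S).image fun e : Up G => e.1.edge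
  have himgc : ∀ S, (img S).card = (cut s t S).card := fun S => card_image_of_injOn (hinj _)
  have himg : ∀ S (e : Up G), e.1.edge ∈ img S ↔ e ∈ cut s t S := by
    intro S e
    show e.1.edge ∈ (cut s t S).image (fun e : Up G => e.1.edge) ↔ _
    rw [mem_image]
    constructor
    · rintro ⟨e', h, he'⟩
      rwa [← up_edge_inj he']
    · exact fun h => ⟨e, h, rfl⟩
  have himgG : ∀ S, ∀ e ∈ img S, e ∈ G.edgeSet := by
    intro S e he
    obtain ⟨e', _, he'⟩ := mem_image.1 he
    exact he' ▸ e'.1.edge_mem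
  have homI : ∀ S, ∑ e ∈ cut s t S, om e.1.edge = ∑ e ∈ img S, om e := by
    intro S
    exact (sum_image (hinj _)).symm
  have hNw : ∀ S : Finset R.Face, |((∑ f ∈ S, w f : ℤ) : ℝ)| ≤
      ∑ e ∈ cut s t S, om e.1.edge := by
    intro S
    have h0 : 0 ≤ ∑ e ∈ cut s t S, om e.1.edge :=
      sum_nonneg fun e _ => hom0 _ e.1.edge_mem
    rcases Nat.eq_zero_or_pos R.odd.card with h4 | h4
    · have h5 : ∑ f ∈ S, w f = 0 := by
        rw [card_eq_zero] at h4
        exact sum_eq_zero fun f _ => w1 f (by rw [h4]; exact notMem_empty _)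
      rw [h5]
      simpa using h0
    · have h5 := w4 S
      have h6 : (0 : ℝ) < R.odd.card := by exact_mod_cast h4
      have h7 : ((R.odd.card - 1 : ℕ) : ℝ) ≤ R.odd.card := by
        exact_mod_cast Nat.sub_le _ _
      have h8 := mul_le_mul_of_nonneg_right h7 h0
      exact le_of_mul_le_mul_left (h5.trans h8) h6
  have hw2 : ∀ S : Finset R.Face, ∑ e ∈ cut s t S, om e.1.edge = 2 →
      |∑ f ∈ S, w f| ≤ 1 := by
    intro S hS
    rcases Nat.eq_zero_or_pos R.odd.card with h4 | h4
    · have h5 : ∑ f ∈ S, w f = 0 := by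
        rw [card_eq_zero] at h4
        exact sum_eq_zero fun f _ => w1 f (by rw [h4]; exact notMem_empty _)
      rw [h5]
      norm_num
    · have h5 := w4 S
      rw [hS] at h5
      have h6 : (0 : ℝ) < R.odd.card := by exact_mod_cast h4
      have h7 : ((R.odd.card - 1 : ℕ) : ℝ) < R.odd.card := by
        exact_mod_cast Nat.sub_lt h4 one_pos
      have h8 : |((∑ f ∈ S, w f : ℤ) : ℝ)| < 2 := by
        by_contra hcon
        rw [not_lt] at hcon
        have := mul_le_mul_of_nonneg_left hcon h6.le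
        linarith
      have h9 : |∑ f ∈ S, w f| < 2 := by exact_mod_cast h8
      omega
  -- the sides of the 5-cycles
  have hsd : ∀ Q : Finset (Sym2 V), ∃ S : Finset R.Face, Q ∈ pent G → img S = Q := by
    intro Q
    by_cases hQ : Q ∈ pent G
    · obtain ⟨_, v, c, hc, hl, rfl⟩ := mem_filter.1 hQ
      obtain ⟨S, hS⟩ := exists_side_of R hP c hc
      exact ⟨S, fun _ => image_cut_of_side R hS⟩
    · exact ⟨∅, fun h => absurd h hQ⟩
  choose sd hsd using hsd
  have hcard5 : ∀ Q ∈ pent G, (cut s t (sd Q)).card = 5 := by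
    intro Q hQ
    rw [← himgc, hsd Q hQ, hcard5' Q hQ]
  have hmem : ∀ Q ∈ pent G, ∀ e : Up G, e ∈ cut s t (sd Q) ↔ e.1.edge ∈ Q := by
    intro Q hQ e
    rw [← himg, hsd Q hQ]
  -- the isolated 5-cycles
  set I : Finset (Finset (Sym2 V)) := (pent G).filter fun P => ¬ A P with hIdef
  have hIom : ∀ Q ∈ I, ∀ e ∈ Q, om e = 2 / 5 := by
    intro Q hQ e he
    obtain ⟨hQ1, hQ2⟩ := mem_filter.1 hQ
    have h1 : netA G A y e = 2 := by
      unfold netA
      rw [← add_sum_erase _ _ hQ1, if_pos he]
      have h2 : gainA A y Q e = 2 := by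
        unfold gainA
        rw [if_neg hQ2]
      have h3 : ∑ P ∈ (pent G).erase Q, (if e ∈ P then gainA A y P e else
          -∑ x ∈ (verts P).filter (fun x => x ∈ e), lossA A y P x) = 0 := by
        refine sum_eq_zero fun P hP => ?_
        rw [mem_erase] at hP
        have h4 := hI Q hQ1 hQ2 P hP.2 hP.1
        have h5 : ∀ z, z ∈ e → z ∉ verts P := by
          intro z hz hz'
          rw [Finset.disjoint_left] at h4
          exact h4 (mem_filter.2 ⟨mem_univ _, e, he, hz⟩) hz'
        have h6 : e ∉ P := by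
          intro h7
          induction e using Sym2.ind with
          | _ u v =>
            exact h5 u (Sym2.mem_mk_left _ _) (mem_filter.2 ⟨mem_univ _, _, h7,
              Sym2.mem_mk_left _ _⟩)
        rw [if_neg h6, neg_eq_zero]
        refine sum_eq_zero fun z hz => ?_
        rw [mem_filter] at hz
        exact absurd hz.1 (h5 z hz.2)
      rw [h2, h3, add_zero]
    have h2 : om e = β + (2 / 5 - β) / 2 * (netA G A y e : ℝ) := by
      rw [hom]
      simp only
      rw [hnet]
    rw [h2, h1]
    push_cast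
    ring
  refine colour_of_good_pq R hP hq h2q (good_of_conn_bound _ _ (connS_univ R hP) w ?_ w3
    (by omega) ?_)
  · intro f
    rw [card_cut_eq]
    exact w2 f
  · intro Z hZ1 hZ2 hn1 hn2
    have hconn : ∀ Y : Finset R.Face, cut s t Y = ∅ → Y = ∅ ∨ Y = univ := by
      intro Y hY
      refine R.cut_zero hP.1 ?_
      rw [← card_cut_eq]
      exact card_eq_zero.2 hY
    have hcut0 : (cut s t Z).Nonempty := by
      by_contra hcon
      rw [not_nonempty_iff_eq_empty] at hcon
      rcases hconn Z hcon with h | h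
      · rw [h] at hn1
        exact not_nonempty_empty hn1
      · rw [h, compl_univ] at hn2
        exact not_nonempty_empty hn2
    have hmin : MinCut s t Z := minCut_of_conn_ne s t hZ1 hZ2 hcut0
    show (p : ℤ) * |∑ f ∈ Z, w f| ≤ (p - 2 * q : ℕ) * ((cut s t Z).card : ℕ)
    by_cases hsub : ∃ Q ∈ pent G, Q ⊆ img Z
    · -- the boundary is a 5-cycle
      obtain ⟨Q, hQ, hQD⟩ := hsub
      have h1 : cut s t (sd Q) = cut s t Z := by
        refine hmin.2 _ (fun e he => ?_) ?_
        · rw [← himg]
          exact hQD ((hmem Q hQ e).1 he)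
        · rw [← card_pos, hcard5 Q hQ]
          norm_num
      have h2 := hw2 Z (by
        rw [← h1, homI, hsd Q hQ]
        exact hfiveom Q hQ)
      rw [← h1, hcard5 Q hQ]
      have h4 : (p : ℤ) ≤ (p - 2 * q : ℕ) * (5 : ℕ) := by
        push_cast [Nat.cast_sub h2q]
        omega
      nlinarith
    · push Not at hsub
      have h1 := weight_switch s t hconn w w3 (fun e => om e.1.edge) hNw (I.image sd)
        (by
          intro S hS
          obtain ⟨Q, hQ, rfl⟩ := mem_image.1 hS
          exact hcard5 Q (mem_filter.1 hQ).1)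
        (by
          intro S hS
          obtain ⟨Q, hQ, rfl⟩ := mem_image.1 hS
          refine hw2 _ ?_
          rw [homI, hsd Q (mem_filter.1 hQ).1]
          exact hfiveom Q (mem_filter.1 hQ).1)
        (by
          intro S hS S' hS' hne
          obtain ⟨Q, hQ, rfl⟩ := mem_image.1 hS
          obtain ⟨Q', hQ', rfl⟩ := mem_image.1 hS'
          obtain ⟨g1, g2⟩ := mem_filter.1 hQ
          obtain ⟨g3, g4⟩ := mem_filter.1 hQ'
          have h2 := hI Q g1 g2 Q' g3 (fun h => hne (by rw [h]))
          rw [Finset.disjoint_left] at h2 ⊢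
          intro e he he'
          have h5 := (hmem Q g1 e).1 he
          have h6 := (hmem Q' g3 e).1 he'
          exact h2 (a := e.1.fst) (mem_filter.2 ⟨mem_univ _, _, h5, Sym2.mem_mk_left _ _⟩)
            (mem_filter.2 ⟨mem_univ _, _, h6, Sym2.mem_mk_left _ _⟩))
        (by
          intro S hS e he
          obtain ⟨Q, hQ, rfl⟩ := mem_image.1 hS
          exact hIom Q hQ _ ((hmem Q (mem_filter.1 hQ).1 e).1 he)) Z hmin
      have h2 : ((I.image sd).filter fun S => (cut s t Z ∩ cut s t S).card = 4).card =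
          (I.filter fun Q => (Q ∩ img Z).card = 4).card := by
        rw [filter_image, card_image_of_injOn]
        · congr 1
          refine filter_congr fun Q hQ => ?_
          have hQ1 := (mem_filter.1 hQ).1
          have h4 : (cut s t Z ∩ cut s t (sd Q)).image (fun e : Up G => e.1.edge) =
              Q ∩ img Z := by
            ext f
            rw [mem_image, mem_inter]
            constructor
            · rintro ⟨e, he, rfl⟩
              rw [mem_inter] at he
              exact ⟨(hmem Q hQ1 e).1 he.2, (himg Z e).2 he.1⟩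
            · rintro ⟨h7, h8⟩
              obtain ⟨e, he, rfl⟩ := mem_image.1 h8
              exact ⟨e, mem_inter.2 ⟨he, (hmem Q hQ1 e).2 h7⟩, rfl⟩
          rw [← h4, card_image_of_injOn (hinj _)]
        · intro Q hQ Q' hQ' hQQ
          rw [mem_coe, mem_filter] at hQ hQ'
          rw [← hsd Q (mem_filter.1 hQ.1).1, ← hsd Q' (mem_filter.1 hQ'.1).1, hQQ]
      rw [h2] at h1
      have h4 : ∑ P ∈ pent G, exc (a P) (b P) (pat (x P) (img Z)) ≤
          2 * ((I.filter fun Q => (Q ∩ img Z).card = 4).card : ℤ) := by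
        have e1 : (I.filter fun Q => (Q ∩ img Z).card = 4).card =
            ∑ P ∈ pent G, if ¬ A P ∧ (P ∩ img Z).card = 4 then 1 else 0 := by
          rw [hIdef, filter_filter, card_filter]
        rw [e1]
        push_cast
        rw [mul_sum]
        refine sum_le_sum fun P hP => ?_
        have h5 : (univ.filter fun i => pat (x P) (img Z) i = true).card = (P ∩ img Z).card := by
          rw [hx2 P hP, card_pat (hx1 P hP).1, ← hx2 P hP]
        have h6 : (P ∩ img Z).card ≤ 4 := by
          by_contra hcon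
          have h7 := card_le_card (inter_subset_left (s₁ := P) (s₂ := img Z))
          have h8 := hcard5' P hP
          have h9 := eq_of_subset_of_card_le (inter_subset_left (s₁ := P) (s₂ := img Z))
            (by omega)
          exact hsub P hP (h9 ▸ inter_subset_right)
        rw [ha, hb]
        by_cases hAP : A P
        · simp only [hAP, if_true, not_true_eq_false, false_and, if_false, mul_zero]
          exact excA_le _ (by rw [h5]; exact h6)
        · simp only [hAP, if_false, not_false_eq_true, true_and]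
          have h7 := excI_le (pat (x P) (img Z)) (by rw [h5]; exact h6)
          rw [h5] at h7
          exact h7
      have h5 : ∑ e ∈ cut s t Z, om e.1.edge = β * (cut s t Z).card + (2 / 5 - β) / 2 *
          ((∑ P ∈ pent G, exc (a P) (b P) (pat (x P) (img Z)) : ℤ) : ℝ) := by
        rw [homI, hsumD (img Z) (himgG Z) (deg_cut R hdeg Z), himgc]
      rw [h5] at h1
      have h6 : ((∑ P ∈ pent G, exc (a P) (b P) (pat (x P) (img Z)) : ℤ) : ℝ) ≤
          2 * ((I.filter fun Q => (Q ∩ img Z).card = 4).card : ℝ) := by exact_mod_cast h4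
      have h7 : |((∑ f ∈ Z, w f : ℤ) : ℝ)| ≤ β * (cut s t Z).card := by
        have h8 : (2 / 5 - β) / 2 * ((∑ P ∈ pent G, exc (a P) (b P) (pat (x P) (img Z)) : ℤ) : ℝ) ≤
            (2 / 5 - β) / 2 * (2 * ((I.filter fun Q => (Q ∩ img Z).card = 4).card : ℝ)) :=
          mul_le_mul_of_nonneg_left h6 (by linarith)
        have h9 : (2 / 5 - β) / 2 * (2 * ((I.filter fun Q => (Q ∩ img Z).card = 4).card : ℝ)) ≤
            1 / 5 * ((I.filter fun Q => (Q ∩ img Z).card = 4).card : ℝ) := by
          have h10 : (0 : ℝ) ≤ ((I.filter fun Q => (Q ∩ img Z).card = 4).card : ℝ) :=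
            Nat.cast_nonneg _
          nlinarith
        linarith
      have h8 : (p : ℝ) * |((∑ f ∈ Z, w f : ℤ) : ℝ)| ≤ ((p - 2 * q : ℕ) : ℝ) *
          ((cut s t Z).card : ℕ) := by
        have h9 := mul_le_mul_of_nonneg_left h7 hpR.le
        have h10 : (p : ℝ) * (β * (cut s t Z).card) =
            ((p - 2 * q : ℕ) : ℝ) * ((cut s t Z).card : ℕ) := by
          rw [← mul_assoc, mul_comm (p : ℝ) β, hβp, Nat.cast_sub h2q]
          push_cast
          ring
        rwa [h10] at h9
      exact_mod_cast h8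

end Pool.Agent.OddFlow
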