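import Mathlib
import Pool.Agent.Work.MP_392c8e_co_odd.TreeChg
import Pool.Agent.Work.MP_392c8e_co_odd.PlaneC

/-!
# Colourings of plane graphs from weights of the pairs of odd faces
-/

namespace Pool.Agent.OddFlow

open Finset Pool.Agent.Circ Pool.Agent.Sub392

set_option linter.unusedSectionVars false

variable {V : Type} [Fintype V] [DecidableEq V] {G : SimpleGraph V} [DecidableRel G.Adj]

/-- The number of odd faces is even. -/
theorem even_card_odd (R : Rot G) : Even R.odd.card := by
  classical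
  have h1 : ∑ f, (R.cut {f} : ℕ) = 2 * (univ.filter fun e : Up G => R.face e.1 ≠
      R.face e.1.symm).card := by
    have h := handshake (fun e : Up G => R.face e.1) (fun e : Up G => R.face e.1.symm)
    simp only [card_cut_eq] at h
    exact h
  have h2 : ∀ f, R.cut {f} % 2 = if f ∈ R.odd then 1 else 0 := by
    intro f
    have h3 : f ∈ R.odd ↔ Odd (R.cut {f}) := by
      have h4 := oddV_eq R
      have h5 : f ∈ oddV (fun e : Up G => R.face e.1) (fun e : Up G => R.face e.1.symm) ↔
          Odd (R.cut {f}) := by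
        rw [oddV, mem_filter, card_cut_eq]
        exact and_iff_right (mem_univ _)
      rw [← h4]
      exact h5
    split_ifs with h4
    · exact Nat.odd_iff.1 (h3.1 h4)
    · rw [h3, Nat.not_odd_iff_even] at h4
      exact Nat.even_iff.1 h4
  have h3 : (∑ f, (R.cut {f} : ℕ)) % 2 = R.odd.card % 2 := by
    rw [Finset.sum_nat_mod, sum_congr rfl fun f _ => h2 f, sum_ite_mem, univ_inter, sum_const,
      smul_eq_mul, mul_one]
  rw [Nat.even_iff]
  omega

/-- **Weights of the pairs of odd faces.**  Let `x f g ≥ 0` be weights of the pairs of odd faces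
such that for every partition of the odd faces the pairs of faces in different classes have total
weight at least the number of classes minus one.  Then the odd faces have odd integral charges
with sum `0` such that the charge of every set of faces is at most the total weight of the
separated pairs. -/
theorem charges_of_tree (R : Rot G) (x : R.Face → R.Face → ℝ) (h0 : ∀ f g, 0 ≤ x f g)
    (hx : ∀ κ : R.Face → ℕ, ((R.odd.image κ).card : ℝ) - 1 ≤
      ∑ f ∈ R.odd, ∑ g ∈ R.odd, if κ f ≠ κ g then x f g else 0) :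
    ∃ w : R.Face → ℤ, (∀ f, f ∉ R.odd → w f = 0) ∧ (∀ f ∈ R.odd, Odd (w f)) ∧
      (∑ f, w f = 0) ∧
      ∀ S : Finset R.Face, |((∑ f ∈ S, w f : ℤ) : ℝ)| ≤
        ∑ f ∈ S ∩ R.odd, ∑ g ∈ R.odd \ S, (x f g + x g f) := by
  classical
  set U := {f : R.Face // f ∈ R.odd} with hU
  obtain ⟨w, hw1, hw2, hw3⟩ := exists_chg_tree (fun e : U × U => e.1) (fun e : U × U => e.2)
    (fun e => x e.1.1 e.2.1) (fun e => h0 _ _) (by
      intro p
      set κ : R.Face → ℕ := fun f => if h : f ∈ R.odd then p ⟨f, h⟩ else 0 with hκ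
      have hκ1 : ∀ u : U, κ u.1 = p u := fun u => by
        rw [hκ]
        exact dif_pos u.2
      have h1 := hx κ
      have h2 : R.odd.image κ = univ.image p := by
        ext n
        simp only [mem_image, mem_univ, true_and]
        constructor
        · rintro ⟨f, hf, rfl⟩
          exact ⟨⟨f, hf⟩, (hκ1 ⟨f, hf⟩).symm⟩
        · rintro ⟨u, rfl⟩
          exact ⟨u.1, u.2, hκ1 u⟩
      rw [h2] at h1
      refine h1.trans (le_of_eq ?_)
      rw [sum_filter, ← univ_product_univ, sum_product,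
        ← Finset.sum_coe_sort R.odd fun f => ∑ g ∈ R.odd, if κ f ≠ κ g then x f g else 0]
      refine sum_congr rfl fun u _ => ?_
      rw [← Finset.sum_coe_sort R.odd fun g => if κ u.1 ≠ κ g then x u.1 g else 0]
      refine sum_congr rfl fun u' _ => ?_
      simp only [hκ1]) (fun _ => 1) (by
      have h1 := even_card_odd R
      rw [sum_const, card_univ, Fintype.card_coe, nsmul_eq_mul, mul_one]
      exact_mod_cast h1)
  have hext : ∀ S : Finset R.Face, ∑ f ∈ S, (if h : f ∈ R.odd then w ⟨f, h⟩ else 0) =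
      ∑ u ∈ univ.filter (fun u : U => u.1 ∈ S), w u := by
    intro S
    rw [sum_filter, ← Finset.sum_filter_add_sum_filter_not S (fun f => f ∈ R.odd)]
    have h1 : ∑ f ∈ S.filter (fun f => ¬ f ∈ R.odd),
        (if h : f ∈ R.odd then w ⟨f, h⟩ else 0) = 0 :=
      sum_eq_zero fun f hf => dif_neg (mem_filter.1 hf).2
    rw [h1, add_zero]
    have h2 : ∑ u : U, (if u.1 ∈ S then w u else 0) =
        ∑ f ∈ R.odd, (if f ∈ S then (if h : f ∈ R.odd then w ⟨f, h⟩ else 0) else 0) := by
      rw [← Finset.sum_coe_sort R.odd fun f =>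
        (if f ∈ S then (if h : f ∈ R.odd then w ⟨f, h⟩ else 0) else 0)]
      refine sum_congr rfl fun u _ => ?_
      rw [dif_pos u.2]
    rw [h2, ← sum_filter]
    refine sum_congr ?_ fun _ _ => rfl
    ext f
    simp only [mem_filter]
    exact and_comm
  refine ⟨fun f => if h : f ∈ R.odd then w ⟨f, h⟩ else 0, fun f hf => dif_neg hf, ?_, ?_, ?_⟩
  · intro f hf
    have h1 := hw1 ⟨f, hf⟩
    show Odd (if h : f ∈ R.odd then w ⟨f, h⟩ else 0)
    rw [dif_pos hf, Int.odd_iff]
    omega
  · rw [hext]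
    have h1 : (univ.filter fun u : U => u.1 ∈ (univ : Finset R.Face)) = univ := by
      ext u
      simp
    rw [h1, hw2]
  · intro S
    rw [hext]
    refine (hw3 _).trans (le_of_eq ?_)
    have h1 : cut (fun e : U × U => e.1) (fun e : U × U => e.2)
        (univ.filter fun u : U => u.1 ∈ S) =
        univ.filter fun e : U × U => ¬ (e.1.1 ∈ S ↔ e.2.1 ∈ S) := by
      ext e
      simp [cut]
    rw [h1, sum_filter, ← univ_product_univ, sum_product]
    have h2 : ∀ F : R.Face → R.Face → ℝ, ∑ u : U, ∑ u' : U, F u.1 u'.1 =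
        ∑ f ∈ R.odd, ∑ g ∈ R.odd, F f g := by
      intro F
      rw [← Finset.sum_coe_sort R.odd fun f => ∑ g ∈ R.odd, F f g]
      refine sum_congr rfl fun u _ => ?_
      rw [← Finset.sum_coe_sort R.odd fun g => F u.1 g]
    rw [h2 fun f g => if ¬ (f ∈ S ↔ g ∈ S) then x f g else 0]
    have h3 : ∀ f g : R.Face, (if ¬ (f ∈ S ↔ g ∈ S) then x f g else 0) =
        (if f ∈ S then (if g ∉ S then x f g else 0) else 0) +
          (if g ∈ S then (if f ∉ S then x f g else 0) else 0) := by
      intro f g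
      by_cases h4 : f ∈ S <;> by_cases h5 : g ∈ S <;> simp [h4, h5]
    have h4 : ∀ F : R.Face → R.Face → ℝ, ∑ f ∈ S ∩ R.odd, ∑ g ∈ R.odd \ S, F f g =
        ∑ f ∈ R.odd, ∑ g ∈ R.odd, (if f ∈ S then (if g ∉ S then F f g else 0) else 0) := by
      intro F
      rw [inter_comm, ← filter_mem_eq_inter, sum_filter]
      refine sum_congr rfl fun f _ => ?_
      split_ifs with h5
      · rw [← filter_notMem_eq_sdiff, sum_filter]
      · exact (sum_const_zero).symm
    rw [h4]
    simp only [h3, sum_add_distrib]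
    have h5 : ∑ f ∈ R.odd, ∑ g ∈ R.odd, (if g ∈ S then (if f ∉ S then x f g else 0) else 0) =
        ∑ f ∈ R.odd, ∑ g ∈ R.odd, (if f ∈ S then (if g ∉ S then x g f else 0) else 0) :=
      sum_comm
    rw [h5, ← sum_add_distrib]
    refine sum_congr rfl fun f _ => ?_
    rw [← sum_add_distrib]
    refine sum_congr rfl fun g _ => ?_
    by_cases h4 : f ∈ S <;> by_cases h5 : g ∈ S <;> simp [h4, h5]

/-- **Colourings from weights of the pairs of odd faces.** -/
theorem plane_tree (R : Rot G) (hP : R.Plane) {p q : ℕ} (hq : 1 ≤ q) (h2q : 2 * q ≤ p)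
    (x : R.Face → R.Face → ℝ) (h0 : ∀ f g, 0 ≤ x f g)
    (hx : ∀ κ : R.Face → ℕ, ((R.odd.image κ).card : ℝ) - 1 ≤
      ∑ f ∈ R.odd, ∑ g ∈ R.odd, if κ f ≠ κ g then x f g else 0)
    (m : R.Face → ℕ)
    (hm : ∀ f ∈ R.odd, ∀ j : ℕ, Odd j → (j : ℝ) ≤ ∑ g ∈ R.odd \ {f}, (x f g + x g f) → j ≤ m f)
    (hcrit : ∀ (v : V) (c : G.Walk v v) (S : Finset R.Face) (j : ℕ), c.IsCycle → Side R c S →
      Even (j + c.length) → (j : ℝ) ≤ ∑ f ∈ S ∩ R.odd, ∑ g ∈ R.odd \ S, (x f g + x g f) →
      j ≤ ∑ f ∈ S ∩ R.odd, m f → j ≤ ∑ f ∈ R.odd \ S, m f →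
      p * j ≤ (p - 2 * q) * c.length) :
    ∃ c : V → ℕ, (∀ v, c v < p) ∧
      ∀ u v, G.Adj u v → (q : ℤ) ≤ |(c u : ℤ) - c v| ∧ |(c u : ℤ) - c v| ≤ p - q := by
  classical
  obtain ⟨w, hw1, hw2, hw3, hw4⟩ := charges_of_tree R x h0 hx
  have hpar : ∀ f, (2 : ℤ) ∣ w f - (R.cut {f} : ℤ) := by
    intro f
    have h3 : f ∈ R.odd ↔ Odd (R.cut {f}) := by
      have h4 := oddV_eq R
      have h5 : f ∈ oddV (fun e : Up G => R.face e.1) (fun e : Up G => R.face e.1.symm) ↔
          Odd (R.cut {f}) := by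
        rw [oddV, mem_filter, card_cut_eq]
        exact and_iff_right (mem_univ _)
      rw [← h4]
      exact h5
    by_cases hf : f ∈ R.odd
    · have h4 := hw2 f hf
      have h5 := h3.1 hf
      rw [Int.odd_iff] at h4
      rw [Nat.odd_iff] at h5
      omega
    · have h4 := hw1 f hf
      rw [h3, Nat.not_odd_iff_even, Nat.even_iff] at hf
      rw [h4]
      omega
  have hparS : ∀ S : Finset R.Face, (2 : ℤ) ∣ ∑ f ∈ S, w f - (R.cut S : ℤ) := by
    intro S
    have h1 := chg_parity (fun e : Up G => R.face e.1) (fun e : Up G => R.face e.1.symm)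
      (w := w) (fun f => by rw [card_cut_eq]; exact hpar f) S
    rwa [card_cut_eq] at h1
  have hwm : ∀ f ∈ R.odd, |w f| ≤ m f := by
    intro f hf
    have h1 : Odd (w f).natAbs := by
      have := hw2 f hf
      exact Int.natAbs_odd.2 this
    have h2 := hw4 {f}
    have h3 : ({f} : Finset R.Face) ∩ R.odd = {f} := by
      rw [inter_eq_left, singleton_subset_iff]
      exact hf
    rw [sum_singleton, h3, sum_singleton] at h2
    have h4 := hm f hf _ h1 (by
      rw [Nat.cast_natAbs]
      push_cast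
      exact h2)
    rw [Int.abs_eq_natAbs]
    exact_mod_cast h4
  have hsum : ∀ S : Finset R.Face, |∑ f ∈ S, w f| ≤ ((∑ f ∈ S ∩ R.odd, m f : ℕ) : ℤ) := by
    intro S
    have h1 : ∑ f ∈ S, w f = ∑ f ∈ S ∩ R.odd, w f := by
      refine (Finset.sum_subset inter_subset_left fun f hf h2 => hw1 f fun h3 => h2 ?_).symm
      exact mem_inter.2 ⟨hf, h3⟩
    rw [h1]
    refine (Finset.abs_sum_le_sum_abs _ _).trans ?_
    push_cast
    exact Finset.sum_le_sum fun f hf => hwm f (mem_inter.1 hf).2
  refine plane_of_charges R hP hq h2q w hpar hw3 fun v c S hc hside => ?_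
  have hlen := length_of_side R hc hside
  have h1 := hcrit v c S (∑ f ∈ S, w f).natAbs hc hside (by
      have h2 := hparS S
      rw [← hlen] at h2
      rw [Nat.even_iff]
      omega) (by
      rw [Nat.cast_natAbs]
      push_cast
      have := hw4 S
      push_cast at this
      exact this) (by
      have h2 := hsum S
      rw [Int.abs_eq_natAbs] at h2
      exact_mod_cast h2) (by
      have h2 := hsum Sᶜ
      have h3 := Finset.sum_add_sum_compl S w
      have h4 : ∑ f ∈ Sᶜ, w f = -∑ f ∈ S, w f := by omega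
      rw [h4, abs_neg, Int.abs_eq_natAbs] at h2
      have h5 : R.odd \ S = Sᶜ ∩ R.odd := by
        ext f
        simp only [mem_sdiff, mem_inter, mem_compl]
        exact and_comm
      rw [h5]
      exact_mod_cast h2)
  rw [Int.abs_eq_natAbs]
  exact_mod_cast h1

end Pool.Agent.OddFlow
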